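import Mathlib

/-! Definitions used in the statement: the predual of a von Neumann algebra, the operator space
structure of the dual `M_k(M^*) = CB(M, M_k)`, and the matrix norms of the operator Hilbert space `OH`. -/

set_option autoImplicit false

namespace Pool.Agent.OHP

open scoped InnerProductSpace

/-- complex `l × l` matrices -/
abbrev Mat (l : ℕ) : Type := Matrix (Fin l) (Fin l) ℂ

/-- the matrix `X` of bounded operators has norm at most `C` as an operator on `H^l` -/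
def MatBound {F : Type} [NormedAddCommGroup F] [InnerProductSpace ℂ F] {l : ℕ}
    (X : Fin l → Fin l → (F →L[ℂ] F)) (C : ℝ) : Prop :=
  ∀ ξ η : Fin l → F, ‖∑ p, ∑ q, ⟪η p, X p q (ξ q)⟫_ℂ‖ ≤
    C * (√(∑ p, ‖η p‖ ^ 2) * √(∑ q, ‖ξ q‖ ^ 2))

/-- the vector functional `x ↦ ⟪η, x ξ⟫` on a von Neumann algebra `M` -/
noncomputable def vecFun {H : Type} [NormedAddCommGroup H] [InnerProductSpace ℂ H]
    [CompleteSpace H] (M : VonNeumannAlgebra H) (η ξ : H) : M.toStarSubalgebra →L[ℂ] ℂ :=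
  LinearMap.mkContinuous
    { toFun := fun x => ⟪η, (x : H →L[ℂ] H) ξ⟫_ℂ
      map_add' := fun x y => by simp [inner_add_right]
      map_smul' := fun c x => by simp [inner_smul_right] }
    (‖η‖ * ‖ξ‖) (fun x => by
      calc ‖⟪η, (x : H →L[ℂ] H) ξ⟫_ℂ‖ ≤ ‖η‖ * ‖(x : H →L[ℂ] H) ξ‖ := norm_inner_le_norm _ _
        _ ≤ ‖η‖ * (‖(x : H →L[ℂ] H)‖ * ‖ξ‖) :=
            mul_le_mul_of_nonneg_left ((x : H →L[ℂ] H).le_opNorm ξ) (norm_nonneg _)
        _ = ‖η‖ * ‖ξ‖ * ‖x‖ := by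
            rw [show ‖x‖ = ‖(x : H →L[ℂ] H)‖ from rfl]; ring)

/-- the predual `M_*` of a von Neumann algebra as a subspace of the dual `M^*`: the norm closure of
the linear span of the vector functionals -/
noncomputable def predual {H : Type} [NormedAddCommGroup H] [InnerProductSpace ℂ H]
    [CompleteSpace H] (M : VonNeumannAlgebra H) : Submodule ℂ (M.toStarSubalgebra →L[ℂ] ℂ) :=
  (Submodule.span ℂ (Set.range fun p : H × H => vecFun M p.1 p.2)).topologicalClosure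

open scoped Matrix.Norms.L2Operator in
/-- `‖f‖ ≤ C` in `M_k(M^*) = CB(M, M_k)`: for all `l`, all `x` in the unit ball of `M_l(M)`
(norm of operators on `H^l`) the matrix `[f_ab(x_pq)]` has operator norm at most `C` -/
def DualLe {H : Type} [NormedAddCommGroup H] [InnerProductSpace ℂ H]
    [CompleteSpace H] (M : VonNeumannAlgebra H) {k : ℕ}
    (f : Fin k → Fin k → (M.toStarSubalgebra →L[ℂ] ℂ)) (C : ℝ) : Prop :=
  ∀ (l : ℕ) (x : Fin l → Fin l → M.toStarSubalgebra),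
    MatBound (fun p q => (x p q : H →L[ℂ] H)) 1 →
    ‖(Matrix.of fun pa qb : Fin l × Fin k => f pa.2 qb.2 (x pa.1 qb.1))‖ ≤ C

open scoped Matrix.Norms.L2Operator in
/-- the norm of `M_k(OH)` on a `k × k` matrix `v` with entries in `ℓ²`:
`‖[⟪v_bd, v_ac⟫]_{(a,b),(c,d)}‖^{1/2}`, i.e. `‖∑ x_i ⊗ conj x_i‖^{1/2}` for `v = ∑ x_i ⊗ e_i` -/
noncomputable def ohNorm {k : ℕ} (v : Fin k → Fin k → lp (fun _ : ℕ => ℂ) 2) : ℝ :=
  √‖(Matrix.of fun ab cd : Fin k × Fin k => ⟪v ab.2 cd.2, v ab.1 cd.1⟫_ℂ)‖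

end Pool.Agent.OHP
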