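import Pool.Agent.Helper547.OH.St
import Pool.Agent.Helper547.OH.OHDefs

set_option autoImplicit false

namespace Pool.Agent.OHS

open scoped InnerProductSpace

theorem span_form {H : Type} [NormedAddCommGroup H] [InnerProductSpace ℂ H] [CompleteSpace H]
    (M : VonNeumannAlgebra H) (b : M.toStarSubalgebra →L[ℂ] ℂ)
    (hb : b ∈ Submodule.span ℂ (Set.range fun p : H × H => Pool.Agent.OHP.vecFun M p.1 p.2)) :
    ∃ (n : ℕ) (η ξ : Fin n → H), ∀ x : M.toStarSubalgebra,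
      b x = ∑ i, ⟪η i, (x : H →L[ℂ] H) (ξ i)⟫_ℂ := by
  induction hb using Submodule.span_induction with
  | mem b hb =>
    obtain ⟨⟨η, ξ⟩, rfl⟩ := hb
    exact ⟨1, fun _ => η, fun _ => ξ, fun x => by
      simp [Pool.Agent.OHP.vecFun]⟩
  | zero => exact ⟨0, fun _ => 0, fun _ => 0, fun x => by simp⟩
  | add b c _ _ hb hc =>
    obtain ⟨n, η, ξ, h⟩ := hb
    obtain ⟨n', η', ξ', h'⟩ := hc
    refine ⟨n + n', Fin.append η η', Fin.append ξ ξ', fun x => ?_⟩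
    rw [Fin.sum_univ_add]
    simp [h x, h' x]
  | smul c b _ hb =>
    obtain ⟨n, η, ξ, h⟩ := hb
    refine ⟨n, η, fun i => c • ξ i, fun x => ?_⟩
    simp [h x, Finset.mul_sum]

theorem conv_predual {H : Type} [NormedAddCommGroup H] [InnerProductSpace ℂ H] [CompleteSpace H]
    (M : VonNeumannAlgebra H) (f : M.toStarSubalgebra →L[ℂ] ℂ)
    (hf : f ∈ Pool.Agent.OHP.predual M) :
    InPredual M (fun x => f ⟨(x : H →L[ℂ] H), x.2⟩) := by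
  intro ε hε
  have hv : f ∈ closure ((Submodule.span ℂ (Set.range fun p : H × H =>
      Pool.Agent.OHP.vecFun M p.1 p.2) : Submodule ℂ (M.toStarSubalgebra →L[ℂ] ℂ)) :
      Set (M.toStarSubalgebra →L[ℂ] ℂ)) := hf
  obtain ⟨b, hb, hd⟩ := Metric.mem_closure_iff.mp hv ε hε
  obtain ⟨n, η, ξ, h⟩ := span_form M b hb
  refine ⟨n, η, ξ, fun x => ?_⟩
  have hd' : ‖f - b‖ < ε := by rw [← dist_eq_norm]; exact hd
  have h3 := (f - b).le_opNorm (⟨(x : H →L[ℂ] H), x.2⟩ : M.toStarSubalgebra)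
  have h4 : (f - b) (⟨(x : H →L[ℂ] H), x.2⟩ : M.toStarSubalgebra) =
      f ⟨(x : H →L[ℂ] H), x.2⟩ - ∑ i, ⟪η i, (x : H →L[ℂ] H) (ξ i)⟫_ℂ :=
    congrArg (fun z => f ⟨(x : H →L[ℂ] H), x.2⟩ - z) (h ⟨(x : H →L[ℂ] H), x.2⟩)
  have h5 : ‖f ⟨(x : H →L[ℂ] H), x.2⟩ - ∑ i, ⟪η i, (x : H →L[ℂ] H) (ξ i)⟫_ℂ‖ ≤
      ‖f - b‖ * ‖(x : H →L[ℂ] H)‖ := h4 ▸ h3
  exact h5.trans (mul_le_mul_of_nonneg_right hd'.le (norm_nonneg _))

end Pool.Agent.OHS
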