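import Pool.Agent.Helper547.OH.OHDefs

/-! Definitions for the completely isometric embedding of OH into a von Neumann algebra predual. -/

set_option autoImplicit false

namespace Pool.Agent.OHP

open scoped InnerProductSpace ComplexConjugate ComplexOrder
open Finset

section ops
variable {F : Type} [NormedAddCommGroup F] [InnerProductSpace ℂ F]

/-- the Hilbert space `ℂ^ι ⊗ F` -/
abbrev Hil (ι : Type) [Fintype ι] (F : Type) [NormedAddCommGroup F] : Type := PiLp 2 (fun _ : ι => F)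

/-- the operator `c ⊗ T` on `ℂ^ι ⊗ F` -/
noncomputable def amp {ι : Type} [Fintype ι] (c : Matrix ι ι ℂ) (T : F →L[ℂ] F) :
    Hil ι F →L[ℂ] Hil ι F :=
  ((PiLp.continuousLinearEquiv 2 ℂ (fun _ : ι => F)).symm : (ι → F) →L[ℂ] Hil ι F) ∘L
    (ContinuousLinearMap.pi fun p => ∑ q, c p q • (T ∘L ContinuousLinearMap.proj q)) ∘L
    ((PiLp.continuousLinearEquiv 2 ℂ (fun _ : ι => F)) : Hil ι F →L[ℂ] (ι → F))

theorem amp_apply {ι : Type} [Fintype ι] (c : Matrix ι ι ℂ) (T : F →L[ℂ] F) (ξ : Hil ι F) (p : ι) :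
    (amp c T ξ) p = ∑ q, c p q • T (ξ q) := by
  simp [amp]

/-- the vector `ζ` -/
noncomputable def zeta (m : ℕ) (u w : ℕ → ℝ) (e : ℕ → F) : F :=
  ∑ j ∈ range m, ((√(w j * u j) : ℝ) : ℂ) • e j

/-- the vacuum vector -/
noncomputable def omg (m : ℕ) (w : ℕ → ℝ) (e : ℕ → F) : F :=
  ∑ j ∈ range m, ((√(w j) : ℝ) : ℂ) • e j

/-- A Fock space model for the circular family `X i = h^{1/2} G_i h^{1/2}` with the family of right
multiplications `Y i`. -/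
structure Model [CompleteSpace F] (m : ℕ) (u w : ℕ → ℝ) where
  /-- left operators -/
  X : ℕ → (F →L[ℂ] F)
  /-- right operators -/
  Y : ℕ → (F →L[ℂ] F)
  /-- vacuum components -/
  e : ℕ → F
  /-- right creation isometries -/
  S : ℕ → Bool → ℕ → (F →L[ℂ] F)
  orth : ∀ j j', ⟪e j, e j'⟫_ℂ = if j = j' then 1 else 0
  eS : ∀ j i b j' ξ, ⟪e j, S i b j' ξ⟫_ℂ = 0
  Xe : ∀ i j, X i (e j) = ((√(u j) : ℝ) : ℂ) • S i false j (zeta m u w e)
  Xse : ∀ i j, (star (X i)) (e j) = ((√(u j) : ℝ) : ℂ) • S i true j (zeta m u w e)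
  XS : ∀ i i' b j ξ, X i (S i' b j ξ) = S i' b j (X i ξ) +
    (if i = i' ∧ b = true then ((√(u j) : ℝ) : ℂ) * ⟪zeta m u w e, ξ⟫_ℂ else 0) • e j
  XsS : ∀ i i' b j ξ, (star (X i)) (S i' b j ξ) = S i' b j ((star (X i)) ξ) +
    (if i = i' ∧ b = false then ((√(u j) : ℝ) : ℂ) * ⟪zeta m u w e, ξ⟫_ℂ else 0) • e j
  XO : ∀ i, X i (omg m w e) = Y i (omg m w e)
  XsO : ∀ i, (star (X i)) (omg m w e) = (star (Y i)) (omg m w e)
  comm1 : ∀ i j, X i * Y j = Y j * X i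
  comm2 : ∀ i j, (star (X i)) * Y j = Y j * (star (X i))

end ops

/-- the concrete Fock space: `ℓ²` of words `(j₀; (a₁,j₁), …, (aₙ,jₙ))` -/
abbrev Fk : Type := lp (fun _ : ℕ × List ((ℕ × Bool) × ℕ) => ℂ) 2

section mats
variable {n l : ℕ}

/-- `η(K) = ∑ c_i K c_i^*` -/
noncomputable def et (c : Fin n → Mat l) (K : Mat l) : Mat l := ∑ i, c i * K * (c i).conjTranspose

/-- `η'(K) = ∑ c_i^* K c_i` -/
noncomputable def et' (c : Fin n → Mat l) (K : Mat l) : Mat l := ∑ i, (c i).conjTranspose * K * c i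

/-- the pair `(p,q)` of positive matrices solves the Euler equations with multiplier `lam` -/
structure FixPt (c : Fin n → Mat l) (p q : Mat l) (lam : ℝ) : Prop where
  hp : p.PosDef
  hq : q.PosDef
  lam_pos : 0 < lam
  h1 : et c q⁻¹ = (lam : ℂ) • p ^ 3
  h2 : et' c p⁻¹ = (lam : ℂ) • q ^ 3
  tp : (p ^ 2).trace = 1
  tq : (q ^ 2).trace = 1

/-- the right hand side of the Dyson equation -/
noncomputable def dys (m : ℕ) (u w : ℕ → ℝ) (y : ℝ) (B : Mat l) : Mat l :=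
  ∑ j ∈ range m, ((w j * u j : ℝ) : ℂ) • ((y : ℂ) • (1 : Mat l) + (u j : ℂ) • B)⁻¹

/-- solution of the Dyson equations -/
structure Dyson (m : ℕ) (u w : ℕ → ℝ) (y : ℝ) (c : Fin n → Mat l) (K1 K2 : Mat l) : Prop where
  h1 : K1.PosSemidef
  h2 : K2.PosSemidef
  e1 : K1 = dys m u w y (et c K2)
  e2 : K2 = dys m u w y (et' c K1)

end mats

/-- the grid `u_j = e^{jh}`, `j < m` -/
noncomputable def uu (h : ℝ) (m : ℕ) (j : ℕ) : ℝ := if j < m then Real.exp (j * h) else 0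

/-- the weights `w_j = h u_j^{-2/3}` -/
noncomputable def ww (h : ℝ) (j : ℕ) : ℝ := h * Real.exp (-(2 / 3) * (j * h))

/-- the constant `C₀ = π / sin(π/3) = 2π/√3` -/
noncomputable def C0 : ℝ := 2 * Real.pi / √3

section more
variable {F : Type} [NormedAddCommGroup F] [InnerProductSpace ℂ F]

/-- the elementary tensor `v ⊗ ξ` -/
noncomputable def vec {ι : Type} [Fintype ι] (v : ι → ℂ) (ξ : F) : Hil ι F :=
  WithLp.toLp 2 (fun p => v p • ξ)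

/-- `P1 = (y² + T T^*)⁻¹`, `P2 = (y² + T^* T)⁻¹` -/
structure Resolv {H : Type} [NormedAddCommGroup H] [InnerProductSpace ℂ H] [CompleteSpace H]
    (T : H →L[ℂ] H) (y : ℝ) (P1 P2 : H →L[ℂ] H) : Prop where
  l1 : P1 * (((y ^ 2 : ℝ) : ℂ) • (1 : H →L[ℂ] H) + T * star T) = 1
  r1 : (((y ^ 2 : ℝ) : ℂ) • (1 : H →L[ℂ] H) + T * star T) * P1 = 1
  l2 : P2 * (((y ^ 2 : ℝ) : ℂ) • (1 : H →L[ℂ] H) + star T * T) = 1
  r2 : (((y ^ 2 : ℝ) : ℂ) • (1 : H →L[ℂ] H) + star T * T) * P2 = 1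

/-- `∑ c_i ⊗ X_i` -/
noncomputable def tens {n : ℕ} {ι : Type} [Fintype ι] (c : Fin n → Matrix ι ι ℂ)
    (X : ℕ → (F →L[ℂ] F)) : Hil ι F →L[ℂ] Hil ι F := ∑ i : Fin n, amp (c i) (X i)

/-- the compression of an operator on `ℂ^l ⊗ F` to `ℂ^l ⊗ ξ` -/
noncomputable def comp {l : ℕ} (P : Hil (Fin l) F →L[ℂ] Hil (Fin l) F) (ξ : F) : Mat l :=
  Matrix.of fun p q => ⟪vec (Pi.single p 1) ξ, P (vec (Pi.single q 1) ξ)⟫_ℂ

/-- the operator `1 ⊗ T` on `ℂ^l ⊗ ℂ^l ⊗ F` -/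
noncomputable def blk {l : ℕ} (T : Hil (Fin l) F →L[ℂ] Hil (Fin l) F) :
    Hil (Fin l × Fin l) F →L[ℂ] Hil (Fin l × Fin l) F :=
  ((PiLp.continuousLinearEquiv 2 ℂ (fun _ : Fin l × Fin l => F)).symm :
      (Fin l × Fin l → F) →L[ℂ] Hil (Fin l × Fin l) F) ∘L
    (ContinuousLinearMap.pi fun rp : Fin l × Fin l =>
      (ContinuousLinearMap.proj rp.2 : (Fin l → F) →L[ℂ] F) ∘L
      ((PiLp.continuousLinearEquiv 2 ℂ (fun _ : Fin l => F)) : Hil (Fin l) F →L[ℂ] (Fin l → F)) ∘L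
      T ∘L
      ((PiLp.continuousLinearEquiv 2 ℂ (fun _ : Fin l => F)).symm :
        (Fin l → F) →L[ℂ] Hil (Fin l) F) ∘L
      (ContinuousLinearMap.pi fun q : Fin l =>
        (ContinuousLinearMap.proj (rp.1, q) : (Fin l × Fin l → F) →L[ℂ] F))) ∘L
    ((PiLp.continuousLinearEquiv 2 ℂ (fun _ : Fin l × Fin l => F)) :
      Hil (Fin l × Fin l) F →L[ℂ] (Fin l × Fin l → F))

theorem blk_apply {l : ℕ} (T : Hil (Fin l) F →L[ℂ] Hil (Fin l) F) (ξ : Hil (Fin l × Fin l) F)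
    (r p : Fin l) : (blk T ξ) (r, p) = (T (WithLp.toLp 2 (fun q => ξ (r, q)))) p := by
  rfl

end more

/-- the amplitude `a = C₀^{3/4} λ^{-1/4}` of the bulk solution -/
noncomputable def aa (lam : ℝ) : ℝ := C0 ^ ((3 / 4 : ℝ)) * lam ^ (-(1 / 4) : ℝ)

/-- mesh at level `N` -/
noncomputable def hN (N : ℕ) : ℝ := 1 / ((N : ℝ) + 1)

/-- number of grid points at level `N` -/
def mN (N : ℕ) : ℕ := (N + 1) ^ 3

/-- normalisation constant at level `N` -/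
noncomputable def kap (N : ℕ) : ℝ :=
  (4 / (3 * Real.pi) * C0 ^ ((3 / 2 : ℝ)) * ((N : ℝ) + 1) ^ 2)⁻¹

/-- `Φ_c(x) = ∑ c_i(s,r) φ_i(x_rs)` where `φ_i(x) = ⟪et i, x (xi i)⟫` -/
noncomputable def Phi {H : Type} [NormedAddCommGroup H] [InnerProductSpace ℂ H] {n l : ℕ}
    (xi et : ℕ → H) (c : Fin n → Mat l) (x : Fin l → Fin l → (H →L[ℂ] H)) : ℂ :=
  ∑ r, ∑ s, ∑ i : Fin n, c i s r * ⟪et i, x r s (xi i)⟫_ℂ

/-- the two properties of the limit object -/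
structure LimObj {H : Type} [NormedAddCommGroup H] [InnerProductSpace ℂ H] [CompleteSpace H]
    (A : StarSubalgebra ℂ (H →L[ℂ] H)) (xi et : ℕ → H) : Prop where
  up : ∀ (n l : ℕ) (c : Fin n → Mat l) (p q : Mat l) (lam : ℝ), FixPt c p q lam →
    ∀ x : Fin l → Fin l → (H →L[ℂ] H),
      (∀ r s, x r s ∈ Set.centralizer (Set.centralizer (A : Set (H →L[ℂ] H)))) →
      MatBound x 1 → ‖Phi xi et c x‖ ≤ √lam
  low : ∀ (n l : ℕ) (c : Fin n → Mat l) (p q : Mat l) (lam : ℝ), FixPt c p q lam →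
    ∀ ε > 0, ∃ x : Fin l → Fin l → (H →L[ℂ] H), (∀ r s, x r s ∈ A) ∧ MatBound x 1 ∧
      √lam - ε ≤ (Phi xi et c x).re

/-- Hilbert-Schmidt norm -/
noncomputable def hs {l k : ℕ} (a : Matrix (Fin l) (Fin k) ℂ) : ℝ := √(∑ i, ∑ j, ‖a i j‖ ^ 2)

/-- `‖∑ a_i ⊗ conj a_i‖ ≤ D` written with test matrices -/
def KB {n k : ℕ} (a : Fin n → Mat k) (D : ℝ) : Prop :=
  ∀ x y : Mat k, ‖(∑ i, x * (a i).transpose * y * (a i).map (starRingEnd ℂ)).trace‖ ≤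
    D * (hs x * hs y)

/-- `c` together with the extra letters `e • E_rs` -/
noncomputable def cext {n l : ℕ} (c : Fin n → Mat l) (e : ℝ) : Fin (n + l * l) → Mat l :=
  Fin.append c (fun j => (e : ℂ) • Matrix.single (finProdFinEquiv.symm j).1
    (finProdFinEquiv.symm j).2 (1 : ℂ))

end Pool.Agent.OHP
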