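import Pool.Agent.Helper547.OH.Defs

/-! Definitions for the completely isometric embedding of OH into a von Neumann algebra predual. -/

set_option autoImplicit false

namespace Pool.Agent.OHP
open scoped InnerProductSpace ComplexConjugate ComplexOrder
open Finset


open scoped MatrixOrder in
theorem fup_sqrt {l : ℕ} (M : Mat l) (hM : M.PosDef) : ∃ R : Mat l, R.PosDef ∧ R * R = M := by
  have h0 : 0 ≤ M := hM.posSemidef.nonneg
  have h1 : CFC.sqrt M * CFC.sqrt M = M := CFC.sqrt_mul_sqrt_self M h0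
  refine ⟨CFC.sqrt M, ?_, h1⟩
  have h2 : (CFC.sqrt M).PosSemidef := Matrix.nonneg_iff_posSemidef.mp (CFC.sqrt_nonneg M)
  rw [h2.posDef_iff_isUnit]
  have h3 : IsUnit (CFC.sqrt M * CFC.sqrt M) := by
    rw [h1]
    exact hM.isUnit
  exact ((Commute.refl _).isUnit_mul_iff.mp h3).1

theorem fup_hs_nonneg {l k : ℕ} (a : Matrix (Fin l) (Fin k) ℂ) : 0 ≤ hs a := Real.sqrt_nonneg _

theorem fup_hs {l k : ℕ} (a : Matrix (Fin l) (Fin k) ℂ) :
    (a.conjTranspose * a).trace = ((hs a ^ 2 : ℝ) : ℂ) := by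
  unfold hs
  rw [Real.sq_sqrt (by positivity), Matrix.trace]
  simp only [Matrix.diag, Matrix.mul_apply, Matrix.conjTranspose_apply]
  rw [Finset.sum_comm]
  push_cast
  apply Finset.sum_congr rfl
  intro i _
  apply Finset.sum_congr rfl
  intro j _
  exact Complex.conj_mul' (a i j)

theorem fup_main {l k : ℕ} (hl : 0 < l) (V : Matrix (Fin l) (Fin k) ℂ) (hV : hs V ≤ 1) (δ : ℝ)
    (hδ : 0 < δ) : ∃ P : Mat l, P.PosDef ∧ (P ^ 2).trace = 1 ∧
      hs (V.conjTranspose * P⁻¹ * V) ≤ √(1 + l * δ) := by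
  have hMs : (V * V.conjTranspose).PosSemidef := Matrix.posSemidef_self_mul_conjTranspose V
  have hδ1 : (((δ : ℝ) : ℂ) • (1 : Mat l)).PosDef := Matrix.PosDef.one.smul (by exact_mod_cast hδ)
  have hM : (V * V.conjTranspose + ((δ : ℝ) : ℂ) • (1 : Mat l)).PosDef :=
    Matrix.PosDef.posSemidef_add hMs hδ1
  obtain ⟨R, hR, hRR⟩ := fup_sqrt _ hM
  obtain ⟨s2, hs2⟩ : ∃ s2 : ℝ, s2 = hs V ^ 2 + l * δ := ⟨_, rfl⟩
  have hl' : (0:ℝ) < l := by exact_mod_cast hl
  have hs2p : 0 < s2 := by rw [hs2]; positivity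
  have hsq : √s2 * √s2 = s2 := Real.mul_self_sqrt hs2p.le
  have hsp : 0 < √s2 := Real.sqrt_pos.mpr hs2p
  obtain ⟨P, hPdef⟩ : ∃ P : Mat l, P = (((√s2)⁻¹ : ℝ) : ℂ) • R := ⟨_, rfl⟩
  have hP : P.PosDef := by
    rw [hPdef]
    exact hR.smul (by exact_mod_cast inv_pos.mpr hsp)
  have hPP : P * P = ((s2⁻¹ : ℝ) : ℂ) • (V * V.conjTranspose + ((δ : ℝ) : ℂ) • (1 : Mat l)) := by
    rw [hPdef, Matrix.smul_mul, Matrix.mul_smul, smul_smul, hRR]
    congr 1
    rw [← Complex.ofReal_mul, ← mul_inv, hsq]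
  have hs2c : (s2 : ℂ) ≠ 0 := by exact_mod_cast hs2p.ne'
  have hVV : V * V.conjTranspose = (s2 : ℂ) • (P * P) - ((δ : ℝ) : ℂ) • (1 : Mat l) := by
    rw [hPP, smul_smul, Complex.ofReal_inv, mul_inv_cancel₀ hs2c, one_smul, add_sub_cancel_right]
  have htV : (V * V.conjTranspose).trace = ((hs V ^ 2 : ℝ) : ℂ) := by
    rw [Matrix.trace_mul_comm, fup_hs]
  refine ⟨P, hP, ?_, ?_⟩
  · rw [sq, hPP, Matrix.trace_smul, Matrix.trace_add, Matrix.trace_smul, Matrix.trace_one, htV,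
      Fintype.card_fin, Complex.ofReal_inv, smul_eq_mul, smul_eq_mul, inv_mul_eq_one₀ hs2c, hs2]
    push_cast
    ring
  · have hdet : IsUnit P.det := (Matrix.isUnit_iff_isUnit_det P).mp hP.isUnit
    have hi1 : P * P⁻¹ = 1 := Matrix.mul_nonsing_inv P hdet
    have hi2 : P⁻¹ * P = 1 := Matrix.nonsing_inv_mul P hdet
    have hih : P⁻¹.conjTranspose = P⁻¹ := hP.inv.isHermitian.eq
    have hmid : P⁻¹ * (V * V.conjTranspose) * P⁻¹ = (s2 : ℂ) • (1 : Mat l) -
        ((δ : ℝ) : ℂ) • (P⁻¹ * P⁻¹) := by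
      rw [hVV, Matrix.mul_sub, Matrix.sub_mul, Matrix.mul_smul, Matrix.smul_mul, Matrix.mul_smul,
        Matrix.smul_mul, Matrix.mul_one]
      congr 2
      rw [← Matrix.mul_assoc, hi2, Matrix.one_mul, hi1]
    have e1 : (V.conjTranspose * P⁻¹ * V).conjTranspose * (V.conjTranspose * P⁻¹ * V) =
        (s2 : ℂ) • (V.conjTranspose * V) -
          ((δ : ℝ) : ℂ) • ((P⁻¹ * V).conjTranspose * (P⁻¹ * V)) := by
      rw [Matrix.conjTranspose_mul, Matrix.conjTranspose_mul, Matrix.conjTranspose_mul,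
        Matrix.conjTranspose_conjTranspose, hih]
      calc V.conjTranspose * (P⁻¹ * V) * (V.conjTranspose * P⁻¹ * V)
          = V.conjTranspose * (P⁻¹ * (V * V.conjTranspose) * P⁻¹) * V := by
            simp only [Matrix.mul_assoc]
        _ = _ := by
            rw [hmid, Matrix.mul_sub, Matrix.sub_mul, Matrix.mul_smul, Matrix.smul_mul,
              Matrix.mul_smul, Matrix.smul_mul, Matrix.mul_one]
            simp only [Matrix.mul_assoc]
    have e2 : hs (V.conjTranspose * P⁻¹ * V) ^ 2 = s2 * hs V ^ 2 - δ * hs (P⁻¹ * V) ^ 2 := by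
      have h := congrArg Matrix.trace e1
      rw [fup_hs, Matrix.trace_sub, Matrix.trace_smul, Matrix.trace_smul, fup_hs, fup_hs] at h
      simp only [smul_eq_mul] at h
      exact_mod_cast h
    apply Real.le_sqrt_of_sq_le
    rw [e2]
    have h1 : hs V ^ 2 ≤ 1 := by
      have := fup_hs_nonneg V
      nlinarith
    have h2 : 0 ≤ δ * hs (P⁻¹ * V) ^ 2 := by positivity
    have h3 : s2 * hs V ^ 2 ≤ s2 * 1 := mul_le_mul_of_nonneg_left h1 hs2p.le
    linarith

theorem F_up {n k l : ℕ} (hl : 0 < l) (a : Fin n → Mat k) (D : ℝ) (hD : 0 ≤ D) (hK : KB a D)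
    (V W : Matrix (Fin l) (Fin k) ℂ) (hV : hs V ≤ 1) (hW : hs W ≤ 1) (δ : ℝ) (hδ : 0 < δ) :
    ∃ p' q' : Mat l, p'.PosDef ∧ q'.PosDef ∧ (p' ^ 2).trace = 1 ∧ (q' ^ 2).trace = 1 ∧
      ((et (fun i => V * (a i).transpose * W.conjTranspose) q'⁻¹ * p'⁻¹).trace).re ≤
        D * (1 + l * δ) := by
  obtain ⟨P, hP, hPt, hPb⟩ := fup_main hl V hV δ hδ
  obtain ⟨Q, hQ, hQt, hQb⟩ := fup_main hl W hW δ hδ
  refine ⟨P, Q, hP, hQ, hPt, hQt, ?_⟩
  have e : (et (fun i => V * (a i).transpose * W.conjTranspose) Q⁻¹ * P⁻¹).trace =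
      (∑ i, (V.conjTranspose * P⁻¹ * V) * (a i).transpose * (W.conjTranspose * Q⁻¹ * W) *
        (a i).map (starRingEnd ℂ)).trace := by
    unfold et
    rw [Finset.sum_mul, Matrix.trace_sum, Matrix.trace_sum]
    apply Finset.sum_congr rfl
    intro i _
    have h1 : (V * (a i).transpose * W.conjTranspose).conjTranspose =
        W * (a i).map (starRingEnd ℂ) * V.conjTranspose := by
      rw [Matrix.conjTranspose_mul, Matrix.conjTranspose_mul, Matrix.conjTranspose_conjTranspose,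
        ← Matrix.mul_assoc]
      rfl
    rw [h1]
    calc _ = (V * ((a i).transpose * W.conjTranspose * Q⁻¹ * W * (a i).map (starRingEnd ℂ) *
          V.conjTranspose * P⁻¹)).trace := by
            simp only [Matrix.mul_assoc]
      _ = (((a i).transpose * W.conjTranspose * Q⁻¹ * W * (a i).map (starRingEnd ℂ) *
          V.conjTranspose * P⁻¹) * V).trace := Matrix.trace_mul_comm _ _
      _ = (((a i).transpose * (W.conjTranspose * Q⁻¹ * W) * (a i).map (starRingEnd ℂ)) *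
          (V.conjTranspose * P⁻¹ * V)).trace := by simp only [Matrix.mul_assoc]
      _ = ((V.conjTranspose * P⁻¹ * V) * ((a i).transpose * (W.conjTranspose * Q⁻¹ * W) *
          (a i).map (starRingEnd ℂ))).trace := Matrix.trace_mul_comm _ _
      _ = _ := by simp only [Matrix.mul_assoc]
  rw [e]
  refine (Complex.re_le_norm _).trans ((hK _ _).trans ?_)
  have h0 : (0:ℝ) ≤ 1 + l * δ := by positivity
  have h1 : hs (V.conjTranspose * P⁻¹ * V) * hs (W.conjTranspose * Q⁻¹ * W) ≤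
      √(1 + l * δ) * √(1 + l * δ) :=
    mul_le_mul hPb hQb (fup_hs_nonneg _) (Real.sqrt_nonneg _)
  rw [Real.mul_self_sqrt h0] at h1
  exact mul_le_mul_of_nonneg_left h1 hD

end Pool.Agent.OHP
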