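import Pool.Agent.Helper547.OH.Defs

/-! Definitions for the completely isometric embedding of OH into a von Neumann algebra predual. -/

set_option autoImplicit false

namespace Pool.Agent.OHP
open scoped InnerProductSpace ComplexConjugate ComplexOrder
open Finset


theorem hs_entry_le {k : ℕ} (x : Mat k) (i j : Fin k) : ‖x i j‖ ≤ hs x := by
  have h0 : ∀ i' : Fin k, 0 ≤ ∑ j', ‖x i' j'‖ ^ 2 := fun i' => Finset.sum_nonneg fun _ _ => by positivity
  have h1 : ‖x i j‖ ^ 2 ≤ ∑ j', ‖x i j'‖ ^ 2 :=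
    Finset.single_le_sum (f := fun j' => ‖x i j'‖ ^ 2) (fun _ _ => by positivity) (Finset.mem_univ j)
  have h2 : ∑ j', ‖x i j'‖ ^ 2 ≤ ∑ i', ∑ j', ‖x i' j'‖ ^ 2 :=
    Finset.single_le_sum (f := fun i' => ∑ j', ‖x i' j'‖ ^ 2) (fun i' _ => h0 i') (Finset.mem_univ i)
  unfold hs
  exact Real.le_sqrt_of_sq_le (h1.trans h2)

theorem KB_exists {n k : ℕ} (a : Fin n → Mat k) : ∃ N : ℝ, 0 ≤ N ∧ KB a N := by
  refine ⟨∑ p : Fin k, ∑ i : Fin n, ∑ s : Fin k, ∑ r : Fin k, ∑ q : Fin k,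
    ‖a i r q‖ * ‖a i s p‖, ?_, ?_⟩
  · positivity
  · intro x y
    have hx0 : 0 ≤ hs x := Real.sqrt_nonneg _
    have hy0 : 0 ≤ hs y := Real.sqrt_nonneg _
    have e1 : (∑ i, x * (a i).transpose * y * (a i).map (starRingEnd ℂ)).trace =
        ∑ p : Fin k, ∑ i : Fin n, ∑ s : Fin k,
          (∑ r : Fin k, (∑ q : Fin k, x p q * a i r q) * y r s) * (starRingEnd ℂ) (a i s p) := by
      simp only [Matrix.trace, Matrix.diag_apply, Matrix.sum_apply, Matrix.mul_apply,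
        Matrix.transpose_apply, Matrix.map_apply]
    have e2 : (∑ p : Fin k, ∑ i : Fin n, ∑ s : Fin k, ∑ r : Fin k, ∑ q : Fin k,
        ‖a i r q‖ * ‖a i s p‖) * (hs x * hs y) =
        ∑ p : Fin k, ∑ i : Fin n, ∑ s : Fin k,
          (∑ r : Fin k, (∑ q : Fin k, hs x * ‖a i r q‖) * hs y) * ‖a i s p‖ := by
      simp only [Finset.sum_mul]
      refine Finset.sum_congr rfl fun p _ => Finset.sum_congr rfl fun i _ =>
        Finset.sum_congr rfl fun s _ => Finset.sum_congr rfl fun r _ =>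
        Finset.sum_congr rfl fun q _ => ?_
      ring
    rw [e1, e2]
    refine (norm_sum_le _ _).trans (Finset.sum_le_sum fun p _ => ?_)
    refine (norm_sum_le _ _).trans (Finset.sum_le_sum fun i _ => ?_)
    refine (norm_sum_le _ _).trans (Finset.sum_le_sum fun s _ => ?_)
    rw [norm_mul, RCLike.norm_conj]
    refine mul_le_mul_of_nonneg_right ?_ (norm_nonneg _)
    refine (norm_sum_le _ _).trans (Finset.sum_le_sum fun r _ => ?_)
    rw [norm_mul]
    refine mul_le_mul ?_ (hs_entry_le y r s) (norm_nonneg _) (by positivity)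
    refine (norm_sum_le _ _).trans (Finset.sum_le_sum fun q _ => ?_)
    rw [norm_mul]
    exact mul_le_mul_of_nonneg_right (hs_entry_le x p q) (norm_nonneg _)

theorem KB_min {n k : ℕ} (a : Fin n → Mat k) : ∃ N : ℝ, 0 ≤ N ∧ KB a N ∧
    ∀ N', 0 ≤ N' → KB a N' → N ≤ N' := by
  obtain ⟨N0, hN0, hK0⟩ := KB_exists a
  have hne : ({N : ℝ | 0 ≤ N ∧ KB a N}).Nonempty := ⟨N0, hN0, hK0⟩
  have hbd : BddBelow {N : ℝ | 0 ≤ N ∧ KB a N} := ⟨0, fun N hN => hN.1⟩
  refine ⟨sInf {N : ℝ | 0 ≤ N ∧ KB a N}, Real.sInf_nonneg fun N hN => hN.1, ?_, ?_⟩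
  · intro x y
    have hxy : 0 ≤ hs x * hs y := mul_nonneg (Real.sqrt_nonneg _) (Real.sqrt_nonneg _)
    rcases hxy.eq_or_lt with h | h
    · have h1 := hK0 x y
      rw [← h, mul_zero] at h1
      rw [← h, mul_zero]
      exact h1
    · rw [← div_le_iff₀ h]
      refine le_csInf hne ?_
      intro N hN
      rw [div_le_iff₀ h]
      exact hN.2 x y
  · intro N' hN' hK'
    exact csInf_le hbd ⟨hN', hK'⟩

end Pool.Agent.OHP
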