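import Pool.Agent.Helper547.OH.Defs

/-! Definitions for the completely isometric embedding of OH into a von Neumann algebra predual. -/

set_option autoImplicit false

namespace Pool.Agent.OHP
open scoped InnerProductSpace ComplexConjugate ComplexOrder
open Finset

theorem rp_aux {H : Type} [NormedAddCommGroup H] [InnerProductSpace ℂ H] [CompleteSpace H]
    {T : H →L[ℂ] H} {y : ℝ} {P : H →L[ℂ] H}
    (l : P * (((y ^ 2 : ℝ) : ℂ) • (1 : H →L[ℂ] H) + T * star T) = 1)
    (r : (((y ^ 2 : ℝ) : ℂ) • (1 : H →L[ℂ] H) + T * star T) * P = 1) :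
    star P = P ∧ P.IsPositive := by
  have hA : star (((y ^ 2 : ℝ) : ℂ) • (1 : H →L[ℂ] H) + T * star T) =
      ((y ^ 2 : ℝ) : ℂ) • (1 : H →L[ℂ] H) + T * star T := by
    rw [star_add, star_mul, star_star, star_smul, star_one, Complex.star_def, Complex.conj_ofReal]
  have hP : star P = P := by
    have h1 : (((y ^ 2 : ℝ) : ℂ) • (1 : H →L[ℂ] H) + T * star T) * star P = 1 := by
      have := congrArg star l
      rw [star_mul, hA, star_one] at this
      exact this
    calc star P = (P * (((y ^ 2 : ℝ) : ℂ) • (1 : H →L[ℂ] H) + T * star T)) * star P := by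
          rw [l, one_mul]
      _ = P := by rw [mul_assoc, h1, mul_one]
  refine ⟨hP, ?_⟩
  rw [← ContinuousLinearMap.nonneg_iff_isPositive]
  have h2 : P = star P * (((y ^ 2 : ℝ) : ℂ) • (1 : H →L[ℂ] H) + T * star T) * P := by
    rw [mul_assoc, r, mul_one, hP]
  rw [h2]
  apply star_left_conjugate_nonneg
  have h3 : ((y ^ 2 : ℝ) : ℂ) • (1 : H →L[ℂ] H) = star ((y : ℂ) • (1 : H →L[ℂ] H)) * ((y : ℂ) • (1 : H →L[ℂ] H)) := by
    rw [star_smul, star_one, Complex.star_def, Complex.conj_ofReal, smul_mul_smul_comm, one_mul]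
    congr 1
    push_cast
    ring
  rw [h3]
  exact add_nonneg (star_mul_self_nonneg _) (mul_star_self_nonneg _)

theorem resolv_props {H : Type} [NormedAddCommGroup H] [InnerProductSpace ℂ H] [CompleteSpace H]
    {T : H →L[ℂ] H} {y : ℝ} (hy : 0 < y) {P1 P2 : H →L[ℂ] H} (hR : Resolv T y P1 P2) :
    star P1 = P1 ∧ star P2 = P2 ∧ T * P2 = P1 * T ∧ P2 * star T = star T * P1 ∧
      P1.IsPositive ∧ P2.IsPositive := by
  obtain ⟨l1, r1, l2, r2⟩ := hR
  obtain ⟨s1, p1⟩ := rp_aux l1 r1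
  have l2' : P2 * (((y ^ 2 : ℝ) : ℂ) • (1 : H →L[ℂ] H) + star T * star (star T)) = 1 := by
    rw [star_star]; exact l2
  have r2' : (((y ^ 2 : ℝ) : ℂ) • (1 : H →L[ℂ] H) + star T * star (star T)) * P2 = 1 := by
    rw [star_star]; exact r2
  obtain ⟨s2, p2⟩ := rp_aux l2' r2'
  have hcomm : T * (((y ^ 2 : ℝ) : ℂ) • (1 : H →L[ℂ] H) + star T * T) =
      (((y ^ 2 : ℝ) : ℂ) • (1 : H →L[ℂ] H) + T * star T) * T := by
    rw [mul_add, add_mul, mul_smul_comm, smul_mul_assoc, mul_one, one_mul, mul_assoc]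
  have hTP : T * P2 = P1 * T := by
    calc T * P2 = (P1 * (((y ^ 2 : ℝ) : ℂ) • (1 : H →L[ℂ] H) + T * star T)) * (T * P2) := by
          rw [l1, one_mul]
      _ = P1 * ((((y ^ 2 : ℝ) : ℂ) • (1 : H →L[ℂ] H) + T * star T) * T) * P2 := by
          simp only [mul_assoc]
      _ = P1 * T := by
          rw [← hcomm, mul_assoc, mul_assoc T, r2, mul_one]
  refine ⟨s1, s2, hTP, ?_, p1, p2⟩
  have := congrArg star hTP
  rw [star_mul, star_mul, s1, s2] at this
  exact this

end Pool.Agent.OHP
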