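import Pool.Agent.Helper547.OH.Defs

/-! Definitions for the completely isometric embedding of OH into a von Neumann algebra predual. -/

set_option autoImplicit false

namespace Pool.Agent.OHP
open scoped InnerProductSpace ComplexConjugate ComplexOrder
open Finset


/-- the kernel -/
noncomputable def skf (t x : ℝ) : ℝ :=
  (2 / Real.pi) * (Real.exp x * t / (Real.exp x ^ 2 + t ^ 2))
/-- its antiderivative -/
noncomputable def skG (t x : ℝ) : ℝ := (2 / Real.pi) * Real.arctan (Real.exp x / t)

theorem skG_deriv (t : ℝ) (ht : 0 < t) (x : ℝ) : HasDerivAt (skG t) (skf t x) x := by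
  have h1 : HasDerivAt (fun x => Real.exp x / t) (Real.exp x / t) x :=
    (Real.hasDerivAt_exp x).div_const t
  have h2 := (h1.arctan).const_mul (2 / Real.pi)
  refine h2.congr_deriv ?_
  unfold skf
  have h3 : (0:ℝ) < Real.exp x := Real.exp_pos x
  have hp := Real.pi_pos
  have h4 : (0:ℝ) < Real.exp x ^ 2 + t ^ 2 := by positivity
  have h5 : (0:ℝ) < 1 + (Real.exp x / t) ^ 2 := by positivity
  congr 1
  rw [div_mul_div_comm, one_mul, div_eq_div_iff (by positivity) (by positivity)]
  field_simp
  ring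

theorem skf_mono (t : ℝ) (ht : 0 < t) (x y : ℝ) (hxy : x ≤ y) (hy : Real.exp y ≤ t) :
    skf t x ≤ skf t y := by
  unfold skf
  have hx := Real.exp_pos x
  have hy0 := Real.exp_pos y
  have hu := Real.exp_le_exp.mpr hxy
  have hp := Real.pi_pos
  apply mul_le_mul_of_nonneg_left _ (by positivity)
  rw [div_le_div_iff₀ (by positivity) (by positivity)]
  have h1 : Real.exp x * Real.exp y ≤ t * t :=
    mul_le_mul (hu.trans hy) hy hy0.le ht.le
  have h2 : 0 ≤ t * ((Real.exp y - Real.exp x) * (t * t - Real.exp x * Real.exp y)) :=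
    mul_nonneg ht.le (mul_nonneg (by linarith) (by linarith))
  nlinarith [h2]

theorem skf_anti (t : ℝ) (ht : 0 < t) (x y : ℝ) (hxy : x ≤ y) (hx' : t ≤ Real.exp x) :
    skf t y ≤ skf t x := by
  unfold skf
  have hx := Real.exp_pos x
  have hy0 := Real.exp_pos y
  have hu := Real.exp_le_exp.mpr hxy
  have hp := Real.pi_pos
  apply mul_le_mul_of_nonneg_left _ (by positivity)
  rw [div_le_div_iff₀ (by positivity) (by positivity)]
  have h1 : t * t ≤ Real.exp x * Real.exp y :=
    mul_le_mul hx' (hx'.trans hu) ht.le hx.le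
  have h2 : 0 ≤ t * ((Real.exp y - Real.exp x) * (Real.exp x * Real.exp y - t * t)) :=
    mul_nonneg ht.le (mul_nonneg (by linarith) (by linarith))
  nlinarith [h2]

theorem skf_le_one (t : ℝ) (ht : 0 < t) (x : ℝ) : skf t x ≤ 1 := by
  unfold skf
  have hx := Real.exp_pos x
  have hp := Real.pi_gt_three
  have h1 : Real.exp x * t / (Real.exp x ^ 2 + t ^ 2) ≤ 1 / 2 := by
    rw [div_le_div_iff₀ (by positivity) (by norm_num)]
    nlinarith [sq_nonneg (Real.exp x - t)]
  have h2 : 2 / Real.pi ≤ 1 := by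
    rw [div_le_one (by positivity)]
    linarith
  have h3 : (0:ℝ) ≤ 2 / Real.pi := by positivity
  have h4 : 0 ≤ Real.exp x * t / (Real.exp x ^ 2 + t ^ 2) := by positivity
  nlinarith

theorem sk_step (h t : ℝ) (hh : 0 < h) (ht : 0 < t) (x : ℝ) :
    h * skf t (x + h) + h * (if Real.exp x ≤ t then skf t x else 1) ≤
      skG t (x + h) - skG t x + h * (if Real.exp (x + h) ≤ t then skf t (x + h) else 1) := by
  obtain ⟨ξ, hξ, hs⟩ := exists_hasDerivAt_eq_slope (skG t) (skf t) (by linarith : x < x + h)
    (fun y _ => (skG_deriv t ht y).continuousAt.continuousWithinAt) (fun y _ => skG_deriv t ht y)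
  have hG : skG t (x + h) - skG t x = h * skf t ξ := by
    rw [hs, add_sub_cancel_left]
    field_simp
  rw [hG]
  have key : skf t (x + h) + (if Real.exp x ≤ t then skf t x else 1) ≤
      skf t ξ + (if Real.exp (x + h) ≤ t then skf t (x + h) else 1) := by
    by_cases c2 : Real.exp (x + h) ≤ t
    · have c1 : Real.exp x ≤ t := (Real.exp_le_exp.mpr (by linarith)).trans c2
      rw [if_pos c1, if_pos c2]
      have h1 := skf_mono t ht x ξ hξ.1.le ((Real.exp_le_exp.mpr hξ.2.le).trans c2)
      linarith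
    · rw [if_neg c2]
      by_cases c1 : Real.exp x ≤ t
      · rw [if_pos c1]
        rcases le_total (Real.exp ξ) t with c3 | c3
        · have h1 := skf_mono t ht x ξ hξ.1.le c3
          have h2 := skf_le_one t ht (x + h)
          linarith
        · have h1 := skf_anti t ht ξ (x + h) hξ.2.le c3
          have h2 := skf_le_one t ht x
          linarith
      · rw [if_neg c1]
        have h1 := skf_anti t ht ξ (x + h) hξ.2.le
          ((not_le.mp c1).le.trans (Real.exp_le_exp.mpr hξ.1.le))
        linarith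
  nlinarith [mul_le_mul_of_nonneg_left key hh.le]

theorem sk_main (h t : ℝ) (hh : 0 < h) (ht : 0 < t) (a : ℝ) (N : ℕ) :
    ∑ j ∈ range (N + 1), h * skf t (a + j * h) ≤ skG t (a + N * h) - skG t a +
      h * (if Real.exp (a + N * h) ≤ t then skf t (a + N * h) else 1) := by
  induction N with
  | zero =>
    simp only [zero_add, sum_range_one, Nat.cast_zero, zero_mul, add_zero, sub_self]
    apply mul_le_mul_of_nonneg_left _ hh.le
    split_ifs
    · exact le_rfl
    · exact skf_le_one t ht a
  | succ N ih =>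
    rw [sum_range_succ]
    have e : a + ((N + 1 : ℕ) : ℝ) * h = (a + N * h) + h := by push_cast; ring
    have := sk_step h t hh ht (a + N * h)
    rw [e]
    linarith

theorem sech_up (h t : ℝ) (hh : 0 < h) (ht : 0 ≤ t) (A : ℕ) :
    ∑ j ∈ range (2 * A + 1), (2 / Real.pi) * h * Real.exp (((j : ℝ) - A) * h) * t /
      (Real.exp (((j : ℝ) - A) * h) ^ 2 + t ^ 2) ≤ 1 + h := by
  rcases ht.eq_or_lt with h0 | h0
  · subst h0
    simp
    linarith
  · have h1 := sk_main h t hh h0 (-(A:ℝ) * h) (2 * A)
    have e : ∀ j ∈ range (2 * A + 1), (2 / Real.pi) * h * Real.exp (((j : ℝ) - A) * h) * t /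
        (Real.exp (((j : ℝ) - A) * h) ^ 2 + t ^ 2) = h * skf t (-(A:ℝ) * h + j * h) := by
      intro j _
      have e2 : -(A:ℝ) * h + j * h = ((j : ℝ) - A) * h := by ring
      rw [e2]
      unfold skf
      ring
    rw [sum_congr rfl e]
    refine h1.trans ?_
    have hp := Real.pi_pos
    have h2 : skG t (-(A:ℝ) * h + (2 * A : ℕ) * h) ≤ 1 := by
      unfold skG
      have := (Real.arctan_lt_pi_div_two (Real.exp (-(A:ℝ) * h + (2 * A : ℕ) * h) / t)).le
      calc _ ≤ 2 / Real.pi * (Real.pi / 2) := mul_le_mul_of_nonneg_left this (by positivity)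
        _ = 1 := by field_simp
    have h3 : 0 ≤ skG t (-(A:ℝ) * h) := by
      unfold skG
      have : 0 ≤ Real.arctan (Real.exp (-(A:ℝ) * h) / t) := Real.arctan_nonneg.mpr (by positivity)
      positivity
    have h4 : (if Real.exp (-(A:ℝ) * h + (2 * A : ℕ) * h) ≤ t then
        skf t (-(A:ℝ) * h + (2 * A : ℕ) * h) else 1) ≤ 1 := by
      split_ifs
      · exact skf_le_one t h0 _
      · exact le_rfl
    have h5 := mul_le_mul_of_nonneg_left h4 hh.le
    linarith

end Pool.Agent.OHP
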