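import Pool.Agent.Helper547.OH.Defs
import Pool.Agent.Helper547.OH.P_sech_up
import Pool.Agent.Helper547.OH.P_resolv_props

/-! Definitions for the completely isometric embedding of OH into a von Neumann algebra predual. -/

set_option autoImplicit false

namespace Pool.Agent.OHP
open scoped InnerProductSpace ComplexConjugate ComplexOrder
open Finset


theorem V_norm_abs {A : Type} [CStarAlgebra A] (T : A) (N : ℕ) (c y : ℕ → ℝ) (P : ℕ → A)
    (hc : ∀ j, 0 ≤ c j) (hy : ∀ j, 0 < y j)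
    (hP1 : ∀ j, P j * ((((y j) ^ 2 : ℝ) : ℂ) • (1 : A) + star T * T) = 1)
    (hP2 : ∀ j, ((((y j) ^ 2 : ℝ) : ℂ) • (1 : A) + star T * T) * P j = 1) (K : ℝ) (hK : 0 ≤ K)
    (hb : ∀ t : ℝ, 0 ≤ t → ∑ j ∈ range N, c j * t / ((y j) ^ 2 + t ^ 2) ≤ K) :
    ‖∑ j ∈ range N, ((c j : ℝ) : ℂ) • (T * P j)‖ ≤ K := by
  set B : A := star T * T with hB
  have hBs : IsSelfAdjoint B := IsSelfAdjoint.star_mul_self T
  have hsp : ∀ x ∈ spectrum ℝ B, 0 ≤ x := spectrum_star_mul_self_nonneg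
  have hne : ∀ j, ∀ x ∈ spectrum ℝ B, (y j) ^ 2 + x ≠ 0 := fun j x hx => by
    have := hsp x hx
    have := pow_pos (hy j) 2
    linarith
  have hcont : ∀ j, ContinuousOn (fun x : ℝ => ((y j) ^ 2 + x)⁻¹) (spectrum ℝ B) := fun j =>
    ContinuousOn.inv₀ (by fun_prop) (hne j)
  have hPc : ∀ j, P j = cfc (fun x : ℝ => ((y j) ^ 2 + x)⁻¹) B := by
    intro j
    have e1 : cfc (fun x : ℝ => (y j) ^ 2 + x) B = (((y j) ^ 2 : ℝ) : ℂ) • (1 : A) + B := by
      rw [cfc_const_add _ _ _ (by fun_prop) hBs, cfc_id' ℝ B hBs, Algebra.algebraMap_eq_smul_one]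
      congr 1
    have e2 : cfc (fun x : ℝ => (y j) ^ 2 + x) B * cfc (fun x : ℝ => ((y j) ^ 2 + x)⁻¹) B = 1 := by
      rw [← cfc_mul _ _ _ (by fun_prop) (hcont j)]
      have : cfc (fun x : ℝ => ((y j) ^ 2 + x) * ((y j) ^ 2 + x)⁻¹) B = cfc (fun _ : ℝ => (1:ℝ)) B :=
        cfc_congr (fun x hx => mul_inv_cancel₀ (hne j x hx))
      rw [this]
      exact cfc_one ℝ B hBs
    rw [e1] at e2
    calc P j = P j * (((((y j) ^ 2 : ℝ) : ℂ) • (1 : A) + B) *
          cfc (fun x : ℝ => ((y j) ^ 2 + x)⁻¹) B) := by rw [e2, mul_one]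
      _ = cfc (fun x : ℝ => ((y j) ^ 2 + x)⁻¹) B := by rw [← mul_assoc, hP1, one_mul]
  set g : ℝ → ℝ := fun x => ∑ j ∈ range N, c j * ((y j) ^ 2 + x)⁻¹ with hg
  have hgc : ContinuousOn g (spectrum ℝ B) := by
    apply continuousOn_finsetSum
    intro j _
    exact continuousOn_const.mul (hcont j)
  have hG : ∑ j ∈ range N, ((c j : ℝ) : ℂ) • (T * P j) = T * cfc g B := by
    have e3 : g = ∑ j ∈ range N, fun x => c j * ((y j) ^ 2 + x)⁻¹ := by
      funext x; simp [hg]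
    rw [e3, cfc_sum (fun j x => c j * ((y j) ^ 2 + x)⁻¹) B (range N)
      (fun j _ => continuousOn_const.mul (hcont j)), Finset.mul_sum]
    apply Finset.sum_congr rfl
    intro j _
    rw [cfc_const_mul _ _ _ (hcont j), ← hPc j, mul_smul_comm]
    rfl
  rw [hG]
  have hsa : star (cfc g B) = cfc g B := (cfc_predicate g B : IsSelfAdjoint _)
  have hsq : ‖T * cfc g B‖ * ‖T * cfc g B‖ ≤ K * K := by
    rw [← CStarRing.norm_star_mul_self, star_mul, hsa]
    have e4 : cfc g B * star T * (T * cfc g B) = cfc (fun x => g x * (x * g x)) B := by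
      have c1 : ContinuousOn (fun x : ℝ => x) (spectrum ℝ B) := continuousOn_id
      rw [cfc_mul g (fun x => x * g x) B hgc (c1.mul hgc), cfc_mul (fun x => x) g B c1 hgc,
        cfc_id' ℝ B hBs]
      simp only [hB, mul_assoc]
    rw [e4]
    apply norm_cfc_le (mul_nonneg hK hK)
    intro x hx
    have hx0 := hsp x hx
    have hs : √x * √x = x := Real.mul_self_sqrt hx0
    have hg0 : 0 ≤ g x := Finset.sum_nonneg fun j _ =>
      mul_nonneg (hc j) (inv_nonneg.2 (by have := pow_pos (hy j) 2; linarith))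
    have h5 : √x * g x ≤ K := by
      have h6 := hb (√x) (Real.sqrt_nonneg x)
      refine le_trans (le_of_eq ?_) h6
      rw [hg, Finset.mul_sum]
      apply Finset.sum_congr rfl
      intro j _
      rw [Real.sq_sqrt hx0]
      ring
    have h7 : g x * (x * g x) = (√x * g x) * (√x * g x) := by
      calc g x * (x * g x) = g x * ((√x * √x) * g x) := by rw [hs]
        _ = _ := by ring
    rw [h7, Real.norm_of_nonneg (mul_self_nonneg _)]
    exact mul_self_le_mul_self (mul_nonneg (Real.sqrt_nonneg x) hg0) h5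
  exact abs_le_of_sq_le_sq' (by nlinarith) hK |>.2

theorem V_norm {H : Type} [NormedAddCommGroup H] [InnerProductSpace ℂ H] [CompleteSpace H]
    (T : H →L[ℂ] H) (h' : ℝ) (hh : 0 < h') (hh1 : h' ≤ 1) (A : ℕ)
    (P1 P2 : ℝ → (H →L[ℂ] H)) (hP : ∀ y > 0, Resolv T y (P1 y) (P2 y)) :
    ‖∑ j ∈ range (2 * A + 1), (((2 / Real.pi) * h' * Real.exp (((j : ℝ) - A) * h') : ℝ) : ℂ) •
        (T * P2 (Real.exp (((j : ℝ) - A) * h')))‖ ≤ 1 + h' := by
  exact V_norm_abs T (2 * A + 1) (fun j => (2 / Real.pi) * h' * Real.exp (((j : ℝ) - A) * h'))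
    (fun j => Real.exp (((j : ℝ) - A) * h')) (fun j => P2 (Real.exp (((j : ℝ) - A) * h')))
    (fun j => by positivity) (fun j => Real.exp_pos _)
    (fun j => (hP _ (Real.exp_pos _)).l2) (fun j => (hP _ (Real.exp_pos _)).r2) (1 + h')
    (by linarith) (fun t ht => sech_up h' t hh ht A)

end Pool.Agent.OHP
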