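import Pool.Agent.Helper547.OH.Defs

/-! Definitions for the completely isometric embedding of OH into a von Neumann algebra predual. -/

set_option autoImplicit false

namespace Pool.Agent.OHP
open scoped InnerProductSpace ComplexConjugate ComplexOrder
open Finset


theorem aa_ident (lam y : ℝ) (hlam : 0 < lam) (hy : 0 < y) :
    C0 * y ^ (-(2 / 3) : ℝ) * (aa lam * y ^ (-(1 / 2) : ℝ) * lam) ^ (-(1 / 3) : ℝ) =
      aa lam * y ^ (-(1 / 2) : ℝ) ∧
    aa lam ^ 2 * lam = C0 ^ ((3 / 2 : ℝ)) * √lam ∧ 0 < C0 ∧ 0 < aa lam := by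
  have hC : 0 < C0 := by
    unfold C0
    have h3 : (0 : ℝ) < √3 := Real.sqrt_pos.mpr (by norm_num)
    have := Real.pi_pos
    positivity
  have ha : 0 < aa lam := by
    unfold aa
    positivity
  refine ⟨?_, ?_, hC, ha⟩
  · have hlhs : C0 * y ^ (-(2 / 3) : ℝ) * (aa lam * y ^ (-(1 / 2) : ℝ) * lam) ^ (-(1 / 3) : ℝ) =
        Real.exp (Real.log C0 + Real.log y * (-(2 / 3)) +
          (Real.log C0 * (3 / 4) + Real.log lam * (-(1 / 4)) + Real.log y * (-(1 / 2)) +
            Real.log lam) * (-(1 / 3))) := by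
      have hin : aa lam * y ^ (-(1 / 2) : ℝ) * lam =
          Real.exp (Real.log C0 * (3 / 4) + Real.log lam * (-(1 / 4)) + Real.log y * (-(1 / 2)) +
            Real.log lam) := by
        unfold aa
        rw [Real.exp_add, Real.exp_add, Real.exp_add, Real.exp_log hlam,
          ← Real.rpow_def_of_pos hC, ← Real.rpow_def_of_pos hlam, ← Real.rpow_def_of_pos hy]
      have h0 : C0 = Real.exp (Real.log C0) := (Real.exp_log hC).symm
      have h1 : y ^ (-(2 / 3) : ℝ) = Real.exp (Real.log y * (-(2 / 3))) :=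
        Real.rpow_def_of_pos hy _
      rw [hin, ← Real.exp_mul, h1]
      conv_lhs => rw [h0]
      rw [← Real.exp_add, ← Real.exp_add]
      simp only [Real.log_exp]
    have hrhs : aa lam * y ^ (-(1 / 2) : ℝ) =
        Real.exp (Real.log C0 * (3 / 4) + Real.log lam * (-(1 / 4)) + Real.log y * (-(1 / 2))) := by
      unfold aa
      rw [Real.exp_add, Real.exp_add,
          ← Real.rpow_def_of_pos hC, ← Real.rpow_def_of_pos hlam, ← Real.rpow_def_of_pos hy]
    rw [hlhs, hrhs]
    congr 1
    ring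
  · have hlhs : aa lam ^ 2 * lam =
        Real.exp ((Real.log C0 * (3 / 4) + Real.log lam * (-(1 / 4))) * 2 + Real.log lam) := by
      unfold aa
      rw [Real.exp_add, Real.exp_log hlam, Real.exp_mul, Real.exp_add,
          ← Real.rpow_def_of_pos hC, ← Real.rpow_def_of_pos hlam, Real.rpow_two]
    rw [hlhs, Real.sqrt_eq_rpow, Real.rpow_def_of_pos hC, Real.rpow_def_of_pos hlam,
      ← Real.exp_add]
    congr 1
    ring

end Pool.Agent.OHP
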