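import Pool.Agent.Helper547.OH.Defs

/-! Definitions for the completely isometric embedding of OH into a von Neumann algebra predual. -/

set_option autoImplicit false

namespace Pool.Agent.OHP
open scoped InnerProductSpace ComplexConjugate ComplexOrder
open Finset


theorem sl_arctan_le {x : ℝ} (hx : 0 ≤ x) : Real.arctan x ≤ x := by
  have h1 := Real.le_tan (Real.arctan_nonneg.2 hx) (Real.arctan_lt_pi_div_two x)
  rwa [Real.tan_arctan] at h1

theorem sl_deriv {t : ℝ} (ht : 0 < t) (x : ℝ) :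
    HasDerivAt (fun y => (2 / Real.pi) * Real.arctan (Real.exp y / t))
      ((2 / Real.pi) * (Real.exp x * t / (Real.exp x ^ 2 + t ^ 2))) x := by
  have h1 : HasDerivAt (fun y => Real.exp y / t) (Real.exp x / t) x :=
    (Real.hasDerivAt_exp x).div_const t
  have h2 := (h1.arctan).const_mul (2 / Real.pi)
  refine h2.congr_deriv ?_
  have h3 := Real.exp_pos x
  have h4 : (0 : ℝ) < 1 + (Real.exp x / t) ^ 2 := by positivity
  have h5 : (0 : ℝ) < Real.exp x ^ 2 + t ^ 2 := by positivity
  congr 1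
  rw [one_div, inv_mul_eq_div, div_div, div_eq_div_iff (by positivity) (by positivity)]
  field_simp
  ring

theorem sl_step {t a b C : ℝ} (ht : 0 < t) (hab : a < b)
    (hC : ∀ x, a < x → x < b → (2 / Real.pi) * (Real.exp x * t / (Real.exp x ^ 2 + t ^ 2)) ≤ C) :
    (2 / Real.pi) * Real.arctan (Real.exp b / t) - (2 / Real.pi) * Real.arctan (Real.exp a / t)
      ≤ (b - a) * C := by
  obtain ⟨c, hc, hc2⟩ := exists_hasDerivAt_eq_slope
    (fun y => (2 / Real.pi) * Real.arctan (Real.exp y / t))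
    (fun x => (2 / Real.pi) * (Real.exp x * t / (Real.exp x ^ 2 + t ^ 2))) hab
    (fun x _ => (sl_deriv ht x).continuousAt.continuousWithinAt)
    (fun x _ => sl_deriv ht x)
  have h1 := hC c hc.1 hc.2
  have hc3 : (2 / Real.pi) * (Real.exp c * t / (Real.exp c ^ 2 + t ^ 2)) =
    ((2 / Real.pi) * Real.arctan (Real.exp b / t) - (2 / Real.pi) * Real.arctan (Real.exp a / t))
      / (b - a) := hc2
  rw [hc3, div_le_iff₀ (by linarith)] at h1
  linarith

theorem sl_pi : (0 : ℝ) < 2 / Real.pi := by positivity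

theorem sl_mono {t a b : ℝ} (ht : 0 < t) (hab : a ≤ b) (hb : Real.exp b ≤ t) :
    (2 / Real.pi) * (Real.exp a * t / (Real.exp a ^ 2 + t ^ 2)) ≤
    (2 / Real.pi) * (Real.exp b * t / (Real.exp b ^ 2 + t ^ 2)) := by
  apply mul_le_mul_of_nonneg_left _ sl_pi.le
  have h1 := Real.exp_pos a
  have h2 := Real.exp_pos b
  have h3 := Real.exp_le_exp.2 hab
  rw [div_le_div_iff₀ (by positivity) (by positivity)]
  nlinarith [mul_nonneg (mul_nonneg (sub_nonneg.2 h3) (sub_nonneg.2 (show Real.exp a * Real.exp b ≤ t ^ 2 by nlinarith))) ht.le]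

theorem sl_anti {t a b : ℝ} (ht : 0 < t) (hab : a ≤ b) (ha : t ≤ Real.exp a) :
    (2 / Real.pi) * (Real.exp b * t / (Real.exp b ^ 2 + t ^ 2)) ≤
    (2 / Real.pi) * (Real.exp a * t / (Real.exp a ^ 2 + t ^ 2)) := by
  apply mul_le_mul_of_nonneg_left _ sl_pi.le
  have h1 := Real.exp_pos a
  have h2 := Real.exp_pos b
  have h3 := Real.exp_le_exp.2 hab
  rw [div_le_div_iff₀ (by positivity) (by positivity)]
  nlinarith [mul_nonneg (mul_nonneg (sub_nonneg.2 h3) (sub_nonneg.2 (show t ^ 2 ≤ Real.exp a * Real.exp b by nlinarith))) ht.le]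

theorem sl_max {t : ℝ} (ht : 0 < t) (x : ℝ) :
    (2 / Real.pi) * (Real.exp x * t / (Real.exp x ^ 2 + t ^ 2)) ≤ 1 / Real.pi := by
  have h1 := Real.exp_pos x
  have h2 : Real.exp x * t / (Real.exp x ^ 2 + t ^ 2) ≤ 1 / 2 := by
    rw [div_le_div_iff₀ (by positivity) (by positivity)]
    nlinarith [sq_nonneg (Real.exp x - t)]
  calc _ ≤ (2 / Real.pi) * (1 / 2) := mul_le_mul_of_nonneg_left h2 sl_pi.le
    _ = _ := by ring

/-- the sum -/
theorem sl_ind {h t : ℝ} (hh : 0 < h) (ht : 0 < t) (x0 : ℝ) (n : ℕ) :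
    (Real.exp (x0 + n * h) ≤ t →
      (2 / Real.pi) * Real.arctan (Real.exp (x0 + n * h) / t)
        - (2 / Real.pi) * Real.arctan (Real.exp x0 / t) ≤
      ∑ j ∈ range (n + 1), h * ((2 / Real.pi) * (Real.exp (x0 + j * h) * t /
        (Real.exp (x0 + j * h) ^ 2 + t ^ 2)))) ∧
    (t < Real.exp (x0 + n * h) →
      (2 / Real.pi) * Real.arctan (Real.exp (x0 + n * h) / t)
        - (2 / Real.pi) * Real.arctan (Real.exp x0 / t) ≤
      ∑ j ∈ range n, h * ((2 / Real.pi) * (Real.exp (x0 + j * h) * t /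
        (Real.exp (x0 + j * h) ^ 2 + t ^ 2))) + h * (1 / Real.pi)) := by
  have hpos : ∀ x : ℝ, 0 ≤ h * ((2 / Real.pi) * (Real.exp x * t / (Real.exp x ^ 2 + t ^ 2))) := by
    intro x
    have := Real.exp_pos x
    have := sl_pi
    positivity
  induction n with
  | zero =>
    constructor
    · intro _
      simp only [Nat.cast_zero, zero_mul, add_zero, sub_self]
      exact Finset.sum_nonneg fun j _ => hpos _
    · intro _
      simp only [Nat.cast_zero, zero_mul, add_zero, sub_self, Finset.range_zero,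
        Finset.sum_empty, zero_add]
      positivity
  | succ n ih =>
    have hlt : x0 + (n : ℝ) * h < x0 + ((n + 1 : ℕ) : ℝ) * h := by push_cast; linarith
    have hd : (x0 + ((n + 1 : ℕ) : ℝ) * h) - (x0 + (n : ℝ) * h) = h := by push_cast; ring
    constructor
    · intro h1
      have h2 : Real.exp (x0 + (n : ℝ) * h) ≤ t := (Real.exp_le_exp.2 hlt.le).trans h1
      have h3 := ih.1 h2
      rw [Finset.sum_range_succ]
      have h4 := sl_step ht hlt (C := (2 / Real.pi) * (Real.exp (x0 + ((n + 1 : ℕ) : ℝ) * h) * t /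
        (Real.exp (x0 + ((n + 1 : ℕ) : ℝ) * h) ^ 2 + t ^ 2)))
        (fun x _ hx2 => sl_mono ht hx2.le h1)
      rw [hd] at h4
      linarith
    · intro h1
      have h4 := sl_step ht hlt (C := 1 / Real.pi) (fun x _ _ => sl_max ht x)
      rw [hd] at h4
      rcases le_or_gt (Real.exp (x0 + (n : ℝ) * h)) t with h2 | h2
      · have h3 := ih.1 h2
        linarith
      · have h3 := ih.2 h2
        rw [Finset.sum_range_succ]
        have h5 := sl_step ht hlt (C := (2 / Real.pi) * (Real.exp (x0 + (n : ℝ) * h) * t /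
          (Real.exp (x0 + (n : ℝ) * h) ^ 2 + t ^ 2)))
          (fun x hx1 _ => sl_anti ht hx1.le h2.le)
        rw [hd] at h5
        linarith

theorem sech_low (h t : ℝ) (hh : 0 < h) (hh1 : h ≤ 1) (ht : 0 ≤ t) (A : ℕ) :
    t * (1 - h) - 4 * (t ^ 2 + 1) * Real.exp (-(A * h)) ≤
    ∑ j ∈ range (2 * A + 1), (2 / Real.pi) * h * Real.exp (((j : ℝ) - A) * h) * t ^ 2 /
      (Real.exp (((j : ℝ) - A) * h) ^ 2 + t ^ 2) := by
  have hE := Real.exp_pos (-(A * h))
  rcases ht.eq_or_lt with h0 | ht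
  · subst h0
    have h1 : ∑ j ∈ range (2 * A + 1), (2 / Real.pi) * h * Real.exp (((j : ℝ) - A) * h) * (0 : ℝ) ^ 2 /
      (Real.exp (((j : ℝ) - A) * h) ^ 2 + 0 ^ 2) = 0 := by
      apply Finset.sum_eq_zero
      intro j _
      simp
    rw [h1]
    nlinarith
  · have hS : ∑ j ∈ range (2 * A + 1), (2 / Real.pi) * h * Real.exp (((j : ℝ) - A) * h) * t ^ 2 /
        (Real.exp (((j : ℝ) - A) * h) ^ 2 + t ^ 2) = t * ∑ j ∈ range (2 * A + 1),
        h * ((2 / Real.pi) * (Real.exp (-(A * h) + j * h) * t /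
        (Real.exp (-(A * h) + j * h) ^ 2 + t ^ 2))) := by
      rw [Finset.mul_sum]
      apply Finset.sum_congr rfl
      intro j _
      rw [show ((j : ℝ) - A) * h = -(A * h) + j * h by ring]
      ring
    rw [hS]
    have hind := sl_ind hh ht (-(A * h)) (2 * A)
    have hx : -((A : ℝ) * h) + ((2 * A : ℕ) : ℝ) * h = A * h := by push_cast; ring
    rw [hx] at hind
    have hpi : 1 / Real.pi ≤ 1 := by
      rw [div_le_one Real.pi_pos]; linarith [Real.pi_gt_three]
    have hpi2 : 2 / Real.pi ≤ 1 := by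
      rw [div_le_one Real.pi_pos]; linarith [Real.pi_gt_three]
    have hpi0 : 0 < 1 / Real.pi := by positivity
    set Sg := ∑ j ∈ range (2 * A + 1), h * ((2 / Real.pi) * (Real.exp (-(A * h) + j * h) * t /
        (Real.exp (-(A * h) + j * h) ^ 2 + t ^ 2))) with hSg
    have hmain : (2 / Real.pi) * Real.arctan (Real.exp (A * h) / t)
        - (2 / Real.pi) * Real.arctan (Real.exp (-(A * h)) / t) ≤ Sg + h * (1 / Real.pi) := by
      rcases le_or_gt (Real.exp (A * h)) t with h2 | h2
      · have := hind.1 h2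
        have h3 : 0 < h * (1 / Real.pi) := by positivity
        linarith
      · have := hind.2 h2
        have h3 : ∑ j ∈ range (2 * A), h * ((2 / Real.pi) * (Real.exp (-(A * h) + j * h) * t /
            (Real.exp (-(A * h) + j * h) ^ 2 + t ^ 2))) ≤ Sg := by
          rw [hSg, Finset.sum_range_succ]
          have h4 : 0 ≤ h * ((2 / Real.pi) * (Real.exp (-(A * h) + ((2 * A : ℕ) : ℝ) * h) * t /
            (Real.exp (-(A * h) + ((2 * A : ℕ) : ℝ) * h) ^ 2 + t ^ 2))) := by
            have := Real.exp_pos (-(A * h) + ((2 * A : ℕ) : ℝ) * h)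
            have := sl_pi
            positivity
          linarith
        linarith
    have hG1 : 1 - t * Real.exp (-(A * h)) ≤ (2 / Real.pi) * Real.arctan (Real.exp (A * h) / t) := by
      have h1 : Real.exp (A * h) / t = (t * Real.exp (-(A * h)))⁻¹ := by
        rw [Real.exp_neg]
        field_simp
      rw [h1, Real.arctan_inv_of_pos (by positivity)]
      have h2 := sl_arctan_le (x := t * Real.exp (-(A * h))) (by positivity)
      have h3 : (2 / Real.pi) * (Real.pi / 2) = 1 := by
        have := Real.pi_ne_zero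
        field_simp
      have h4 : (2 / Real.pi) * Real.arctan (t * Real.exp (-(A * h))) ≤ 1 * (t * Real.exp (-(A * h))) :=
        mul_le_mul hpi2 h2 (Real.arctan_nonneg.2 (by positivity)) (by norm_num)
      rw [mul_sub, h3]
      linarith
    have hG2 : (2 / Real.pi) * Real.arctan (Real.exp (-(A * h)) / t) ≤ Real.exp (-(A * h)) / t := by
      have h2 := sl_arctan_le (x := Real.exp (-(A * h)) / t) (by positivity)
      have h4 : (2 / Real.pi) * Real.arctan (Real.exp (-(A * h)) / t) ≤ 1 * (Real.exp (-(A * h)) / t) :=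
        mul_le_mul hpi2 h2 (Real.arctan_nonneg.2 (by positivity)) (by norm_num)
      linarith
    have hfin : 1 - t * Real.exp (-(A * h)) - Real.exp (-(A * h)) / t - h ≤ Sg := by
      have : h * (1 / Real.pi) ≤ h * 1 := mul_le_mul_of_nonneg_left hpi hh.le
      linarith
    have h5 := mul_le_mul_of_nonneg_left hfin ht.le
    have h6 : t * (1 - t * Real.exp (-(A * h)) - Real.exp (-(A * h)) / t - h)
        = t * (1 - h) - (t ^ 2 + 1) * Real.exp (-(A * h)) := by
      field_simp
      ring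
    rw [h6] at h5
    nlinarith [mul_pos (show (0 : ℝ) < t ^ 2 + 1 by positivity) hE]

end Pool.Agent.OHP
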