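import Pool.Agent.Helper547.OH.Defs
import Pool.Agent.Helper547.OH.P_sech_low
import Pool.Agent.Helper547.OH.P_resolv_props

/-! Definitions for the completely isometric embedding of OH into a von Neumann algebra predual. -/

set_option autoImplicit false

namespace Pool.Agent.OHP
open scoped InnerProductSpace ComplexConjugate ComplexOrder
open Finset


theorem ag_key {H : Type} [NormedAddCommGroup H] [InnerProductSpace ℂ H] [CompleteSpace H]
    (s B P : H →L[ℂ] H) (hs : IsSelfAdjoint s) (hB : s * s = B) (y : ℝ) (hy : 0 < y)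
    (h1 : P * (((y ^ 2 : ℝ) : ℂ) • (1 : H →L[ℂ] H) + B) = 1)
    (h2 : (((y ^ 2 : ℝ) : ℂ) • (1 : H →L[ℂ] H) + B) * P = 1) :
    cfc (fun t : ℝ => t ^ 2 / (y ^ 2 + t ^ 2)) s = B * P := by
  have hc : Continuous (fun t : ℝ => t ^ 2 / (y ^ 2 + t ^ 2)) := by
    refine Continuous.div (by fun_prop) (by fun_prop) (fun t => by positivity)
  have e0 : cfc (fun t : ℝ => t ^ 2) s = B := by
    rw [cfc_pow_id s 2 hs, sq, hB]
  have e1 : cfc (fun t : ℝ => y ^ 2 + t ^ 2) s =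
      ((y ^ 2 : ℝ) : ℂ) • (1 : H →L[ℂ] H) + B := by
    rw [cfc_add (a := s) (fun _ => y ^ 2) (fun t => t ^ 2) (by fun_prop) (by fun_prop),
      cfc_const (y ^ 2) s hs, e0]
    congr 1
  have e2 : cfc (fun t : ℝ => y ^ 2 + t ^ 2) s * cfc (fun t : ℝ => t ^ 2 / (y ^ 2 + t ^ 2)) s =
      B := by
    rw [← cfc_mul (fun t : ℝ => y ^ 2 + t ^ 2) (fun t : ℝ => t ^ 2 / (y ^ 2 + t ^ 2)) s
      (by fun_prop) hc.continuousOn, ← e0]
    congr 1
    funext t
    field_simp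
  rw [e1] at e2
  have e3 : P * B = B * P := by
    have h3 : P * (((y ^ 2 : ℝ) : ℂ) • (1 : H →L[ℂ] H) + B) =
        (((y ^ 2 : ℝ) : ℂ) • (1 : H →L[ℂ] H) + B) * P := by rw [h1, h2]
    rw [mul_add, add_mul, mul_smul_comm, smul_mul_assoc, mul_one, one_mul] at h3
    exact add_left_cancel h3
  calc cfc (fun t : ℝ => t ^ 2 / (y ^ 2 + t ^ 2)) s
      = P * ((((y ^ 2 : ℝ) : ℂ) • (1 : H →L[ℂ] H) + B) *
        cfc (fun t : ℝ => t ^ 2 / (y ^ 2 + t ^ 2)) s) := by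
        rw [← mul_assoc, h1, one_mul]
    _ = P * B := by rw [e2]
    _ = B * P := e3

/-- the real linear functional given by a vector -/
noncomputable def ag_q {H : Type} [NormedAddCommGroup H] [InnerProductSpace ℂ H] (Om : H) :
    (H →L[ℂ] H) →ₗ[ℝ] ℝ where
  toFun X := (⟪Om, X Om⟫_ℂ).re
  map_add' X Y := by
    rw [_root_.add_apply, inner_add_right, Complex.add_re]
  map_smul' r X := by
    have h : (r • X) Om = (r : ℂ) • X Om := by
      rw [Complex.coe_smul]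
      rfl
    rw [h, inner_smul_right, Complex.re_ofReal_mul]
    rfl

theorem ag_qB {H : Type} [NormedAddCommGroup H] [InnerProductSpace ℂ H] [CompleteSpace H]
    (T : H →L[ℂ] H) (Om : H) : ag_q Om (star T * T) ≤ ‖T‖ ^ 2 * ‖Om‖ ^ 2 := by
  have h1 : ag_q Om (star T * T) = ‖T Om‖ ^ 2 := by
    show (⟪Om, (star T * T) Om⟫_ℂ).re = ‖T Om‖ ^ 2
    have h2 : (star T * T) Om = (ContinuousLinearMap.adjoint T) (T Om) := rfl
    rw [h2, ContinuousLinearMap.adjoint_inner_right, inner_self_eq_norm_sq_to_K]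
    norm_cast
  rw [h1, ← mul_pow]
  exact pow_le_pow_left₀ (norm_nonneg _) (T.le_opNorm Om) 2

theorem ag_q1 {H : Type} [NormedAddCommGroup H] [InnerProductSpace ℂ H]
    (Om : H) : ag_q Om (1 : H →L[ℂ] H) = ‖Om‖ ^ 2 := by
  show (⟪Om, Om⟫_ℂ).re = ‖Om‖ ^ 2
  rw [inner_self_eq_norm_sq_to_K]
  norm_cast

theorem abs_grid {H : Type} [NormedAddCommGroup H] [InnerProductSpace ℂ H] [CompleteSpace H]
    (T : H →L[ℂ] H) (Om : H) (h' : ℝ) (hh : 0 < h') (hh1 : h' ≤ 1) (A : ℕ)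
    (P1 P2 : ℝ → (H →L[ℂ] H)) (hP : ∀ y > 0, Resolv T y (P1 y) (P2 y)) :
    (1 - h') * (⟪Om, (CFC.sqrt (star T * T)) Om⟫_ℂ).re ≤
      ∑ j ∈ range (2 * A + 1), (2 / Real.pi) * h' * Real.exp (((j : ℝ) - A) * h') *
        (⟪Om, (star T * T * P2 (Real.exp (((j : ℝ) - A) * h'))) Om⟫_ℂ).re +
      4 * (‖T‖ ^ 2 + 1) * Real.exp (-(A * h')) * ‖Om‖ ^ 2 := by
  obtain ⟨B, hB⟩ : ∃ B : H →L[ℂ] H, B = star T * T := ⟨_, rfl⟩
  obtain ⟨s, hs⟩ : ∃ s : H →L[ℂ] H, s = CFC.sqrt (star T * T) := ⟨_, rfl⟩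
  have hs0 : 0 ≤ s := by rw [hs]; exact CFC.sqrt_nonneg _
  have hsa : IsSelfAdjoint s := hs0.isSelfAdjoint
  have hss : s * s = B := by
    rw [hs, hB]
    exact CFC.sqrt_mul_sqrt_self _ (star_mul_self_nonneg T)
  obtain ⟨y, hy⟩ : ∃ y : ℕ → ℝ, y = fun j : ℕ => Real.exp (((j : ℝ) - A) * h') := ⟨_, rfl⟩
  have hypos : ∀ j, 0 < y j := fun j => by rw [hy]; exact Real.exp_pos _
  have hyj : ∀ j : ℕ, Real.exp (((j : ℝ) - A) * h') = y j := fun j => by rw [hy]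
  obtain ⟨E, hE⟩ : ∃ E : ℝ, E = Real.exp (-(A * h')) := ⟨_, rfl⟩
  have hc : ∀ j, Continuous (fun t : ℝ => t ^ 2 / (y j ^ 2 + t ^ 2)) := fun j => by
    have hj := hypos j
    refine Continuous.div (by fun_prop) (by fun_prop) (fun t => by positivity)
  have hkey : ∀ j, cfc (fun t : ℝ => t ^ 2 / (y j ^ 2 + t ^ 2)) s = B * P2 (y j) := by
    intro j
    have hR := hP (y j) (hypos j)
    refine ag_key s B (P2 (y j)) hsa hss (y j) (hypos j) ?_ ?_
    · rw [hB]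
      exact hR.l2
    · rw [hB]
      exact hR.r2
  have hnn : 0 ≤ cfc (fun t : ℝ => (∑ j ∈ range (2 * A + 1),
      ((2 / Real.pi) * h' * y j) * (t ^ 2 / (y j ^ 2 + t ^ 2))) -
      ((1 - h') * t - (4 * E) * (t ^ 2 + 1))) s := by
    refine cfc_nonneg ?_
    intro t ht
    have ht0 : 0 ≤ t := spectrum_nonneg_of_nonneg hs0 ht
    have h1 := sech_low h' t hh hh1 ht0 A
    have h2 : ∑ j ∈ range (2 * A + 1), (2 / Real.pi) * h' * Real.exp (((j : ℝ) - A) * h') *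
        t ^ 2 / (Real.exp (((j : ℝ) - A) * h') ^ 2 + t ^ 2) =
        ∑ j ∈ range (2 * A + 1), ((2 / Real.pi) * h' * y j) * (t ^ 2 / (y j ^ 2 + t ^ 2)) := by
      refine Finset.sum_congr rfl fun j _ => ?_
      rw [hyj, mul_div_assoc]
    rw [h2, ← hE] at h1
    linarith
  have hG : cfc (fun t : ℝ => ∑ j ∈ range (2 * A + 1),
      ((2 / Real.pi) * h' * y j) * (t ^ 2 / (y j ^ 2 + t ^ 2))) s =
      ∑ j ∈ range (2 * A + 1), ((2 / Real.pi) * h' * y j) • (B * P2 (y j)) := by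
    have h1 : (fun t : ℝ => ∑ j ∈ range (2 * A + 1),
        ((2 / Real.pi) * h' * y j) * (t ^ 2 / (y j ^ 2 + t ^ 2))) =
        ∑ j ∈ range (2 * A + 1), fun t : ℝ =>
          ((2 / Real.pi) * h' * y j) * (t ^ 2 / (y j ^ 2 + t ^ 2)) := by
      funext t
      rw [Finset.sum_apply]
    rw [h1]
    refine (cfc_sum (fun j => fun t : ℝ =>
      ((2 / Real.pi) * h' * y j) * (t ^ 2 / (y j ^ 2 + t ^ 2))) s (range (2 * A + 1))
      (fun j _ => (continuous_const.mul (hc j)).continuousOn)).trans ?_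
    refine Finset.sum_congr rfl fun j _ => ?_
    rw [cfc_const_mul _ _ s (hc j).continuousOn, hkey]
  have hL : cfc (fun t : ℝ => (1 - h') * t - (4 * E) * (t ^ 2 + 1)) s =
      (1 - h') • s - (4 * E) • (B + 1) := by
    rw [cfc_sub (fun t : ℝ => (1 - h') * t) (fun t => (4 * E) * (t ^ 2 + 1)) s (by fun_prop)
      (by fun_prop), cfc_const_mul _ _ s (by fun_prop), cfc_const_mul _ _ s (by fun_prop),
      cfc_add (a := s) (fun t => t ^ 2) (fun _ => 1) (by fun_prop) (by fun_prop),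
      cfc_pow_id s 2 hsa, cfc_const (1:ℝ) s hsa, map_one, sq, hss]
    congr 2
    exact cfc_id' ℝ s hsa
  have hGc : Continuous (fun t : ℝ => ∑ j ∈ range (2 * A + 1),
      ((2 / Real.pi) * h' * y j) * (t ^ 2 / (y j ^ 2 + t ^ 2))) :=
    continuous_finsetSum _ (fun j _ => continuous_const.mul (hc j))
  rw [cfc_sub _ _ s hGc.continuousOn (by fun_prop), hG, hL] at hnn
  have hpos := ((ContinuousLinearMap.nonneg_iff_isPositive _).mp hnn).re_inner_nonneg_right Om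
  have hq : 0 ≤ ag_q Om (∑ j ∈ range (2 * A + 1), ((2 / Real.pi) * h' * y j) •
      (B * P2 (y j)) - ((1 - h') • s - (4 * E) • (B + 1))) := hpos
  rw [map_sub, map_sub, map_sum, map_smul, map_smul, map_add, ag_q1] at hq
  have hBq := ag_qB T Om
  rw [← hB] at hBq
  have hsum : ∑ j ∈ range (2 * A + 1), ag_q Om (((2 / Real.pi) * h' * y j) • (B * P2 (y j))) =
      ∑ j ∈ range (2 * A + 1), (2 / Real.pi) * h' * Real.exp (((j : ℝ) - A) * h') *
        (⟪Om, (star T * T * P2 (Real.exp (((j : ℝ) - A) * h'))) Om⟫_ℂ).re := by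
    refine Finset.sum_congr rfl fun j _ => ?_
    rw [map_smul, hyj, ← hB]
    rfl
  rw [hsum] at hq
  rw [← hs, ← hE]
  have e1 : (⟪Om, s Om⟫_ℂ).re = ag_q Om s := rfl
  rw [e1]
  simp only [smul_eq_mul] at hq
  have hE0 : 0 < E := by rw [hE]; exact Real.exp_pos _
  have e2 : 4 * E * (ag_q Om B + ‖Om‖ ^ 2) ≤ 4 * (‖T‖ ^ 2 + 1) * E * ‖Om‖ ^ 2 := by
    have h3 := mul_le_mul_of_nonneg_left hBq (show (0:ℝ) ≤ 4 * E by positivity)
    linarith
  linarith

end Pool.Agent.OHP
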