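import Pool.Agent.Helper547.OH.Defs

/-! Definitions for the completely isometric embedding of OH into a von Neumann algebra predual. -/

set_option autoImplicit false

namespace Pool.Agent.OHP
open scoped InnerProductSpace ComplexConjugate ComplexOrder
open Finset


theorem amp_mul {F : Type} [NormedAddCommGroup F] [InnerProductSpace ℂ F] {ι : Type} [Fintype ι]
    (c d : Matrix ι ι ℂ) (T R : F →L[ℂ] F) : amp c T * amp d R = amp (c * d) (T * R) := by
  refine ContinuousLinearMap.ext fun ξ => ?_
  refine PiLp.ext fun p => ?_
  have hR : ∀ z : F, (T * R) z = T (R z) := fun z => rfl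
  show (amp c T (amp d R ξ)) p = _
  simp only [amp_apply, map_sum, map_smul, Finset.smul_sum, smul_smul, Matrix.mul_apply,
    Finset.sum_smul, hR]
  exact Finset.sum_comm

end Pool.Agent.OHP
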