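import Pool.Agent.Helper547.OH.Defs

/-! Definitions for the completely isometric embedding of OH into a von Neumann algebra predual. -/

set_option autoImplicit false

namespace Pool.Agent.OHP
open scoped InnerProductSpace ComplexConjugate ComplexOrder
open Finset


theorem amp_vec {F : Type} [NormedAddCommGroup F] [InnerProductSpace ℂ F] {ι : Type} [Fintype ι]
    (c : Matrix ι ι ℂ) (T : F →L[ℂ] F) (v : ι → ℂ) (ξ : F) :
    amp c T (vec v ξ) = vec (c.mulVec v) (T ξ) := by
  ext p
  rw [amp_apply]
  show ∑ q, c p q • T (v q • ξ) = (c.mulVec v p) • T ξ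
  rw [Matrix.mulVec, dotProduct, Finset.sum_smul]
  refine Finset.sum_congr rfl fun q _ => ?_
  rw [map_smul, smul_smul]

end Pool.Agent.OHP
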