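import Pool.Agent.Helper547.OH.Defs

/-! Definitions for the completely isometric embedding of OH into a von Neumann algebra predual. -/

set_option autoImplicit false

namespace Pool.Agent.OHP
open scoped InnerProductSpace ComplexConjugate ComplexOrder
open Finset


theorem dys_inv_anti {l : ℕ} (A A' : Mat l) (hA : A.PosDef) (hA' : A'.PosDef)
    (hP : (A' - A).PosSemidef) : (A⁻¹ - A'⁻¹).PosSemidef := by
  have hdA : IsUnit A.det := (Matrix.isUnit_iff_isUnit_det A).1 hA.isUnit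
  have hdA' : IsUnit A'.det := (Matrix.isUnit_iff_isUnit_det A').1 hA'.isUnit
  have e1 : A * A⁻¹ = 1 := Matrix.mul_nonsing_inv A hdA
  have e2 : A⁻¹ * A = 1 := Matrix.nonsing_inv_mul A hdA
  have e3 : A' * A'⁻¹ = 1 := Matrix.mul_nonsing_inv A' hdA'
  have e4 : A'⁻¹ * A' = 1 := Matrix.nonsing_inv_mul A' hdA'
  have i1 : A'⁻¹ * (A' - A) * A⁻¹ = A⁻¹ - A'⁻¹ := by
    rw [mul_sub, sub_mul, e4, one_mul, mul_assoc, e1, mul_one]
  have i2 : A⁻¹ * (A' - A) * A'⁻¹ = A⁻¹ - A'⁻¹ := by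
    rw [mul_sub, sub_mul, e2, one_mul, mul_assoc, e3, mul_one]
  have i3 : A⁻¹ - A'⁻¹ = A'⁻¹ * (A' - A) * A'⁻¹
      + A'⁻¹ * (A' - A) * A⁻¹ * ((A' - A) * A'⁻¹) := by
    have h1 : A'⁻¹ * (A' - A) * A⁻¹ * ((A' - A) * A'⁻¹)
        = A'⁻¹ * (A' - A) * (A⁻¹ * (A' - A) * A'⁻¹) := by
      simp only [mul_assoc]
    rw [h1, i2, mul_sub (A'⁻¹ * (A' - A)), i1]
    abel
  rw [i3]
  have hh : (A'⁻¹).conjTranspose = A'⁻¹ := hA'.inv.isHermitian
  have hPh : (A' - A).conjTranspose = A' - A := hP.isHermitian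
  apply Matrix.PosSemidef.add
  · have h1 := hP.conjTranspose_mul_mul_same (A'⁻¹)
    rwa [hh] at h1
  · have h1 := hA.inv.posSemidef.conjTranspose_mul_mul_same ((A' - A) * A'⁻¹)
    rw [Matrix.conjTranspose_mul, hh, hPh] at h1
    exact h1

theorem dys_anti {l m : ℕ} {u w : ℕ → ℝ} (hu : ∀ j, 0 ≤ u j) (hw : ∀ j, 0 ≤ w j)
    (y : ℝ) (hy : 0 < y) (B B' : Mat l) (hB : B.PosSemidef) (hBB : (B' - B).PosSemidef) :
    (dys m u w y B - dys m u w y B').PosSemidef := by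
  have hB' : B'.PosSemidef := by
    have h1 := hB.add hBB
    rwa [add_sub_cancel] at h1
  have hpd : ∀ (j : ℕ) (C : Mat l), C.PosSemidef →
      ((y : ℂ) • (1 : Mat l) + (u j : ℂ) • C).PosDef := by
    intro j C hC
    have hy' : (0:ℂ) < (y : ℂ) := by exact_mod_cast hy
    have hu' : (0:ℂ) ≤ (u j : ℂ) := by exact_mod_cast hu j
    exact (Matrix.PosDef.one.smul hy').add_posSemidef (hC.smul hu')
  unfold dys
  rw [← Finset.sum_sub_distrib]
  apply Matrix.posSemidef_sum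
  intro j _
  rw [← smul_sub]
  have hwu : (0:ℂ) ≤ ((w j * u j : ℝ) : ℂ) := by
    exact_mod_cast mul_nonneg (hw j) (hu j)
  refine Matrix.PosSemidef.smul ?_ hwu
  apply dys_inv_anti _ _ (hpd j B hB) (hpd j B' hB')
  have e : (y : ℂ) • (1 : Mat l) + (u j : ℂ) • B' - ((y : ℂ) • (1 : Mat l) + (u j : ℂ) • B)
      = (u j : ℂ) • (B' - B) := by
    rw [smul_sub]
    abel
  rw [e]
  have hu' : (0:ℂ) ≤ (u j : ℂ) := by exact_mod_cast hu j
  exact hBB.smul hu'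

end Pool.Agent.OHP
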