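import Pool.Agent.Helper547.OH.Defs

/-! Definitions for the completely isometric embedding of OH into a von Neumann algebra predual. -/

set_option autoImplicit false

namespace Pool.Agent.OHP
open scoped InnerProductSpace ComplexConjugate ComplexOrder
open Finset


/-- antiderivative of `3/(1+x^3)` -/
noncomputable def rl845H (x : ℝ) : ℝ :=
  Real.log (1 + x) - (1 / 2) * Real.log (x ^ 2 - x + 1) + √3 * Real.arctan ((2 * x - 1) / √3)

theorem rl845H_der (x : ℝ) (hx : 0 ≤ x) : HasDerivAt rl845H (3 / (1 + x ^ 3)) x := by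
  have h1 : HasDerivAt (fun x : ℝ => Real.log (1 + x)) (1 / (1 + x)) x :=
    ((hasDerivAt_id x).const_add 1).log (by simp; linarith)
  have hq : 0 < x ^ 2 - x + 1 := by nlinarith [sq_nonneg (x - 1 / 2)]
  have h2 : HasDerivAt (fun x : ℝ => Real.log (x ^ 2 - x + 1)) ((2 * x - 1) / (x ^ 2 - x + 1)) x := by
    have h3 : HasDerivAt (fun x : ℝ => x ^ 2 - x + 1) (2 * x - 1) x := by
      have := (((hasDerivAt_pow 2 x).sub (hasDerivAt_id x)).add_const 1)
      simpa using this
    exact h3.log hq.ne'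
  have h3 : (0:ℝ) < √3 := Real.sqrt_pos.2 (by norm_num)
  have h33 : √3 * √3 = 3 := Real.mul_self_sqrt (by norm_num)
  have h4 : HasDerivAt (fun x : ℝ => Real.arctan ((2 * x - 1) / √3))
      (1 / (1 + ((2 * x - 1) / √3) ^ 2) * (2 / √3)) x := by
    have h5 : HasDerivAt (fun x : ℝ => (2 * x - 1) / √3) (2 / √3) x := by
      have := ((((hasDerivAt_id x).const_mul 2).sub_const 1).div_const √3)
      simpa using this
    exact h5.arctan
  have h6 := (h1.sub (h2.const_mul (1 / 2))).add (h4.const_mul √3)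
  refine h6.congr_deriv ?_
  have e1 : √3 * (1 / (1 + ((2 * x - 1) / √3) ^ 2) * (2 / √3)) = 3 / (2 * (x ^ 2 - x + 1)) := by
    have e2 : ((2 * x - 1) / √3) ^ 2 = (2 * x - 1) ^ 2 / 3 := by
      rw [div_pow, sq √3, h33]
    rw [e2]
    have e3 : 1 + (2 * x - 1) ^ 2 / 3 = 4 * (x ^ 2 - x + 1) / 3 := by ring
    rw [e3]
    field_simp
    norm_num
  rw [e1]
  have e4 : 1 + x ^ 3 = (1 + x) * (x ^ 2 - x + 1) := by ring
  rw [e4]
  have h1x : 0 < 1 + x := by linarith
  obtain ⟨q, hqd⟩ : ∃ q, q = x ^ 2 - x + 1 := ⟨_, rfl⟩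
  rw [← hqd] at hq ⊢
  field_simp
  rw [hqd]
  ring

theorem rl845H_zero : rl845H 0 = -(√3 * (Real.pi / 6)) := by
  have h1 : Real.arctan (1 / √3) = Real.pi / 6 := by
    rw [← Real.tan_pi_div_six]
    exact Real.arctan_tan (by linarith [Real.pi_pos]) (by linarith [Real.pi_pos])
  unfold rl845H
  have e : (2 * (0:ℝ) - 1) / √3 = -(1 / √3) := by ring
  rw [e, Real.arctan_neg, h1]
  simp

theorem rl845H_up (x : ℝ) (hx : 0 < x) : rl845H x ≤ -(√3 * (Real.pi / 6)) + 3 * x := by
  obtain ⟨c, hc, he⟩ := exists_hasDerivAt_eq_slope rl845H (fun x => 3 / (1 + x ^ 3)) hx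
    (fun y hy => (rl845H_der y hy.1).continuousAt.continuousWithinAt)
    (fun y hy => rl845H_der y hy.1.le)
  rw [rl845H_zero, sub_zero] at he
  have hc0 : 0 < c := hc.1
  have h1 : 3 / (1 + c ^ 3) ≤ 3 := by
    rw [div_le_iff₀ (by positivity)]
    nlinarith [pow_pos hc0 3]
  rw [he, div_le_iff₀ hx] at h1
  linarith

theorem rl845H_low (x : ℝ) (hx : 0 < x) :
    √3 * (Real.pi / 2) ≤ rl845H x + (3 / 2) * (x ^ 2)⁻¹ := by
  have h3 : (0:ℝ) < √3 := Real.sqrt_pos.2 (by norm_num)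
  have key : ∀ y, x < y → √3 * Real.arctan ((2 * y - 1) / √3) ≤
      rl845H x + (3 / 2) * (x ^ 2)⁻¹ := by
    intro y hy
    have hd : ∀ z, 0 < z → HasDerivAt (fun z => rl845H z + (3 / 2) * (z ^ 2)⁻¹)
        (3 / (1 + z ^ 3) - 3 / z ^ 3) z := by
      intro z hz
      have h1 : HasDerivAt (fun z : ℝ => (z ^ 2)⁻¹) (-(2 * z) / (z ^ 2) ^ 2) z := by
        have h2 : HasDerivAt (fun z : ℝ => z ^ 2) (2 * z) z := by
          simpa using hasDerivAt_pow 2 z
        exact h2.inv (by positivity)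
      refine ((rl845H_der z hz.le).add (h1.const_mul (3 / 2))).congr_deriv ?_
      field_simp
      ring
    obtain ⟨c, hc, he⟩ := exists_hasDerivAt_eq_slope (fun z => rl845H z + (3 / 2) * (z ^ 2)⁻¹)
      (fun z => 3 / (1 + z ^ 3) - 3 / z ^ 3) hy
      (fun z hz => (hd z (hx.trans_le hz.1)).continuousAt.continuousWithinAt)
      (fun z hz => hd z (hx.trans hz.1))
    have hc0 : 0 < c := hx.trans hc.1
    have h1 : 3 / (1 + c ^ 3) - 3 / c ^ 3 ≤ 0 := by
      rw [sub_nonpos]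
      exact div_le_div_of_nonneg_left (by norm_num) (by positivity) (by linarith)
    rw [he, div_nonpos_iff] at h1
    have hyx : 0 < y - x := by linarith
    have h2 : rl845H y + 3 / 2 * (y ^ 2)⁻¹ - (rl845H x + 3 / 2 * (x ^ 2)⁻¹) ≤ 0 := by
      rcases h1 with h | h
      · linarith [h.2]
      · exact h.1
    have hy0 : 0 < y := hx.trans hy
    have h4 : 0 ≤ Real.log (1 + y) - (1 / 2) * Real.log (y ^ 2 - y + 1) := by
      have hq : 0 < y ^ 2 - y + 1 := by nlinarith [sq_nonneg (y - 1 / 2)]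
      have h5 : Real.log (y ^ 2 - y + 1) ≤ Real.log ((1 + y) ^ 2) :=
        Real.log_le_log hq (by nlinarith)
      rw [Real.log_pow] at h5
      push_cast at h5
      linarith
    have h6 : 0 ≤ 3 / 2 * (y ^ 2)⁻¹ := by positivity
    have h7 : rl845H y = Real.log (1 + y) - (1 / 2) * Real.log (y ^ 2 - y + 1)
      + √3 * Real.arctan ((2 * y - 1) / √3) := rfl
    linarith
  have hlim : Filter.Tendsto (fun y : ℝ => √3 * Real.arctan ((2 * y - 1) / √3)) Filter.atTop
      (nhds (√3 * (Real.pi / 2))) := by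
    refine Filter.Tendsto.const_mul _ ?_
    refine (Real.tendsto_arctan_atTop.mono_right nhdsWithin_le_nhds).comp ?_
    refine Filter.Tendsto.atTop_div_const h3 ?_
    exact Filter.tendsto_atTop_add_const_right _ _
      (Filter.Tendsto.const_mul_atTop (by norm_num) Filter.tendsto_id)
  exact le_of_tendsto hlim ((Filter.eventually_gt_atTop x).mono key)

theorem rl845_phi (a y : ℝ) (ha : 0 ≤ a) (hay : a ≤ y) :
    y / (1 + y ^ 3) - a / (1 + a ^ 3) ≤ 2 / (1 + a) - 2 / (1 + y) := by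
  have hy : 0 ≤ y := ha.trans hay
  have e1 : y / (1 + y ^ 3) - a / (1 + a ^ 3) =
      (y - a) * (1 - a * y * (a + y)) / ((1 + a ^ 3) * (1 + y ^ 3)) := by
    have h1 : 0 < 1 + y ^ 3 := by positivity
    have h2 : 0 < 1 + a ^ 3 := by positivity
    field_simp
    ring
  have e2 : 2 / (1 + a) - 2 / (1 + y) = (y - a) * (2 * ((a ^ 2 - a + 1) * (y ^ 2 - y + 1))) /
      ((1 + a ^ 3) * (1 + y ^ 3)) := by
    have h1 : 0 < 1 + y := by positivity
    have h2 : 0 < 1 + a := by positivity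
    have h3 : 0 < y ^ 2 - y + 1 := by nlinarith [sq_nonneg (y - 1 / 2)]
    have h4 : 0 < a ^ 2 - a + 1 := by nlinarith [sq_nonneg (a - 1 / 2)]
    have e4 : 1 + a ^ 3 = (1 + a) * (a ^ 2 - a + 1) := by ring
    have e5 : 1 + y ^ 3 = (1 + y) * (y ^ 2 - y + 1) := by ring
    rw [e4, e5]
    obtain ⟨q, hqd⟩ : ∃ q, q = y ^ 2 - y + 1 := ⟨_, rfl⟩
    obtain ⟨r, hrd⟩ : ∃ r, r = a ^ 2 - a + 1 := ⟨_, rfl⟩
    rw [← hqd] at h3 ⊢
    rw [← hrd] at h4 ⊢
    field_simp
    ring
  rw [e1, e2]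
  have h5 : 3 / 4 ≤ y ^ 2 - y + 1 := by nlinarith [sq_nonneg (y - 1 / 2)]
  have h6 : 3 / 4 ≤ a ^ 2 - a + 1 := by nlinarith [sq_nonneg (a - 1 / 2)]
  have h7 : (1:ℝ) ≤ 2 * ((a ^ 2 - a + 1) * (y ^ 2 - y + 1)) := by nlinarith
  have h8 : 0 ≤ a * y * (a + y) := by positivity
  refine div_le_div_of_nonneg_right ?_ (by positivity)
  exact mul_le_mul_of_nonneg_left (by linarith) (by linarith)

theorem riem_low (h s : ℝ) (hh : 0 < h) (hh1 : h ≤ 1) (hs : 0 < s) (m : ℕ) :
    (C0 - 2 * h) * s ^ (-(2 / 3) : ℝ) - 4 / s - 4 * Real.exp (-(2 / 3) * (m * h)) ≤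
    ∑ j ∈ range m, h * Real.exp ((j * h) / 3) / (s + Real.exp (j * h)) := by
  set c : ℝ := Real.log s / 3 with hc
  have hs3 : s = Real.exp (3 * c) := by
    rw [hc, show 3 * (Real.log s / 3) = Real.log s by ring, Real.exp_log hs]
  have hs2 : s ^ (-(2 / 3) : ℝ) = Real.exp (-2 * c) := by
    rw [Real.rpow_def_of_pos hs, hc]
    congr 1
    ring
  set E : ℝ := Real.exp (-2 * c) with hE
  have hE0 : 0 < E := Real.exp_pos _
  have hX : ∀ t : ℝ, 0 < Real.exp (t / 3 - c) := fun t => Real.exp_pos _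
  -- the function in terms of x
  have hf : ∀ t : ℝ, Real.exp (t / 3) / (s + Real.exp t) =
      E * (Real.exp (t / 3 - c) / (1 + Real.exp (t / 3 - c) ^ 3)) := by
    intro t
    have e1 : Real.exp (t / 3) = Real.exp c * Real.exp (t / 3 - c) := by
      rw [← Real.exp_add]; congr 1; ring
    have e2 : s + Real.exp t = Real.exp (3 * c) * (1 + Real.exp (t / 3 - c) ^ 3) := by
      rw [mul_add, mul_one, ← Real.exp_nat_mul, ← Real.exp_add, ← hs3]
      congr 2
      push_cast
      ring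
    have e3 : E * Real.exp (3 * c) = Real.exp c := by
      rw [hE, ← Real.exp_add]; congr 1; ring
    rw [e1, e2, ← e3]
    have h1 := Real.exp_pos (3 * c)
    have h2 : 0 < 1 + Real.exp (t / 3 - c) ^ 3 := by positivity
    field_simp
  have hG : ∀ t : ℝ, HasDerivAt (fun t => E * rl845H (Real.exp (t / 3 - c)))
      (Real.exp (t / 3) / (s + Real.exp t)) t := by
    intro t
    have h1 : HasDerivAt (fun t : ℝ => Real.exp (t / 3 - c)) (Real.exp (t / 3 - c) * (1 / 3)) t := by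
      have := (((hasDerivAt_id t).div_const 3).sub_const c).exp
      simpa using this
    have h2 := ((rl845H_der _ (hX t).le).comp t h1).const_mul E
    refine h2.congr_deriv ?_
    rw [hf t]
    ring
  have step : ∀ j : ℕ, E * rl845H (Real.exp (((j + 1 : ℕ) * h) / 3 - c)) -
      E * rl845H (Real.exp ((j * h) / 3 - c)) ≤
      h * Real.exp ((j * h) / 3) / (s + Real.exp (j * h)) +
      h * E * (2 / (1 + Real.exp ((j * h) / 3 - c)) -
        2 / (1 + Real.exp (((j + 1 : ℕ) * h) / 3 - c))) := by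
    intro j
    have hlt : (j:ℝ) * h < ((j + 1 : ℕ) : ℝ) * h := by
      push_cast
      nlinarith
    obtain ⟨t, ht, he⟩ := exists_hasDerivAt_eq_slope (fun t => E * rl845H (Real.exp (t / 3 - c)))
      (fun t => Real.exp (t / 3) / (s + Real.exp t)) hlt
      (fun y hy => (hG y).continuousAt.continuousWithinAt) (fun y hy => hG y)
    have hbh : ((j + 1 : ℕ) : ℝ) * h - j * h = h := by push_cast; ring
    rw [hbh, eq_div_iff hh.ne'] at he
    have h1 := rl845_phi (Real.exp ((j * h) / 3 - c)) (Real.exp (t / 3 - c)) (hX _).le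
      (Real.exp_le_exp.2 (by linarith [ht.1]))
    have h2 : 2 / (1 + Real.exp (((j + 1 : ℕ) * h) / 3 - c)) ≤ 2 / (1 + Real.exp (t / 3 - c)) := by
      refine div_le_div_of_nonneg_left (by norm_num) (by have := hX t; linarith) ?_
      have : Real.exp (t / 3 - c) ≤ Real.exp (((j + 1 : ℕ) * h) / 3 - c) :=
        Real.exp_le_exp.2 (by linarith [ht.2])
      linarith
    have h3 : Real.exp (t / 3) / (s + Real.exp t) ≤
        Real.exp ((j * h) / 3) / (s + Real.exp (j * h)) +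
        E * (2 / (1 + Real.exp ((j * h) / 3 - c)) -
          2 / (1 + Real.exp (((j + 1 : ℕ) * h) / 3 - c))) := by
      rw [hf t, hf (j * h), ← mul_add]
      exact mul_le_mul_of_nonneg_left (by linarith) hE0.le
    have h4 := mul_le_mul_of_nonneg_right h3 hh.le
    rw [he] at h4
    refine h4.trans (le_of_eq ?_)
    ring
  have tele : ∀ n : ℕ, E * rl845H (Real.exp ((n * h) / 3 - c)) -
      E * rl845H (Real.exp (((0 : ℕ) * h) / 3 - c)) ≤
      (∑ j ∈ range n, h * Real.exp ((j * h) / 3) / (s + Real.exp (j * h))) +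
      h * E * (2 / (1 + Real.exp (((0 : ℕ) * h) / 3 - c)) -
        2 / (1 + Real.exp ((n * h) / 3 - c))) := by
    intro n
    induction n with
    | zero => simp
    | succ n ih =>
      have h1 := step n
      rw [sum_range_succ]
      have e : h * E * (2 / (1 + Real.exp (((0 : ℕ) * h) / 3 - c)) -
        2 / (1 + Real.exp (((n + 1 : ℕ) * h) / 3 - c))) =
        h * E * (2 / (1 + Real.exp (((0 : ℕ) * h) / 3 - c)) -
        2 / (1 + Real.exp ((n * h) / 3 - c))) + h * E * (2 / (1 + Real.exp ((n * h) / 3 - c)) -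
        2 / (1 + Real.exp (((n + 1 : ℕ) * h) / 3 - c))) := by ring
      rw [e]
      linarith
  have hm := tele m
  have e0 : Real.exp (((0 : ℕ) * h) / 3 - c) = Real.exp (-c) := by
    congr 1
    push_cast
    ring
  rw [e0] at hm
  have b1 := rl845H_up (Real.exp (-c)) (Real.exp_pos _)
  have b2 := rl845H_low (Real.exp ((m * h) / 3 - c)) (Real.exp_pos _)
  have b3 : 2 / (1 + Real.exp (-c)) ≤ 2 := by
    rw [div_le_iff₀ (by positivity)]
    nlinarith [Real.exp_pos (-c)]
  have b4 : 0 ≤ 2 / (1 + Real.exp ((m * h) / 3 - c)) := by positivity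
  have b5 : E * (3 * Real.exp (-c)) = 3 / s := by
    rw [hs3, div_eq_mul_inv, ← Real.exp_neg, hE]
    have : Real.exp (-2 * c) * (3 * Real.exp (-c)) = 3 * (Real.exp (-2 * c) * Real.exp (-c)) := by
      ring
    rw [this, ← Real.exp_add]
    congr 2
    ring
  have b6 : E * ((3 / 2) * (Real.exp ((m * h) / 3 - c) ^ 2)⁻¹) =
      (3 / 2) * Real.exp (-(2 / 3) * (m * h)) := by
    rw [← Real.exp_nat_mul, ← Real.exp_neg, hE]
    have : ∀ A B : ℝ, Real.exp A * (3 / 2 * Real.exp B) = 3 / 2 * (Real.exp A * Real.exp B) := by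
      intro A B; ring
    rw [this, ← Real.exp_add]
    congr 2
    push_cast
    ring
  have b7 : C0 = √3 * (Real.pi / 2) + √3 * (Real.pi / 6) := by
    unfold C0
    have h3 : (0:ℝ) < √3 := Real.sqrt_pos.2 (by norm_num)
    have h33 : √3 * √3 = 3 := Real.mul_self_sqrt (by norm_num)
    rw [div_eq_iff h3.ne']
    have : (√3 * (Real.pi / 2) + √3 * (Real.pi / 6)) * √3 =
      (√3 * √3) * (Real.pi / 2 + Real.pi / 6) := by ring
    rw [this, h33]
    ring
  have c1 := mul_le_mul_of_nonneg_left b1 hE0.le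
  have c2 := mul_le_mul_of_nonneg_left b2 hE0.le
  rw [mul_add, b5] at c1
  rw [mul_add, b6] at c2
  have c3 : h * E * (2 / (1 + Real.exp (-c)) - 2 / (1 + Real.exp ((m * h) / 3 - c))) ≤
      h * E * 2 := mul_le_mul_of_nonneg_left (by linarith) (by positivity)
  rw [hs2, b7]
  have d1 : 0 < 3 / s := by positivity
  have d2 : 4 / s = 3 / s + 1 / s := by ring
  have d3 : 0 < 1 / s := by positivity
  have d4 := Real.exp_pos (-(2 / 3) * (m * h))
  have d5 : (√3 * (Real.pi / 2) + √3 * (Real.pi / 6) - 2 * h) * E =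
      E * (√3 * (Real.pi / 2)) - E * (-(√3 * (Real.pi / 6))) - h * E * 2 := by ring
  rw [d5, d2]
  linarith
end Pool.Agent.OHP
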