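import Pool.Agent.Helper547.OH.Defs
import Pool.Agent.Helper547.OH.P_riem_low

/-! Definitions for the completely isometric embedding of OH into a von Neumann algebra predual. -/

set_option autoImplicit false

namespace Pool.Agent.OHP
open scoped InnerProductSpace ComplexConjugate ComplexOrder
open Finset


/-- functional calculus in a fixed orthonormal basis -/
noncomputable def dlDD {l : ℕ} (U : Mat l) (f : Fin l → ℝ) : Mat l :=
  U * Matrix.diagonal (fun i => ((f i : ℝ) : ℂ)) * U.conjTranspose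

theorem dlDD_mul {l : ℕ} (U : Mat l) (hU : U.conjTranspose * U = 1) (f g : Fin l → ℝ) :
    dlDD U f * dlDD U g = dlDD U (fun i => f i * g i) := by
  unfold dlDD
  calc U * Matrix.diagonal (fun i => ((f i : ℝ) : ℂ)) * U.conjTranspose *
      (U * Matrix.diagonal (fun i => ((g i : ℝ) : ℂ)) * U.conjTranspose)
      = U * Matrix.diagonal (fun i => ((f i : ℝ) : ℂ)) * (U.conjTranspose * U) *
        Matrix.diagonal (fun i => ((g i : ℝ) : ℂ)) * U.conjTranspose := by
        simp only [Matrix.mul_assoc]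
    _ = U * (Matrix.diagonal (fun i => ((f i : ℝ) : ℂ)) *
        Matrix.diagonal (fun i => ((g i : ℝ) : ℂ))) * U.conjTranspose := by
        rw [hU, Matrix.mul_one]
        simp only [Matrix.mul_assoc]
    _ = _ := by
        rw [Matrix.diagonal_mul_diagonal]
        congr 3
        funext i
        push_cast
        rfl

theorem dlDD_one {l : ℕ} (U : Mat l) (hU : U * U.conjTranspose = 1) :
    dlDD U (fun _ => 1) = 1 := by
  unfold dlDD
  have : (Matrix.diagonal (fun _ : Fin l => (((1 : ℝ)) : ℂ))) = 1 := by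
    rw [← Matrix.diagonal_one]
    congr 1
  rw [this, Matrix.mul_one, hU]

theorem dlDD_add {l : ℕ} (U : Mat l) (f g : Fin l → ℝ) :
    dlDD U f + dlDD U g = dlDD U (fun i => f i + g i) := by
  unfold dlDD
  rw [← Matrix.add_mul, ← Matrix.mul_add, Matrix.diagonal_add]
  congr 3
  funext i
  push_cast
  rfl

theorem dlDD_sub {l : ℕ} (U : Mat l) (f g : Fin l → ℝ) :
    dlDD U f - dlDD U g = dlDD U (fun i => f i - g i) := by
  unfold dlDD
  rw [← Matrix.sub_mul, ← Matrix.mul_sub, Matrix.diagonal_sub]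
  congr 3
  funext i
  push_cast
  rfl

theorem dlDD_smul {l : ℕ} (U : Mat l) (c : ℝ) (f : Fin l → ℝ) :
    (c : ℂ) • dlDD U f = dlDD U (fun i => c * f i) := by
  unfold dlDD
  rw [← Matrix.smul_mul, ← Matrix.mul_smul, ← Matrix.diagonal_smul]
  congr 3
  funext i
  simp

theorem dlDD_sum {l : ℕ} (U : Mat l) (m : ℕ) (f : ℕ → Fin l → ℝ) :
    ∑ j ∈ range m, dlDD U (f j) = dlDD U (fun i => ∑ j ∈ range m, f j i) := by
  induction m with
  | zero =>
    simp only [Finset.sum_range_zero]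
    unfold dlDD
    have : (Matrix.diagonal (fun _ : Fin l => (((0 : ℝ)) : ℂ))) = 0 := by
      rw [← Matrix.diagonal_zero]
      congr 1
    rw [this, Matrix.mul_zero, Matrix.zero_mul]
  | succ m ih =>
    rw [Finset.sum_range_succ, ih, dlDD_add]
    congr 1
    funext i
    rw [Finset.sum_range_succ]

theorem dlDD_inv {l : ℕ} (U : Mat l) (hU : U.conjTranspose * U = 1) (hU' : U * U.conjTranspose = 1)
    (f : Fin l → ℝ) (hf : ∀ i, f i ≠ 0) : (dlDD U f)⁻¹ = dlDD U (fun i => (f i)⁻¹) := by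
  apply Matrix.inv_eq_right_inv
  rw [dlDD_mul U hU, ← dlDD_one U hU']
  congr 1
  funext i
  exact mul_inv_cancel₀ (hf i)

theorem dlDD_psd {l : ℕ} (U : Mat l) (f : Fin l → ℝ) (hf : ∀ i, 0 ≤ f i) :
    (dlDD U f).PosSemidef := by
  unfold dlDD
  apply Matrix.PosSemidef.mul_mul_conjTranspose_same
  rw [Matrix.posSemidef_diagonal_iff]
  intro i
  exact Complex.zero_le_real.2 (hf i)

/-- the scalar inequality -/
theorem dl_scalar (x x0 : ℝ) (hx : 0 < x) (hx1 : x ≤ 1) (hx0 : 0 < x0) (hx0x : x0 ≤ x)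
    (m : ℕ) (h y t : ℝ) (hh : 0 < h) (hh1 : h ≤ 1) (hy : 0 < y) (ht : 0 < t) :
    ((C0 - 2 * h) * y ^ (-(2 / 3) : ℝ) * t ^ (-(1 / 3) : ℝ) - 4 / y -
        4 * Real.exp (-(2 / 3) * (m * h)) / (t * x0 ^ 2)) * x⁻¹ ≤
      ∑ j ∈ range m, (ww h j * uu h m j) * (y + uu h m j * (t * x ^ 3))⁻¹ := by
  set A : ℝ := t * x ^ 3 with hA
  have hA0 : 0 < A := by positivity
  have hs : 0 < y / A := by positivity
  have hr := riem_low h (y / A) hh hh1 hs m
  have hsum : ∑ j ∈ range m, (ww h j * uu h m j) * (y + uu h m j * A)⁻¹ =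
      A⁻¹ * ∑ j ∈ range m, h * Real.exp ((j * h) / 3) / (y / A + Real.exp (j * h)) := by
    rw [Finset.mul_sum]
    apply Finset.sum_congr rfl
    intro j hj
    rw [Finset.mem_range] at hj
    have hu : uu h m j = Real.exp (j * h) := by
      unfold uu
      rw [if_pos hj]
    have hw : ww h j * Real.exp (j * h) = h * Real.exp ((j * h) / 3) := by
      unfold ww
      rw [mul_assoc, ← Real.exp_add]
      congr 2
      ring
    rw [hu, hw]
    have hE := Real.exp_pos (j * h)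
    have h1 : y + Real.exp (j * h) * A = A * (y / A + Real.exp (j * h)) := by
      field_simp
    rw [h1, mul_inv]
    ring
  rw [hsum]
  have key : A⁻¹ * (y / A) ^ (-(2 / 3) : ℝ) = y ^ (-(2 / 3) : ℝ) * t ^ (-(1 / 3) : ℝ) * x⁻¹ := by
    rw [Real.div_rpow hy.le hA0.le]
    have h1 : A⁻¹ = A ^ (-1 : ℝ) := (Real.rpow_neg_one A).symm
    have h2 : A ^ (-(1 / 3) : ℝ) = t ^ (-(1 / 3) : ℝ) * x⁻¹ := by
      rw [hA, Real.mul_rpow ht.le (by positivity)]
      congr 1
      rw [← Real.rpow_natCast x 3, ← Real.rpow_mul hx.le, ← Real.rpow_neg_one x]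
      congr 1
      norm_num
    have h3 : A⁻¹ / A ^ (-(2 / 3) : ℝ) = A ^ (-(1 / 3) : ℝ) := by
      rw [h1, ← Real.rpow_sub hA0]
      norm_num
    calc A⁻¹ * (y ^ (-(2 / 3) : ℝ) / A ^ (-(2 / 3) : ℝ))
        = y ^ (-(2 / 3) : ℝ) * (A⁻¹ / A ^ (-(2 / 3) : ℝ)) := by ring
      _ = _ := by rw [h3, h2]; ring
  have hlow := mul_le_mul_of_nonneg_left hr (inv_pos.2 hA0).le
  refine le_trans ?_ hlow
  have e1 : A⁻¹ * (4 / (y / A)) = 4 / y := by field_simp
  have e2 : A⁻¹ * ((C0 - 2 * h) * (y / A) ^ (-(2 / 3) : ℝ) - 4 / (y / A) -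
      4 * Real.exp (-(2 / 3) * (m * h))) =
      (C0 - 2 * h) * (A⁻¹ * (y / A) ^ (-(2 / 3) : ℝ)) - A⁻¹ * (4 / (y / A)) -
        A⁻¹ * (4 * Real.exp (-(2 / 3) * (m * h))) := by ring
  rw [e2, key, e1]
  have hxi : 1 ≤ x⁻¹ := (one_le_inv₀ hx).2 hx1
  have i1 : 4 / y ≤ 4 / y * x⁻¹ := le_mul_of_one_le_right (by positivity) hxi
  have hE := Real.exp_pos (-(2 / 3) * (m * h))
  have i2 : A⁻¹ * (4 * Real.exp (-(2 / 3) * (m * h))) ≤
      4 * Real.exp (-(2 / 3) * (m * h)) / (t * x0 ^ 2) * x⁻¹ := by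
    have hle : t * x0 ^ 2 * x ≤ A := by
      rw [hA]
      have : x0 ^ 2 ≤ x ^ 2 := pow_le_pow_left₀ hx0.le hx0x 2
      have h5 : x0 ^ 2 * x ≤ x ^ 2 * x := mul_le_mul_of_nonneg_right this hx.le
      have h6 : t * (x0 ^ 2 * x) ≤ t * (x ^ 2 * x) := mul_le_mul_of_nonneg_left h5 ht.le
      calc t * x0 ^ 2 * x = t * (x0 ^ 2 * x) := by ring
        _ ≤ t * (x ^ 2 * x) := h6
        _ = t * x ^ 3 := by ring
    have hinv : A⁻¹ ≤ (t * x0 ^ 2 * x)⁻¹ := inv_anti₀ (by positivity) hle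
    calc A⁻¹ * (4 * Real.exp (-(2 / 3) * (m * h)))
        ≤ (t * x0 ^ 2 * x)⁻¹ * (4 * Real.exp (-(2 / 3) * (m * h))) :=
          mul_le_mul_of_nonneg_right hinv (by positivity)
      _ = _ := by rw [mul_inv]; ring
  have e3 : ((C0 - 2 * h) * y ^ (-(2 / 3) : ℝ) * t ^ (-(1 / 3) : ℝ) - 4 / y -
        4 * Real.exp (-(2 / 3) * (m * h)) / (t * x0 ^ 2)) * x⁻¹ =
      (C0 - 2 * h) * (y ^ (-(2 / 3) : ℝ) * t ^ (-(1 / 3) : ℝ) * x⁻¹) - 4 / y * x⁻¹ -
        4 * Real.exp (-(2 / 3) * (m * h)) / (t * x0 ^ 2) * x⁻¹ := by ring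
  rw [e3]
  linarith

theorem dys_lower {l : ℕ} (q : Mat l) (hq : q.PosDef) (htr : (q ^ 2).trace = 1) (x0 : ℝ)
    (hx0 : 0 < x0) (hqx : (q - (x0 : ℂ) • (1 : Mat l)).PosSemidef) (m : ℕ) (h y t : ℝ)
    (hh : 0 < h) (hh1 : h ≤ 1) (hy : 0 < y) (ht : 0 < t) :
    (dys m (uu h m) (ww h) y ((t : ℂ) • q ^ 3) -
      (((C0 - 2 * h) * y ^ (-(2 / 3) : ℝ) * t ^ (-(1 / 3) : ℝ) - 4 / y -
        4 * Real.exp (-(2 / 3) * (m * h)) / (t * x0 ^ 2) : ℝ) : ℂ) • q⁻¹).PosSemidef := by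
  obtain ⟨U, hU, hU', x, hx, hqU⟩ : ∃ U : Mat l, U.conjTranspose * U = 1 ∧
      U * U.conjTranspose = 1 ∧ ∃ x : Fin l → ℝ, (∀ i, 0 < x i) ∧ q = dlDD U x := by
    refine ⟨(hq.1.eigenvectorUnitary : Mat l), ?_, ?_, hq.1.eigenvalues,
      fun i => hq.eigenvalues_pos i, ?_⟩
    · exact Unitary.coe_star_mul_self hq.1.eigenvectorUnitary
    · exact Unitary.coe_mul_star_self hq.1.eigenvectorUnitary
    · have := hq.1.spectral_theorem
      rw [Unitary.conjStarAlgAut_apply] at this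
      exact this
  have hq2 : q ^ 2 = dlDD U (fun i => x i ^ 2) := by
    rw [pow_two, hqU, dlDD_mul U hU]
    congr 1
    funext i
    ring
  have hq3 : q ^ 3 = dlDD U (fun i => x i ^ 3) := by
    rw [pow_succ, hq2, hqU, dlDD_mul U hU]
    congr 1
  have hsum : ∑ i, x i ^ 2 = 1 := by
    rw [hq2] at htr
    unfold dlDD at htr
    rw [Matrix.trace_mul_comm, ← Matrix.mul_assoc, hU, Matrix.one_mul, Matrix.trace_diagonal] at htr
    exact_mod_cast htr
  have hx1 : ∀ i, x i ≤ 1 := by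
    intro i
    have h1 : x i ^ 2 ≤ 1 := by
      rw [← hsum]
      exact Finset.single_le_sum (f := fun i => x i ^ 2) (fun j _ => sq_nonneg _)
        (Finset.mem_univ i)
    nlinarith [hx i]
  have hx0i : ∀ i, x0 ≤ x i := by
    have h1 : q - (x0 : ℂ) • (1 : Mat l) = dlDD U (fun i => x i - x0) := by
      rw [← dlDD_one U hU', dlDD_smul, hqU, dlDD_sub]
      congr 1
      funext i
      ring
    rw [h1] at hqx
    have h2 := hqx.conjTranspose_mul_mul_same U
    have h3 : U.conjTranspose * dlDD U (fun i => x i - x0) * U =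
        Matrix.diagonal (fun i => ((x i - x0 : ℝ) : ℂ)) := by
      unfold dlDD
      calc U.conjTranspose * (U * Matrix.diagonal (fun i => ((x i - x0 : ℝ) : ℂ)) *
          U.conjTranspose) * U
          = (U.conjTranspose * U) * Matrix.diagonal (fun i => ((x i - x0 : ℝ) : ℂ)) *
            (U.conjTranspose * U) := by simp only [Matrix.mul_assoc]
        _ = _ := by rw [hU, Matrix.one_mul, Matrix.mul_one]
    rw [h3, Matrix.posSemidef_diagonal_iff] at h2
    intro i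
    have := Complex.zero_le_real.1 (h2 i)
    linarith
  have hterm : ∀ j, ((ww h j * uu h m j : ℝ) : ℂ) •
      ((y : ℂ) • (1 : Mat l) + (uu h m j : ℂ) • ((t : ℂ) • q ^ 3))⁻¹ =
      dlDD U (fun i => (ww h j * uu h m j) * (y + uu h m j * (t * x i ^ 3))⁻¹) := by
    intro j
    have hu0 : 0 ≤ uu h m j := by
      unfold uu
      split_ifs
      · exact (Real.exp_pos _).le
      · exact le_rfl
    rw [hq3, dlDD_smul, dlDD_smul, ← dlDD_one U hU', dlDD_smul, dlDD_add, dlDD_inv U hU hU' _ _,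
      dlDD_smul]
    · congr 1
      funext i
      rw [mul_one]
    · intro i
      have := hx i
      have h5 : 0 ≤ uu h m j * (t * x i ^ 3) := by positivity
      rw [mul_one]
      linarith
  unfold dys
  rw [Finset.sum_congr rfl (fun j _ => hterm j), dlDD_sum]
  have hqinv : q⁻¹ = dlDD U (fun i => (x i)⁻¹) := by
    rw [hqU]
    exact dlDD_inv U hU hU' x (fun i => (hx i).ne')
  rw [hqinv, dlDD_smul, dlDD_sub]
  apply dlDD_psd
  intro i
  have := dl_scalar (x i) x0 (hx i) (hx1 i) hx0 (hx0i i) m h y t hh hh1 hy ht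
  linarith

end Pool.Agent.OHP
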