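import Pool.Agent.Helper547.OH.Defs

/-! Definitions for the completely isometric embedding of OH into a von Neumann algebra predual. -/

set_option autoImplicit false

namespace Pool.Agent.OHP
open scoped InnerProductSpace ComplexConjugate ComplexOrder
open Finset


theorem dsc_pd {l : ℕ} (y : ℝ) (hy : 0 < y) (t : ℝ) (ht : 0 ≤ t) (B : Mat l)
    (hB : B.PosSemidef) : ((y : ℂ) • (1 : Mat l) + (t : ℂ) • B).PosDef := by
  have h1 : ((y : ℂ) • (1 : Mat l)).PosDef := Matrix.PosDef.one.smul (by exact_mod_cast hy)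
  have h2 : ((t : ℂ) • B).PosSemidef := hB.smul (by exact_mod_cast ht)
  exact h1.add_posSemidef h2

theorem dsc_term {l : ℕ} (y : ℝ) (hy : 0 < y) (u : ℝ) (hu : 0 ≤ u) (B : Mat l)
    (hB : B.PosSemidef) (β : ℝ) (hβ : 1 ≤ β) :
    (((y : ℂ) • (1 : Mat l) + (u : ℂ) • ((β : ℂ) • B))⁻¹
      - ((β⁻¹ : ℝ) : ℂ) • ((y : ℂ) • (1 : Mat l) + (u : ℂ) • B)⁻¹).PosSemidef := by
  have hβ0 : 0 < β := by linarith
  have hβc : (β : ℂ) ≠ 0 := by exact_mod_cast hβ0.ne'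
  set A0 : Mat l := (y : ℂ) • (1 : Mat l) + (u : ℂ) • B with hA0
  set A1 : Mat l := (y : ℂ) • (1 : Mat l) + (u : ℂ) • ((β : ℂ) • B) with hA1
  have p0 : A0.PosDef := dsc_pd y hy u hu B hB
  have p1 : A1.PosDef := by
    have := dsc_pd y hy (u * β) (by positivity) B hB
    rw [hA1, smul_smul]
    push_cast at this
    exact this
  have u0 : IsUnit A0.det := (Matrix.isUnit_iff_isUnit_det A0).mp p0.isUnit
  have u1 : IsUnit A1.det := (Matrix.isUnit_iff_isUnit_det A1).mp p1.isUnit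
  have hR : (A0 * A1).PosDef := by
    have e : A0 * A1 = ((y ^ 2 : ℝ) : ℂ) • (1 : Mat l)
        + ((1 : ℝ) : ℂ) • (((y * u * (1 + β) : ℝ) : ℂ) • B + ((u ^ 2 * β : ℝ) : ℂ) • (B * B)) := by
      rw [hA0, hA1]
      simp only [add_mul, mul_add, Matrix.smul_mul, Matrix.mul_smul, smul_smul, one_mul, mul_one,
        smul_add]
      push_cast
      module
    rw [e]
    refine dsc_pd _ (by positivity) 1 zero_le_one _ ?_
    have h1 : (((y * u * (1 + β) : ℝ) : ℂ) • B).PosSemidef := hB.smul (by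
      have : 0 ≤ y * u * (1 + β) := by positivity
      exact_mod_cast this)
    have h2 : (B * B).PosSemidef := by
      have := Matrix.posSemidef_conjTranspose_mul_self B
      rwa [hB.isHermitian.eq] at this
    have h3 : (((u ^ 2 * β : ℝ) : ℂ) • (B * B)).PosSemidef := h2.smul (by
      have : 0 ≤ u ^ 2 * β := by positivity
      exact_mod_cast this)
    exact h1.add h3
  have key : A1⁻¹ - ((β⁻¹ : ℝ) : ℂ) • A0⁻¹ = (((1 - β⁻¹) * y : ℝ) : ℂ) • (A0 * A1)⁻¹ := by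
    rw [Matrix.mul_inv_rev]
    have e1 : A1⁻¹ = A1⁻¹ * (A0 * A0⁻¹) := by rw [Matrix.mul_nonsing_inv _ u0, mul_one]
    have e2 : ((β⁻¹ : ℝ) : ℂ) • A0⁻¹ = A1⁻¹ * ((((β⁻¹ : ℝ) : ℂ) • A1) * A0⁻¹) := by
      rw [← mul_assoc, Matrix.mul_smul, Matrix.nonsing_inv_mul _ u1, Matrix.smul_mul, one_mul]
    have e3 : A0 - ((β⁻¹ : ℝ) : ℂ) • A1 = (((1 - β⁻¹) * y : ℝ) : ℂ) • (1 : Mat l) := by
      rw [hA0, hA1]
      push_cast
      simp only [smul_add, smul_smul]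
      have : (β : ℂ)⁻¹ * ((u : ℂ) * (β : ℂ)) = u := by field_simp
      rw [this]
      module
    calc A1⁻¹ - ((β⁻¹ : ℝ) : ℂ) • A0⁻¹
        = A1⁻¹ * (A0 * A0⁻¹) - A1⁻¹ * ((((β⁻¹ : ℝ) : ℂ) • A1) * A0⁻¹) := by rw [← e1, ← e2]
      _ = A1⁻¹ * ((A0 - ((β⁻¹ : ℝ) : ℂ) • A1) * A0⁻¹) := by rw [← mul_sub, ← sub_mul]
      _ = _ := by rw [e3, Matrix.smul_mul, one_mul, Matrix.mul_smul]
  rw [key]
  refine hR.inv.posSemidef.smul ?_
  have h1 : β⁻¹ ≤ 1 := inv_le_one_of_one_le₀ hβ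
  have : 0 ≤ (1 - β⁻¹) * y := mul_nonneg (by linarith) hy.le
  exact_mod_cast this

theorem dys_scale {l m : ℕ} {u w : ℕ → ℝ} (hu : ∀ j, 0 ≤ u j) (hw : ∀ j, 0 ≤ w j)
    (y : ℝ) (hy : 0 < y) (B : Mat l) (hB : B.PosSemidef) (β : ℝ) (hβ : 1 ≤ β) :
    (dys m u w y ((β : ℂ) • B) - ((β⁻¹ : ℝ) : ℂ) • dys m u w y B).PosSemidef := by
  unfold dys
  rw [Finset.smul_sum, ← Finset.sum_sub_distrib]
  refine Matrix.posSemidef_sum _ fun j _ => ?_
  have h1 := dsc_term y hy (u j) (hu j) B hB β hβ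
  have h2 : (0 : ℂ) ≤ ((w j * u j : ℝ) : ℂ) := by
    have := mul_nonneg (hw j) (hu j)
    exact_mod_cast this
  have h3 := h1.smul h2
  rw [smul_sub, smul_comm ((w j * u j : ℝ) : ℂ) ((β⁻¹ : ℝ) : ℂ)] at h3
  exact h3

end Pool.Agent.OHP

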