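import Pool.Agent.Helper547.OH.Defs
import Pool.Agent.Helper547.OH.P_dys_anti
import Pool.Agent.Helper547.OH.P_dys_scale
import Pool.Agent.Helper547.OH.P_dys_lower

/-! Definitions for the completely isometric embedding of OH into a von Neumann algebra predual. -/

set_option autoImplicit false

namespace Pool.Agent.OHP
open scoped InnerProductSpace ComplexConjugate ComplexOrder
open Finset


theorem psd_smul_aux {l : ℕ} {A : Mat l} (hA : A.PosSemidef) (r : ℝ) (hr : 0 ≤ r) :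
    ((r : ℂ) • A).PosSemidef :=
  hA.smul (Complex.zero_le_real.2 hr)

theorem et'_mono_aux {n l : ℕ} (c : Fin n → Mat l) (K L : Mat l) (h : (L - K).PosSemidef) :
    (et' c L - et' c K).PosSemidef := by
  have e : et' c L - et' c K = ∑ i, (c i).conjTranspose * (L - K) * c i := by
    unfold et'
    rw [← Finset.sum_sub_distrib]
    refine Finset.sum_congr rfl (fun i _ => ?_)
    rw [mul_sub, sub_mul]
  rw [e]
  exact Matrix.posSemidef_sum _ (fun i _ => h.conjTranspose_mul_mul_same (c i))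

theorem et'_psd_aux {n l : ℕ} (c : Fin n → Mat l) (K : Mat l) (h : K.PosSemidef) :
    (et' c K).PosSemidef := by
  unfold et'
  exact Matrix.posSemidef_sum _ (fun i _ => h.conjTranspose_mul_mul_same (c i))

theorem et'_smul_aux {n l : ℕ} (c : Fin n → Mat l) (K : Mat l) (s : ℂ) :
    et' c (s • K) = s • et' c K := by
  unfold et'
  rw [Finset.smul_sum]
  refine Finset.sum_congr rfl (fun i _ => ?_)
  rw [Matrix.mul_smul, Matrix.smul_mul]

theorem onestep_low {n l : ℕ} (c : Fin n → Mat l) (p q : Mat l) (lam : ℝ) (hF : FixPt c p q lam)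
    (m : ℕ) (h y ε β x0 : ℝ) (hh : 0 < h) (hh1 : h ≤ 1) (hy : 0 < y) (hβ : 1 ≤ β) (hε : ε ≤ 1)
    (hx0 : 0 < x0) (hqx : (q - (x0 : ℂ) • (1 : Mat l)).PosSemidef)
    (hG : (1 - ε) * (aa lam * y ^ (-(1 / 2) : ℝ)) ≤
      (C0 - 2 * h) * y ^ (-(2 / 3) : ℝ) * (aa lam * y ^ (-(1 / 2) : ℝ) * lam) ^ (-(1 / 3) : ℝ) -
        4 / y - 4 * Real.exp (-(2 / 3) * (m * h)) / (aa lam * y ^ (-(1 / 2) : ℝ) * lam * x0 ^ 2))
    (K1 K2 : Mat l) (D : Dyson m (uu h m) (ww h) y c K1 K2)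
    (hK : (((β * (aa lam * y ^ (-(1 / 2) : ℝ)) : ℝ) : ℂ) • p⁻¹ - K1).PosSemidef) :
    (K2 - (((1 - ε) / β * (aa lam * y ^ (-(1 / 2) : ℝ)) : ℝ) : ℂ) • q⁻¹).PosSemidef := by
  have hlam := hF.lam_pos
  have hC0 : 0 < C0 := by unfold C0; positivity
  have haa : 0 < aa lam := by
    unfold aa
    exact mul_pos (Real.rpow_pos_of_pos hC0 _) (Real.rpow_pos_of_pos hlam _)
  have ha1 : 0 < aa lam * y ^ (-(1 / 2) : ℝ) := mul_pos haa (Real.rpow_pos_of_pos hy _)
  set a1 := aa lam * y ^ (-(1 / 2) : ℝ) with ha1def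
  have ht1 : 0 < a1 * lam := mul_pos ha1 hlam
  have hβ0 : 0 < β := lt_of_lt_of_le one_pos hβ
  have huu : ∀ j, 0 ≤ uu h m j := by
    intro j
    unfold uu
    split_ifs
    · exact (Real.exp_pos _).le
    · exact le_rfl
  have hww : ∀ j, 0 ≤ ww h j := fun j => by unfold ww; positivity
  set G := (C0 - 2 * h) * y ^ (-(2 / 3) : ℝ) * (a1 * lam) ^ (-(1 / 3) : ℝ) -
        4 / y - 4 * Real.exp (-(2 / 3) * (m * h)) / (a1 * lam * x0 ^ 2) with hGdef
  set Q := ((a1 * lam : ℝ) : ℂ) • q ^ 3 with hQ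
  have hQpsd : Q.PosSemidef := psd_smul_aux (hF.hq.posSemidef.pow 3) _ ht1.le
  have hB : (et' c K1).PosSemidef := et'_psd_aux c K1 D.h1
  have e1 : et' c (((β * a1 : ℝ) : ℂ) • p⁻¹) = (β : ℂ) • Q := by
    rw [et'_smul_aux, hF.h2, hQ, smul_smul, smul_smul]
    congr 1
    push_cast
    ring
  have hBB : ((β : ℂ) • Q - et' c K1).PosSemidef := by
    rw [← e1]
    exact et'_mono_aux c _ _ hK
  have s1 := dys_anti (m := m) huu hww y hy (et' c K1) ((β : ℂ) • Q) hB hBB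
  have s2 := dys_scale (m := m) huu hww y hy Q hQpsd β hβ
  have s3 := psd_smul_aux (dys_lower q hF.hq hF.tq x0 hx0 hqx m h y (a1 * lam) hh hh1 hy ht1)
    β⁻¹ (by positivity)
  have s4 : (((β⁻¹ * (G - (1 - ε) * a1) : ℝ) : ℂ) • q⁻¹).PosSemidef :=
    psd_smul_aux hF.hq.inv.posSemidef _ (mul_nonneg (by positivity) (by linarith))
  have s5 := ((s1.add s2).add s3).add s4
  rw [← D.e2] at s5
  convert s5 using 1
  have e2 : (((1 - ε) / β * a1 : ℝ) : ℂ) • q⁻¹ = ((β⁻¹ : ℝ) : ℂ) • (((G : ℝ) : ℂ) • q⁻¹) -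
      ((β⁻¹ * (G - (1 - ε) * a1) : ℝ) : ℂ) • q⁻¹ := by
    rw [smul_smul, ← sub_smul]
    congr 1
    push_cast
    ring
  rw [e2, smul_sub]
  abel

end Pool.Agent.OHP
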