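import Pool.Agent.Helper547.OH.Defs

/-! Definitions for the completely isometric embedding of OH into a von Neumann algebra predual. -/

set_option autoImplicit false

namespace Pool.Agent.OHP
open scoped InnerProductSpace ComplexConjugate ComplexOrder
open Finset


/-- the profile `e^{t/3} / (1 + e^t)` -/
noncomputable def riem_upG (t : ℝ) : ℝ := Real.exp (t / 3) / (1 + Real.exp t)

/-- antiderivative of `3 / (1 + x^3)` -/
noncomputable def riem_upA (x : ℝ) : ℝ :=
  Real.log (1 + x) - 1 / 2 * Real.log (x ^ 2 - x + 1) + √3 * Real.arctan ((2 * x - 1) / √3)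

theorem riem_upA_deriv (x : ℝ) (hx : 0 ≤ x) : HasDerivAt riem_upA (3 / (1 + x ^ 3)) x := by
  have h1 : 0 < 1 + x := by linarith
  have h2 : 0 < x ^ 2 - x + 1 := by nlinarith [sq_nonneg (x - 1 / 2)]
  have h3 : (√3 : ℝ) ^ 2 = 3 := Real.sq_sqrt (by norm_num)
  have h3' : 0 < (√3 : ℝ) := by positivity
  have d1 : HasDerivAt (fun x : ℝ => Real.log (1 + x)) (1 / (1 + x)) x :=
    ((hasDerivAt_id x).const_add 1).log h1.ne'
  have d2 : HasDerivAt (fun x : ℝ => Real.log (x ^ 2 - x + 1)) ((2 * x - 1) / (x ^ 2 - x + 1)) x := by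
    have e0 : HasDerivAt (fun x : ℝ => x ^ 2 - x + 1) (2 * x - 1) x := by
      have e := ((hasDerivAt_pow 2 x).sub (hasDerivAt_id x)).add_const 1
      have hv : ((2 : ℕ) : ℝ) * x ^ (2 - 1) - 1 = 2 * x - 1 := by norm_num
      rw [hv] at e
      exact e
    exact e0.log h2.ne'
  have d3 : HasDerivAt (fun x : ℝ => Real.arctan ((2 * x - 1) / √3))
      (1 / (1 + ((2 * x - 1) / √3) ^ 2) * (2 / √3)) x := by
    have e0 : HasDerivAt (fun x : ℝ => (2 * x - 1) / √3) (2 / √3) x := by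
      have e := (((hasDerivAt_id x).const_mul (2 : ℝ)).sub_const 1).div_const √3
      rw [mul_one] at e
      exact e
    exact e0.arctan
  have d := (d1.sub (d2.const_mul (1 / 2))).add (d3.const_mul √3)
  have e3 : √3 * (1 / (1 + ((2 * x - 1) / √3) ^ 2) * (2 / √3)) = 3 / (2 * (x ^ 2 - x + 1)) := by
    rw [div_pow, h3]
    have h5 : 1 + (2 * x - 1) ^ 2 / 3 = 4 * (x ^ 2 - x + 1) / 3 := by ring
    rw [h5]
    field_simp
    ring
  rw [e3] at d
  have h4 : 1 + x ^ 3 = (1 + x) * (x ^ 2 - x + 1) := by ring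
  have h6 : 3 / (1 + x ^ 3) = 1 / (1 + x) - 1 / 2 * ((2 * x - 1) / (x ^ 2 - x + 1)) +
      3 / (2 * (x ^ 2 - x + 1)) := by
    rw [h4]
    obtain ⟨q, hq⟩ : ∃ q, q = x ^ 2 - x + 1 := ⟨_, rfl⟩
    rw [← hq] at h2 ⊢
    field_simp
    rw [hq]
    ring
  rw [h6]
  exact d

theorem riem_upA_mono : MonotoneOn riem_upA (Set.Ici 0) := by
  refine monotoneOn_of_deriv_nonneg (convex_Ici 0) ?_ ?_ ?_
  · exact fun x hx => (riem_upA_deriv x hx).continuousAt.continuousWithinAt
  · intro x hx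
    rw [interior_Ici] at hx
    exact (riem_upA_deriv x (le_of_lt hx)).differentiableAt.differentiableWithinAt
  · intro x hx
    rw [interior_Ici] at hx
    have hx' : 0 < x := hx
    rw [(riem_upA_deriv x hx'.le).deriv]
    positivity

theorem riem_upA_zero : riem_upA 0 = -(√3 * (Real.pi / 6)) := by
  have hp := Real.pi_pos
  have h : Real.arctan ((2 * 0 - 1) / √3) = -(Real.pi / 6) := by
    have h1 : ((2 * 0 - 1) / √3 : ℝ) = - (1 / √3) := by ring
    rw [h1, Real.arctan_neg, ← Real.tan_pi_div_six,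
      Real.arctan_tan (by linarith) (by linarith)]
  unfold riem_upA
  rw [h]
  norm_num

theorem riem_upA_lower (x : ℝ) (hx : 0 ≤ x) : -(√3 * (Real.pi / 6)) ≤ riem_upA x := by
  rw [← riem_upA_zero]
  exact riem_upA_mono (Set.mem_Ici.2 le_rfl) (Set.mem_Ici.2 hx) hx

theorem riem_upA_upper (x : ℝ) (hx : 0 ≤ x) : riem_upA x ≤ √3 * (Real.pi / 2) := by
  refine le_of_forall_pos_le_add (fun ε hε => ?_)
  obtain ⟨y, hy⟩ : ∃ y, y = max x 2 + 3 / ε := ⟨_, rfl⟩
  have h3ε : 0 < 3 / ε := by positivity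
  have hy2 : 2 ≤ y := by
    have := le_max_right x 2
    linarith
  have hxy : x ≤ y := by
    have := le_max_left x 2
    linarith
  have hy0 : 0 < y := by linarith
  have hyε : 3 / y ≤ ε := by
    rw [div_le_iff₀ hy0]
    have h1 : 3 / ε ≤ y := by
      have := le_max_right x 2
      linarith
    rw [div_le_iff₀ hε] at h1
    linarith
  refine (riem_upA_mono (Set.mem_Ici.2 hx) (Set.mem_Ici.2 hy0.le) hxy).trans ?_
  unfold riem_upA
  have h1 : Real.arctan ((2 * y - 1) / √3) ≤ Real.pi / 2 := (Real.arctan_lt_pi_div_two _).le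
  have hq : 0 < y ^ 2 - y + 1 := by nlinarith
  have h2 : Real.log (1 + y) - 1 / 2 * Real.log (y ^ 2 - y + 1) ≤ 3 / y := by
    have e1 : Real.log (1 + y) = 1 / 2 * Real.log ((1 + y) ^ 2) := by
      rw [Real.log_pow]
      push_cast
      ring
    rw [e1, ← mul_sub, ← Real.log_div (by positivity) hq.ne']
    have e2 : (1 + y) ^ 2 / (y ^ 2 - y + 1) = 1 + 3 * y / (y ^ 2 - y + 1) := by
      rw [div_eq_iff hq.ne', add_mul, div_mul_cancel₀ _ hq.ne']
      ring
    have e3 : Real.log ((1 + y) ^ 2 / (y ^ 2 - y + 1)) ≤ 3 * y / (y ^ 2 - y + 1) := by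
      have := Real.log_le_sub_one_of_pos (show 0 < (1 + y) ^ 2 / (y ^ 2 - y + 1) by positivity)
      rw [e2] at this ⊢
      linarith
    have e4 : 3 * y / (y ^ 2 - y + 1) ≤ 6 / y := by
      rw [div_le_div_iff₀ hq hy0]
      nlinarith [sq_nonneg (y - 1)]
    have e5 : 6 / y = 2 * (3 / y) := by ring
    linarith
  have h3 : √3 * Real.arctan ((2 * y - 1) / √3) ≤ √3 * (Real.pi / 2) :=
    mul_le_mul_of_nonneg_left h1 (by positivity)
  linarith

theorem riem_up_exp3 (t : ℝ) : Real.exp (t / 3) ^ 3 = Real.exp t := by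
  rw [← Real.exp_nat_mul]
  congr 1
  push_cast
  ring

theorem riem_up_deriv (t : ℝ) :
    HasDerivAt (fun t => riem_upA (Real.exp (t / 3))) (riem_upG t) t := by
  have h1 : HasDerivAt (fun t : ℝ => Real.exp (t / 3)) (Real.exp (t / 3) * (1 / 3)) t :=
    ((hasDerivAt_id t).div_const 3).exp
  have h2 := (riem_upA_deriv (Real.exp (t / 3)) (Real.exp_pos _).le).comp t h1
  have h3 : riem_upG t = 3 / (1 + Real.exp (t / 3) ^ 3) * (Real.exp (t / 3) * (1 / 3)) := by
    unfold riem_upG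
    rw [riem_up_exp3]
    have := Real.exp_pos t
    field_simp
  rw [h3]
  exact h2

theorem riem_up_G1 (t u : ℝ) (htu : t ≤ u) (hu : Real.exp u ≤ 1 / 2) :
    riem_upG t ≤ riem_upG u := by
  unfold riem_upG
  have hx := Real.exp_pos (t / 3)
  have hy := Real.exp_pos (u / 3)
  have hxy : Real.exp (t / 3) ≤ Real.exp (u / 3) := Real.exp_le_exp.2 (by linarith)
  rw [← riem_up_exp3 u] at hu
  rw [← riem_up_exp3 t, ← riem_up_exp3 u]
  obtain ⟨x, hxd⟩ : ∃ x, x = Real.exp (t / 3) := ⟨_, rfl⟩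
  obtain ⟨y, hyd⟩ : ∃ y, y = Real.exp (u / 3) := ⟨_, rfl⟩
  rw [← hxd] at hx hxy ⊢
  rw [← hyd] at hy hxy hu ⊢
  rw [div_le_div_iff₀ (by positivity) (by positivity)]
  have h1 : x * y * (x + y) ≤ 1 := by
    have h2 : x * y * (x + y) ≤ y * y * (y + y) :=
      mul_le_mul (mul_le_mul_of_nonneg_right hxy hy.le) (by linarith) (by positivity)
        (by positivity)
    have h3 : y * y * (y + y) = 2 * y ^ 3 := by ring
    linarith
  have h4 : 0 ≤ (y - x) * (1 - x * y * (x + y)) :=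
    mul_nonneg (by linarith) (by linarith)
  nlinarith

theorem riem_up_G2 (t u : ℝ) (htu : t ≤ u) (ht : 1 / 2 ≤ Real.exp t) :
    riem_upG u ≤ riem_upG t := by
  unfold riem_upG
  have hx := Real.exp_pos (t / 3)
  have hy := Real.exp_pos (u / 3)
  have hxy : Real.exp (t / 3) ≤ Real.exp (u / 3) := Real.exp_le_exp.2 (by linarith)
  rw [← riem_up_exp3 t] at ht
  rw [← riem_up_exp3 t, ← riem_up_exp3 u]
  obtain ⟨x, hxd⟩ : ∃ x, x = Real.exp (t / 3) := ⟨_, rfl⟩
  obtain ⟨y, hyd⟩ : ∃ y, y = Real.exp (u / 3) := ⟨_, rfl⟩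
  rw [← hxd] at hx hxy ht ⊢
  rw [← hyd] at hy hxy ⊢
  rw [div_le_div_iff₀ (by positivity) (by positivity)]
  have h1 : 1 ≤ x * y * (x + y) := by
    have h2 : x * x * (x + x) ≤ x * y * (x + y) :=
      mul_le_mul (mul_le_mul_of_nonneg_left hxy hx.le) (by linarith) (by positivity)
        (by positivity)
    have h3 : x * x * (x + x) = 2 * x ^ 3 := by ring
    linarith
  have h4 : 0 ≤ (y - x) * (x * y * (x + y) - 1) :=
    mul_nonneg (by linarith) (by linarith)
  nlinarith

theorem riem_up_G01 (t : ℝ) : 0 ≤ riem_upG t ∧ riem_upG t ≤ 1 := by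
  unfold riem_upG
  have hx := Real.exp_pos (t / 3)
  refine ⟨by positivity, ?_⟩
  rw [← riem_up_exp3 t, div_le_one (by positivity)]
  obtain ⟨x, hxd⟩ : ∃ x, x = Real.exp (t / 3) := ⟨_, rfl⟩
  rw [← hxd] at hx ⊢
  rcases le_total x 1 with h | h
  · have : 0 < x ^ 3 := by positivity
    linarith
  · have h1 : x ≤ x ^ 3 := by
      calc x = x ^ 1 := (pow_one x).symm
        _ ≤ x ^ 3 := pow_le_pow_right₀ h (by norm_num)
    linarith

theorem riem_up_T : Real.exp (-Real.log 2) = 1 / 2 := by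
  rw [Real.exp_neg, Real.exp_log two_pos, one_div]

theorem riem_up_step (h t : ℝ) (hh : 0 < h) :
    h * riem_upG t ≤ riem_upA (Real.exp ((t + h) / 3)) - riem_upA (Real.exp (t / 3)) +
      h * (riem_upG (max t (-Real.log 2)) - riem_upG (max (t + h) (-Real.log 2))) := by
  obtain ⟨T, hT⟩ : ∃ T, T = -Real.log 2 := ⟨_, rfl⟩
  have hT2 := riem_up_T
  rw [← hT] at hT2 ⊢
  -- quasiconcavity
  have hqc : ∀ ξ, t ≤ ξ → ξ ≤ t + h → riem_upG t ≤ riem_upG ξ ∨ riem_upG (t + h) ≤ riem_upG ξ := by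
    intro ξ h1 h2
    rcases le_total (Real.exp ξ) (1 / 2) with h3 | h3
    · exact Or.inl (riem_up_G1 t ξ h1 h3)
    · exact Or.inr (riem_up_G2 ξ (t + h) h2 h3)
  have hanti : riem_upG (max (t + h) T) ≤ riem_upG (max t T) := by
    refine riem_up_G2 _ _ (max_le_max (by linarith) le_rfl) ?_
    rw [← hT2]
    exact Real.exp_le_exp.2 (le_max_right _ _)
  obtain ⟨ξ, ⟨hξ1, hξ2⟩, hξ⟩ := exists_hasDerivAt_eq_slope
    (fun t => riem_upA (Real.exp (t / 3))) riem_upG (show t < t + h by linarith)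
    (fun x _ => (riem_up_deriv x).continuousAt.continuousWithinAt)
    (fun x _ => riem_up_deriv x)
  have hξ' : h * riem_upG ξ =
      riem_upA (Real.exp ((t + h) / 3)) - riem_upA (Real.exp (t / 3)) := by
    rw [hξ]
    have h1 : t + h - t = h := by ring
    rw [h1, mul_div_cancel₀ _ hh.ne']
  rw [← hξ', ← mul_add]
  refine mul_le_mul_of_nonneg_left ?_ hh.le
  rcases hqc ξ hξ1.le hξ2.le with h1 | h1
  · linarith
  · rcases le_total (t + h) T with h2 | h2
    · have h3 : riem_upG t ≤ riem_upG ξ := by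
        refine riem_up_G1 t ξ hξ1.le ?_
        rw [← hT2]
        exact Real.exp_le_exp.2 (by linarith)
      linarith
    · rw [max_eq_left h2]
      have h3 : riem_upG t ≤ riem_upG (max t T) := by
        rcases le_total t T with h4 | h4
        · rw [max_eq_right h4]
          exact riem_up_G1 t T h4 hT2.le
        · rw [max_eq_left h4]
      linarith

theorem riem_up_sum (h a : ℝ) (hh : 0 < h) (m : ℕ) :
    ∑ j ∈ range m, h * riem_upG (a + j * h) ≤
      riem_upA (Real.exp ((a + m * h) / 3)) - riem_upA (Real.exp (a / 3)) +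
      h * (riem_upG (max a (-Real.log 2)) - riem_upG (max (a + m * h) (-Real.log 2))) := by
  induction m with
  | zero =>
    rw [sum_range_zero, Nat.cast_zero, zero_mul, add_zero, sub_self, sub_self, mul_zero, add_zero]
  | succ m ih =>
    rw [sum_range_succ]
    have h1 := riem_up_step h (a + m * h) hh
    have h2 : a + m * h + h = a + ((m + 1 : ℕ) : ℝ) * h := by
      push_cast
      ring
    rw [h2] at h1
    linarith

theorem riem_up (h s : ℝ) (hh : 0 < h) (hs : 0 < s) (m : ℕ) :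
    ∑ j ∈ range m, h * Real.exp ((j * h) / 3) / (s + Real.exp (j * h)) ≤
      (C0 + 2 * h) * s ^ (-(2 / 3) : ℝ) := by
  have hsum := riem_up_sum h (-Real.log s) hh m
  have hG := (riem_up_G01 (max (-Real.log s) (-Real.log 2))).2
  have hG' := (riem_up_G01 (max (-Real.log s + m * h) (-Real.log 2))).1
  have hA := riem_upA_upper (Real.exp ((-Real.log s + m * h) / 3)) (Real.exp_pos _).le
  have hA' := riem_upA_lower (Real.exp ((-Real.log s) / 3)) (Real.exp_pos _).le
  have hC : C0 = √3 * (Real.pi / 2) + √3 * (Real.pi / 6) := by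
    unfold C0
    have h3 : (√3 : ℝ) * √3 = 3 := Real.mul_self_sqrt (by norm_num)
    have h3' : 0 < (√3 : ℝ) := by positivity
    rw [div_eq_iff h3'.ne']
    linear_combination (-(2 / 3) * Real.pi) * h3
  have hbd : ∑ j ∈ range m, h * riem_upG (-Real.log s + j * h) ≤ C0 + 2 * h := by
    rw [hC]
    have h1 : h * (riem_upG (max (-Real.log s) (-Real.log 2)) -
        riem_upG (max (-Real.log s + m * h) (-Real.log 2))) ≤ h * 1 :=
      mul_le_mul_of_nonneg_left (by linarith) hh.le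
    linarith
  have hterm : ∀ j ∈ range m, h * Real.exp ((j * h) / 3) / (s + Real.exp (j * h)) =
      (h * riem_upG (-Real.log s + j * h)) * s ^ (-(2 / 3) : ℝ) := by
    intro j _
    have hs' : s = Real.exp (Real.log s) := (Real.exp_log hs).symm
    obtain ⟨σ, hσ⟩ : ∃ σ, σ = Real.log s := ⟨_, rfl⟩
    rw [Real.rpow_def_of_pos hs]
    rw [← hσ] at hs' ⊢
    rw [hs']
    unfold riem_upG
    have e1 : Real.exp ((j * h) / 3) * (1 + Real.exp (-σ + j * h)) =
        Real.exp ((-σ + j * h) / 3) * Real.exp (σ * (-(2 / 3))) *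
          (Real.exp σ + Real.exp (j * h)) := by
      rw [mul_add, mul_add, mul_one, ← Real.exp_add, ← Real.exp_add, ← Real.exp_add,
        ← Real.exp_add]
      congr 2 <;> ring
    have p1 : 0 < 1 + Real.exp (-σ + j * h) := by positivity
    have p2 : 0 < Real.exp σ + Real.exp (j * h) := by positivity
    rw [← mul_div_assoc, div_mul_eq_mul_div, div_eq_div_iff p2.ne' p1.ne']
    linear_combination h * e1
  rw [sum_congr rfl hterm, ← sum_mul]
  exact mul_le_mul_of_nonneg_right hbd (by positivity)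

end Pool.Agent.OHP
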