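import Pool.Agent.Helper547.OH.Defs
import Pool.Agent.Helper547.OH.P_riem_up

/-! Definitions for the completely isometric embedding of OH into a von Neumann algebra predual. -/

set_option autoImplicit false

namespace Pool.Agent.OHP
open scoped InnerProductSpace ComplexConjugate ComplexOrder
open Finset


theorem s_spec {l : ℕ} (q : Mat l) (hq : q.PosDef) : ∃ (V : Mat l) (x : Fin l → ℝ),
    V * V.conjTranspose = 1 ∧ V.conjTranspose * V = 1 ∧ (∀ i, 0 < x i) ∧
    q = V * Matrix.diagonal (fun i => ((x i : ℝ) : ℂ)) * V.conjTranspose := by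
  refine ⟨(hq.1.eigenvectorUnitary : Mat l), hq.1.eigenvalues, ?_, ?_, hq.eigenvalues_pos, ?_⟩
  · exact Unitary.coe_mul_star_self hq.1.eigenvectorUnitary
  · exact Unitary.coe_star_mul_self hq.1.eigenvectorUnitary
  · have := hq.1.spectral_theorem
    rw [Unitary.conjStarAlgAut_apply] at this
    exact this

/-- functions of the matrix -/
noncomputable def s_M {l : ℕ} (V : Mat l) (f : Fin l → ℝ) : Mat l :=
  V * Matrix.diagonal (fun i => ((f i : ℝ) : ℂ)) * V.conjTranspose

theorem s_M_mul {l : ℕ} (V : Mat l) (hV : V.conjTranspose * V = 1) (f g : Fin l → ℝ) :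
    s_M V f * s_M V g = s_M V (fun i => f i * g i) := by
  unfold s_M
  calc V * Matrix.diagonal (fun i => ((f i : ℝ) : ℂ)) * V.conjTranspose *
        (V * Matrix.diagonal (fun i => ((g i : ℝ) : ℂ)) * V.conjTranspose)
      = V * Matrix.diagonal (fun i => ((f i : ℝ) : ℂ)) * (V.conjTranspose * V) *
        Matrix.diagonal (fun i => ((g i : ℝ) : ℂ)) * V.conjTranspose := by
        simp only [Matrix.mul_assoc]
    _ = _ := by
        rw [hV, Matrix.mul_one, Matrix.mul_assoc V, Matrix.diagonal_mul_diagonal]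
        simp only [Complex.ofReal_mul]

theorem s_M_add {l : ℕ} (V : Mat l) (f g : Fin l → ℝ) :
    s_M V f + s_M V g = s_M V (fun i => f i + g i) := by
  unfold s_M
  rw [← Matrix.add_mul, ← Matrix.mul_add, Matrix.diagonal_add]
  simp only [Complex.ofReal_add]

theorem s_M_sub {l : ℕ} (V : Mat l) (f g : Fin l → ℝ) :
    s_M V f - s_M V g = s_M V (fun i => f i - g i) := by
  unfold s_M
  rw [← Matrix.sub_mul, ← Matrix.mul_sub, Matrix.diagonal_sub]
  simp only [Complex.ofReal_sub]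

theorem s_M_smul {l : ℕ} (V : Mat l) (c : ℝ) (f : Fin l → ℝ) :
    (c : ℂ) • s_M V f = s_M V (fun i => c * f i) := by
  unfold s_M
  rw [← Matrix.smul_mul, ← Matrix.mul_smul, ← Matrix.diagonal_smul]
  congr 3
  funext i
  simp

theorem s_M_one {l : ℕ} (V : Mat l) (hV : V * V.conjTranspose = 1) :
    s_M V (fun _ => 1) = 1 := by
  unfold s_M
  simp [hV]

theorem s_M_zero {l : ℕ} (V : Mat l) : s_M V (fun _ => 0) = 0 := by
  unfold s_M
  simp

theorem s_M_sum {l : ℕ} (V : Mat l) (m : ℕ) (f : ℕ → Fin l → ℝ) :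
    ∑ j ∈ range m, s_M V (f j) = s_M V (fun i => ∑ j ∈ range m, f j i) := by
  induction m with
  | zero => simp [s_M_zero]
  | succ m ih =>
    rw [Finset.sum_range_succ, ih, s_M_add]
    congr 1
    funext i
    rw [Finset.sum_range_succ]

theorem s_M_inv {l : ℕ} (V : Mat l) (hV : V * V.conjTranspose = 1)
    (hV' : V.conjTranspose * V = 1) (f : Fin l → ℝ) (hf : ∀ i, f i ≠ 0) :
    (s_M V f)⁻¹ = s_M V (fun i => (f i)⁻¹) := by
  apply Matrix.inv_eq_right_inv
  rw [s_M_mul V hV', ← s_M_one V hV]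
  congr 1
  funext i
  exact mul_inv_cancel₀ (hf i)

theorem s_M_psd {l : ℕ} (V : Mat l) (f : Fin l → ℝ) (hf : ∀ i, 0 ≤ f i) :
    (s_M V f).PosSemidef := by
  unfold s_M
  apply Matrix.PosSemidef.mul_mul_conjTranspose_same
  apply Matrix.PosSemidef.diagonal
  intro i
  exact Complex.zero_le_real.mpr (hf i)

theorem s_scal (m : ℕ) (h y t x : ℝ) (hh : 0 < h) (hy : 0 < y) (ht : 0 < t) (hx : 0 < x) :
    ∑ j ∈ range m, (ww h j * uu h m j) * (y + uu h m j * (t * x ^ 3))⁻¹ ≤
      ((C0 + 2 * h) * y ^ (-(2 / 3) : ℝ) * t ^ (-(1 / 3) : ℝ)) * x⁻¹ := by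
  set a : ℝ := t * x ^ 3 with ha
  have ha0 : 0 < a := by positivity
  have e1 : ∑ j ∈ range m, (ww h j * uu h m j) * (y + uu h m j * a)⁻¹ =
      a⁻¹ * ∑ j ∈ range m, h * Real.exp ((j * h) / 3) / (y / a + Real.exp (j * h)) := by
    rw [Finset.mul_sum]
    apply Finset.sum_congr rfl
    intro j hj
    have hu : uu h m j = Real.exp (j * h) := by
      unfold uu
      rw [if_pos (Finset.mem_range.mp hj)]
    have hw : ww h j * uu h m j = h * Real.exp ((j * h) / 3) := by
      rw [hu]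
      unfold ww
      rw [mul_assoc, ← Real.exp_add]
      congr 2
      ring
    rw [hw, hu]
    have hE : 0 < Real.exp (j * h) := Real.exp_pos _
    have hne : y + Real.exp (j * h) * a ≠ 0 := by positivity
    have hne2 : y / a + Real.exp (j * h) ≠ 0 := by positivity
    have : y + Real.exp (j * h) * a = a * (y / a + Real.exp (j * h)) := by
      field_simp
    rw [this, mul_inv]
    ring
  rw [e1]
  have h1 := riem_up h (y / a) hh (by positivity) m
  calc a⁻¹ * ∑ j ∈ range m, h * Real.exp ((j * h) / 3) / (y / a + Real.exp (j * h))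
      ≤ a⁻¹ * ((C0 + 2 * h) * (y / a) ^ (-(2 / 3) : ℝ)) :=
        mul_le_mul_of_nonneg_left h1 (by positivity)
    _ = _ := by
        have h2 : (y / a) ^ (-(2 / 3) : ℝ) = y ^ (-(2 / 3) : ℝ) * a ^ ((2 / 3) : ℝ) := by
          rw [Real.div_rpow hy.le ha0.le, Real.rpow_neg ha0.le, div_inv_eq_mul]
        have h3 : a⁻¹ * a ^ ((2 / 3) : ℝ) = a ^ (-(1 / 3) : ℝ) := by
          rw [← Real.rpow_neg_one a, ← Real.rpow_add ha0]
          congr 1
          norm_num
        have h4 : a ^ (-(1 / 3) : ℝ) = t ^ (-(1 / 3) : ℝ) * x⁻¹ := by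
          rw [ha, Real.mul_rpow ht.le (by positivity), ← Real.rpow_natCast x 3,
            ← Real.rpow_mul hx.le]
          congr 1
          rw [← Real.rpow_neg_one x]
          congr 1
          norm_num
        rw [h2]
        calc a⁻¹ * ((C0 + 2 * h) * (y ^ (-(2 / 3) : ℝ) * a ^ ((2 / 3) : ℝ)))
            = (C0 + 2 * h) * y ^ (-(2 / 3) : ℝ) * (a⁻¹ * a ^ ((2 / 3) : ℝ)) := by ring
          _ = _ := by rw [h3, h4]; ring

theorem dys_upper {l : ℕ} (q : Mat l) (hq : q.PosDef) (m : ℕ) (h y t : ℝ)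
    (hh : 0 < h) (hy : 0 < y) (ht : 0 < t) :
    ((((C0 + 2 * h) * y ^ (-(2 / 3) : ℝ) * t ^ (-(1 / 3) : ℝ) : ℝ) : ℂ) • q⁻¹ -
      dys m (uu h m) (ww h) y ((t : ℂ) • q ^ 3)).PosSemidef := by
  obtain ⟨V, x, hV, hV', hx, hqV⟩ := s_spec q hq
  have hq1 : q = s_M V x := hqV
  have hinv : q⁻¹ = s_M V (fun i => (x i)⁻¹) := by
    rw [hq1]
    exact s_M_inv V hV hV' x (fun i => (hx i).ne')
  have hcube : q ^ 3 = s_M V (fun i => x i ^ 3) := by
    rw [pow_succ, pow_two, hq1, s_M_mul V hV', s_M_mul V hV']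
    congr 1
    funext i
    ring
  have hdys : dys m (uu h m) (ww h) y ((t : ℂ) • q ^ 3) =
      s_M V (fun i => ∑ j ∈ range m, (ww h j * uu h m j) * (y + uu h m j * (t * x i ^ 3))⁻¹) := by
    unfold dys
    rw [← s_M_sum V m (fun j i => (ww h j * uu h m j) * (y + uu h m j * (t * x i ^ 3))⁻¹)]
    apply Finset.sum_congr rfl
    intro j hj
    have hu : 0 < uu h m j := by
      unfold uu
      rw [if_pos (Finset.mem_range.mp hj)]
      exact Real.exp_pos _
    rw [hcube, ← s_M_one V hV, s_M_smul, s_M_smul, s_M_smul, s_M_add,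
      s_M_inv V hV hV' _ (fun i => ?_), s_M_smul]
    · simp only [mul_one]
    · have := hx i
      positivity
  rw [hinv, hdys, s_M_smul, s_M_sub]
  apply s_M_psd
  intro i
  have := s_scal m h y t (x i) hh hy ht (hx i)
  linarith

end Pool.Agent.OHP
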