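import Pool.Agent.Helper547.OH.Defs
import Pool.Agent.Helper547.OH.P_dys_anti
import Pool.Agent.Helper547.OH.P_dys_upper
import Pool.Agent.Helper547.OH.P_aa_ident

/-! Definitions for the completely isometric embedding of OH into a von Neumann algebra predual. -/

set_option autoImplicit false

namespace Pool.Agent.OHP
open scoped InnerProductSpace ComplexConjugate ComplexOrder
open Finset


theorem onestep_up_et {n l : ℕ} (c : Fin n → Mat l) (K K' : Mat l) (h : (K - K').PosSemidef) :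
    (et c K - et c K').PosSemidef := by
  have h1 : et c K - et c K' = ∑ i, c i * (K - K') * (c i).conjTranspose := by
    unfold et
    rw [← Finset.sum_sub_distrib]
    refine Finset.sum_congr rfl fun i _ => ?_
    rw [Matrix.mul_sub, Matrix.sub_mul]
  rw [h1]
  apply Matrix.posSemidef_sum
  intro i _
  exact h.mul_mul_conjTranspose_same (c i)

theorem onestep_up_smul {n l : ℕ} (c : Fin n → Mat l) (K : Mat l) (a : ℂ) :
    et c (a • K) = a • et c K := by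
  unfold et
  rw [Finset.smul_sum]
  refine Finset.sum_congr rfl fun i _ => ?_
  rw [Matrix.mul_smul, Matrix.smul_mul]

theorem onestep_up {n l : ℕ} (c : Fin n → Mat l) (p q : Mat l) (lam : ℝ) (hF : FixPt c p q lam)
    (m : ℕ) (h y γ : ℝ) (hh : 0 < h) (hy : 0 < y) (hγ : 0 < γ)
    (K1 K2 : Mat l) (D : Dyson m (uu h m) (ww h) y c K1 K2)
    (hK : (K2 - ((γ * (aa lam * y ^ (-(1 / 2) : ℝ)) : ℝ) : ℂ) • q⁻¹).PosSemidef) :
    ((((1 + 2 * h / C0) * γ ^ (-(1 / 3) : ℝ) * (aa lam * y ^ (-(1 / 2) : ℝ)) : ℝ) : ℂ) • p⁻¹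
      - K1).PosSemidef := by
  obtain ⟨hid, -, hC0, haa⟩ := aa_ident lam y hF.lam_pos hy
  have hlam := hF.lam_pos
  have hy2 : 0 < y ^ (-(1 / 2) : ℝ) := Real.rpow_pos_of_pos hy _
  set a1 : ℝ := aa lam * y ^ (-(1 / 2) : ℝ) with ha1
  have ha1p : 0 < a1 := mul_pos haa hy2
  have ht : 0 < γ * a1 * lam := by positivity
  have hB : (((γ * a1 * lam : ℝ) : ℂ) • p ^ 3).PosSemidef := by
    apply Matrix.PosSemidef.smul (hF.hp.posSemidef.pow 3)
    exact_mod_cast ht.le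
  have hBB : (et c K2 - ((γ * a1 * lam : ℝ) : ℂ) • p ^ 3).PosSemidef := by
    have h1 := onestep_up_et c K2 _ hK
    rw [onestep_up_smul, hF.h1, smul_smul] at h1
    have h2 : ((γ * a1 * lam : ℝ) : ℂ) = ((γ * a1 : ℝ) : ℂ) * (lam : ℂ) := by
      push_cast
      ring
    rw [h2]
    exact h1
  have hu : ∀ j, 0 ≤ uu h m j := by
    intro j
    unfold uu
    split_ifs
    · exact (Real.exp_pos _).le
    · exact le_rfl
  have hw : ∀ j, 0 ≤ ww h j := fun j => mul_nonneg hh.le (Real.exp_pos _).le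
  have h3 := dys_anti (m := m) hu hw y hy _ _ hB hBB
  rw [← D.e1] at h3
  have h4 := dys_upper p hF.hp m h y (γ * a1 * lam) hh hy ht
  have h5 := h4.add h3
  rw [sub_add_sub_cancel] at h5
  have hcoef : (C0 + 2 * h) * y ^ (-(2 / 3) : ℝ) * (γ * a1 * lam) ^ (-(1 / 3) : ℝ) =
      (1 + 2 * h / C0) * γ ^ (-(1 / 3) : ℝ) * a1 := by
    have h6 : (γ * a1 * lam) ^ (-(1 / 3) : ℝ) =
        γ ^ (-(1 / 3) : ℝ) * (a1 * lam) ^ (-(1 / 3) : ℝ) := by
      rw [mul_assoc, Real.mul_rpow hγ.le (by positivity)]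
    rw [h6]
    have h7 : y ^ (-(2 / 3) : ℝ) * (a1 * lam) ^ (-(1 / 3) : ℝ) = a1 / C0 := by
      rw [eq_div_iff hC0.ne']
      linear_combination hid
    calc (C0 + 2 * h) * y ^ (-(2 / 3) : ℝ) * (γ ^ (-(1 / 3) : ℝ) * (a1 * lam) ^ (-(1 / 3) : ℝ)) =
        (C0 + 2 * h) * γ ^ (-(1 / 3) : ℝ) *
          (y ^ (-(2 / 3) : ℝ) * (a1 * lam) ^ (-(1 / 3) : ℝ)) := by ring
      _ = (C0 + 2 * h) * γ ^ (-(1 / 3) : ℝ) * (a1 / C0) := by rw [h7]
      _ = _ := by field_simp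
  rw [hcoef] at h5
  exact h5

end Pool.Agent.OHP
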