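import Pool.Agent.Helper547.OH.Defs
import Pool.Agent.Helper547.OH.P_aa_ident
import Pool.Agent.Helper547.OH.P_onestep_low
import Pool.Agent.Helper547.OH.P_onestep_up

/-! Definitions for the completely isometric embedding of OH into a von Neumann algebra predual. -/

set_option autoImplicit false

namespace Pool.Agent.OHP
open scoped InnerProductSpace ComplexConjugate ComplexOrder
open Finset


theorem fb_qsub {l : ℕ} (A B : Mat l) (β : ℝ) (x : Fin l → ℂ) :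
    (star x ⬝ᵥ (((β : ℂ) • A - B).mulVec x)).re =
      β * (star x ⬝ᵥ (A.mulVec x)).re - (star x ⬝ᵥ (B.mulVec x)).re := by
  rw [Matrix.sub_mulVec, Matrix.smul_mulVec, dotProduct_sub, dotProduct_smul]
  simp

theorem fb_psd_iff {l : ℕ} (A B : Mat l) (hA : A.IsHermitian) (hB : B.IsHermitian) (β : ℝ) :
    ((β : ℂ) • A - B).PosSemidef ↔
      ∀ x : Fin l → ℂ, (star x ⬝ᵥ (B.mulVec x)).re ≤ β * (star x ⬝ᵥ (A.mulVec x)).re := by
  have hH : ((β : ℂ) • A - B).IsHermitian := by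
    unfold Matrix.IsHermitian
    rw [Matrix.conjTranspose_sub, Matrix.conjTranspose_smul, hA.eq, hB.eq]
    simp
  constructor
  · intro h x
    have h1 := (Complex.le_def.mp (h.dotProduct_mulVec_nonneg x)).1
    rw [fb_qsub] at h1
    simp at h1
    exact h1
  · intro h
    apply Matrix.PosSemidef.of_dotProduct_mulVec_nonneg hH
    intro x
    rw [Complex.le_def]
    constructor
    · rw [fb_qsub]
      simp
      exact h x
    · have := hH.im_star_dotProduct_mulVec_self x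
      simpa using this.symm

theorem fb_smul {l : ℕ} (A : Mat l) (r : ℝ) (x : Fin l → ℂ) :
    (star ((r : ℂ) • x) ⬝ᵥ (A.mulVec ((r : ℂ) • x))).re = r ^ 2 * (star x ⬝ᵥ (A.mulVec x)).re := by
  rw [Matrix.mulVec_smul, star_smul, smul_dotProduct, dotProduct_smul]
  simp [smul_eq_mul]
  ring

theorem fb_exists {l : ℕ} (A B : Mat l) (hA : A.PosDef) (hB : B.IsHermitian) :
    ∃ β : ℝ, 1 ≤ β ∧
      ∀ x : Fin l → ℂ, (star x ⬝ᵥ (B.mulVec x)).re ≤ β * (star x ⬝ᵥ (A.mulVec x)).re := by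
  set Sp : Set (Fin l → ℂ) := Metric.sphere 0 1 with hSp
  have hcomp : IsCompact Sp := isCompact_sphere _ _
  have hcA : Continuous fun x : Fin l → ℂ => (star x ⬝ᵥ (A.mulVec x)).re := by
    unfold dotProduct Matrix.mulVec dotProduct
    simp only [Pi.star_apply]
    fun_prop
  have hcB : Continuous fun x : Fin l → ℂ => (star x ⬝ᵥ (B.mulVec x)).re := by
    unfold dotProduct Matrix.mulVec dotProduct
    simp only [Pi.star_apply]
    fun_prop
  have hpos : ∀ x ∈ Sp, 0 < (star x ⬝ᵥ (A.mulVec x)).re := by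
    intro x hx
    have hx0 : x ≠ 0 := by
      intro h0
      rw [h0] at hx
      simp [hSp] at hx
    exact (Complex.lt_def.mp (hA.dotProduct_mulVec_pos hx0)).1
  have key : ∃ β : ℝ, 1 ≤ β ∧
      ∀ x ∈ Sp, (star x ⬝ᵥ (B.mulVec x)).re ≤ β * (star x ⬝ᵥ (A.mulVec x)).re := by
    rcases Sp.eq_empty_or_nonempty with he | hne
    · refine ⟨1, le_refl _, ?_⟩
      intro x hx
      rw [he] at hx
      exact absurd hx (Set.notMem_empty x)
    · have hc : ContinuousOn (fun x : Fin l → ℂ => (star x ⬝ᵥ (B.mulVec x)).re /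
          (star x ⬝ᵥ (A.mulVec x)).re) Sp := by
        apply ContinuousOn.div hcB.continuousOn hcA.continuousOn
        intro x hx
        exact (hpos x hx).ne'
      obtain ⟨z, hz, hzmax⟩ := hcomp.exists_isMaxOn hne hc
      refine ⟨max 1 ((star z ⬝ᵥ (B.mulVec z)).re / (star z ⬝ᵥ (A.mulVec z)).re), le_max_left _ _, ?_⟩
      intro x hx
      have h1 : (star x ⬝ᵥ (B.mulVec x)).re / (star x ⬝ᵥ (A.mulVec x)).re ≤
        (star z ⬝ᵥ (B.mulVec z)).re / (star z ⬝ᵥ (A.mulVec z)).re := hzmax hx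
      rw [← div_le_iff₀ (hpos x hx)]
      exact h1.trans (le_max_right _ _)
  obtain ⟨β, hβ1, hβ⟩ := key
  refine ⟨β, hβ1, ?_⟩
  intro x
  by_cases hx : x = 0
  · subst hx
    simp
  · have hn : 0 < ‖x‖ := norm_pos_iff.mpr hx
    have hmem : ((‖x‖⁻¹ : ℝ) : ℂ) • x ∈ Sp := by
      rw [hSp, mem_sphere_zero_iff_norm, norm_smul]
      simp only [Complex.norm_real, norm_inv, norm_norm]
      exact inv_mul_cancel₀ hn.ne'
    have h1 := hβ _ hmem
    rw [fb_smul, fb_smul] at h1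
    have h2 : 0 < (‖x‖⁻¹) ^ 2 := by positivity
    have h3 : (‖x‖⁻¹) ^ 2 * (star x ⬝ᵥ (B.mulVec x)).re ≤
        (‖x‖⁻¹) ^ 2 * (β * (star x ⬝ᵥ (A.mulVec x)).re) := by
      calc _ ≤ _ := h1
        _ = _ := by ring
    exact le_of_mul_le_mul_left h3 h2

theorem fixbound {n l : ℕ} (c : Fin n → Mat l) (p q : Mat l) (lam : ℝ) (hF : FixPt c p q lam)
    (m : ℕ) (h y ε x0 : ℝ) (hh : 0 < h) (hh1 : h ≤ 1) (hy : 0 < y) (hε0 : 0 ≤ ε) (hε : ε < 1)
    (hx0 : 0 < x0) (hqx : (q - (x0 : ℂ) • (1 : Mat l)).PosSemidef)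
    (hG : (1 - ε) * (aa lam * y ^ (-(1 / 2) : ℝ)) ≤
      (C0 - 2 * h) * y ^ (-(2 / 3) : ℝ) * (aa lam * y ^ (-(1 / 2) : ℝ) * lam) ^ (-(1 / 3) : ℝ) -
        4 / y - 4 * Real.exp (-(2 / 3) * (m * h)) / (aa lam * y ^ (-(1 / 2) : ℝ) * lam * x0 ^ 2))
    (K1 K2 : Mat l) (D : Dyson m (uu h m) (ww h) y c K1 K2) :
    ∃ β : ℝ, 1 ≤ β ∧ β ≤ ((1 + 2 * h / C0) * (1 - ε) ^ (-(1 / 3) : ℝ)) ^ ((3 / 2 : ℝ)) ∧
      (((β * (aa lam * y ^ (-(1 / 2) : ℝ)) : ℝ) : ℂ) • p⁻¹ - K1).PosSemidef ∧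
      (K2 - (((1 - ε) / β * (aa lam * y ^ (-(1 / 2) : ℝ)) : ℝ) : ℂ) • q⁻¹).PosSemidef := by
  obtain ⟨_, _, hC0, haa⟩ := aa_ident lam y hF.lam_pos hy
  set a1 : ℝ := aa lam * y ^ (-(1 / 2) : ℝ) with ha1
  have ha1pos : 0 < a1 := mul_pos haa (Real.rpow_pos_of_pos hy _)
  have hpi : (p⁻¹).PosDef := hF.hp.inv
  have hK1 : K1.IsHermitian := D.h1.1
  set S : Set ℝ := {β : ℝ | 1 ≤ β ∧ ∀ x : Fin l → ℂ,
    (star x ⬝ᵥ (K1.mulVec x)).re ≤ β * a1 * (star x ⬝ᵥ ((p⁻¹).mulVec x)).re} with hS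
  have hSclosed : IsClosed S := by
    have h1 : S = {β : ℝ | 1 ≤ β} ∩ ⋂ x : Fin l → ℂ, {β : ℝ |
        (star x ⬝ᵥ (K1.mulVec x)).re ≤ β * a1 * (star x ⬝ᵥ ((p⁻¹).mulVec x)).re} := by
      ext β
      simp [hS]
    rw [h1]
    apply IsClosed.inter
    · exact isClosed_le continuous_const continuous_id
    · apply isClosed_iInter
      intro x
      exact isClosed_le continuous_const (by fun_prop)
  have hbdd : BddBelow S := ⟨1, fun β hβ => hβ.1⟩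
  have hposA : ∀ x : Fin l → ℂ, 0 ≤ (star x ⬝ᵥ ((p⁻¹).mulVec x)).re := by
    intro x
    exact (Complex.le_def.mp (hpi.posSemidef.dotProduct_mulVec_nonneg x)).1
  have hne : S.Nonempty := by
    obtain ⟨β, hβ1, hβ⟩ := fb_exists p⁻¹ K1 hpi hK1
    refine ⟨max 1 (β / a1), le_max_left _ _, ?_⟩
    intro x
    refine (hβ x).trans ?_
    apply mul_le_mul_of_nonneg_right _ (hposA x)
    calc β = β / a1 * a1 := by field_simp
      _ ≤ max 1 (β / a1) * a1 := mul_le_mul_of_nonneg_right (le_max_right _ _) ha1pos.le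
  have hmem : sInf S ∈ S := hSclosed.csInf_mem hne hbdd
  set β : ℝ := sInf S with hβdef
  have hβ1 : 1 ≤ β := hmem.1
  have hβpos : 0 < β := by linarith
  have hKb : (((β * a1 : ℝ) : ℂ) • p⁻¹ - K1).PosSemidef :=
    (fb_psd_iff p⁻¹ K1 hpi.isHermitian hK1 _).mpr hmem.2
  have hlow := onestep_low c p q lam hF m h y ε β x0 hh hh1 hy hβ1 hε.le hx0 hqx hG K1 K2 D hKb
  have hεpos : 0 < 1 - ε := by linarith
  have hγ : 0 < (1 - ε) / β := div_pos hεpos hβpos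
  have hup := onestep_up c p q lam hF m h y ((1 - ε) / β) hh hy hγ K1 K2 D hlow
  refine ⟨β, hβ1, ?_, hKb, hlow⟩
  set r : ℝ := (1 + 2 * h / C0) * (1 - ε) ^ (-(1 / 3) : ℝ) with hr
  have h2h : 0 < 2 * h / C0 := by positivity
  have hr1 : 1 ≤ r := by
    have h1 : (1 : ℝ) ≤ (1 - ε) ^ (-(1 / 3) : ℝ) :=
      Real.one_le_rpow_of_pos_of_le_one_of_nonpos hεpos (by linarith) (by norm_num)
    have h2 : (1 : ℝ) ≤ 1 + 2 * h / C0 := by linarith
    calc (1 : ℝ) = 1 * 1 := by ring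
      _ ≤ (1 + 2 * h / C0) * (1 - ε) ^ (-(1 / 3) : ℝ) :=
        mul_le_mul h2 h1 zero_le_one (by linarith)
  have hid : (1 + 2 * h / C0) * ((1 - ε) / β) ^ (-(1 / 3) : ℝ) = r * β ^ ((1 / 3 : ℝ)) := by
    rw [hr, Real.div_rpow hεpos.le hβpos.le, Real.rpow_neg hβpos.le]
    field_simp
  have hmem2 : r * β ^ ((1 / 3 : ℝ)) ∈ S := by
    constructor
    · have h1 : (1 : ℝ) ≤ β ^ ((1 / 3 : ℝ)) := Real.one_le_rpow hβ1 (by norm_num)
      calc (1 : ℝ) = 1 * 1 := by ring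
        _ ≤ _ := mul_le_mul hr1 h1 zero_le_one (by linarith)
    · have h1 := (fb_psd_iff p⁻¹ K1 hpi.isHermitian hK1 _).mp hup
      intro x
      have h2 := h1 x
      rw [hid] at h2
      exact h2
  have hle : β ≤ r * β ^ ((1 / 3 : ℝ)) := csInf_le hbdd hmem2
  have hb3 : 0 < β ^ ((1 / 3 : ℝ)) := Real.rpow_pos_of_pos hβpos _
  have hsplit : β = β ^ ((2 / 3 : ℝ)) * β ^ ((1 / 3 : ℝ)) := by
    rw [← Real.rpow_add hβpos]
    norm_num
  have h23 : β ^ ((2 / 3 : ℝ)) ≤ r := by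
    have h1 : β ^ ((2 / 3 : ℝ)) * β ^ ((1 / 3 : ℝ)) ≤ r * β ^ ((1 / 3 : ℝ)) := by
      rw [← hsplit]; exact hle
    exact le_of_mul_le_mul_right h1 hb3
  calc β = (β ^ ((2 / 3 : ℝ))) ^ ((3 / 2 : ℝ)) := by
        rw [← Real.rpow_mul hβpos.le]; norm_num
    _ ≤ r ^ ((3 / 2 : ℝ)) := Real.rpow_le_rpow (Real.rpow_nonneg hβpos.le _) h23 (by norm_num)

end Pool.Agent.OHP
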