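import Pool.Agent.Helper547.OH.Defs
import Pool.Agent.Helper547.OH.P_aa_ident
import Pool.Agent.Helper547.OH.P_fixbound

/-! Definitions for the completely isometric embedding of OH into a von Neumann algebra predual. -/

set_option autoImplicit false

namespace Pool.Agent.OHP
open scoped InnerProductSpace ComplexConjugate ComplexOrder
open Finset


theorem asym_one_x0 {l : ℕ} (q : Mat l) (hq : q.PosDef) :
    ∃ x0 : ℝ, 0 < x0 ∧ (q - (x0 : ℂ) • (1 : Mat l)).PosSemidef := by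
  obtain ⟨f, U, hf, hsp⟩ : ∃ (f : Fin l → ℝ) (U : Matrix.unitaryGroup (Fin l) ℂ), (∀ i, 0 < f i) ∧
      q = Unitary.conjStarAlgAut ℂ _ U (Matrix.diagonal (fun i => ((f i : ℝ) : ℂ))) :=
    ⟨hq.1.eigenvalues, hq.1.eigenvectorUnitary, hq.eigenvalues_pos, hq.1.spectral_theorem⟩
  have hS : 0 ≤ ∑ i, (f i)⁻¹ := Finset.sum_nonneg (fun i _ => (inv_pos.2 (hf i)).le)
  have hS1 : 0 < ∑ i, (f i)⁻¹ + 1 := by linarith
  refine ⟨(∑ i, (f i)⁻¹ + 1)⁻¹, inv_pos.2 hS1, ?_⟩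
  have hle : ∀ i, (∑ i, (f i)⁻¹ + 1)⁻¹ ≤ f i := by
    intro i
    have h1 : (f i)⁻¹ ≤ ∑ i, (f i)⁻¹ :=
      Finset.single_le_sum (f := fun i => (f i)⁻¹) (fun j _ => (inv_pos.2 (hf j)).le)
        (Finset.mem_univ i)
    exact inv_le_of_inv_le₀ (hf i) (by linarith)
  generalize (∑ i, (f i)⁻¹ + 1)⁻¹ = x0 at hle
  have h2 : q - (x0 : ℂ) • (1 : Mat l) =
      Unitary.conjStarAlgAut ℂ _ U (Matrix.diagonal (fun i => ((f i - x0 : ℝ) : ℂ))) := by
    have h3 : (x0 : ℂ) • (1 : Mat l) = Unitary.conjStarAlgAut ℂ _ U ((x0 : ℂ) • (1 : Mat l)) := by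
      rw [map_smul, map_one]
    rw [h3, hsp, ← map_sub]
    congr 1
    rw [Matrix.smul_one_eq_diagonal, Matrix.diagonal_sub]
    congr 1
    funext i
    push_cast
    rfl
  rw [h2, Unitary.conjStarAlgAut_apply]
  refine Matrix.PosSemidef.mul_mul_conjTranspose_same (Matrix.PosSemidef.diagonal (fun i => ?_)) _
  show (0 : ℂ) ≤ ((f i - x0 : ℝ) : ℂ)
  exact_mod_cast sub_nonneg.2 (hle i)

theorem asym_one_beta (ε t : ℝ) (hε0 : 0 < ε) (hε1 : ε < 1) (ht0 : 0 ≤ t) (ht : t ≤ ε / 3) :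
    ((1 + t) * (1 - ε) ^ (-(1 / 3) : ℝ)) ^ ((3 / 2 : ℝ)) ≤ (1 - ε)⁻¹ := by
  have h1 : 0 < 1 - ε := by linarith
  have hs : 0 < (1 - ε) ^ (-(1 / 3) : ℝ) := Real.rpow_pos_of_pos h1 _
  have hs3 : ((1 - ε) ^ (-(1 / 3) : ℝ)) ^ 3 = (1 - ε)⁻¹ := by
    rw [← Real.rpow_natCast, ← Real.rpow_mul h1.le]
    norm_num
    rw [Real.rpow_neg_one]
  have h2 : 1 + t ≤ (1 - ε) ^ (-(1 / 3) : ℝ) := by
    refine le_of_pow_le_pow_left₀ (n := 3) (by norm_num) hs.le ?_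
    rw [hs3]
    have h3 : (1 + t) ^ 3 ≤ (1 + ε / 3) ^ 3 := pow_le_pow_left₀ (by linarith) (by linarith) 3
    refine h3.trans ?_
    rw [le_inv_comm₀ (by positivity) h1]
    have h4 : (1 - ε) * (1 + ε / 3) ^ 3 ≤ 1 := by nlinarith [pow_pos hε0 2, pow_pos hε0 3, pow_pos hε0 4]
    rw [le_inv_comm₀ h1 (by positivity)]
    rw [← one_div, le_div_iff₀ h1]
    linarith
  have h5 : (1 + t) * (1 - ε) ^ (-(1 / 3) : ℝ) ≤ ((1 - ε) ^ (-(1 / 3) : ℝ)) ^ 2 := by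
    rw [pow_two]
    exact mul_le_mul_of_nonneg_right h2 hs.le
  calc ((1 + t) * (1 - ε) ^ (-(1 / 3) : ℝ)) ^ ((3 / 2 : ℝ))
      ≤ (((1 - ε) ^ (-(1 / 3) : ℝ)) ^ 2) ^ ((3 / 2 : ℝ)) :=
        Real.rpow_le_rpow (by positivity) h5 (by norm_num)
    _ = ((1 - ε) ^ (-(1 / 3) : ℝ)) ^ 3 := by
        rw [← Real.rpow_natCast, ← Real.rpow_mul hs.le, ← Real.rpow_natCast]
        norm_num
    _ = _ := hs3

theorem asym_one_psd {l : ℕ} (A : Mat l) (hA : A.PosSemidef) (r : ℝ) (hr : 0 ≤ r) :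
    ((r : ℂ) • A).PosSemidef := hA.smul (by exact_mod_cast hr)

theorem asym_one {n l : ℕ} (c : Fin n → Mat l) (p q : Mat l) (lam : ℝ) (hF : FixPt c p q lam)
    (δ : ℝ) (hδ : 0 < δ) (hδ1 : δ < 1) :
    ∃ L h0 : ℝ, 1 ≤ L ∧ 0 < h0 ∧ h0 ≤ 1 ∧ ∀ (m : ℕ) (h y : ℝ), 0 < h → h ≤ h0 → L ≤ y →
      y ≤ Real.exp ((2 / 3) * (m * h)) / L → ∀ K1 K2 : Mat l, Dyson m (uu h m) (ww h) y c K1 K2 →
      ((((1 + δ) * (aa lam * y ^ (-(1 / 2) : ℝ)) : ℝ) : ℂ) • p⁻¹ - K1).PosSemidef ∧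
      (K2 - (((1 - δ) * (aa lam * y ^ (-(1 / 2) : ℝ)) : ℝ) : ℂ) • q⁻¹).PosSemidef := by
  obtain ⟨x0, hx0, hqx⟩ := asym_one_x0 q hF.hq
  have hlam := hF.lam_pos
  obtain ⟨-, -, hC0, ha⟩ := aa_ident lam 1 hlam one_pos
  set a : ℝ := aa lam with hadef
  set ε : ℝ := δ / 4 with hεdef
  have hε0 : 0 < ε := by positivity
  have hε1 : ε < 1 := by linarith
  refine ⟨1 + (12 / (ε * a)) ^ 2 + 12 / (ε * a ^ 2 * lam * x0 ^ 2), min 1 (C0 * ε / 6), ?_, ?_,
    min_le_left _ _, ?_⟩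
  · have h1 : 0 ≤ (12 / (ε * a)) ^ 2 := by positivity
    have h2 : 0 ≤ 12 / (ε * a ^ 2 * lam * x0 ^ 2) := by positivity
    linarith
  · exact lt_min one_pos (by positivity)
  · intro m h y hh hh0 hLy hyE K1 K2 D
    set L : ℝ := 1 + (12 / (ε * a)) ^ 2 + 12 / (ε * a ^ 2 * lam * x0 ^ 2) with hL
    have hp1 : 0 ≤ (12 / (ε * a)) ^ 2 := by positivity
    have hp2 : 0 ≤ 12 / (ε * a ^ 2 * lam * x0 ^ 2) := by positivity
    have hL1 : 1 ≤ L := by linarith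
    have hL0 : 0 < L := by linarith
    have hy : 0 < y := by linarith
    have hh1 : h ≤ 1 := hh0.trans (min_le_left _ _)
    have hh2 : h ≤ C0 * ε / 6 := hh0.trans (min_le_right _ _)
    have ht : 2 * h / C0 ≤ ε / 3 := by
      rw [div_le_iff₀ hC0]
      linarith
    have ht0 : 0 ≤ 2 * h / C0 := by positivity
    obtain ⟨hid, -, -, -⟩ := aa_ident lam y hlam hy
    have hs : 0 < y ^ (-(1 / 2) : ℝ) := Real.rpow_pos_of_pos hy _
    have hs2 : (y ^ (-(1 / 2) : ℝ)) ^ 2 = y⁻¹ := by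
      rw [← Real.rpow_natCast, ← Real.rpow_mul hy.le]
      norm_num
      rw [Real.rpow_neg_one]
    rw [← hadef] at hid
    have hG : (1 - ε) * (a * y ^ (-(1 / 2) : ℝ)) ≤
        (C0 - 2 * h) * y ^ (-(2 / 3) : ℝ) * (a * y ^ (-(1 / 2) : ℝ) * lam) ^ (-(1 / 3) : ℝ) -
        4 / y - 4 * Real.exp (-(2 / 3) * (m * h)) / (a * y ^ (-(1 / 2) : ℝ) * lam * x0 ^ 2) := by
      set s : ℝ := y ^ (-(1 / 2) : ℝ) with hsdef
      set X : ℝ := y ^ (-(2 / 3) : ℝ) * (a * s * lam) ^ (-(1 / 3) : ℝ) with hX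
      have hX1 : C0 * X = a * s := by rw [hX, ← mul_assoc]; exact hid
      have hX2 : (C0 - 2 * h) * y ^ (-(2 / 3) : ℝ) * (a * s * lam) ^ (-(1 / 3) : ℝ) =
          a * s - (2 * h / C0) * (a * s) := by
        have e1 : (C0 - 2 * h) * y ^ (-(2 / 3) : ℝ) * (a * s * lam) ^ (-(1 / 3) : ℝ) =
          C0 * X - 2 * h * X := by rw [hX]; ring
        have e2 : (2 * h / C0) * (a * s) = 2 * h * X := by
          rw [← hX1]
          field_simp
        rw [e1, e2, hX1]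
      rw [hX2]
      have has : 0 < a * s := by positivity
      have i1 : (2 * h / C0) * (a * s) ≤ (ε / 3) * (a * s) := mul_le_mul_of_nonneg_right ht has.le
      have i2 : 4 / y ≤ (ε / 3) * (a * s) := by
        have e1 : 4 / y = 4 * s ^ 2 := by rw [hs2]; ring
        have e2 : s ≤ ε * a / 12 := by
          refine le_of_pow_le_pow_left₀ (n := 2) (by norm_num) (by positivity) ?_
          rw [hs2]
          have e3 : (12 / (ε * a)) ^ 2 ≤ y := by linarith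
          have e4 : (ε * a / 12) ^ 2 = ((12 / (ε * a)) ^ 2)⁻¹ := by
            field_simp
          rw [e4]
          exact inv_anti₀ (by positivity) e3
        rw [e1]
        nlinarith
      have i3 : 4 * Real.exp (-(2 / 3) * (m * h)) / (a * s * lam * x0 ^ 2) ≤ (ε / 3) * (a * s) := by
        rw [div_le_iff₀ (by positivity)]
        have e1 : (ε / 3) * (a * s) * (a * s * lam * x0 ^ 2) = (ε / 3) * a ^ 2 * lam * x0 ^ 2 * y⁻¹ := by
          rw [← hs2]; ring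
        rw [e1]
        have e2 : Real.exp (-(2 / 3) * (m * h)) ≤ (L * y)⁻¹ := by
          rw [le_div_iff₀ hL0] at hyE
          have e3 : Real.exp (-(2 / 3) * (m * h)) = (Real.exp ((2 / 3) * (m * h)))⁻¹ := by
            rw [← Real.exp_neg]
            congr 1
            ring
          rw [e3]
          exact inv_anti₀ (by positivity) (by linarith)
        have e4 : 4 * (L * y)⁻¹ ≤ (ε / 3) * a ^ 2 * lam * x0 ^ 2 * y⁻¹ := by
          rw [mul_inv, ← mul_assoc]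
          refine mul_le_mul_of_nonneg_right ?_ (inv_pos.2 hy).le
          have e5 : 12 / (ε * a ^ 2 * lam * x0 ^ 2) ≤ L := by linarith
          rw [div_le_iff₀ (by positivity)] at e5
          rw [← div_eq_mul_inv, div_le_iff₀ hL0]
          linarith
        calc _ ≤ 4 * (L * y)⁻¹ := mul_le_mul_of_nonneg_left e2 (by norm_num)
          _ ≤ _ := e4
      linarith
    obtain ⟨β, hβ1, hβ2, hK1, hK2⟩ := fixbound c p q lam hF m h y ε x0 hh hh1 hy hε0.le hε1 hx0 hqx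
      hG K1 K2 D
    rw [← hadef] at hK1 hK2
    have hβ3 := hβ2.trans (asym_one_beta ε (2 * h / C0) hε0 hε1 ht0 ht)
    have h1ε : 0 < 1 - ε := by linarith
    have hβ0 : 0 < β := by linarith
    have has : 0 < a * y ^ (-(1 / 2) : ℝ) := by positivity
    constructor
    · have hb : β ≤ 1 + δ := by
        refine hβ3.trans ?_
        rw [inv_le_comm₀ h1ε (by linarith), ← one_div, div_le_iff₀ (by linarith)]
        rw [hεdef]
        nlinarith
      have e : ((((1 + δ) * (a * y ^ (-(1 / 2) : ℝ)) : ℝ) : ℂ) • p⁻¹ - K1) =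
          ((((β * (a * y ^ (-(1 / 2) : ℝ)) : ℝ) : ℂ) • p⁻¹ - K1) +
            ((((1 + δ - β) * (a * y ^ (-(1 / 2) : ℝ)) : ℝ) : ℂ) • p⁻¹)) := by
        have e2 : (((1 + δ) * (a * y ^ (-(1 / 2) : ℝ)) : ℝ) : ℂ) =
          ((β * (a * y ^ (-(1 / 2) : ℝ)) : ℝ) : ℂ) +
            (((1 + δ - β) * (a * y ^ (-(1 / 2) : ℝ)) : ℝ) : ℂ) := by
          rw [← Complex.ofReal_add]
          congr 1
          ring
        rw [e2, add_smul]
        abel
      rw [e]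
      exact hK1.add (asym_one_psd _ hF.hp.inv.posSemidef _
        (mul_nonneg (by linarith) has.le))
    · have hb : 1 - δ ≤ (1 - ε) / β := by
        rw [le_div_iff₀ hβ0]
        have e3 : β * (1 - ε) ≤ 1 := by
          have := mul_le_mul_of_nonneg_right hβ3 h1ε.le
          rwa [inv_mul_cancel₀ h1ε.ne'] at this
        have e4 : 1 - δ ≤ (1 - ε) ^ 2 := by
          rw [hεdef]
          nlinarith
        calc (1 - δ) * β ≤ (1 - ε) ^ 2 * β := mul_le_mul_of_nonneg_right e4 hβ0.le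
          _ = (1 - ε) * (β * (1 - ε)) := by ring
          _ ≤ (1 - ε) * 1 := mul_le_mul_of_nonneg_left e3 h1ε.le
          _ = 1 - ε := mul_one _
      have e : (K2 - (((1 - δ) * (a * y ^ (-(1 / 2) : ℝ)) : ℝ) : ℂ) • q⁻¹) =
          ((K2 - (((1 - ε) / β * (a * y ^ (-(1 / 2) : ℝ)) : ℝ) : ℂ) • q⁻¹) +
            (((((1 - ε) / β - (1 - δ)) * (a * y ^ (-(1 / 2) : ℝ)) : ℝ) : ℂ) • q⁻¹)) := by
        have e2 : (((1 - δ) * (a * y ^ (-(1 / 2) : ℝ)) : ℝ) : ℂ) =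
          (((1 - ε) / β * (a * y ^ (-(1 / 2) : ℝ)) : ℝ) : ℂ) -
            ((((1 - ε) / β - (1 - δ)) * (a * y ^ (-(1 / 2) : ℝ)) : ℝ) : ℂ) := by
          rw [← Complex.ofReal_sub]
          congr 1
          ring
        rw [e2, sub_smul]
        abel
      rw [e]
      exact hK2.add (asym_one_psd _ hF.hq.inv.posSemidef _
        (mul_nonneg (by linarith) has.le))

end Pool.Agent.OHP
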