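import Pool.Agent.Helper547.OH.Defs
import Pool.Agent.Helper547.OH.P_asym_one

/-! Definitions for the completely isometric embedding of OH into a von Neumann algebra predual. -/

set_option autoImplicit false

namespace Pool.Agent.OHP
open scoped InnerProductSpace ComplexConjugate ComplexOrder
open Finset


theorem asym_two {n l : ℕ} (c : Fin n → Mat l) (p q : Mat l) (lam : ℝ) (hF : FixPt c p q lam)
    (δ : ℝ) (hδ : 0 < δ) (hδ1 : δ < 1) :
    ∃ L h0 : ℝ, 1 ≤ L ∧ 0 < h0 ∧ h0 ≤ 1 ∧ ∀ (m : ℕ) (h y : ℝ), 0 < h → h ≤ h0 → L ≤ y →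
      y ≤ Real.exp ((2 / 3) * (m * h)) / L → ∀ K1 K2 : Mat l, Dyson m (uu h m) (ww h) y c K1 K2 →
      ((((1 + δ) * (aa lam * y ^ (-(1 / 2) : ℝ)) : ℝ) : ℂ) • p⁻¹ - K1).PosSemidef ∧
      (K1 - (((1 - δ) * (aa lam * y ^ (-(1 / 2) : ℝ)) : ℝ) : ℂ) • p⁻¹).PosSemidef ∧
      ((((1 + δ) * (aa lam * y ^ (-(1 / 2) : ℝ)) : ℝ) : ℂ) • q⁻¹ - K2).PosSemidef ∧
      (K2 - (((1 - δ) * (aa lam * y ^ (-(1 / 2) : ℝ)) : ℝ) : ℂ) • q⁻¹).PosSemidef := by
  have het : ∀ K : Mat l, et (fun i => (c i).conjTranspose) K = et' c K := by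
    intro K
    unfold et et'
    refine Finset.sum_congr rfl fun i _ => ?_
    rw [Matrix.conjTranspose_conjTranspose]
  have het' : ∀ K : Mat l, et' (fun i => (c i).conjTranspose) K = et c K := by
    intro K
    unfold et et'
    refine Finset.sum_congr rfl fun i _ => ?_
    rw [Matrix.conjTranspose_conjTranspose]
  have hF' : FixPt (fun i => (c i).conjTranspose) q p lam :=
    ⟨hF.hq, hF.hp, hF.lam_pos, by rw [het]; exact hF.h2, by rw [het']; exact hF.h1, hF.tq, hF.tp⟩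
  obtain ⟨L1, h1, hL1, hh1, hh1', H1⟩ := asym_one c p q lam hF δ hδ hδ1
  obtain ⟨L2, h2, hL2, hh2, hh2', H2⟩ :=
    asym_one (fun i => (c i).conjTranspose) q p lam hF' δ hδ hδ1
  refine ⟨max L1 L2, min h1 h2, hL1.trans (le_max_left _ _), lt_min hh1 hh2,
    (min_le_left _ _).trans hh1', ?_⟩
  intro m h y hh hhm hLy hy K1 K2 hD
  have e1 : y ≤ Real.exp ((2 / 3) * (m * h)) / L1 :=
    hy.trans (div_le_div_of_nonneg_left (Real.exp_pos _).le (by linarith) (le_max_left _ _))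
  have e2 : y ≤ Real.exp ((2 / 3) * (m * h)) / L2 :=
    hy.trans (div_le_div_of_nonneg_left (Real.exp_pos _).le (by linarith) (le_max_right _ _))
  have hD' : Dyson m (uu h m) (ww h) y (fun i => (c i).conjTranspose) K2 K1 :=
    ⟨hD.h2, hD.h1, by rw [het]; exact hD.e2, by rw [het']; exact hD.e1⟩
  have r1 := H1 m h y hh (hhm.trans (min_le_left _ _)) ((le_max_left _ _).trans hLy) e1 K1 K2 hD
  have r2 := H2 m h y hh (hhm.trans (min_le_right _ _)) ((le_max_right _ _).trans hLy) e2 K2 K1 hD'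
  exact ⟨r1.1, r2.2, r2.1, r1.2⟩

end Pool.Agent.OHP
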