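import Pool.Agent.Helper547.OH.Defs
import Pool.Agent.Helper547.OH.P_aa_ident
import Pool.Agent.Helper547.OH.P_asym_two

/-! Definitions for the completely isometric embedding of OH into a von Neumann algebra predual. -/

set_option autoImplicit false

namespace Pool.Agent.OHP
open scoped InnerProductSpace ComplexConjugate ComplexOrder
open Finset


theorem tr_nonneg_352 {l : ℕ} {A B : Mat l} (hA : A.PosSemidef) (hB : B.PosSemidef) :
    0 ≤ ((A * B).trace).re := by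
  obtain ⟨m, v, hv⟩ := Matrix.posSemidef_iff_eq_sum_vecMulVec.1 hA
  rw [hv, Matrix.sum_mul, Matrix.trace_sum, Complex.re_sum]
  refine Finset.sum_nonneg fun i _ => ?_
  rw [Matrix.vecMulVec_mul, Matrix.trace_vecMulVec, dotProduct_comm, ← Matrix.dotProduct_mulVec]
  have h2 := (Matrix.posSemidef_iff_dotProduct_mulVec.1 hB).2 (v i)
  exact (Complex.le_def.1 h2).1

theorem et'_psd_352 {n l : ℕ} (c : Fin n → Mat l) {K : Mat l} (hK : K.PosSemidef) :
    (et' c K).PosSemidef := by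
  unfold et'
  exact Matrix.posSemidef_sum _ fun i _ => hK.conjTranspose_mul_mul_same (c i)

theorem et'_sub_352 {n l : ℕ} (c : Fin n → Mat l) (K K' : Mat l) :
    et' c (K - K') = et' c K - et' c K' := by
  unfold et'
  rw [← Finset.sum_sub_distrib]
  refine Finset.sum_congr rfl fun i _ => ?_
  rw [Matrix.mul_sub, Matrix.sub_mul]

theorem et'_smul_352 {n l : ℕ} (c : Fin n → Mat l) (a : ℂ) (K : Mat l) :
    et' c (a • K) = a • et' c K := by
  unfold et'
  rw [Finset.smul_sum]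
  refine Finset.sum_congr rfl fun i _ => ?_
  rw [Matrix.mul_smul, Matrix.smul_mul]

theorem f_smul_352 {n l : ℕ} (c : Fin n → Mat l) (a b : ℝ) (P Q : Mat l) :
    ((et' c ((a : ℂ) • P) * ((b : ℂ) • Q)).trace).re = a * b * ((et' c P * Q).trace).re := by
  rw [et'_smul_352, Matrix.smul_mul, Matrix.mul_smul, Matrix.trace_smul, Matrix.trace_smul,
    smul_eq_mul, smul_eq_mul, Complex.re_ofReal_mul, Complex.re_ofReal_mul]
  ring

theorem f_mono_352 {n l : ℕ} (c : Fin n → Mat l) {K1 K1' K2 K2' : Mat l}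
    (h1 : (K1' - K1).PosSemidef) (h2 : (K2' - K2).PosSemidef) (hK2 : K2.PosSemidef)
    (hK1' : K1'.PosSemidef) :
    ((et' c K1 * K2).trace).re ≤ ((et' c K1' * K2').trace).re := by
  have e1 := tr_nonneg_352 (et'_psd_352 c h1) hK2
  have e2 := tr_nonneg_352 (et'_psd_352 c hK1') h2
  rw [et'_sub_352, Matrix.sub_mul, Matrix.trace_sub, Complex.sub_re] at e1
  rw [Matrix.mul_sub, Matrix.trace_sub, Complex.sub_re] at e2
  linarith

theorem asym_Q {n l : ℕ} (c : Fin n → Mat l) (p q : Mat l) (lam : ℝ) (hF : FixPt c p q lam)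
    (ε : ℝ) (hε : 0 < ε) :
    ∃ L h0 : ℝ, 1 ≤ L ∧ 0 < h0 ∧ h0 ≤ 1 ∧ ∀ (m : ℕ) (h y : ℝ), 0 < h → h ≤ h0 → L ≤ y →
      y ≤ Real.exp ((2 / 3) * (m * h)) / L → ∀ K1 K2 : Mat l, Dyson m (uu h m) (ww h) y c K1 K2 →
      |y * ((et' c K1 * K2).trace).re - C0 ^ ((3 / 2 : ℝ)) * √lam| ≤ ε := by
  have hC0 : 0 < C0 := (aa_ident lam 1 hF.lam_pos one_pos).2.2.1
  set M : ℝ := C0 ^ ((3 / 2 : ℝ)) * √lam with hM
  have hM0 : 0 ≤ M := by positivity
  set δ : ℝ := min (1 / 2) (ε / (3 * M + 1)) with hδdef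
  have hδ0 : 0 < δ := lt_min (by norm_num) (by positivity)
  have hδ1 : δ ≤ 1 / 2 := min_le_left _ _
  have hδε : 3 * δ * M ≤ ε := by
    have h1 : δ ≤ ε / (3 * M + 1) := min_le_right _ _
    rw [le_div_iff₀ (by positivity)] at h1
    nlinarith
  obtain ⟨L, h0, hL, hh0, hh1, H⟩ := asym_two c p q lam hF δ hδ0 (by linarith)
  refine ⟨L, h0, hL, hh0, hh1, fun m h y hh hhh hLy hy K1 K2 hD => ?_⟩
  obtain ⟨u1, l1, u2, l2⟩ := H m h y hh hhh hLy hy K1 K2 hD
  have hy0 : 0 < y := by linarith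
  obtain ⟨-, haa, -, haapos⟩ := aa_ident lam y hF.lam_pos hy0
  set a1 : ℝ := aa lam * y ^ (-(1 / 2) : ℝ) with ha1
  have ha1pos : 0 < a1 := mul_pos haapos (Real.rpow_pos_of_pos hy0 _)
  have hy2 : y * (y ^ (-(1 / 2) : ℝ)) ^ 2 = 1 := by
    rw [← Real.rpow_natCast, ← Real.rpow_mul hy0.le]
    have : (-(1 / 2) : ℝ) * ((2 : ℕ) : ℝ) = -1 := by norm_num
    rw [this, Real.rpow_neg_one, mul_inv_cancel₀ hy0.ne']
  have hya : y * (a1 ^ 2 * lam) = M := by
    have hMM : M = aa lam ^ 2 * lam := haa.symm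
    rw [hMM, ha1, mul_pow]
    calc y * (aa lam ^ 2 * (y ^ (-(1 / 2) : ℝ)) ^ 2 * lam)
        = (y * (y ^ (-(1 / 2) : ℝ)) ^ 2) * (aa lam ^ 2 * lam) := by ring
      _ = _ := by rw [hy2, one_mul]
  have hpi : (p⁻¹).PosSemidef := hF.hp.inv.posSemidef
  have hqi : (q⁻¹).PosSemidef := hF.hq.inv.posSemidef
  have hbase : ((et' c p⁻¹ * q⁻¹).trace).re = lam := by
    have hdet : IsUnit q.det := (Matrix.isUnit_iff_isUnit_det q).1 hF.hq.isUnit
    have e1 : q ^ 3 * q⁻¹ = q ^ 2 := by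
      rw [pow_succ]
      exact Matrix.mul_nonsing_inv_cancel_right q (q ^ 2) hdet
    rw [hF.h2, Matrix.smul_mul, e1, Matrix.trace_smul, hF.tq, smul_eq_mul, mul_one,
      Complex.ofReal_re]
  have smul_psd : ∀ (r : ℝ) (P : Mat l), 0 ≤ r → P.PosSemidef → (((r : ℝ) : ℂ) • P).PosSemidef := by
    intro r P hr hP
    exact hP.smul (by exact_mod_cast hr)
  have hup := f_mono_352 c u1 u2 hD.h2
    (smul_psd _ _ (by positivity) hpi)
  have hlo := f_mono_352 c l1 l2 (smul_psd ((1 - δ) * a1) _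
    (mul_nonneg (by linarith) ha1pos.le) hqi) hD.h1
  rw [f_smul_352, hbase] at hup hlo
  set f : ℝ := ((et' c K1 * K2).trace).re with hf
  have hup' : y * f ≤ (1 + δ) ^ 2 * M := by
    have := mul_le_mul_of_nonneg_left hup hy0.le
    calc y * f ≤ y * ((1 + δ) * a1 * ((1 + δ) * a1) * lam) := this
      _ = (1 + δ) ^ 2 * (y * (a1 ^ 2 * lam)) := by ring
      _ = _ := by rw [hya]
  have hlo' : (1 - δ) ^ 2 * M ≤ y * f := by
    have := mul_le_mul_of_nonneg_left hlo hy0.le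
    calc (1 - δ) ^ 2 * M = (1 - δ) ^ 2 * (y * (a1 ^ 2 * lam)) := by rw [hya]
      _ = y * ((1 - δ) * a1 * ((1 - δ) * a1) * lam) := by ring
      _ ≤ y * f := this
  have hδM : 0 ≤ δ * M := mul_nonneg hδ0.le hM0
  have hδ2M : δ ^ 2 * M ≤ δ * M := by
    have : δ ^ 2 ≤ δ := by nlinarith
    exact mul_le_mul_of_nonneg_right this hM0
  have hδ2M0 : 0 ≤ δ ^ 2 * M := by positivity
  rw [abs_le]
  constructor
  · nlinarith
  · nlinarith

end Pool.Agent.OHP
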