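import Pool.Agent.Helper547.OH.Defs

/-! Definitions for the completely isometric embedding of OH into a von Neumann algebra predual. -/

set_option autoImplicit false

namespace Pool.Agent.OHP
open scoped InnerProductSpace ComplexConjugate ComplexOrder
open Finset


theorem blk_props {F : Type} [NormedAddCommGroup F] [InnerProductSpace ℂ F] [CompleteSpace F]
    {l : ℕ} :
    (∀ T R : Hil (Fin l) F →L[ℂ] Hil (Fin l) F, blk (T * R) = blk T * blk R) ∧
    (∀ T R : Hil (Fin l) F →L[ℂ] Hil (Fin l) F, blk (T + R) = blk T + blk R) ∧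
    (∀ (z : ℂ) (T : Hil (Fin l) F →L[ℂ] Hil (Fin l) F), blk (z • T) = z • blk T) ∧
    (blk (1 : Hil (Fin l) F →L[ℂ] Hil (Fin l) F) = 1) ∧
    (∀ T : Hil (Fin l) F →L[ℂ] Hil (Fin l) F, star (blk T) = blk (star T)) ∧
    (∀ (T : Hil (Fin l) F →L[ℂ] Hil (Fin l) F) (ξ : F),
      ⟪(WithLp.toLp 2 (fun rp : Fin l × Fin l => if rp.1 = rp.2 then ξ else 0) :
          Hil (Fin l × Fin l) F),
        blk T (WithLp.toLp 2 (fun rp : Fin l × Fin l => if rp.1 = rp.2 then ξ else 0))⟫_ℂ =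
      ∑ r : Fin l, ⟪vec (Pi.single r 1) ξ, T (vec (Pi.single r 1) ξ)⟫_ℂ) := by
  refine ⟨?_, ?_, ?_, ?_, ?_, ?_⟩
  · intro T R
    ext ξ rp
    obtain ⟨r, p⟩ := rp
    show (blk (T * R) ξ) (r, p) = (blk T (blk R ξ)) (r, p)
    rw [blk_apply, blk_apply]
    rfl
  · intro T R
    ext ξ rp
    obtain ⟨r, p⟩ := rp
    show (blk (T + R) ξ) (r, p) = (blk T ξ) (r, p) + (blk R ξ) (r, p)
    rw [blk_apply, blk_apply, blk_apply]
    rfl
  · intro z T
    ext ξ rp
    obtain ⟨r, p⟩ := rp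
    show (blk (z • T) ξ) (r, p) = z • (blk T ξ) (r, p)
    rw [blk_apply, blk_apply]
    rfl
  · ext ξ rp
    obtain ⟨r, p⟩ := rp
    show (blk 1 ξ) (r, p) = ξ (r, p)
    rw [blk_apply]
    rfl
  · intro T
    refine (ContinuousLinearMap.eq_adjoint_iff _ _).2 ?_ |>.symm
    intro ξ η
    rw [PiLp.inner_apply, PiLp.inner_apply, Fintype.sum_prod_type, Fintype.sum_prod_type]
    refine Finset.sum_congr rfl fun r _ => ?_
    have h1 : ∑ y, ⟪(blk (star T) ξ) (r, y), η (r, y)⟫_ℂ =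
        ⟪(star T) (WithLp.toLp 2 (fun q => ξ (r, q))), (WithLp.toLp 2 (fun q => η (r, q)) : Hil (Fin l) F)⟫_ℂ := by
      rw [PiLp.inner_apply]
      rfl
    have h2 : ∑ y, ⟪ξ (r, y), (blk T η) (r, y)⟫_ℂ =
        ⟪(WithLp.toLp 2 (fun q => ξ (r, q)) : Hil (Fin l) F), T (WithLp.toLp 2 (fun q => η (r, q)))⟫_ℂ := by
      rw [PiLp.inner_apply]
      rfl
    rw [h1, h2]
    exact ContinuousLinearMap.adjoint_inner_left T _ _
  · intro T ξ
    rw [PiLp.inner_apply, Fintype.sum_prod_type]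
    refine Finset.sum_congr rfl fun r _ => ?_
    have hv : (WithLp.toLp 2 (fun q : Fin l => if r = q then ξ else 0) : Hil (Fin l) F) =
        vec (Pi.single r 1) ξ := by
      ext q
      show (if r = q then ξ else 0) = (Pi.single r (1 : ℂ) : Fin l → ℂ) q • ξ
      rw [Pi.single_apply]
      by_cases h : r = q
      · rw [if_pos h, if_pos h.symm, one_smul]
      · rw [if_neg h, if_neg (fun h' => h h'.symm), zero_smul]
    rw [← hv, PiLp.inner_apply]
    rfl

end Pool.Agent.OHP
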