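import Pool.Agent.Helper547.OH.Defs

/-! Definitions for the completely isometric embedding of OH into a von Neumann algebra predual. -/

set_option autoImplicit false

namespace Pool.Agent.OHP
open scoped InnerProductSpace ComplexConjugate ComplexOrder
open Finset


theorem star_amp {F : Type} [NormedAddCommGroup F] [InnerProductSpace ℂ F] [CompleteSpace F]
    {ι : Type} [Fintype ι] (c : Matrix ι ι ℂ) (T : F →L[ℂ] F) :
    star (amp c T) = amp c.conjTranspose (star T) := by
  rw [ContinuousLinearMap.star_eq_adjoint]
  symm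
  rw [ContinuousLinearMap.eq_adjoint_iff]
  intro x y
  rw [PiLp.inner_apply, PiLp.inner_apply]
  have hL : ∀ p : ι, ⟪(amp c.conjTranspose (star T) x) p, y p⟫_ℂ =
      ∑ q, c q p * ⟪x q, T (y p)⟫_ℂ := by
    intro p
    rw [amp_apply, sum_inner]
    apply Finset.sum_congr rfl
    intro q _
    rw [inner_smul_left, Matrix.conjTranspose_apply, ContinuousLinearMap.star_eq_adjoint,
      ContinuousLinearMap.adjoint_inner_left]
    congr 1
    exact star_star _
  have hR : ∀ p : ι, ⟪x p, (amp c T y) p⟫_ℂ = ∑ q, c p q * ⟪x p, T (y q)⟫_ℂ := by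
    intro p
    rw [amp_apply, inner_sum]
    apply Finset.sum_congr rfl
    intro q _
    rw [inner_smul_right]
  rw [Finset.sum_congr rfl (fun p _ => hL p), Finset.sum_congr rfl (fun p _ => hR p)]
  exact Finset.sum_comm

end Pool.Agent.OHP
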