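import Pool.Agent.Helper547.OH.Defs
import Pool.Agent.Helper547.OH.P_amp_mul
import Pool.Agent.Helper547.OH.P_star_amp
import Pool.Agent.Helper547.OH.P_blk_props

/-! Definitions for the completely isometric embedding of OH into a von Neumann algebra predual. -/

set_option autoImplicit false

namespace Pool.Agent.OHP
open scoped InnerProductSpace ComplexConjugate ComplexOrder
open Finset


theorem blk_comm_amp {F : Type} [NormedAddCommGroup F] [InnerProductSpace ℂ F]
    {l : ℕ} (c : Mat l) (X : F →L[ℂ] F) :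
    blk (amp c X) = amp (Matrix.kroneckerMap (· * ·) (1 : Mat l) c) X := by
  apply ContinuousLinearMap.ext
  intro ξ
  apply PiLp.ext
  rintro ⟨r, p⟩
  rw [blk_apply, amp_apply, amp_apply, Fintype.sum_prod_type]
  symm
  rw [Finset.sum_eq_single r]
  · apply Finset.sum_congr rfl
    intro q _
    rw [Matrix.kroneckerMap_apply, Matrix.one_apply_eq, one_mul]
  · intro r' _ hr'
    apply Finset.sum_eq_zero
    intro q _
    rw [Matrix.kroneckerMap_apply, Matrix.one_apply_ne (Ne.symm hr'), zero_mul, zero_smul]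
  · simp

theorem blk_comm_sum {F : Type} [NormedAddCommGroup F] [InnerProductSpace ℂ F] [CompleteSpace F]
    {n l : ℕ} (T : Fin n → (Hil (Fin l) F →L[ℂ] Hil (Fin l) F)) :
    blk (∑ i, T i) = ∑ i, blk (T i) := by
  have h := map_sum (AddMonoidHom.mk' (blk (F := F) (l := l)) (blk_props.2.1)) T Finset.univ
  exact h

theorem blk_comm_om {F : Type} [NormedAddCommGroup F] [InnerProductSpace ℂ F]
    {l : ℕ} (A B : Mat l) (X : F →L[ℂ] F) (Ω : F) :
    amp (Matrix.kroneckerMap (· * ·) A B) X (WithLp.toLp 2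
      (fun rp : Fin l × Fin l => if rp.1 = rp.2 then Ω else 0)) =
      WithLp.toLp 2 (fun rp : Fin l × Fin l => (A * B.transpose) rp.1 rp.2 • X Ω) := by
  apply PiLp.ext
  rintro ⟨r, p⟩
  rw [amp_apply, Fintype.sum_prod_type]
  change _ = (A * B.transpose) r p • X Ω
  rw [Matrix.mul_apply, Finset.sum_smul]
  apply Finset.sum_congr rfl
  intro r' _
  rw [Finset.sum_eq_single r']
  · simp [Matrix.kroneckerMap_apply]
  · intro q _ hq
    simp [Ne.symm hq]
  · simp

theorem blk_comm_commute {F : Type} [NormedAddCommGroup F] [InnerProductSpace ℂ F]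
    {l : ℕ} (A B : Mat l) (X R : F →L[ℂ] F) (h : X * R = R * X) :
    amp (Matrix.kroneckerMap (· * ·) (1 : Mat l) A) X *
      amp (Matrix.kroneckerMap (· * ·) B (1 : Mat l)) R =
    amp (Matrix.kroneckerMap (· * ·) B (1 : Mat l)) R *
      amp (Matrix.kroneckerMap (· * ·) (1 : Mat l) A) X := by
  rw [amp_mul, amp_mul, ← Matrix.mul_kronecker_mul, ← Matrix.mul_kronecker_mul, h]
  simp

theorem blk_comm_star_sum {H : Type} [NormedAddCommGroup H] [InnerProductSpace ℂ H]
    [CompleteSpace H] {n : ℕ} (T : Fin n → (H →L[ℂ] H)) : star (∑ i, T i) = ∑ i, star (T i) := by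
  change ContinuousLinearMap.adjoint (∑ i, T i) = ∑ i, ContinuousLinearMap.adjoint (T i)
  exact map_sum _ _ _

theorem blk_comm {F : Type} [NormedAddCommGroup F] [InnerProductSpace ℂ F] [CompleteSpace F]
    {m : ℕ} {u w : ℕ → ℝ} (M : Model (F := F) m u w) {n l : ℕ} (c : Fin n → Mat l)
    (T Y : Hil (Fin l × Fin l) F →L[ℂ] Hil (Fin l × Fin l) F) (hT : T = blk (tens c M.X))
    (hY : Y = tens (fun i => Matrix.kroneckerMap (· * ·) (c i).transpose (1 : Mat l)) M.Y)
    (Om : Hil (Fin l × Fin l) F)
    (hOm : Om = WithLp.toLp 2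
      (fun rp : Fin l × Fin l => if rp.1 = rp.2 then omg m w M.e else 0)) :
    T * Y = Y * T ∧ star T * Y = Y * star T ∧ T Om = Y Om ∧ (star T) Om = (star Y) Om ∧
    (∀ (x : F →L[ℂ] F), (∀ i, x * M.Y i = M.Y i * x ∧ x * star (M.Y i) = star (M.Y i) * x) →
      ∀ p q : Fin l, amp (Matrix.kroneckerMap (· * ·) (1 : Mat l) (Matrix.single p q (1 : ℂ))) x * Y
        = Y * amp (Matrix.kroneckerMap (· * ·) (1 : Mat l) (Matrix.single p q (1 : ℂ))) x ∧
        amp (Matrix.kroneckerMap (· * ·) (1 : Mat l) (Matrix.single p q (1 : ℂ))) x * star Y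
        = star Y * amp (Matrix.kroneckerMap (· * ·) (1 : Mat l) (Matrix.single p q (1 : ℂ))) x ∧
        ⟪Om, (amp (Matrix.kroneckerMap (· * ·) (1 : Mat l) (Matrix.single p q (1 : ℂ))) x) (T Om)⟫_ℂ
          = ∑ i : Fin n, c i q p * ⟪omg m w M.e, x (M.X i (omg m w M.e))⟫_ℂ) := by
  have hT' : T = ∑ i : Fin n, amp (Matrix.kroneckerMap (· * ·) (1 : Mat l) (c i)) (M.X i) := by
    rw [hT, tens, blk_comm_sum]
    exact Finset.sum_congr rfl (fun i _ => blk_comm_amp _ _)
  have hY' : Y = ∑ i : Fin n, amp (Matrix.kroneckerMap (· * ·) (c i).transpose (1 : Mat l)) (M.Y i) :=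
    hY
  have hTs : star T = ∑ i : Fin n,
      amp (Matrix.kroneckerMap (· * ·) (1 : Mat l) (c i).conjTranspose) (star (M.X i)) := by
    rw [hT']
    rw [blk_comm_star_sum]
    apply Finset.sum_congr rfl
    intro i _
    rw [star_amp, Matrix.conjTranspose_kronecker, Matrix.conjTranspose_one]
  have hYs : star Y = ∑ i : Fin n,
      amp (Matrix.kroneckerMap (· * ·) (c i).transpose.conjTranspose (1 : Mat l)) (star (M.Y i)) := by
    rw [hY']
    rw [blk_comm_star_sum]
    apply Finset.sum_congr rfl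
    intro i _
    rw [star_amp, Matrix.conjTranspose_kronecker, Matrix.conjTranspose_one]
  refine ⟨?_, ?_, ?_, ?_, ?_⟩
  · rw [hT', hY', Finset.sum_mul_sum, Finset.sum_mul_sum, Finset.sum_comm]
    apply Finset.sum_congr rfl
    intro i _
    apply Finset.sum_congr rfl
    intro j _
    exact blk_comm_commute _ _ _ _ (M.comm1 j i)
  · rw [hTs, hY', Finset.sum_mul_sum, Finset.sum_mul_sum, Finset.sum_comm]
    apply Finset.sum_congr rfl
    intro i _
    apply Finset.sum_congr rfl
    intro j _
    exact blk_comm_commute _ _ _ _ (M.comm2 j i)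
  · rw [hT', hY', hOm, _root_.sum_apply, _root_.sum_apply]
    apply Finset.sum_congr rfl
    intro i _
    rw [blk_comm_om, blk_comm_om, M.XO]
    simp
  · rw [hTs, hYs, hOm, _root_.sum_apply, _root_.sum_apply]
    apply Finset.sum_congr rfl
    intro i _
    rw [blk_comm_om, blk_comm_om, M.XsO]
    simp [Matrix.conjTranspose, Matrix.transpose_map]
  · intro x hx p q
    refine ⟨?_, ?_, ?_⟩
    · rw [hY', Finset.mul_sum, Finset.sum_mul]
      apply Finset.sum_congr rfl
      intro i _
      exact blk_comm_commute _ _ _ _ (hx i).1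
    · rw [hYs, Finset.mul_sum, Finset.sum_mul]
      apply Finset.sum_congr rfl
      intro i _
      exact blk_comm_commute _ _ _ _ (hx i).2
    · have h1 : (amp (Matrix.kroneckerMap (· * ·) (1 : Mat l) (Matrix.single p q (1 : ℂ))) x) (T Om) =
          ∑ i : Fin n, amp (Matrix.kroneckerMap (· * ·) (1 : Mat l)
            (Matrix.single p q (1 : ℂ) * c i)) (x * M.X i) Om := by
        rw [hT', _root_.sum_apply, map_sum]
        apply Finset.sum_congr rfl
        intro i _
        have h2 := amp_mul (Matrix.kroneckerMap (· * ·) (1 : Mat l) (Matrix.single p q (1 : ℂ)))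
          (Matrix.kroneckerMap (· * ·) (1 : Mat l) (c i)) x (M.X i)
        rw [← Matrix.mul_kronecker_mul, one_mul] at h2
        rw [← h2]
        rfl
      rw [h1, inner_sum]
      apply Finset.sum_congr rfl
      intro i _
      rw [hOm, blk_comm_om, PiLp.inner_apply, Fintype.sum_prod_type]
      have h3 : ∀ r : Fin l, ∑ p' : Fin l,
          ⟪(WithLp.toLp 2 (fun rp : Fin l × Fin l => if rp.1 = rp.2 then omg m w M.e else 0) :
            Hil (Fin l × Fin l) F) (r, p'),
            (WithLp.toLp 2 (fun rp : Fin l × Fin l =>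
              ((1 : Mat l) * (Matrix.single p q (1 : ℂ) * c i).transpose) rp.1 rp.2 •
                (x * M.X i) (omg m w M.e)) : Hil (Fin l × Fin l) F) (r, p')⟫_ℂ =
          (Matrix.single p q (1 : ℂ) * c i) r r * ⟪omg m w M.e, x (M.X i (omg m w M.e))⟫_ℂ := by
        intro r
        rw [Finset.sum_eq_single r]
        · change ⟪(if r = r then omg m w M.e else 0),
            ((1 : Mat l) * (Matrix.single p q (1 : ℂ) * c i).transpose) r r •
              (x * M.X i) (omg m w M.e)⟫_ℂ = _
          rw [if_pos rfl, inner_smul_right, one_mul, Matrix.transpose_apply]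
          rfl
        · intro p' _ hp'
          change ⟪(if r = p' then omg m w M.e else 0), _⟫_ℂ = _
          rw [if_neg (Ne.symm hp'), inner_zero_left]
        · simp
      rw [Finset.sum_congr rfl (fun r _ => h3 r), ← Finset.sum_mul]
      congr 1
      have h4 : ∑ r, (Matrix.single p q (1 : ℂ) * c i) r r = (Matrix.single p q (1 : ℂ) * c i).trace :=
        rfl
      rw [h4]
      rw [Matrix.trace, Finset.sum_eq_single p]
      · simp [Matrix.diag_apply]
      · intro r _ hr
        simp [Matrix.diag_apply, Matrix.single_mul_apply_of_ne, hr]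
      · simp

end Pool.Agent.OHP
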