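import Pool.Agent.Helper547.OH.Defs

/-! Definitions for the completely isometric embedding of OH into a von Neumann algebra predual. -/

set_option autoImplicit false

namespace Pool.Agent.OHP
open scoped InnerProductSpace ComplexConjugate ComplexOrder
open Finset


theorem phi_one {H : Type} [NormedAddCommGroup H] [InnerProductSpace ℂ H] [CompleteSpace H]
    (A : StarSubalgebra ℂ (H →L[ℂ] H)) (xi et : ℕ → H) (hL : LimObj A xi et) (i : ℕ)
    (x : H →L[ℂ] H) (hx : x ∈ Set.centralizer (Set.centralizer (A : Set (H →L[ℂ] H))))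
    (hn : ‖x‖ ≤ 1) : ‖⟪et i, x (xi i)⟫_ℂ‖ ≤ 1 := by
  classical
  have hsum : ∀ {M : Type} [AddCommMonoid M] (f : Fin (i + 1) → M),
      (∀ j : Fin (i + 1), (j : ℕ) ≠ i → f j = 0) → ∑ j, f j = f (Fin.last i) := by
    intro M _ f hf
    refine Finset.sum_eq_single (Fin.last i) (fun j _ hj => hf j fun h => hj ?_)
      (fun h => absurd (Finset.mem_univ _) h)
    exact Fin.ext (by rw [h, Fin.val_last])
  have hlast : ((Fin.last i : Fin (i + 1)) : ℕ) = i := Fin.val_last i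
  set c : Fin (i + 1) → Mat 1 := fun j => if (j : ℕ) = i then 1 else 0 with hc
  have hcl : c (Fin.last i) = 1 := by simp [hc]
  have hcn : ∀ j : Fin (i + 1), (j : ℕ) ≠ i → c j = 0 := fun j hj => by simp [hc, hj]
  have hfix : FixPt c 1 1 1 := by
    refine ⟨Matrix.PosDef.one, Matrix.PosDef.one, one_pos, ?_, ?_, ?_, ?_⟩
    · unfold Pool.Agent.OHP.et
      rw [hsum _ (fun j hj => by rw [hcn j hj]; simp), hcl]
      simp
    · unfold Pool.Agent.OHP.et'
      rw [hsum _ (fun j hj => by rw [hcn j hj]; simp), hcl]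
      simp
    · simp
    · simp
  have hMB : MatBound (fun _ _ : Fin 1 => x) 1 := by
    intro ξ η
    simp only [Fin.sum_univ_one]
    rw [Real.sqrt_sq (norm_nonneg _), Real.sqrt_sq (norm_nonneg _), one_mul]
    calc ‖⟪η 0, x (ξ 0)⟫_ℂ‖ ≤ ‖η 0‖ * ‖x (ξ 0)‖ := norm_inner_le_norm _ _
      _ ≤ ‖η 0‖ * (1 * ‖ξ 0‖) := mul_le_mul_of_nonneg_left
          ((x.le_opNorm _).trans (mul_le_mul_of_nonneg_right hn (norm_nonneg _))) (norm_nonneg _)
      _ = ‖η 0‖ * ‖ξ 0‖ := by rw [one_mul]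
  have h := hL.up (i + 1) 1 c 1 1 1 hfix (fun _ _ => x) (fun _ _ => hx) hMB
  have hPhi : Phi xi et c (fun _ _ : Fin 1 => x) = ⟪et i, x (xi i)⟫_ℂ := by
    unfold Phi
    simp only [Fin.sum_univ_one]
    rw [hsum _ (fun j hj => by rw [hcn j hj]; simp), hcl, hlast]
    simp
  rw [hPhi, Real.sqrt_one] at h
  exact h

end Pool.Agent.OHP
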