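import Pool.Agent.Helper547.OH.Defs
import Pool.Agent.Helper547.OH.P_phi_one

/-! Definitions for the completely isometric embedding of OH into a von Neumann algebra predual. -/

set_option autoImplicit false

namespace Pool.Agent.OHP
open scoped InnerProductSpace ComplexConjugate ComplexOrder
open Finset


theorem h400_norm {H : Type} [NormedAddCommGroup H] [InnerProductSpace ℂ H]
    {l : ℕ} (x : Fin l → Fin l → (H →L[ℂ] H)) (hb : MatBound x 1) (r s : Fin l) :
    ‖x r s‖ ≤ 1 := by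
  apply ContinuousLinearMap.opNorm_le_bound _ zero_le_one
  intro u
  obtain ⟨v, hv⟩ : ∃ v, v = x r s u := ⟨_, rfl⟩
  have h := hb (Pi.single s u) (Pi.single r v)
  have h1 : ∑ p, ∑ q, ⟪(Pi.single r v : Fin l → H) p, x p q ((Pi.single s u : Fin l → H) q)⟫_ℂ =
      ⟪v, x r s u⟫_ℂ := by
    rw [Finset.sum_eq_single r, Finset.sum_eq_single s, Pi.single_eq_same, Pi.single_eq_same]
    · intro q _ hq
      rw [Pi.single_eq_of_ne hq, map_zero, inner_zero_right]
    · intro h
      exact absurd (Finset.mem_univ _) h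
    · intro p _ hp
      apply Finset.sum_eq_zero
      intro q _
      rw [Pi.single_eq_of_ne hp, inner_zero_left]
    · intro h
      exact absurd (Finset.mem_univ _) h
  have h2 : ∀ (t : Fin l) (w : H), √(∑ p, ‖(Pi.single t w : Fin l → H) p‖ ^ 2) = ‖w‖ := by
    intro t w
    rw [Finset.sum_eq_single t, Pi.single_eq_same, Real.sqrt_sq (norm_nonneg _)]
    · intro q _ hq
      rw [Pi.single_eq_of_ne hq, norm_zero]
      norm_num
    · intro h
      exact absurd (Finset.mem_univ _) h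
  rw [h1, h2, h2, ← hv, one_mul, inner_self_eq_norm_sq_to_K, norm_pow] at h
  have h3 : ‖v‖ ^ 2 ≤ ‖v‖ * ‖u‖ := by simpa using h
  rw [← hv, one_mul]
  rcases eq_or_lt_of_le (norm_nonneg v) with h4 | h4
  · rw [← h4]
    exact norm_nonneg _
  · rw [pow_two] at h3
    exact le_of_mul_le_mul_left h3 h4

theorem cext_Phi {H : Type} [NormedAddCommGroup H] [InnerProductSpace ℂ H] [CompleteSpace H]
    (A : StarSubalgebra ℂ (H →L[ℂ] H)) (xi et : ℕ → H) (hL : LimObj A xi et)
    {n l : ℕ} (c : Fin n → Mat l) (e : ℝ) (he : 0 < e) (x : Fin l → Fin l → (H →L[ℂ] H))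
    (hx : ∀ r s, x r s ∈ Set.centralizer (Set.centralizer (A : Set (H →L[ℂ] H))))
    (hb : MatBound x 1) :
    ‖Phi xi et (cext c e) x - Phi xi et c x‖ ≤ e * l ^ 2 := by
  have hone : ∀ (i : ℕ) (r s : Fin l), ‖⟪et i, x r s (xi i)⟫_ℂ‖ ≤ 1 := fun i r s =>
    phi_one A xi et hL i (x r s) (hx r s) (h400_norm x hb r s)
  have hsplit : ∀ r s : Fin l, ∑ i : Fin (n + l * l), cext c e i s r * ⟪et i, x r s (xi i)⟫_ℂ =
      ∑ i : Fin n, c i s r * ⟪et i, x r s (xi i)⟫_ℂ +
      ∑ j : Fin (l * l), ((e : ℂ) • Matrix.single (finProdFinEquiv.symm j).1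
        (finProdFinEquiv.symm j).2 (1 : ℂ)) s r *
        ⟪et ((Fin.natAdd n j : Fin (n + l * l)) : ℕ),
          x r s (xi ((Fin.natAdd n j : Fin (n + l * l)) : ℕ))⟫_ℂ := by
    intro r s
    rw [Fin.sum_univ_add]
    congr 1
    · apply Finset.sum_congr rfl
      intro i _
      unfold cext
      rw [Fin.append_left]
      rfl
    · apply Finset.sum_congr rfl
      intro j _
      unfold cext
      rw [Fin.append_right]
  have hdiff : Phi xi et (cext c e) x - Phi xi et c x = ∑ r, ∑ s, ∑ j : Fin (l * l),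
      ((e : ℂ) • Matrix.single (finProdFinEquiv.symm j).1 (finProdFinEquiv.symm j).2 (1 : ℂ)) s r *
        ⟪et ((Fin.natAdd n j : Fin (n + l * l)) : ℕ),
          x r s (xi ((Fin.natAdd n j : Fin (n + l * l)) : ℕ))⟫_ℂ := by
    unfold Phi
    rw [← Finset.sum_sub_distrib]
    apply Finset.sum_congr rfl
    intro r _
    rw [← Finset.sum_sub_distrib]
    apply Finset.sum_congr rfl
    intro s _
    rw [hsplit, add_sub_cancel_left]
  have hterm : ∀ r s : Fin l, ‖∑ j : Fin (l * l),
      ((e : ℂ) • Matrix.single (finProdFinEquiv.symm j).1 (finProdFinEquiv.symm j).2 (1 : ℂ)) s r *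
        ⟪et ((Fin.natAdd n j : Fin (n + l * l)) : ℕ),
          x r s (xi ((Fin.natAdd n j : Fin (n + l * l)) : ℕ))⟫_ℂ‖ ≤ e := by
    intro r s
    have h1 : ∀ j : Fin (l * l), ‖((e : ℂ) • Matrix.single (finProdFinEquiv.symm j).1
        (finProdFinEquiv.symm j).2 (1 : ℂ)) s r *
        ⟪et ((Fin.natAdd n j : Fin (n + l * l)) : ℕ),
          x r s (xi ((Fin.natAdd n j : Fin (n + l * l)) : ℕ))⟫_ℂ‖ ≤
        (if finProdFinEquiv.symm j = (s, r) then e else 0) := by
      intro j
      rw [norm_mul, Matrix.smul_apply, Matrix.single_apply, smul_eq_mul]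
      by_cases hj : finProdFinEquiv.symm j = (s, r)
      · rw [if_pos hj, hj, if_pos ⟨rfl, rfl⟩, mul_one, Complex.norm_real, Real.norm_eq_abs,
          abs_of_pos he]
        calc e * _ ≤ e * 1 := mul_le_mul_of_nonneg_left (hone _ r s) he.le
          _ = e := mul_one e
      · rw [if_neg hj, if_neg (fun h => hj (Prod.ext h.1 h.2)), mul_zero, norm_zero, zero_mul]
    refine (norm_sum_le _ _).trans ((Finset.sum_le_sum (fun j _ => h1 j)).trans ?_)
    rw [Equiv.sum_comp finProdFinEquiv.symm (fun y => if y = (s, r) then e else 0),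
      Finset.sum_ite_eq' Finset.univ (s, r) (fun _ => e), if_pos (Finset.mem_univ _)]
  rw [hdiff]
  refine (norm_sum_le _ _).trans ?_
  have h2 : ∀ r : Fin l, ‖∑ s, ∑ j : Fin (l * l),
      ((e : ℂ) • Matrix.single (finProdFinEquiv.symm j).1 (finProdFinEquiv.symm j).2 (1 : ℂ)) s r *
        ⟪et ((Fin.natAdd n j : Fin (n + l * l)) : ℕ),
          x r s (xi ((Fin.natAdd n j : Fin (n + l * l)) : ℕ))⟫_ℂ‖ ≤ l * e := by
    intro r
    refine (norm_sum_le _ _).trans ((Finset.sum_le_sum (fun s _ => hterm r s)).trans ?_)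
    rw [Finset.sum_const, Finset.card_univ, Fintype.card_fin, nsmul_eq_mul]
  refine (Finset.sum_le_sum (fun r _ => h2 r)).trans ?_
  rw [Finset.sum_const, Finset.card_univ, Fintype.card_fin, nsmul_eq_mul]
  apply le_of_eq
  ring

end Pool.Agent.OHP
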