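import Pool.Agent.Helper547.OH.Defs

/-! Definitions for the completely isometric embedding of OH into a von Neumann algebra predual. -/

set_option autoImplicit false

namespace Pool.Agent.OHP
open scoped InnerProductSpace ComplexConjugate ComplexOrder
open Finset


theorem cext_nd_sum {n l : ℕ} (c : Fin n → Mat l) (e : ℝ) (f : Mat l → Mat l) :
    ∑ i, f (cext c e i) = ∑ i, f (c i) +
      ∑ r : Fin l, ∑ s : Fin l, f ((e : ℂ) • Matrix.single r s (1 : ℂ)) := by
  rw [Fin.sum_univ_add]
  congr 1
  · apply Finset.sum_congr rfl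
    intro i _
    unfold cext
    rw [Fin.append_left]
  · have h1 : ∀ j : Fin (l * l), f (cext c e (Fin.natAdd n j)) =
        (fun p : Fin l × Fin l => f ((e : ℂ) • Matrix.single p.1 p.2 (1 : ℂ)))
          (finProdFinEquiv.symm j) := by
      intro j
      unfold cext
      rw [Fin.append_right]
    rw [Finset.sum_congr rfl (fun j _ => h1 j)]
    have h2 := Equiv.sum_comp finProdFinEquiv.symm
      (fun p : Fin l × Fin l => f ((e : ℂ) • Matrix.single p.1 p.2 (1 : ℂ)))
    refine h2.trans ?_
    exact Fintype.sum_prod_type _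

theorem cext_nd_et {n l : ℕ} (c : Fin n → Mat l) (e : ℝ) (K : Mat l) :
    et (cext c e) K = et c K + ((e ^ 2 : ℝ) : ℂ) • (K.trace • (1 : Mat l)) := by
  unfold et
  rw [cext_nd_sum c e (fun a => a * K * a.conjTranspose)]
  congr 1
  have h1 : ∀ r s : Fin l, ((e : ℂ) • Matrix.single r s (1 : ℂ)) * K *
      ((e : ℂ) • Matrix.single r s (1 : ℂ)).conjTranspose =
      ((e ^ 2 : ℝ) : ℂ) • Matrix.single r r (K s s) := by
    intro r s
    rw [Matrix.conjTranspose_smul, Matrix.conjTranspose_single, Matrix.smul_mul, Matrix.smul_mul,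
      Matrix.mul_smul, smul_smul, Matrix.single_mul_mul_single]
    simp [pow_two]
  rw [Finset.sum_congr rfl (fun r _ => Finset.sum_congr rfl (fun s _ => h1 r s))]
  simp_rw [← Finset.smul_sum]
  congr 1
  ext a b
  simp only [Matrix.sum_apply, Matrix.single_apply, Matrix.smul_apply, Matrix.one_apply,
    Matrix.trace, Matrix.diag, smul_eq_mul]
  by_cases hab : a = b
  · subst hab
    rw [Finset.sum_eq_single a]
    · simp
    · intro r _ hr
      apply Finset.sum_eq_zero
      intro s _
      rw [if_neg (fun h => hr h.1)]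
    · intro h
      exact absurd (Finset.mem_univ a) h
  · rw [if_neg hab, mul_zero]
    apply Finset.sum_eq_zero
    intro r _
    apply Finset.sum_eq_zero
    intro s _
    rw [if_neg (fun h => hab (h.1.symm.trans h.2))]

theorem cext_nd_et' {n l : ℕ} (c : Fin n → Mat l) (e : ℝ) :
    ∑ i, (cext c e i).conjTranspose * cext c e i = ∑ i, (c i).conjTranspose * c i +
      ((e ^ 2 : ℝ) : ℂ) • (((l : ℝ) : ℂ) • (1 : Mat l)) := by
  rw [cext_nd_sum c e (fun a => a.conjTranspose * a)]
  congr 1
  have h1 : ∀ r s : Fin l, ((e : ℂ) • Matrix.single r s (1 : ℂ)).conjTranspose *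
      ((e : ℂ) • Matrix.single r s (1 : ℂ)) =
      ((e ^ 2 : ℝ) : ℂ) • Matrix.single s s (1 : ℂ) := by
    intro r s
    rw [Matrix.conjTranspose_smul, Matrix.conjTranspose_single, Matrix.smul_mul,
      Matrix.mul_smul, smul_smul, Matrix.single_mul_single_same]
    simp [pow_two]
  rw [Finset.sum_congr rfl (fun r _ => Finset.sum_congr rfl (fun s _ => h1 r s))]
  simp_rw [← Finset.smul_sum]
  congr 1
  ext a b
  simp only [Matrix.sum_apply, Matrix.single_apply, Matrix.smul_apply, Matrix.one_apply,
    smul_eq_mul]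
  rw [Finset.sum_const, Finset.card_univ, Fintype.card_fin]
  by_cases hab : a = b
  · subst hab
    rw [Finset.sum_eq_single a]
    · simp
    · intro r _ hr
      rw [if_neg (fun h => hr h.1)]
    · intro h
      exact absurd (Finset.mem_univ a) h
  · rw [if_neg hab, mul_zero]
    rw [Finset.sum_eq_zero, smul_zero]
    intro r _
    rw [if_neg (fun h => hab (h.1.symm.trans h.2))]

theorem cext_nd_pos {l : ℕ} (hl : 0 < l) (e : ℝ) (he : 0 < e) :
    (((e ^ 2 : ℝ) : ℂ) • (((l : ℝ) : ℂ) • (1 : Mat l))).PosDef := by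
  rw [smul_smul, ← Complex.ofReal_mul]
  have hpos : (0 : ℝ) < e ^ 2 * (l : ℝ) := by
    have : (0 : ℝ) < (l : ℝ) := by exact_mod_cast hl
    positivity
  have hpos' : (0 : ℂ) < ((e ^ 2 * (l : ℝ) : ℝ) : ℂ) := by
    exact_mod_cast hpos
  exact Matrix.PosDef.one.smul hpos'

theorem cext_nd {n l : ℕ} (hl : 0 < l) (c : Fin n → Mat l) (e : ℝ) (he : 0 < e) :
    (∑ i, cext c e i * (cext c e i).conjTranspose).PosDef ∧
    (∑ i, (cext c e i).conjTranspose * cext c e i).PosDef ∧
    (∀ K : Mat l, et (cext c e) K = et c K + ((e ^ 2 : ℝ) : ℂ) • (K.trace • (1 : Mat l))) := by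
  refine ⟨?_, ?_, cext_nd_et c e⟩
  · have h1 : ∑ i, cext c e i * (cext c e i).conjTranspose = et (cext c e) 1 := by
      unfold et
      simp
    rw [h1, cext_nd_et c e 1, Matrix.trace_one, Fintype.card_fin]
    have h2 : (et c (1 : Mat l)).PosSemidef := by
      unfold et
      apply Matrix.posSemidef_sum
      intro i _
      rw [Matrix.mul_one]
      exact Matrix.posSemidef_self_mul_conjTranspose _
    have h3 := cext_nd_pos hl e he
    rw [Complex.ofReal_natCast] at h3
    rw [add_comm]
    exact h3.add_posSemidef h2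
  · rw [cext_nd_et' c e, add_comm]
    apply (cext_nd_pos hl e he).add_posSemidef
    apply Matrix.posSemidef_sum
    intro i _
    exact Matrix.posSemidef_conjTranspose_mul_self _

end Pool.Agent.OHP
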