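import Pool.Agent.Helper547.OH.Defs

/-! Definitions for the completely isometric embedding of OH into a von Neumann algebra predual. -/

set_option autoImplicit false

namespace Pool.Agent.OHP
open scoped InnerProductSpace ComplexConjugate ComplexOrder
open Finset


section j23781

variable {H : Type} [NormedAddCommGroup H] [InnerProductSpace ℂ H] {ι : Type} [Fintype ι]

/-- diagonal amplification -/
noncomputable def j23781_D (T : H →L[ℂ] H) : Hil ι H →L[ℂ] Hil ι H :=
  ((PiLp.continuousLinearEquiv 2 ℂ (fun _ : ι => H)).symm : (ι → H) →L[ℂ] Hil ι H) ∘L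
    (ContinuousLinearMap.pi fun p => T ∘L ContinuousLinearMap.proj p) ∘L
    ((PiLp.continuousLinearEquiv 2 ℂ (fun _ : ι => H)) : Hil ι H →L[ℂ] (ι → H))

theorem j23781_D_apply (T : H →L[ℂ] H) (v : Hil ι H) (i : ι) : (j23781_D T v) i = T (v i) := by
  simp [j23781_D]

/-- projection -/
noncomputable def j23781_pr (i : ι) : Hil ι H →L[ℂ] H :=
  (ContinuousLinearMap.proj i) ∘L
    ((PiLp.continuousLinearEquiv 2 ℂ (fun _ : ι => H)) : Hil ι H →L[ℂ] (ι → H))

theorem j23781_pr_apply (i : ι) (v : Hil ι H) : j23781_pr i v = v i := by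
  simp [j23781_pr]

open Classical in
/-- inclusion -/
noncomputable def j23781_E (j : ι) : H →L[ℂ] Hil ι H :=
  ((PiLp.continuousLinearEquiv 2 ℂ (fun _ : ι => H)).symm : (ι → H) →L[ℂ] Hil ι H) ∘L
    (ContinuousLinearMap.pi fun p => if p = j then ContinuousLinearMap.id ℂ H else 0)

open Classical in
theorem j23781_E_apply (j : ι) (h : H) (i : ι) :
    (j23781_E j h) i = if i = j then h else 0 := by
  simp only [j23781_E, ContinuousLinearMap.comp_apply]
  by_cases hij : i = j
  · simp [hij]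
  · simp [hij]

theorem j23781_decomp (v : Hil ι H) : v = ∑ j, j23781_E j (v j) := by
  classical
  ext i
  rw [← j23781_pr_apply i (∑ j, j23781_E j (v j)), map_sum]
  simp only [j23781_pr_apply, j23781_E_apply]
  simp

theorem j23781_DE (T : H →L[ℂ] H) (j : ι) (h : H) :
    j23781_D T (j23781_E j h) = j23781_E j (T h) := by
  classical
  ext i
  rw [j23781_D_apply, j23781_E_apply, j23781_E_apply]
  by_cases hij : i = j
  · rw [if_pos hij, if_pos hij]
  · rw [if_neg hij, if_neg hij, map_zero]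

theorem j23781_adj [CompleteSpace H] (T : H →L[ℂ] H) (k v : Hil ι H) :
    ⟪k, j23781_D T v⟫_ℂ = ⟪j23781_D (star T) k, v⟫_ℂ := by
  rw [PiLp.inner_apply, PiLp.inner_apply]
  refine Finset.sum_congr rfl fun i _ => ?_
  rw [j23781_D_apply, j23781_D_apply, ContinuousLinearMap.star_eq_adjoint,
    ContinuousLinearMap.adjoint_inner_left]

end j23781

/-- a sum of vector functionals vanishing on a unital star algebra vanishes on its bicommutant -/
theorem commutant_ext {H : Type} [NormedAddCommGroup H] [InnerProductSpace ℂ H] [CompleteSpace H]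
    (A : StarSubalgebra ℂ (H →L[ℂ] H)) {ι : Type} [Fintype ι] (ξ η : ι → H)
    (h : ∀ a ∈ A, ∑ i, ⟪η i, a (ξ i)⟫_ℂ = 0) (x : H →L[ℂ] H)
    (hx : x ∈ Set.centralizer (Set.centralizer (A : Set (H →L[ℂ] H)))) :
    ∑ i, ⟪η i, x (ξ i)⟫_ℂ = 0 := by
  classical
  let Ξ : Hil ι H := WithLp.toLp 2 ξ
  let N : Hil ι H := WithLp.toLp 2 η
  let K0 : Submodule ℂ (Hil ι H) :=
    Submodule.span ℂ ((fun a : H →L[ℂ] H => j23781_D a Ξ) '' (A : Set (H →L[ℂ] H)))
  let K : Submodule ℂ (Hil ι H) := K0.topologicalClosure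
  have hKc : IsClosed (K : Set (Hil ι H)) := K0.isClosed_topologicalClosure
  have hK0K : K0 ≤ K := K0.le_topologicalClosure
  have hinv : ∀ b ∈ A, ∀ k ∈ K, j23781_D b k ∈ K := by
    intro b hb
    have h1 : K0 ≤ K.comap (j23781_D b : Hil ι H →L[ℂ] Hil ι H).toLinearMap := by
      refine Submodule.span_le.2 ?_
      rintro _ ⟨a, ha, rfl⟩
      refine hK0K (Submodule.subset_span ⟨b * a, mul_mem hb ha, ?_⟩)
      ext i
      show (j23781_D (b * a) Ξ) i = (j23781_D b (j23781_D a Ξ)) i
      rw [j23781_D_apply, j23781_D_apply, j23781_D_apply]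
      rfl
    have h2 : K ≤ K.comap (j23781_D b : Hil ι H →L[ℂ] Hil ι H).toLinearMap :=
      K0.topologicalClosure_minimal h1 (hKc.preimage (j23781_D b).continuous)
    intro k hk
    exact h2 hk
  let P : Hil ι H →L[ℂ] Hil ι H := K.starProjection
  have hPmem : ∀ v, P v ∈ K := fun v => K.starProjection_apply_mem v
  have hPcomm : ∀ b ∈ A, ∀ v, P (j23781_D b v) = j23781_D b (P v) := by
    intro b hb v
    refine Submodule.eq_starProjection_of_mem_orthogonal (hinv b hb _ (hPmem v)) ?_
    rw [← map_sub, Submodule.mem_orthogonal]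
    intro k hk
    rw [j23781_adj]
    exact Submodule.inner_right_of_mem_orthogonal (hinv _ (star_mem hb) k hk)
      (K.sub_starProjection_mem_orthogonal v)
  let Pe : ι → ι → (H →L[ℂ] H) := fun i j => j23781_pr i ∘L P ∘L j23781_E j
  have hPe : ∀ i j, Pe i j ∈ Set.centralizer (A : Set (H →L[ℂ] H)) := by
    intro i j
    rw [Set.mem_centralizer_iff]
    intro a ha
    ext v
    show a (j23781_pr i (P (j23781_E j v))) = j23781_pr i (P (j23781_E j (a v)))
    rw [← j23781_DE, hPcomm a ha, j23781_pr_apply, j23781_pr_apply, j23781_D_apply]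
  have hxPe : ∀ i j v, x (j23781_pr i (P (j23781_E j v))) =
      j23781_pr i (P (j23781_E j (x v))) := by
    intro i j v
    have h1 := (Set.mem_centralizer_iff.1 hx) (Pe i j) (hPe i j)
    have h2 := congrArg (fun T : H →L[ℂ] H => T v) h1
    exact h2.symm
  have hxP : ∀ v, P (j23781_D x v) = j23781_D x (P v) := by
    intro v
    ext i
    rw [j23781_D_apply, ← j23781_pr_apply i (P v), ← j23781_pr_apply i (P (j23781_D x v))]
    conv_lhs => rw [j23781_decomp v]
    conv_rhs => rw [j23781_decomp v]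
    simp only [map_sum]
    refine Finset.sum_congr rfl fun j _ => ?_
    rw [hxPe, j23781_DE]
  have hΞ : Ξ ∈ K := by
    refine hK0K (Submodule.subset_span ⟨1, one_mem A, ?_⟩)
    ext i
    show (j23781_D 1 Ξ) i = Ξ i
    rw [j23781_D_apply]
    rfl
  have hPΞ : P Ξ = Ξ := Submodule.starProjection_eq_self_iff.2 hΞ
  have hmem : j23781_D x Ξ ∈ K := by
    have h1 := hxP Ξ
    rw [hPΞ] at h1
    rw [← h1]
    exact hPmem _
  have hN : ∀ k ∈ K, ⟪N, k⟫_ℂ = 0 := by
    have h1 : K0 ≤ (ℂ ∙ N)ᗮ := by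
      refine Submodule.span_le.2 ?_
      rintro _ ⟨a, ha, rfl⟩
      rw [SetLike.mem_coe, Submodule.mem_orthogonal_singleton_iff_inner_right, PiLp.inner_apply]
      have h2 := h a ha
      rw [← h2]
      refine Finset.sum_congr rfl fun i _ => ?_
      rw [j23781_D_apply]
    have h2 : K ≤ (ℂ ∙ N)ᗮ :=
      K0.topologicalClosure_minimal h1 (Submodule.isClosed_orthogonal _)
    intro k hk
    exact Submodule.mem_orthogonal_singleton_iff_inner_right.1 (h2 hk)
  have hfin := hN _ hmem
  rw [PiLp.inner_apply] at hfin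
  rw [← hfin]
  refine Finset.sum_congr rfl fun i _ => ?_
  rw [j23781_D_apply]

end Pool.Agent.OHP
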