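import Pool.Agent.Helper547.OH.Defs

/-! Definitions for the completely isometric embedding of OH into a von Neumann algebra predual. -/

set_option autoImplicit false

namespace Pool.Agent.OHP
open scoped InnerProductSpace ComplexConjugate ComplexOrder
open Finset

theorem comp_bilin_vec {F : Type} [NormedAddCommGroup F] [InnerProductSpace ℂ F] {l : ℕ}
    (ξ : F) (v : Fin l → ℂ) :
    (vec v ξ : Hil (Fin l) F) = ∑ i, v i • vec (Pi.single i 1) ξ := by
  apply PiLp.ext
  intro p
  have h : (∑ i, v i • (vec (Pi.single i 1) ξ : Hil (Fin l) F)) p =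
      ∑ i, (v i • (vec (Pi.single i 1) ξ : Hil (Fin l) F)) p := by
    simp
  rw [h]
  show v p • ξ = ∑ i, v i • ((Pi.single i (1 : ℂ) : Fin l → ℂ) p • ξ)
  rw [Finset.sum_eq_single p]
  · rw [Pi.single_eq_same, one_smul]
  · intro i _ hi
    rw [Pi.single_eq_of_ne (Ne.symm hi), zero_smul, smul_zero]
  · intro h
    exact absurd (Finset.mem_univ _) h

theorem comp_bilin {F : Type} [NormedAddCommGroup F] [InnerProductSpace ℂ F] {l : ℕ}
    (P : Hil (Fin l) F →L[ℂ] Hil (Fin l) F) (ξ : F) (v v' : Fin l → ℂ) :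
    ⟪vec v ξ, P (vec v' ξ)⟫_ℂ = ∑ i, conj (v i) * ((comp P ξ).mulVec v') i := by
  rw [comp_bilin_vec ξ v, comp_bilin_vec ξ v', map_sum, sum_inner]
  refine Finset.sum_congr rfl fun i _ => ?_
  rw [inner_smul_left, inner_sum]
  congr 1
  unfold Matrix.mulVec dotProduct
  refine Finset.sum_congr rfl fun j _ => ?_
  rw [map_smul, inner_smul_right, mul_comm]
  rfl

end Pool.Agent.OHP
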