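import Pool.Agent.Helper547.OH.Defs

/-! Definitions for the completely isometric embedding of OH into a von Neumann algebra predual. -/

set_option autoImplicit false

namespace Pool.Agent.OHP
open scoped InnerProductSpace ComplexConjugate ComplexOrder
open Finset


theorem dual_low_tr {n l : ℕ} (X Y : Fin n → Mat l) :
    (∑ i, X i * (Y i).conjTranspose).trace =
      ∑ k : Fin n × Fin l × Fin l, X k.1 k.2.1 k.2.2 * star (Y k.1 k.2.1 k.2.2) := by
  rw [Fintype.sum_prod_type, Matrix.trace_sum]
  refine Finset.sum_congr rfl fun i _ => ?_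
  rw [Fintype.sum_prod_type, Matrix.trace]
  refine Finset.sum_congr rfl fun a _ => ?_
  rw [Matrix.diag_apply, Matrix.mul_apply]
  refine Finset.sum_congr rfl fun b _ => ?_
  rw [Matrix.conjTranspose_apply]

theorem dual_low_tr2 {n l : ℕ} (X : Fin n → Mat l) :
    (∑ i, X i * (X i).conjTranspose).trace.re =
      ∑ k : Fin n × Fin l × Fin l, ‖X k.1 k.2.1 k.2.2‖ ^ 2 := by
  rw [dual_low_tr, Complex.re_sum]
  refine Finset.sum_congr rfl fun k _ => ?_
  have : X k.1 k.2.1 k.2.2 * star (X k.1 k.2.1 k.2.2) =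
      ((‖X k.1 k.2.1 k.2.2‖ ^ 2 : ℝ) : ℂ) := by
    rw [Complex.star_def, Complex.mul_conj, Complex.normSq_eq_norm_sq]
  rw [this, Complex.ofReal_re]

theorem dual_low_cs {n l : ℕ} (X Y : Fin n → Mat l) :
    ‖(∑ i, X i * (Y i).conjTranspose).trace‖ ≤
      √((∑ i, X i * (X i).conjTranspose).trace.re) *
        √((∑ i, Y i * (Y i).conjTranspose).trace.re) := by
  rw [dual_low_tr2, dual_low_tr2, dual_low_tr]
  refine (norm_sum_le _ _).trans ?_
  refine le_trans (le_of_eq ?_) (Real.sum_mul_le_sqrt_mul_sqrt Finset.univ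
    (fun k : Fin n × Fin l × Fin l => ‖X k.1 k.2.1 k.2.2‖)
    (fun k : Fin n × Fin l × Fin l => ‖Y k.1 k.2.1 k.2.2‖))
  refine Finset.sum_congr rfl fun k _ => ?_
  rw [norm_mul, norm_star]

open scoped MatrixOrder in
theorem dual_low_sq {l : ℕ} (p : Mat l) (hp : p.PosSemidef) :
    ∃ B : Mat l, p = B.conjTranspose * B := by
  obtain ⟨B, hB⟩ := CStarAlgebra.nonneg_iff_eq_star_mul_self.mp hp.nonneg
  exact ⟨B, hB⟩

theorem dual_low {n l : ℕ} (c d : Fin n → Mat l) (p q : Mat l) (lam : ℝ)
    (hF : FixPt c p q lam) :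
    ‖(∑ i, c i * (d i).conjTranspose).trace‖ ≤
      √lam * √((∑ i, p * d i * q * (d i).conjTranspose).trace.re) := by
  classical
  obtain ⟨B, hB⟩ := dual_low_sq p hF.hp.posSemidef
  obtain ⟨C', hC'⟩ := dual_low_sq q hF.hq.posSemidef
  obtain ⟨C, rfl⟩ : ∃ C : Mat l, C' = C.conjTranspose := ⟨C'.conjTranspose, by simp⟩
  rw [Matrix.conjTranspose_conjTranspose] at hC'
  have hBu : IsUnit B.det := by
    have h1 := (Matrix.isUnit_iff_isUnit_det _).1 hF.hp.isUnit
    rw [hB, Matrix.det_mul] at h1
    exact isUnit_of_mul_isUnit_right h1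
  have hCu : IsUnit C.det := by
    have h1 := (Matrix.isUnit_iff_isUnit_det _).1 hF.hq.isUnit
    rw [hC', Matrix.det_mul] at h1
    exact isUnit_of_mul_isUnit_left h1
  have e1 : B.conjTranspose * (B⁻¹).conjTranspose = 1 := by
    rw [← Matrix.conjTranspose_mul, Matrix.nonsing_inv_mul _ hBu, Matrix.conjTranspose_one]
  have e2 : (C⁻¹).conjTranspose * C.conjTranspose = 1 := by
    rw [← Matrix.conjTranspose_mul, Matrix.mul_nonsing_inv _ hCu, Matrix.conjTranspose_one]
  have hpi : p⁻¹ = B⁻¹ * (B⁻¹).conjTranspose := by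
    apply Matrix.inv_eq_right_inv
    rw [hB]
    calc B.conjTranspose * B * (B⁻¹ * (B⁻¹).conjTranspose)
        = B.conjTranspose * (B * B⁻¹) * (B⁻¹).conjTranspose := by
          simp only [Matrix.mul_assoc]
      _ = 1 := by rw [Matrix.mul_nonsing_inv _ hBu, Matrix.mul_one, e1]
  have hqi : q⁻¹ = (C⁻¹).conjTranspose * C⁻¹ := by
    apply Matrix.inv_eq_left_inv
    rw [hC']
    calc (C⁻¹).conjTranspose * C⁻¹ * (C * C.conjTranspose)
        = (C⁻¹).conjTranspose * (C⁻¹ * C) * C.conjTranspose := by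
          simp only [Matrix.mul_assoc]
      _ = 1 := by rw [Matrix.nonsing_inv_mul _ hCu, Matrix.mul_one, e2]
  have hmain := dual_low_cs (fun i => (B⁻¹).conjTranspose * c i * (C⁻¹).conjTranspose)
    (fun i => B * d i * C)
  have t1 : (∑ i, ((B⁻¹).conjTranspose * c i * (C⁻¹).conjTranspose) *
      (B * d i * C).conjTranspose).trace = (∑ i, c i * (d i).conjTranspose).trace := by
    rw [Matrix.trace_sum, Matrix.trace_sum]
    refine Finset.sum_congr rfl fun i _ => ?_
    rw [Matrix.conjTranspose_mul, Matrix.conjTranspose_mul]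
    calc ((B⁻¹).conjTranspose * c i * (C⁻¹).conjTranspose *
          (C.conjTranspose * ((d i).conjTranspose * B.conjTranspose))).trace
        = ((B⁻¹).conjTranspose * c i * ((C⁻¹).conjTranspose * C.conjTranspose) *
          (d i).conjTranspose * B.conjTranspose).trace := by simp only [Matrix.mul_assoc]
      _ = ((B⁻¹).conjTranspose * (c i * (d i).conjTranspose) * B.conjTranspose).trace := by
          rw [e2, Matrix.mul_one]; simp only [Matrix.mul_assoc]
      _ = (B.conjTranspose * (B⁻¹).conjTranspose * (c i * (d i).conjTranspose)).trace := by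
          rw [Matrix.trace_mul_comm]; simp only [Matrix.mul_assoc]
      _ = (c i * (d i).conjTranspose).trace := by rw [e1, Matrix.one_mul]
  have t2 : (∑ i, (B * d i * C) * (B * d i * C).conjTranspose).trace =
      (∑ i, p * d i * q * (d i).conjTranspose).trace := by
    rw [Matrix.trace_sum, Matrix.trace_sum]
    refine Finset.sum_congr rfl fun i _ => ?_
    rw [Matrix.conjTranspose_mul, Matrix.conjTranspose_mul]
    calc (B * d i * C * (C.conjTranspose * ((d i).conjTranspose * B.conjTranspose))).trace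
        = ((B * d i * (C * C.conjTranspose) * (d i).conjTranspose) * B.conjTranspose).trace := by
          simp only [Matrix.mul_assoc]
      _ = (B.conjTranspose * B * d i * (C * C.conjTranspose) * (d i).conjTranspose).trace := by
          rw [Matrix.trace_mul_comm]; simp only [Matrix.mul_assoc]
      _ = _ := by rw [← hB, ← hC']
  have t3 : (∑ i, ((B⁻¹).conjTranspose * c i * (C⁻¹).conjTranspose) *
      ((B⁻¹).conjTranspose * c i * (C⁻¹).conjTranspose).conjTranspose).trace = (lam : ℂ) := by
    have s1 : (∑ i, ((B⁻¹).conjTranspose * c i * (C⁻¹).conjTranspose) *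
      ((B⁻¹).conjTranspose * c i * (C⁻¹).conjTranspose).conjTranspose).trace =
        (p⁻¹ * et c q⁻¹).trace := by
      rw [et, Finset.mul_sum, Matrix.trace_sum, Matrix.trace_sum]
      refine Finset.sum_congr rfl fun i _ => ?_
      rw [Matrix.conjTranspose_mul, Matrix.conjTranspose_mul, Matrix.conjTranspose_conjTranspose,
        Matrix.conjTranspose_conjTranspose, hpi, hqi]
      calc ((B⁻¹).conjTranspose * c i * (C⁻¹).conjTranspose *
            (C⁻¹ * ((c i).conjTranspose * B⁻¹))).trace
          = (((B⁻¹).conjTranspose * c i * ((C⁻¹).conjTranspose * C⁻¹) * (c i).conjTranspose) *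
            B⁻¹).trace := by simp only [Matrix.mul_assoc]
        _ = _ := by
            rw [Matrix.trace_mul_comm]; simp only [Matrix.mul_assoc]
    have s2 : p⁻¹ * et c q⁻¹ = (lam : ℂ) • p ^ 2 := by
      have hpu : IsUnit p.det := (Matrix.isUnit_iff_isUnit_det _).1 hF.hp.isUnit
      rw [hF.h1, Matrix.mul_smul, show p ^ 3 = p * p ^ 2 from pow_succ' p 2, ← Matrix.mul_assoc,
        Matrix.nonsing_inv_mul _ hpu, Matrix.one_mul]
    rw [s1, s2, Matrix.trace_smul, hF.tp, smul_eq_mul, mul_one]
  rw [t1, t2, t3, Complex.ofReal_re] at hmain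
  exact hmain

end Pool.Agent.OHP
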