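import Pool.Agent.Helper547.OH.Defs

/-! Definitions for the completely isometric embedding of OH into a von Neumann algebra predual. -/

set_option autoImplicit false

namespace Pool.Agent.OHP
open scoped InnerProductSpace ComplexConjugate ComplexOrder
open Finset


theorem l2_iff_sum {l k : ℕ} (T : Matrix (Fin l × Fin k) (Fin l × Fin k) ℂ)
    (v w : EuclideanSpace ℂ (Fin l × Fin k)) :
    ⟪w, Matrix.toEuclideanCLM (n := Fin l × Fin k) (𝕜 := ℂ) T v⟫_ℂ =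
      ∑ p, ∑ a, ∑ q, ∑ b, conj (w (p, a)) * T (p, a) (q, b) * v (q, b) := by
  rw [PiLp.inner_apply, Fintype.sum_prod_type]
  refine Finset.sum_congr rfl fun p _ => Finset.sum_congr rfl fun a _ => ?_
  rw [Matrix.ofLp_toEuclideanCLM, RCLike.inner_apply]
  simp only [Matrix.mulVec, dotProduct]
  rw [Fintype.sum_prod_type, Finset.sum_mul]
  refine Finset.sum_congr rfl fun q _ => ?_
  rw [Finset.sum_mul]
  refine Finset.sum_congr rfl fun b _ => ?_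
  ring

theorem l2_iff_hs {l k : ℕ} (v : EuclideanSpace ℂ (Fin l × Fin k)) :
    hs (Matrix.of fun q b => v (q, b) : Matrix (Fin l) (Fin k) ℂ) = ‖v‖ := by
  unfold hs
  rw [EuclideanSpace.norm_eq, Fintype.sum_prod_type]
  rfl

open scoped Matrix.Norms.L2Operator in
theorem l2_iff {l k : ℕ} (T : Matrix (Fin l × Fin k) (Fin l × Fin k) ℂ) (C : ℝ) (hC : 0 ≤ C) :
    ‖T‖ ≤ C ↔ ∀ V W : Matrix (Fin l) (Fin k) ℂ, hs V ≤ 1 → hs W ≤ 1 →
      ‖∑ p, ∑ a, ∑ q, ∑ b, conj (W p a) * T (p, a) (q, b) * V q b‖ ≤ C := by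
  rw [← Matrix.l2_opNorm_toEuclideanCLM]
  constructor
  · intro h V W hV hW
    obtain ⟨v, hv⟩ : ∃ v : EuclideanSpace ℂ (Fin l × Fin k),
      v = WithLp.toLp 2 (fun x => V x.1 x.2) := ⟨_, rfl⟩
    obtain ⟨w, hw⟩ : ∃ w : EuclideanSpace ℂ (Fin l × Fin k),
      w = WithLp.toLp 2 (fun x => W x.1 x.2) := ⟨_, rfl⟩
    have h1 := l2_iff_sum T v w
    have hv1 : ‖v‖ ≤ 1 := by
      rw [← l2_iff_hs, hv]
      exact hV
    have hw1 : ‖w‖ ≤ 1 := by
      rw [← l2_iff_hs, hw]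
      exact hW
    have h2 : (∑ p, ∑ a, ∑ q, ∑ b, conj (W p a) * T (p, a) (q, b) * V q b) =
        ⟪w, Matrix.toEuclideanCLM (n := Fin l × Fin k) (𝕜 := ℂ) T v⟫_ℂ := by
      rw [h1, hv, hw]
    rw [h2]
    calc ‖⟪w, Matrix.toEuclideanCLM (n := Fin l × Fin k) (𝕜 := ℂ) T v⟫_ℂ‖
        ≤ ‖w‖ * ‖Matrix.toEuclideanCLM (n := Fin l × Fin k) (𝕜 := ℂ) T v‖ := norm_inner_le_norm _ _
      _ ≤ 1 * (‖Matrix.toEuclideanCLM (n := Fin l × Fin k) (𝕜 := ℂ) T‖ * ‖v‖) := by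
          refine mul_le_mul hw1 ((Matrix.toEuclideanCLM (n := Fin l × Fin k) (𝕜 := ℂ) T).le_opNorm v)
            (norm_nonneg _) zero_le_one
      _ ≤ 1 * (C * 1) := by
          refine mul_le_mul_of_nonneg_left ?_ zero_le_one
          exact mul_le_mul h hv1 (norm_nonneg _) hC
      _ = C := by ring
  · intro h
    refine ContinuousLinearMap.opNorm_le_bound _ hC fun v => ?_
    obtain ⟨t, ht⟩ : ∃ t, t = Matrix.toEuclideanCLM (n := Fin l × Fin k) (𝕜 := ℂ) T v := ⟨_, rfl⟩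
    rw [← ht]
    by_cases hv0 : v = 0
    · rw [hv0, map_zero] at ht
      rw [ht, hv0, norm_zero, mul_zero]
    by_cases ht0 : t = 0
    · rw [ht0, norm_zero]
      positivity
    have hv1 : 0 < ‖v‖ := norm_pos_iff.2 hv0
    have ht1 : 0 < ‖t‖ := norm_pos_iff.2 ht0
    have key : ∀ x : EuclideanSpace ℂ (Fin l × Fin k), 0 < ‖x‖ →
        ‖((‖x‖⁻¹ : ℝ) : ℂ) • x‖ ≤ 1 := by
      intro x hx
      rw [norm_smul, Complex.norm_real, norm_inv, norm_norm, inv_mul_cancel₀ hx.ne']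
    have h1 := h (Matrix.of fun q b => (((‖v‖⁻¹ : ℝ) : ℂ) • v) (q, b))
      (Matrix.of fun q b => (((‖t‖⁻¹ : ℝ) : ℂ) • t) (q, b))
      (by rw [l2_iff_hs]; exact key v hv1) (by rw [l2_iff_hs]; exact key t ht1)
    have h2 := l2_iff_sum T (((‖v‖⁻¹ : ℝ) : ℂ) • v) (((‖t‖⁻¹ : ℝ) : ℂ) • t)
    simp only [Matrix.of_apply] at h1
    rw [← h2, map_smul, ← ht, inner_smul_left, inner_smul_right, inner_self_eq_norm_sq_to_K,
      norm_mul, norm_mul] at h1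
    simp only [Complex.conj_ofReal, Complex.norm_real, norm_inv, norm_norm, norm_pow,
      Complex.coe_algebraMap] at h1
    have h3 : ‖t‖⁻¹ * (‖v‖⁻¹ * ‖t‖ ^ 2) = ‖t‖ / ‖v‖ := by
      field_simp
    rw [h3, div_le_iff₀ hv1] at h1
    exact h1

end Pool.Agent.OHP
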