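import Pool.Agent.Helper547.OH.Defs
import Pool.Agent.Helper547.OH.P_l2_iff

/-! Definitions for the completely isometric embedding of OH into a von Neumann algebra predual. -/

set_option autoImplicit false

namespace Pool.Agent.OHP
open scoped InnerProductSpace ComplexConjugate ComplexOrder
open Finset


theorem dual_small_sum {l k : ℕ} (W : Matrix (Fin l) (Fin k) ℂ) (hW : hs W ≤ 1) (a : Fin k) :
    ∑ p, ‖W p a‖ ^ 2 ≤ 1 := by
  have h1 : ∑ p, ∑ b, ‖W p b‖ ^ 2 ≤ 1 := by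
    have h0 : (0 : ℝ) ≤ ∑ p, ∑ b, ‖W p b‖ ^ 2 :=
      Finset.sum_nonneg fun p _ => Finset.sum_nonneg fun b _ => by positivity
    have h2 : √(∑ p, ∑ b, ‖W p b‖ ^ 2) ≤ 1 := hW
    have h3 := Real.sqrt_le_one.1 h2
    exact h3
  refine le_trans (Finset.sum_le_sum fun p _ => ?_) h1
  exact Finset.single_le_sum (f := fun b => ‖W p b‖ ^ 2) (fun b _ => by positivity)
    (Finset.mem_univ a)

theorem dual_small_vec {H : Type} [NormedAddCommGroup H] [InnerProductSpace ℂ H] {l k : ℕ}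
    (W : Matrix (Fin l) (Fin k) ℂ) (hW : hs W ≤ 1) (a : Fin k) (η : H) :
    √(∑ p, ‖W p a • η‖ ^ 2) ≤ ‖η‖ := by
  have h1 := dual_small_sum W hW a
  have h2 : ∑ p, ‖W p a • η‖ ^ 2 = (∑ p, ‖W p a‖ ^ 2) * ‖η‖ ^ 2 := by
    rw [Finset.sum_mul]
    refine Finset.sum_congr rfl fun p _ => ?_
    rw [norm_smul, mul_pow]
  rw [h2]
  refine Real.sqrt_le_iff.2 ⟨norm_nonneg _, ?_⟩
  calc (∑ p, ‖W p a‖ ^ 2) * ‖η‖ ^ 2 ≤ 1 * ‖η‖ ^ 2 :=
        mul_le_mul_of_nonneg_right h1 (by positivity)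
    _ = ‖η‖ ^ 2 := one_mul _

theorem dual_small_op {H : Type} [NormedAddCommGroup H] [InnerProductSpace ℂ H] {l k : ℕ}
    (X : Fin l → Fin l → (H →L[ℂ] H)) (hX : MatBound X 1)
    (V W : Matrix (Fin l) (Fin k) ℂ) (hV : hs V ≤ 1) (hW : hs W ≤ 1) (a b : Fin k) :
    ‖∑ p, ∑ q, (conj (W p a) * V q b) • X p q‖ ≤ 1 := by
  refine ContinuousLinearMap.opNorm_le_bound _ zero_le_one fun ξ => ?_
  rw [one_mul]
  set T : H →L[ℂ] H := ∑ p, ∑ q, (conj (W p a) * V q b) • X p q with hT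
  have key : ∀ η : H, ‖⟪η, T ξ⟫_ℂ‖ ≤ ‖η‖ * ‖ξ‖ := by
    intro η
    have h1 : ⟪η, T ξ⟫_ℂ = ∑ p, ∑ q, ⟪(fun p => W p a • η) p,
        X p q ((fun q => V q b • ξ) q)⟫_ℂ := by
      rw [hT, ContinuousLinearMap.sum_apply, inner_sum]
      refine Finset.sum_congr rfl fun p _ => ?_
      rw [ContinuousLinearMap.sum_apply, inner_sum]
      refine Finset.sum_congr rfl fun q _ => ?_
      rw [ContinuousLinearMap.smul_apply, inner_smul_right]
      change _ = ⟪W p a • η, X p q (V q b • ξ)⟫_ℂ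
      rw [map_smul, inner_smul_right, inner_smul_left]
      ring
    rw [h1]
    refine (hX _ _).trans ?_
    rw [one_mul]
    exact mul_le_mul (dual_small_vec W hW a η) (dual_small_vec V hV b ξ) (Real.sqrt_nonneg _)
      (norm_nonneg _)
  have h2 := key (T ξ)
  rw [inner_self_eq_norm_sq_to_K, norm_pow] at h2
  have h3 : ‖(RCLike.ofReal ‖T ξ‖ : ℂ)‖ = ‖T ξ‖ := by simp
  have h4 : ‖T ξ‖ ^ 2 ≤ ‖T ξ‖ * ‖ξ‖ := by
    rw [h3] at h2
    exact h2
  rcases eq_or_lt_of_le (norm_nonneg (T ξ)) with h | h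
  · rw [← h]
    exact norm_nonneg _
  · rw [sq] at h4
    exact le_of_mul_le_mul_left h4 h

open scoped Matrix.Norms.L2Operator in
theorem dual_small_mat {H : Type} [NormedAddCommGroup H] [InnerProductSpace ℂ H] [CompleteSpace H]
    (M : VonNeumannAlgebra H) {k l : ℕ} (h : Fin k → Fin k → (M.toStarSubalgebra →L[ℂ] ℂ))
    (x : Fin l → Fin l → M.toStarSubalgebra)
    (hx : MatBound (fun p q => (x p q : H →L[ℂ] H)) 1) :
    ‖(Matrix.of fun pa qb : Fin l × Fin k => h pa.2 qb.2 (x pa.1 qb.1))‖ ≤ ∑ α, ∑ β, ‖h α β‖ := by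
  have hD : (0 : ℝ) ≤ ∑ α, ∑ β, ‖h α β‖ :=
    Finset.sum_nonneg fun _ _ => Finset.sum_nonneg fun _ _ => norm_nonneg _
  rw [l2_iff _ _ hD]
  intro V W hV hW
  have h1 : (∑ p, ∑ a, ∑ q, ∑ b, conj (W p a) *
      (Matrix.of fun pa qb : Fin l × Fin k => h pa.2 qb.2 (x pa.1 qb.1)) (p, a) (q, b) * V q b) =
      ∑ a, ∑ b, h a b (∑ p, ∑ q, (conj (W p a) * V q b) • x p q) := by
    rw [Finset.sum_comm]
    refine Finset.sum_congr rfl fun a _ => ?_
    have h2 : ∀ b, h a b (∑ p, ∑ q, (conj (W p a) * V q b) • x p q) =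
        ∑ p, ∑ q, conj (W p a) * h a b (x p q) * V q b := by
      intro b
      rw [map_sum]
      refine Finset.sum_congr rfl fun p _ => ?_
      rw [map_sum]
      refine Finset.sum_congr rfl fun q _ => ?_
      rw [map_smul, smul_eq_mul]
      ring
    rw [Finset.sum_congr rfl fun b _ => h2 b]
    rw [Finset.sum_comm (s := (Finset.univ : Finset (Fin k)))]
    refine Finset.sum_congr rfl fun p _ => ?_
    rw [Finset.sum_comm]
    rfl
  rw [h1]
  refine (norm_sum_le _ _).trans (Finset.sum_le_sum fun a _ => ?_)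
  refine (norm_sum_le _ _).trans (Finset.sum_le_sum fun b _ => ?_)
  refine ((h a b).le_opNorm _).trans ?_
  have h3 : ‖∑ p, ∑ q, (conj (W p a) * V q b) • x p q‖ ≤ 1 := by
    have h4 := dual_small_op (fun p q => (x p q : H →L[ℂ] H)) hx V W hV hW a b
    have h5 : ((∑ p, ∑ q, (conj (W p a) * V q b) • x p q : M.toStarSubalgebra) : H →L[ℂ] H) =
        ∑ p, ∑ q, (conj (W p a) * V q b) • (x p q : H →L[ℂ] H) := by
      rw [AddSubmonoidClass.coe_finset_sum]
      refine Finset.sum_congr rfl fun p _ => ?_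
      rw [AddSubmonoidClass.coe_finset_sum]
      rfl
    have h6 : ‖∑ p, ∑ q, (conj (W p a) * V q b) • x p q‖ =
        ‖((∑ p, ∑ q, (conj (W p a) * V q b) • x p q : M.toStarSubalgebra) : H →L[ℂ] H)‖ := rfl
    rw [h6, h5]
    exact h4
  calc ‖h a b‖ * ‖∑ p, ∑ q, (conj (W p a) * V q b) • x p q‖ ≤ ‖h a b‖ * 1 :=
        mul_le_mul_of_nonneg_left h3 (norm_nonneg _)
    _ = ‖h a b‖ := mul_one _

open scoped Matrix.Norms.L2Operator in
theorem dual_small_tri {ι : Type} [Fintype ι] [DecidableEq ι] (A B : Matrix ι ι ℂ) (a b : ℝ)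
    (hA : ‖A‖ ≤ a) (hB : ‖B‖ ≤ b) : ‖A - B‖ ≤ a + b :=
  (norm_sub_le A B).trans (add_le_add hA hB)

theorem dual_small {H : Type} [NormedAddCommGroup H] [InnerProductSpace ℂ H] [CompleteSpace H]
    (M : VonNeumannAlgebra H) {k : ℕ} (f g : Fin k → Fin k → (M.toStarSubalgebra →L[ℂ] ℂ))
    (C : ℝ) (hf : DualLe M f C) : DualLe M g (C + ∑ α, ∑ β, ‖f α β - g α β‖) := by
  intro l x hx
  have h1 := hf l x hx
  have h2 := dual_small_mat M (fun α β => f α β - g α β) x hx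
  have h3 : (Matrix.of fun pa qb : Fin l × Fin k => g pa.2 qb.2 (x pa.1 qb.1)) =
      (Matrix.of fun pa qb : Fin l × Fin k => f pa.2 qb.2 (x pa.1 qb.1)) -
      (Matrix.of fun pa qb : Fin l × Fin k => (fun α β => f α β - g α β) pa.2 qb.2
        (x pa.1 qb.1)) := by
    ext pa qb
    simp only [Matrix.of_apply, Matrix.sub_apply, ContinuousLinearMap.sub_apply]
    ring
  rw [h3]
  exact dual_small_tri _ _ _ _ h1 h2

end Pool.Agent.OHP
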