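import Pool.Agent.Helper547.OH.Defs

/-! Definitions for the completely isometric embedding of OH into a von Neumann algebra predual. -/

set_option autoImplicit false

namespace Pool.Agent.OHP
open scoped InnerProductSpace ComplexConjugate ComplexOrder
open Finset


theorem inner_vec {F : Type} [NormedAddCommGroup F] [InnerProductSpace ℂ F] {ι : Type} [Fintype ι]
    (v v' : ι → ℂ) (ξ ξ' : F) : ⟪vec v ξ, vec v' ξ'⟫_ℂ = (∑ i, conj (v i) * v' i) * ⟪ξ, ξ'⟫_ℂ := by
  rw [PiLp.inner_apply, Finset.sum_mul]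
  refine Finset.sum_congr rfl (fun i _ => ?_)
  show ⟪v i • ξ, v' i • ξ'⟫_ℂ = _
  rw [inner_smul_left, inner_smul_right]
  ring

end Pool.Agent.OHP
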