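import Pool.Agent.Helper547.OH.Defs
import Pool.Agent.Helper547.OH.P_amp_mul
import Pool.Agent.Helper547.OH.P_star_amp
import Pool.Agent.Helper547.OH.P_amp_vec
import Pool.Agent.Helper547.OH.P_inner_vec
import Pool.Agent.Helper547.OH.P_comp_bilin
import Pool.Agent.Helper547.OH.P_resolv_props

/-! Definitions for the completely isometric embedding of OH into a von Neumann algebra predual. -/

set_option autoImplicit false

namespace Pool.Agent.OHP
open scoped InnerProductSpace ComplexConjugate ComplexOrder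
open Finset


theorem d1_vec_apply {F : Type} [NormedAddCommGroup F] [InnerProductSpace ℂ F]
    {ι : Type} [Fintype ι] (v : ι → ℂ) (ξ : F) (p : ι) : (vec v ξ) p = v p • ξ := rfl

theorem d1_inner_single {F : Type} [NormedAddCommGroup F] [InnerProductSpace ℂ F] {l : ℕ}
    (ζ : F) (Ξ : Hil (Fin l) F) (q : Fin l) :
    ⟪vec (Pi.single q 1) ζ, Ξ⟫_ℂ = ⟪ζ, Ξ q⟫_ℂ := by
  rw [PiLp.inner_apply, Finset.sum_eq_single q]
  · rw [d1_vec_apply, Pi.single_eq_same, one_smul]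
  · intro b _ hb
    rw [d1_vec_apply, Pi.single_eq_of_ne hb, zero_smul, inner_zero_left]
  · intro h
    exact absurd (Finset.mem_univ q) h

theorem d1_amp_one {F : Type} [NormedAddCommGroup F] [InnerProductSpace ℂ F] {l : ℕ}
    (S : F →L[ℂ] F) (Ξ : Hil (Fin l) F) (p : Fin l) :
    (amp (1 : Mat l) S Ξ) p = S (Ξ p) := by
  rw [amp_apply, Finset.sum_eq_single p]
  · rw [Matrix.one_apply_eq, one_smul]
  · intro b _ hb
    rw [Matrix.one_apply_ne hb.symm, zero_smul]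
  · intro h
    exact absurd (Finset.mem_univ p) h

theorem d1_sum_apply {F : Type} [NormedAddCommGroup F] [InnerProductSpace ℂ F] {l : ℕ}
    {κ : Type} (s : Finset κ) (Ξ : κ → Hil (Fin l) F) (p : Fin l) :
    (∑ i ∈ s, Ξ i) p = ∑ i ∈ s, Ξ i p := by
  classical
  induction s using Finset.induction_on with
  | empty => rfl
  | insert a s ha ih => rw [Finset.sum_insert ha, Finset.sum_insert ha, PiLp.add_apply, ih]

theorem d1_tens_apply {F : Type} [NormedAddCommGroup F] [InnerProductSpace ℂ F] {n l : ℕ}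
    (c : Fin n → Mat l) (X : ℕ → (F →L[ℂ] F)) (Ξ : Hil (Fin l) F) (p : Fin l) :
    (tens c X Ξ) p = ∑ i : Fin n, ∑ q, c i p q • X i (Ξ q) := by
  unfold tens
  rw [_root_.sum_apply, d1_sum_apply]
  exact Finset.sum_congr rfl (fun i _ => amp_apply _ _ _ _)

theorem d1_tens_S {F : Type} [NormedAddCommGroup F] [InnerProductSpace ℂ F] {n l : ℕ}
    (c : Fin n → Mat l) (X : ℕ → (F →L[ℂ] F)) (S : F →L[ℂ] F)
    (hS : ∀ (i : Fin n) ξ, X i (S ξ) = S (X i ξ)) (Ξ : Hil (Fin l) F) :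
    tens c X (amp 1 S Ξ) = amp 1 S (tens c X Ξ) := by
  apply PiLp.ext
  intro p
  rw [d1_tens_apply, d1_amp_one, d1_tens_apply, map_sum]
  refine Finset.sum_congr rfl fun i _ => ?_
  rw [map_sum]
  refine Finset.sum_congr rfl fun q _ => ?_
  rw [map_smul, d1_amp_one, hS]

theorem d1_tens_S' {F : Type} [NormedAddCommGroup F] [InnerProductSpace ℂ F] {n l : ℕ}
    (c : Fin n → Mat l) (X : ℕ → (F →L[ℂ] F)) (S : F →L[ℂ] F) (ζ e : F) (a : ℂ) (i0 : Fin n)
    (hS : ∀ (i : Fin n) ξ, X i (S ξ) = S (X i ξ) + (if i = i0 then a * ⟪ζ, ξ⟫_ℂ else 0) • e)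
    (Ξ : Hil (Fin l) F) :
    tens c X (amp 1 S Ξ) = amp 1 S (tens c X Ξ) +
      a • vec ((c i0).mulVec (fun q => ⟪ζ, Ξ q⟫_ℂ)) e := by
  apply PiLp.ext
  intro p
  rw [PiLp.add_apply, PiLp.smul_apply, d1_vec_apply, d1_tens_apply, d1_amp_one, d1_tens_apply,
    map_sum]
  have h1 : ∀ i : Fin n, ∑ q, c i p q • X i ((amp (1 : Mat l) S Ξ) q) =
      S (∑ q, c i p q • X i (Ξ q)) +
        (if i = i0 then (a * ∑ q, c i p q * ⟪ζ, Ξ q⟫_ℂ) • e else 0) := by
    intro i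
    rw [map_sum]
    have h2 : ∀ q, c i p q • X i ((amp (1 : Mat l) S Ξ) q) = S (c i p q • X i (Ξ q)) +
        (if i = i0 then (a * (c i p q * ⟪ζ, Ξ q⟫_ℂ)) • e else 0) := by
      intro q
      rw [d1_amp_one, hS, smul_add, map_smul]
      congr 1
      by_cases hi : i = i0
      · rw [if_pos hi, if_pos hi, smul_smul]
        congr 1
        ring
      · rw [if_neg hi, if_neg hi, zero_smul, smul_zero]
    rw [Finset.sum_congr rfl (fun q _ => h2 q), Finset.sum_add_distrib]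
    congr 1
    by_cases hi : i = i0
    · simp only [if_pos hi]
      rw [← Finset.sum_smul, Finset.mul_sum]
    · simp only [if_neg hi, Finset.sum_const_zero]
  rw [Finset.sum_congr rfl (fun i _ => h1 i), Finset.sum_add_distrib]
  congr 1
  rw [Finset.sum_eq_single i0]
  · rw [if_pos rfl, smul_smul]
    rfl
  · intro b _ hb
    rw [if_neg hb]
  · intro h
    exact absurd (Finset.mem_univ i0) h

theorem d1_star_tens {F : Type} [NormedAddCommGroup F] [InnerProductSpace ℂ F] [CompleteSpace F]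
    {n l : ℕ} (c : Fin n → Mat l) (X : ℕ → (F →L[ℂ] F)) :
    star (tens c X) = tens (fun i => (c i).conjTranspose) (fun i => star (X i)) := by
  unfold tens
  have h := star_sum (R := Hil (Fin l) F →L[ℂ] Hil (Fin l) F) Finset.univ
    (fun i : Fin n => amp (c i) (X i))
  refine h.trans ?_
  exact Finset.sum_congr rfl (fun i _ => star_amp _ _)

theorem d1_et_mulVec {n l : ℕ} (c : Fin n → Mat l) (K : Mat l) (v : Fin l → ℂ) (p : Fin l) :
    ((et c K).mulVec v) p =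
      ∑ i, ((c i).mulVec (K.mulVec ((c i).conjTranspose.mulVec v))) p := by
  unfold et
  have h : (∑ i, c i * K * (c i).conjTranspose).mulVec v =
      ∑ i, (c i * K * (c i).conjTranspose).mulVec v := by
    rw [Matrix.sum_mulVec]
  rw [h, Finset.sum_apply]
  refine Finset.sum_congr rfl fun i _ => ?_
  rw [Matrix.mulVec_mulVec, Matrix.mulVec_mulVec, Matrix.mul_assoc]

/-- the compression of `y (y² + T T^*)⁻¹` to the vacuum space is block diagonal -/
theorem dys_comp1 {F : Type} [NormedAddCommGroup F] [InnerProductSpace ℂ F] [CompleteSpace F]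
    {m : ℕ} {u w : ℕ → ℝ} (hu : ∀ j, 0 ≤ u j) (M : Model (F := F) m u w) {n l : ℕ}
    (c : Fin n → Mat l) (y : ℝ) (hy : 0 < y) (P1 P2 : Hil (Fin l) F →L[ℂ] Hil (Fin l) F)
    (hR : Resolv (tens c M.X) y P1 P2) (v v' : Fin l → ℂ) (j j' : ℕ) :
    ⟪vec v' (M.e j'), ((y : ℂ) • P1) (vec (((y : ℂ) • (1 : Mat l) +
      (u j : ℂ) • et c (comp ((y : ℂ) • P2) (zeta m u w M.e))).mulVec v) (M.e j))⟫_ℂ =
      if j = j' then ∑ i, conj (v' i) * v i else 0 := by
  set ζ : F := zeta m u w M.e with hζ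
  set s : ℂ := ((√(u j) : ℝ) : ℂ) with hs
  have hss : s * s = (u j : ℂ) := by
    rw [hs, ← Complex.ofReal_mul, Real.mul_self_sqrt (hu j)]
  set Y2 : ℂ := ((y ^ 2 : ℝ) : ℂ) with hY2
  have hY2y : Y2 = (y : ℂ) * (y : ℂ) := by
    rw [hY2]
    push_cast
    ring
  set T : Hil (Fin l) F →L[ℂ] Hil (Fin l) F := tens c M.X with hT
  set T' : Hil (Fin l) F →L[ℂ] Hil (Fin l) F :=
    tens (fun i => (c i).conjTranspose) (fun i => star (M.X i)) with hT'
  have hstar : star T = T' := d1_star_tens c M.X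
  let wv : Fin n → Fin l → ℂ := fun i => (c i).conjTranspose.mulVec v
  let Ξ0 : Fin n → Hil (Fin l) F := fun i => vec (wv i) ζ
  let A : Fin n → (Hil (Fin l) F →L[ℂ] Hil (Fin l) F) := fun i => amp (1 : Mat l) (M.S i true j)
  have h2 : ∀ (i : Fin n) (Ξ : Hil (Fin l) F), T' (A i Ξ) = A i (T' Ξ) := by
    intro i Ξ
    refine d1_tens_S _ _ _ ?_ Ξ
    intro i' ξ
    have := M.XsS i' i true j ξ
    simpa using this
  have h3 : ∀ (i : Fin n) (Ξ : Hil (Fin l) F), T (A i Ξ) = A i (T Ξ) +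
      s • vec ((c i).mulVec (fun q => ⟪ζ, Ξ q⟫_ℂ)) (M.e j) := by
    intro i Ξ
    refine d1_tens_S' c M.X _ ζ (M.e j) s i ?_ Ξ
    intro i' ξ
    have := M.XS i' i true j ξ
    rw [this]
    congr 1
    by_cases hi : i' = i
    · rw [if_pos hi, if_pos ⟨congrArg Fin.val hi, rfl⟩]
    · rw [if_neg hi, if_neg (fun hh => hi (Fin.ext hh.1))]
  have h1 : T' (vec v (M.e j)) = ∑ i, s • A i (Ξ0 i) := by
    rw [hT']
    unfold tens
    rw [_root_.sum_apply]
    refine Finset.sum_congr rfl fun i _ => ?_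
    rw [amp_vec, M.Xse]
    apply PiLp.ext
    intro p
    rw [PiLp.smul_apply, d1_vec_apply, d1_amp_one, d1_vec_apply, map_smul, smul_comm]
  have hP2 : ∀ Ξ : Hil (Fin l) F, Ξ - T' (T (P2 Ξ)) = Y2 • P2 Ξ := by
    intro Ξ
    have h := congrArg (fun B : Hil (Fin l) F →L[ℂ] Hil (Fin l) F => B Ξ) hR.r2
    rw [hstar] at h
    have h' : Y2 • P2 Ξ + T' (T (P2 Ξ)) = Ξ := h
    rw [← h']
    abel_nf
    rw [h']
    abel
  have hP1 : ∀ Ξ : Hil (Fin l) F, P1 (Y2 • Ξ + T (T' Ξ)) = Ξ := by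
    intro Ξ
    have h := congrArg (fun B : Hil (Fin l) F →L[ℂ] Hil (Fin l) F => B Ξ) hR.l1
    rw [hstar] at h
    exact h
  let f : Hil (Fin l) F := vec v (M.e j) - ∑ i, s • A i (T (P2 (Ξ0 i)))
  have hT'f : T' f = ∑ i, s • A i (Y2 • P2 (Ξ0 i)) := by
    change T' (vec v (M.e j) - ∑ i, s • A i (T (P2 (Ξ0 i)))) = _
    rw [map_sub, h1, map_sum, ← Finset.sum_sub_distrib]
    refine Finset.sum_congr rfl fun i _ => ?_
    rw [map_smul, h2, ← smul_sub, ← map_sub, hP2]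
  have hTf : T (T' f) = ∑ i, (s • (Y2 • A i (T (P2 (Ξ0 i)))) + (s * s) •
      vec ((c i).mulVec (fun q => ⟪ζ, (Y2 • P2 (Ξ0 i)) q⟫_ℂ)) (M.e j)) := by
    rw [hT'f, map_sum]
    refine Finset.sum_congr rfl fun i _ => ?_
    rw [map_smul, h3, smul_add, map_smul T, map_smul (A i), smul_smul s s]
  have hg : ∀ (i : Fin n), (fun q => ⟪ζ, (Y2 • P2 (Ξ0 i)) q⟫_ℂ) =
      fun q => (y : ℂ) * ((comp ((y : ℂ) • P2) ζ).mulVec (wv i)) q := by
    intro i
    funext q
    have e1 := comp_bilin ((y : ℂ) • P2) ζ (Pi.single q 1) (wv i)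
    rw [d1_inner_single] at e1
    have e2 : ∑ i_1, conj ((Pi.single q (1 : ℂ) : Fin l → ℂ) i_1) *
        ((comp ((y : ℂ) • P2) ζ).mulVec (wv i)) i_1 =
        ((comp ((y : ℂ) • P2) ζ).mulVec (wv i)) q := by
      rw [Finset.sum_eq_single q]
      · rw [Pi.single_eq_same, map_one, one_mul]
      · intro b _ hb
        rw [Pi.single_eq_of_ne hb, map_zero, zero_mul]
      · intro h
        exact absurd (Finset.mem_univ q) h
    rw [e2] at e1
    rw [← e1]
    have e3 : (((y : ℂ) • P2) (vec (wv i) ζ)) q = (y : ℂ) • (P2 (Ξ0 i)) q := rfl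
    rw [e3, PiLp.smul_apply, inner_smul_right, inner_smul_right, hY2y]
    ring
  have hf : Y2 • f + T (T' f) = (y : ℂ) • vec (((y : ℂ) • (1 : Mat l) +
      (u j : ℂ) • et c (comp ((y : ℂ) • P2) ζ)).mulVec v) (M.e j) := by
    rw [hTf, Finset.sum_add_distrib]
    change Y2 • (vec v (M.e j) - ∑ i, s • A i (T (P2 (Ξ0 i)))) + _ = _
    rw [smul_sub, Finset.smul_sum]
    have e4 : ∑ i, Y2 • s • A i (T (P2 (Ξ0 i))) = ∑ i, s • (Y2 • A i (T (P2 (Ξ0 i)))) :=
      Finset.sum_congr rfl fun i _ => smul_comm _ _ _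
    rw [e4]
    have e5 : ∀ a b d : Hil (Fin l) F, a - b + (b + d) = a + d := by
      intro a b d
      abel
    rw [e5]
    apply PiLp.ext
    intro p
    rw [PiLp.add_apply, PiLp.smul_apply, PiLp.smul_apply, d1_sum_apply, d1_vec_apply,
      d1_vec_apply]
    have e6 : ∀ i : Fin n, ((s * s) •
        vec ((c i).mulVec (fun q => ⟪ζ, (Y2 • P2 (Ξ0 i)) q⟫_ℂ)) (M.e j)) p =
        ((u j : ℂ) * ((y : ℂ) *
          ((c i).mulVec ((comp ((y : ℂ) • P2) ζ).mulVec (wv i))) p)) • M.e j := by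
      intro i
      rw [hg i, PiLp.smul_apply, d1_vec_apply, hss, smul_smul]
      congr 2
      have e7 : (fun q => (y : ℂ) * ((comp ((y : ℂ) • P2) ζ).mulVec (wv i)) q) =
          (y : ℂ) • (comp ((y : ℂ) • P2) ζ).mulVec (wv i) := rfl
      rw [e7, Matrix.mulVec_smul]
      rfl
    rw [Finset.sum_congr rfl (fun i _ => e6 i), ← Finset.sum_smul, smul_smul, smul_smul,
      ← add_smul]
    congr 1
    rw [Matrix.add_mulVec, Pi.add_apply, Matrix.smul_mulVec, Matrix.smul_mulVec,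
      Matrix.one_mulVec, Pi.smul_apply, Pi.smul_apply, d1_et_mulVec, smul_eq_mul, smul_eq_mul,
      ← Finset.mul_sum, ← Finset.mul_sum, hY2y]
    ring
  have hfin : ((y : ℂ) • P1) (vec (((y : ℂ) • (1 : Mat l) +
      (u j : ℂ) • et c (comp ((y : ℂ) • P2) ζ)).mulVec v) (M.e j)) = f := by
    have e8 := hP1 f
    rw [hf, map_smul] at e8
    exact e8
  rw [hfin]
  change ⟪vec v' (M.e j'), vec v (M.e j) - ∑ i, s • A i (T (P2 (Ξ0 i)))⟫_ℂ = _
  rw [inner_sub_right, inner_vec, M.orth]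
  have hz : ⟪vec v' (M.e j'), ∑ i, s • A i (T (P2 (Ξ0 i)))⟫_ℂ = 0 := by
    rw [inner_sum]
    refine Finset.sum_eq_zero fun i _ => ?_
    rw [inner_smul_right, PiLp.inner_apply]
    have : ∑ p, ⟪(vec v' (M.e j')) p, (A i (T (P2 (Ξ0 i)))) p⟫_ℂ = 0 := by
      refine Finset.sum_eq_zero fun p _ => ?_
      rw [d1_vec_apply, d1_amp_one, inner_smul_left, M.eS, mul_zero]
    rw [this, mul_zero]
  rw [hz, sub_zero]
  by_cases hjj : j = j'
  · rw [if_pos hjj, if_pos hjj.symm, mul_one]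
  · rw [if_neg hjj, if_neg (fun h => hjj h.symm), mul_zero]

end Pool.Agent.OHP
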