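import Pool.Agent.Helper547.OH.Defs
import Pool.Agent.Helper547.OH.P_amp_mul
import Pool.Agent.Helper547.OH.P_star_amp
import Pool.Agent.Helper547.OH.P_amp_vec
import Pool.Agent.Helper547.OH.P_inner_vec
import Pool.Agent.Helper547.OH.P_comp_bilin
import Pool.Agent.Helper547.OH.P_resolv_props

/-! Definitions for the completely isometric embedding of OH into a von Neumann algebra predual. -/

set_option autoImplicit false

namespace Pool.Agent.OHP
open scoped InnerProductSpace ComplexConjugate ComplexOrder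
open Finset


section aux24681
variable {F : Type} [NormedAddCommGroup F] [InnerProductSpace ℂ F] {ι : Type} [Fintype ι]

theorem vec_apply_24681 (v : ι → ℂ) (ξ : F) (p : ι) : (vec v ξ) p = v p • ξ := rfl

theorem vec_add_24681 (v v' : ι → ℂ) (ξ : F) : vec (v + v') ξ = vec v ξ + vec v' ξ := by
  apply PiLp.ext
  intro p
  show (v + v') p • ξ = v p • ξ + v' p • ξ
  rw [Pi.add_apply, add_smul]

theorem vec_smul_24681 (r : ℂ) (v : ι → ℂ) (ξ : F) : vec (r • v) ξ = r • vec v ξ := by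
  apply PiLp.ext
  intro p
  show (r • v) p • ξ = r • (v p • ξ)
  rw [Pi.smul_apply, smul_assoc]

theorem vec_smul_right_24681 (r : ℂ) (v : ι → ℂ) (ξ : F) : vec v (r • ξ) = r • vec v ξ := by
  apply PiLp.ext
  intro p
  show v p • (r • ξ) = r • (v p • ξ)
  rw [smul_comm]

theorem vec_zero_24681 (ξ : F) : vec (0 : ι → ℂ) ξ = 0 := by
  apply PiLp.ext
  intro p
  show (0 : ℂ) • ξ = 0
  rw [zero_smul]

theorem vec_sum_24681 {κ : Type} (s : Finset κ) (v : κ → ι → ℂ) (ξ : F) :
    vec (∑ k ∈ s, v k) ξ = ∑ k ∈ s, vec (v k) ξ := by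
  classical
  induction s using Finset.induction_on with
  | empty => rw [Finset.sum_empty, Finset.sum_empty, vec_zero_24681]
  | insert a s ha ih => rw [Finset.sum_insert ha, Finset.sum_insert ha, vec_add_24681, ih]

theorem ampone_apply_24681 [DecidableEq ι] (T : F →L[ℂ] F) (ξ : Hil ι F) (p : ι) :
    (amp (1 : Matrix ι ι ℂ) T ξ) p = T (ξ p) := by
  rw [amp_apply, Finset.sum_eq_single p]
  · rw [Matrix.one_apply_eq, one_smul]
  · intro q _ hq
    rw [Matrix.one_apply_ne hq.symm, zero_smul]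
  · intro h
    exact absurd (Finset.mem_univ p) h

end aux24681

/-- the adjoint of the tensor against the creation operators -/
theorem star_one_24681 {F : Type} [NormedAddCommGroup F] [InnerProductSpace ℂ F] [CompleteSpace F]
    {m : ℕ} {u w : ℕ → ℝ} (M : Model (F := F) m u w) {l : ℕ} (d : Mat l) (k i : ℕ) (j : ℕ)
    (Ξ : Hil (Fin l) F) :
    amp d (star (M.X k)) (amp (1 : Mat l) (M.S i false j) Ξ) =
      amp (1 : Mat l) (M.S i false j) (amp d (star (M.X k)) Ξ) +
      (if k = i then ((√(u j) : ℝ) : ℂ) • vec (d.mulVec fun p => ⟪zeta m u w M.e, Ξ p⟫_ℂ) (M.e j)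
        else 0) := by
  apply PiLp.ext
  intro p
  have h1 : (amp d (star (M.X k)) (amp (1 : Mat l) (M.S i false j) Ξ)) p =
      ∑ q, d p q • (M.S i false j ((star (M.X k)) (Ξ q)) +
        (if k = i then ((√(u j) : ℝ) : ℂ) * ⟪zeta m u w M.e, Ξ q⟫_ℂ else 0) • M.e j) := by
    rw [amp_apply]
    apply Finset.sum_congr rfl
    intro q _
    rw [ampone_apply_24681, M.XsS]
    congr 2
    simp
  have h2 : (amp (1 : Mat l) (M.S i false j) (amp d (star (M.X k)) Ξ)) p =
      ∑ q, d p q • (M.S i false j ((star (M.X k)) (Ξ q))) := by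
    rw [ampone_apply_24681, amp_apply, map_sum]
    apply Finset.sum_congr rfl
    intro q _
    rw [map_smul]
  rw [PiLp.add_apply, h1, h2]
  by_cases h : k = i
  · rw [if_pos h]
    have h3 : (((√(u j) : ℝ) : ℂ) • vec (d.mulVec fun p => ⟪zeta m u w M.e, Ξ p⟫_ℂ) (M.e j)) p =
        ∑ q, d p q • ((((√(u j) : ℝ) : ℂ) * ⟪zeta m u w M.e, Ξ q⟫_ℂ) • M.e j) := by
      show ((√(u j) : ℝ) : ℂ) • ((d.mulVec fun p => ⟪zeta m u w M.e, Ξ p⟫_ℂ) p • M.e j) = _
      rw [Matrix.mulVec, dotProduct, Finset.sum_smul, Finset.smul_sum]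
      apply Finset.sum_congr rfl
      intro q _
      rw [smul_smul, smul_smul]
      congr 1
      ring
    rw [h3, ← Finset.sum_add_distrib]
    apply Finset.sum_congr rfl
    intro q _
    rw [if_pos h, smul_add]
  · rw [if_neg h]
    have h3 : (0 : Hil (Fin l) F) p = 0 := rfl
    rw [h3, add_zero]
    apply Finset.sum_congr rfl
    intro q _
    rw [if_neg h, zero_smul, add_zero]

theorem star_tens_24681 {F : Type} [NormedAddCommGroup F] [InnerProductSpace ℂ F] [CompleteSpace F]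
    {m : ℕ} {u w : ℕ → ℝ} (M : Model (F := F) m u w) {n l : ℕ} (c : Fin n → Mat l) (i : Fin n)
    (j : ℕ) (Ξ : Hil (Fin l) F) :
    (star (tens c M.X)) (amp (1 : Mat l) (M.S i false j) Ξ) =
      amp (1 : Mat l) (M.S i false j) ((star (tens c M.X)) Ξ) +
      ((√(u j) : ℝ) : ℂ) • vec ((c i).conjTranspose.mulVec fun p => ⟪zeta m u w M.e, Ξ p⟫_ℂ)
        (M.e j) := by
  have hst : star (tens c M.X) = ∑ k : Fin n, amp (c k).conjTranspose (star (M.X k)) := by
    unfold tens
    have hs : ∀ s : Finset (Fin n), star (∑ k ∈ s, amp (c k) (M.X k)) =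
        ∑ k ∈ s, amp (c k).conjTranspose (star (M.X k)) := by
      intro s
      induction s using Finset.induction_on with
      | empty =>
        rw [Finset.sum_empty, Finset.sum_empty, ContinuousLinearMap.star_eq_adjoint, map_zero]
      | insert a s ha ih =>
        rw [Finset.sum_insert ha, Finset.sum_insert ha, ← ih, ← star_amp,
          ContinuousLinearMap.star_eq_adjoint, ContinuousLinearMap.star_eq_adjoint,
          ContinuousLinearMap.star_eq_adjoint, map_add]
    exact hs Finset.univ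
  rw [hst, ContinuousLinearMap.sum_apply, ContinuousLinearMap.sum_apply, map_sum]
  rw [Finset.sum_congr rfl fun k _ => star_one_24681 M (c k).conjTranspose (k : ℕ) (i : ℕ) j Ξ]
  rw [Finset.sum_add_distrib]
  congr 1
  rw [Finset.sum_eq_single i]
  · rw [if_pos rfl]
  · intro k _ hk
    rw [if_neg]
    intro h
    exact hk (Fin.ext h)
  · intro h
    exact absurd (Finset.mem_univ i) h

theorem tens_comm_24681 {F : Type} [NormedAddCommGroup F] [InnerProductSpace ℂ F] [CompleteSpace F]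
    {m : ℕ} {u w : ℕ → ℝ} (M : Model (F := F) m u w) {n l : ℕ} (c : Fin n → Mat l) (i : ℕ)
    (j : ℕ) (Ξ : Hil (Fin l) F) :
    (tens c M.X) (amp (1 : Mat l) (M.S i false j) Ξ) =
      amp (1 : Mat l) (M.S i false j) ((tens c M.X) Ξ) := by
  have hop : tens c M.X * amp (1 : Mat l) (M.S i false j) =
      amp (1 : Mat l) (M.S i false j) * tens c M.X := by
    unfold tens
    rw [Finset.sum_mul, Finset.mul_sum]
    apply Finset.sum_congr rfl
    intro k _
    rw [amp_mul, amp_mul, mul_one, one_mul]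
    congr 1
    ext ξ
    show M.X k (M.S i false j ξ) = M.S i false j (M.X k ξ)
    rw [M.XS]
    simp
  exact congrArg (fun A : Hil (Fin l) F →L[ℂ] Hil (Fin l) F => A Ξ) hop

theorem tens_vac_24681 {F : Type} [NormedAddCommGroup F] [InnerProductSpace ℂ F] [CompleteSpace F]
    {m : ℕ} {u w : ℕ → ℝ} (M : Model (F := F) m u w) {n l : ℕ} (c : Fin n → Mat l)
    (j : ℕ) (v : Fin l → ℂ) :
    (tens c M.X) (vec v (M.e j)) = ∑ i : Fin n, ((√(u j) : ℝ) : ℂ) •
      amp (1 : Mat l) (M.S i false j) (vec ((c i).mulVec v) (zeta m u w M.e)) := by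
  unfold tens
  rw [ContinuousLinearMap.sum_apply]
  apply Finset.sum_congr rfl
  intro i _
  rw [amp_vec, amp_vec, M.Xe, vec_smul_right_24681, Matrix.one_mulVec]

theorem inner_creation_24681 {F : Type} [NormedAddCommGroup F] [InnerProductSpace ℂ F]
    [CompleteSpace F]
    {m : ℕ} {u w : ℕ → ℝ} (M : Model (F := F) m u w) {l : ℕ} (v' : Fin l → ℂ) (j' : ℕ)
    (i : ℕ) (b : Bool) (j : ℕ) (Ξ : Hil (Fin l) F) :
    ⟪vec v' (M.e j'), amp (1 : Mat l) (M.S i b j) Ξ⟫_ℂ = 0 := by
  rw [PiLp.inner_apply]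
  apply Finset.sum_eq_zero
  intro p _
  rw [ampone_apply_24681, vec_apply_24681, inner_smul_left, M.eS, mul_zero]

theorem gvec_24681 {F : Type} [NormedAddCommGroup F] [InnerProductSpace ℂ F] {l : ℕ}
    (P : Hil (Fin l) F →L[ℂ] Hil (Fin l) F) (ξ : F) (v' : Fin l → ℂ) (p : Fin l) :
    ⟪ξ, (P (vec v' ξ)) p⟫_ℂ = ((comp P ξ).mulVec v') p := by
  have h1 := comp_bilin P ξ (Pi.single p 1) v'
  have h2 : ∑ i, conj ((Pi.single p 1 : Fin l → ℂ) i) * ((comp P ξ).mulVec v') i =
      ((comp P ξ).mulVec v') p := by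
    rw [Finset.sum_eq_single p]
    · simp
    · intro q _ hq
      rw [Pi.single_eq_of_ne hq]
      simp
    · intro h
      exact absurd (Finset.mem_univ p) h
  rw [h2] at h1
  rw [← h1, PiLp.inner_apply, Finset.sum_eq_single p]
  · rw [vec_apply_24681, Pi.single_eq_same, one_smul]
  · intro q _ hq
    rw [vec_apply_24681, Pi.single_eq_of_ne hq, zero_smul, inner_zero_left]
  · intro h
    exact absurd (Finset.mem_univ p) h

/-- the compression of `y (y² + T^* T)⁻¹` to the vacuum space is block diagonal -/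
theorem dys_comp2 {F : Type} [NormedAddCommGroup F] [InnerProductSpace ℂ F] [CompleteSpace F]
    {m : ℕ} {u w : ℕ → ℝ} (hu : ∀ j, 0 ≤ u j) (M : Model (F := F) m u w) {n l : ℕ}
    (c : Fin n → Mat l) (y : ℝ) (hy : 0 < y) (P1 P2 : Hil (Fin l) F →L[ℂ] Hil (Fin l) F)
    (hR : Resolv (tens c M.X) y P1 P2) (v v' : Fin l → ℂ) (j j' : ℕ) :
    ⟪vec v' (M.e j'), ((y : ℂ) • P2) (vec (((y : ℂ) • (1 : Mat l) +
      (u j : ℂ) • et' c (comp ((y : ℂ) • P1) (zeta m u w M.e))).mulVec v) (M.e j))⟫_ℂ =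
      if j = j' then ∑ i, conj (v' i) * v i else 0 := by
  classical
  set T := tens c M.X with hT
  set ζ := zeta m u w M.e with hζ
  set K1 := comp ((y : ℂ) • P1) ζ with hK1
  set s : ℂ := ((√(u j) : ℝ) : ℂ) with hs
  have hss : s * s = (u j : ℂ) := by
    rw [hs, ← Complex.ofReal_mul, Real.mul_self_sqrt (hu j)]
  have hy2 : ((y ^ 2 : ℝ) : ℂ) = (y : ℂ) * (y : ℂ) := by push_cast; ring
  set α : Fin n → Hil (Fin l) F := fun i => P1 (vec ((c i).mulVec v) ζ) with hα
  set A : Fin n → (Hil (Fin l) F →L[ℂ] Hil (Fin l) F) := fun i =>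
    amp (1 : Mat l) (M.S i false j) with hA
  set f : Hil (Fin l) F := vec v (M.e j) - ∑ i : Fin n, s • A i ((star T) (α i)) with hf
  -- the resolvent identity for α
  have hr : ∀ i, vec ((c i).mulVec v) ζ = (((y ^ 2 : ℝ) : ℂ)) • α i + T ((star T) (α i)) := by
    intro i
    have h := congrArg (fun B : Hil (Fin l) F →L[ℂ] Hil (Fin l) F =>
      B (vec ((c i).mulVec v) ζ)) hR.r1
    exact h.symm
  have hTf : T f = ∑ i : Fin n, s • A i ((((y ^ 2 : ℝ) : ℂ)) • α i) := by
    rw [hf, map_sub, map_sum, hT, tens_vac_24681, ← Finset.sum_sub_distrib]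
    apply Finset.sum_congr rfl
    intro i _
    rw [map_smul]
    have h1 := tens_comm_24681 M c (i : ℕ) j ((star (tens c M.X)) (α i))
    have h2 : (tens c M.X) (A i ((star (tens c M.X)) (α i))) =
        A i ((tens c M.X) ((star (tens c M.X)) (α i))) := h1
    rw [h2, ← smul_sub]
    congr 1
    have h3 : amp (1 : Mat l) (M.S i false j) (vec ((c i).mulVec v) (zeta m u w M.e)) =
        A i (vec ((c i).mulVec v) ζ) := rfl
    rw [h3, ← map_sub, hr i, add_sub_cancel_right]
  have hTTf : (star T) (T f) = ∑ i : Fin n, s • (A i ((((y ^ 2 : ℝ) : ℂ)) • ((star T) (α i))) +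
      s • ((y : ℂ) • vec ((c i).conjTranspose.mulVec (K1.mulVec ((c i).mulVec v))) (M.e j))) := by
    rw [hTf, map_sum]
    apply Finset.sum_congr rfl
    intro i _
    rw [map_smul]
    congr 1
    have h1 := star_tens_24681 M c i j ((((y ^ 2 : ℝ) : ℂ)) • α i)
    have h2 : (star T) (A i ((((y ^ 2 : ℝ) : ℂ)) • α i)) =
        A i ((star T) ((((y ^ 2 : ℝ) : ℂ)) • α i)) +
        s • vec ((c i).conjTranspose.mulVec fun p => ⟪ζ, ((((y ^ 2 : ℝ) : ℂ)) • α i) p⟫_ℂ)
        (M.e j) := h1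
    rw [h2, map_smul (star T)]
    congr 2
    rw [← vec_smul_24681, ← Matrix.mulVec_smul]
    congr 2
    funext p
    have h3 : (((((y ^ 2 : ℝ) : ℂ)) • α i) : Hil (Fin l) F) p = (y : ℂ) • ((((y : ℂ) • P1)
        (vec ((c i).mulVec v) ζ)) p) := by
      show (((y ^ 2 : ℝ) : ℂ)) • (α i p) = (y : ℂ) • ((y : ℂ) • (P1 (vec ((c i).mulVec v) ζ) p))
      rw [hy2, mul_smul]
    rw [h3, inner_smul_right, gvec_24681]
    rfl
  have hclaim : (((y ^ 2 : ℝ) : ℂ)) • f + (star T) (T f) =
      (y : ℂ) • vec (((y : ℂ) • (1 : Mat l) + (u j : ℂ) • et' c K1).mulVec v) (M.e j) := by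
    have h1 : ((y : ℂ) • (1 : Mat l) + (u j : ℂ) • et' c K1).mulVec v =
        (y : ℂ) • v + (u j : ℂ) • ∑ i : Fin n, (c i).conjTranspose.mulVec (K1.mulVec ((c i).mulVec v)) := by
      rw [Matrix.add_mulVec, Matrix.smul_mulVec, Matrix.smul_mulVec, Matrix.one_mulVec]
      congr 2
      unfold et'
      rw [Matrix.sum_mulVec]
      apply Finset.sum_congr rfl
      intro i _
      rw [Matrix.mulVec_mulVec, Matrix.mulVec_mulVec, Matrix.mul_assoc]
    rw [h1, vec_add_24681, vec_smul_24681, vec_smul_24681, vec_sum_24681, hTTf, hf]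
    have h2 : ∑ i : Fin n, s • (A i ((((y ^ 2 : ℝ) : ℂ)) • ((star T) (α i))) +
      s • ((y : ℂ) • vec ((c i).conjTranspose.mulVec (K1.mulVec ((c i).mulVec v))) (M.e j))) =
      (((y ^ 2 : ℝ) : ℂ)) • (∑ i : Fin n, s • A i ((star T) (α i))) +
      ((y : ℂ) * (u j : ℂ)) • ∑ i : Fin n,
        vec ((c i).conjTranspose.mulVec (K1.mulVec ((c i).mulVec v))) (M.e j) := by
      rw [Finset.smul_sum, Finset.smul_sum, ← Finset.sum_add_distrib]
      apply Finset.sum_congr rfl
      intro i _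
      rw [smul_add, map_smul, smul_comm s, smul_smul s s, hss]
      congr 1
      rw [smul_smul, mul_comm (u j : ℂ)]
    rw [h2, hy2, smul_sub, smul_add, smul_smul, smul_smul]
    abel
  have hfin : ((y : ℂ) • P2) (vec (((y : ℂ) • (1 : Mat l) + (u j : ℂ) • et' c K1).mulVec v)
      (M.e j)) = f := by
    have h1 := congrArg (fun B : Hil (Fin l) F →L[ℂ] Hil (Fin l) F => B f) hR.l2
    have h2 : P2 ((((y ^ 2 : ℝ) : ℂ)) • f + (star T) (T f)) = f := h1
    rw [hclaim, map_smul] at h2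
    exact h2
  rw [hfin, hf, inner_sub_right, inner_vec, M.orth, inner_sum]
  have h0 : ∑ i : Fin n, ⟪vec v' (M.e j'), s • A i ((star T) (α i))⟫_ℂ = 0 := by
    apply Finset.sum_eq_zero
    intro i _
    rw [inner_smul_right]
    have := inner_creation_24681 M v' j' (i : ℕ) false j ((star T) (α i))
    rw [show A i = amp (1 : Mat l) (M.S i false j) from rfl, this, mul_zero]
  rw [h0, sub_zero]
  by_cases h : j = j'
  · rw [if_pos h, if_pos h.symm, mul_one]
  · rw [if_neg h, if_neg (Ne.symm h), mul_zero]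

end Pool.Agent.OHP

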