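import Pool.Agent.Helper547.OH.Defs
import Pool.Agent.Helper547.OH.P_dys_anti

/-! Definitions for the completely isometric embedding of OH into a von Neumann algebra predual. -/

set_option autoImplicit false

namespace Pool.Agent.OHP
open scoped InnerProductSpace ComplexConjugate ComplexOrder
open Finset


theorem trmul_nonneg {l : ℕ} {A K : Mat l} (hA : A.PosSemidef) (hK : K.PosSemidef) :
    0 ≤ ((A * K).trace).re := by
  obtain ⟨r, hr⟩ : ∃ r : Mat l, K = r.conjTranspose * r := by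
    open scoped MatrixOrder in
    exact CStarAlgebra.nonneg_iff_eq_star_mul_self.mp hK.nonneg
  have h1 : (A * K).trace = (r * A * r.conjTranspose).trace := by
    rw [hr, ← Matrix.mul_assoc, Matrix.trace_mul_comm, ← Matrix.mul_assoc]
  rw [h1]
  have h2 := (hA.mul_mul_conjTranspose_same r).trace_nonneg
  exact (Complex.nonneg_iff.mp h2).1

theorem et'_psd {n l : ℕ} (c : Fin n → Mat l) {K : Mat l} (hK : K.PosSemidef) :
    (et' c K).PosSemidef := by
  unfold et'
  refine Matrix.posSemidef_sum _ (fun i _ => ?_)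
  exact hK.conjTranspose_mul_mul_same (c i)

theorem et_psd {n l : ℕ} (c : Fin n → Mat l) {K : Mat l} (hK : K.PosSemidef) :
    (et c K).PosSemidef := by
  unfold et
  refine Matrix.posSemidef_sum _ (fun i _ => ?_)
  exact hK.mul_mul_conjTranspose_same (c i)

theorem yuB_posDef {l : ℕ} (y t : ℝ) (hy : 0 < y) (ht : 0 ≤ t) {B : Mat l} (hB : B.PosSemidef) :
    ((y : ℂ) • (1 : Mat l) + (t : ℂ) • B).PosDef := by
  have hy' : (0 : ℂ) < (y : ℂ) := by exact_mod_cast hy
  have ht' : (0 : ℂ) ≤ (t : ℂ) := by exact_mod_cast ht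
  exact (Matrix.PosDef.one.smul hy').add_posSemidef (hB.smul ht')

theorem dys_zero {l m : ℕ} (u w : ℕ → ℝ) (y : ℝ) (hy : 0 < y) :
    dys m u w y (0 : Mat l) = (((∑ j ∈ range m, w j * u j) / y : ℝ) : ℂ) • (1 : Mat l) := by
  unfold dys
  have hy' : (y : ℂ) ≠ 0 := by exact_mod_cast hy.ne'
  have h1 : ((y : ℂ) • (1 : Mat l))⁻¹ = ((y : ℂ)⁻¹) • (1 : Mat l) := by
    apply Matrix.inv_eq_left_inv
    rw [smul_mul_smul_comm, one_mul, inv_mul_cancel₀ hy', one_smul]
  simp only [smul_zero, add_zero, h1, smul_smul]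
  rw [← Finset.sum_smul]
  congr 1
  push_cast
  rw [Finset.sum_div]
  refine Finset.sum_congr rfl (fun j _ => ?_)
  rw [div_eq_mul_inv]

theorem tr_term {l : ℕ} (y t : ℝ) (hy : 0 < y) (ht : 0 ≤ t) {B : Mat l} (hB : B.PosSemidef) :
    (((t : ℂ) • (B * ((y : ℂ) • (1 : Mat l) + (t : ℂ) • B)⁻¹)).trace).re ≤ l := by
  have hM := yuB_posDef y t hy ht hB
  set M : Mat l := (y : ℂ) • (1 : Mat l) + (t : ℂ) • B with hMdef
  have hinv : M * M⁻¹ = 1 := by
    apply Matrix.mul_nonsing_inv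
    exact (Matrix.isUnit_iff_isUnit_det _).mp hM.isUnit
  have h1 : (t : ℂ) • (B * M⁻¹) = 1 - (y : ℂ) • M⁻¹ := by
    have h2 : M * M⁻¹ = (y : ℂ) • M⁻¹ + (t : ℂ) • (B * M⁻¹) := by
      conv_lhs => rw [hMdef]
      rw [Matrix.add_mul, Matrix.smul_mul, Matrix.smul_mul, Matrix.one_mul, ← hMdef]
    rw [hinv] at h2
    rw [h2]
    abel
  rw [h1, Matrix.trace_sub, Matrix.trace_one, Matrix.trace_smul, Complex.sub_re]
  have h3 : 0 ≤ (M⁻¹.trace).re := (Complex.nonneg_iff.mp hM.inv.posSemidef.trace_nonneg).1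
  have h4 : (((y : ℂ) • M⁻¹.trace)).re = y * (M⁻¹.trace).re := by
    rw [smul_eq_mul, Complex.re_ofReal_mul]
  rw [h4]
  have h5 : 0 ≤ y * (M⁻¹.trace).re := mul_nonneg hy.le h3
  simp only [Fintype.card_fin, Complex.natCast_re]
  linarith

theorem dyson_bounds {n l m : ℕ} {u w : ℕ → ℝ} (hu : ∀ j, 0 ≤ u j) (hw : ∀ j, 0 ≤ w j)
    (c : Fin n → Mat l) (y : ℝ) (hy : 0 < y) (K1 K2 : Mat l) (D : Dyson m u w y c K1 K2) :
    0 ≤ ((et' c K1 * K2).trace).re ∧
    ((et' c K1 * K2).trace).re ≤ l * ∑ j ∈ range m, w j ∧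
    ((et' c K1 * K2).trace).re ≤ (∑ j ∈ range m, w j * u j) ^ 2 / y ^ 2 *
      ((∑ i, (c i).conjTranspose * c i).trace).re := by
  have hB : (et' c K1).PosSemidef := et'_psd c D.h1
  have hB0 : (et c K2).PosSemidef := et_psd c D.h2
  set s : ℝ := ∑ j ∈ range m, w j * u j with hs
  have hs0 : 0 ≤ s := Finset.sum_nonneg (fun j _ => mul_nonneg (hw j) (hu j))
  refine ⟨trmul_nonneg hB D.h2, ?_, ?_⟩
  · rw [D.e2]
    unfold dys
    rw [Finset.mul_sum, Matrix.trace_sum, Complex.re_sum, Finset.mul_sum]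
    refine Finset.sum_le_sum (fun j _ => ?_)
    have h1 := tr_term y (u j) hy (hu j) hB
    rw [Matrix.mul_smul, Matrix.trace_smul, smul_eq_mul, Complex.re_ofReal_mul]
    rw [Matrix.trace_smul, smul_eq_mul, Complex.re_ofReal_mul] at h1
    have h2 := mul_le_mul_of_nonneg_left h1 (hw j)
    nlinarith [h2]
  · have hz : (0 : Mat l).PosSemidef := Matrix.PosSemidef.zero
    have hK1 : ((((s / y : ℝ) : ℂ) • (1 : Mat l)) - K1).PosSemidef := by
      have h := dys_anti (m := m) hu hw y hy (0 : Mat l) (et c K2) hz (by simpa using hB0)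
      rw [dys_zero u w y hy, ← D.e1] at h
      exact h
    have hK2 : ((((s / y : ℝ) : ℂ) • (1 : Mat l)) - K2).PosSemidef := by
      have h := dys_anti (m := m) hu hw y hy (0 : Mat l) (et' c K1) hz (by simpa using hB)
      rw [dys_zero u w y hy, ← D.e2] at h
      exact h
    have h1 : ((et' c K1 * K2).trace).re ≤ s / y * ((et' c K1).trace).re := by
      have h := trmul_nonneg hB hK2
      rw [Matrix.mul_sub, Matrix.trace_sub, Matrix.mul_smul, Matrix.mul_one, Matrix.trace_smul,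
        Complex.sub_re, smul_eq_mul, Complex.re_ofReal_mul] at h
      linarith
    have h2 : ((et' c K1).trace).re ≤
        s / y * ((∑ i, (c i).conjTranspose * c i).trace).re := by
      have h := (Complex.nonneg_iff.mp (et'_psd c hK1).trace_nonneg).1
      have h3 : et' c ((((s / y : ℝ) : ℂ) • (1 : Mat l)) - K1) =
          (((s / y : ℝ) : ℂ)) • (∑ i, (c i).conjTranspose * c i) - et' c K1 := by
        unfold et'
        rw [Finset.smul_sum, ← Finset.sum_sub_distrib]
        refine Finset.sum_congr rfl (fun i _ => ?_)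
        rw [Matrix.mul_sub, Matrix.sub_mul, Matrix.mul_smul, Matrix.mul_one, Matrix.smul_mul]
      rw [h3, Matrix.trace_sub, Matrix.trace_smul, Complex.sub_re, smul_eq_mul,
        Complex.re_ofReal_mul] at h
      linarith
    have hsy : 0 ≤ s / y := div_nonneg hs0 hy.le
    calc ((et' c K1 * K2).trace).re ≤ s / y * ((et' c K1).trace).re := h1
      _ ≤ s / y * (s / y * ((∑ i, (c i).conjTranspose * c i).trace).re) :=
          mul_le_mul_of_nonneg_left h2 hsy
      _ = s ^ 2 / y ^ 2 * ((∑ i, (c i).conjTranspose * c i).trace).re := by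
          ring

end Pool.Agent.OHP
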