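import Pool.Agent.Helper547.OH.Defs

/-! Definitions for the completely isometric embedding of OH into a von Neumann algebra predual. -/

set_option autoImplicit false

namespace Pool.Agent.OHP
open scoped InnerProductSpace ComplexConjugate ComplexOrder
open Finset


theorem ws_mem {W : Type} (σ : W → W) (hσ : Function.Injective σ)
    (c : W → ℝ) (C : ℝ) (hc : ∀ v, |c v| ≤ C) (ξ : lp (fun _ : W => ℂ) 2) :
    Memℓp (E := fun _ : W => ℂ) (Function.extend σ (fun v => ((c v : ℝ) : ℂ) * ξ v) 0) 2 := by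
  have h2 : (0:ℝ) < (2 : ENNReal).toReal := by norm_num
  have hs : Summable fun v => ‖(ξ : W → ℂ) v‖ ^ (2 : ENNReal).toReal := (lp.memℓp ξ).summable h2
  apply memℓp_gen
  have hz : ∀ x ∉ Set.range σ, (fun v => ‖(Function.extend σ (fun v => ((c v : ℝ) : ℂ) * ξ v) 0 : W → ℂ) v‖ ^ (2 : ENNReal).toReal) x = 0 := by
    intro x hx
    have : (Function.extend σ (fun v => ((c v : ℝ) : ℂ) * ξ v) 0 : W → ℂ) x = 0 := by
      rw [Function.extend_apply' _ _ _ (by simpa [Set.mem_range] using hx)]; rfl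
    simp only [this, norm_zero]
    exact Real.zero_rpow h2.ne'
  rw [← hσ.summable_iff hz]
  refine Summable.of_nonneg_of_le (fun v => Real.rpow_nonneg (norm_nonneg _) _) (fun v => ?_) (hs.mul_left (C ^ (2 : ENNReal).toReal))
  simp only [Function.comp, hσ.extend_apply]
  have hC : 0 ≤ C := (abs_nonneg _).trans (hc v)
  rw [← Real.mul_rpow hC (norm_nonneg _)]
  apply Real.rpow_le_rpow (norm_nonneg _) _ h2.le
  rw [norm_mul, Complex.norm_real]
  exact mul_le_mul_of_nonneg_right (hc v) (norm_nonneg _)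

theorem ws_norm {W : Type} (σ : W → W) (hσ : Function.Injective σ)
    (c : W → ℝ) (C : ℝ) (hC : 0 ≤ C) (hc : ∀ v, |c v| ≤ C) (ξ : lp (fun _ : W => ℂ) 2) :
    ‖(⟨Function.extend σ (fun v => ((c v : ℝ) : ℂ) * ξ v) 0, ws_mem σ hσ c C hc ξ⟩ : lp (fun _ : W => ℂ) 2)‖ ≤ C * ‖ξ‖ := by
  have h2 : (0:ℝ) < (2 : ENNReal).toReal := by norm_num
  refine lp.norm_le_of_tsum_le h2 (mul_nonneg hC (norm_nonneg _)) ?_
  have hz : ∀ x ∉ Set.range σ, (fun v => ‖(Function.extend σ (fun v => ((c v : ℝ) : ℂ) * ξ v) 0 : W → ℂ) v‖ ^ (2 : ENNReal).toReal) x = 0 := by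
    intro x hx
    have : (Function.extend σ (fun v => ((c v : ℝ) : ℂ) * ξ v) 0 : W → ℂ) x = 0 := by
      rw [Function.extend_apply' _ _ _ (by simpa [Set.mem_range] using hx)]; rfl
    simp only [this, norm_zero]
    exact Real.zero_rpow h2.ne'
  have e1 : ∑' v, ‖(Function.extend σ (fun v => ((c v : ℝ) : ℂ) * ξ v) 0 : W → ℂ) v‖ ^ (2 : ENNReal).toReal
      = ∑' v, ‖((c v : ℝ) : ℂ) * ξ v‖ ^ (2 : ENNReal).toReal := by
    have := hσ.tsum_eq (f := fun v => ‖(Function.extend σ (fun v => ((c v : ℝ) : ℂ) * ξ v) 0 : W → ℂ) v‖ ^ (2 : ENNReal).toReal) (by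
      intro x hx
      by_contra hh
      exact hx (hz x hh))
    rw [← this]
    simp only [hσ.extend_apply]
  have hs : Summable fun v => ‖(ξ : W → ℂ) v‖ ^ (2 : ENNReal).toReal := (lp.memℓp ξ).summable h2
  change ∑' v, ‖(Function.extend σ (fun v => ((c v : ℝ) : ℂ) * ξ v) 0 : W → ℂ) v‖ ^ (2 : ENNReal).toReal ≤ _
  rw [e1, Real.mul_rpow hC (norm_nonneg _), lp.norm_rpow_eq_tsum h2, ← tsum_mul_left]
  have hle : ∀ v, ‖((c v : ℝ) : ℂ) * ξ v‖ ^ (2 : ENNReal).toReal ≤ C ^ (2 : ENNReal).toReal * ‖(ξ : W → ℂ) v‖ ^ (2 : ENNReal).toReal := by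
    intro v
    rw [← Real.mul_rpow hC (norm_nonneg _)]
    apply Real.rpow_le_rpow (norm_nonneg _) _ h2.le
    rw [norm_mul, Complex.norm_real]
    exact mul_le_mul_of_nonneg_right (hc v) (norm_nonneg _)
  exact Summable.tsum_le_tsum hle (Summable.of_nonneg_of_le (fun v => by positivity) hle (hs.mul_left _)) (hs.mul_left _)

theorem ws_inner {W : Type} [DecidableEq W] (v : W) (ξ : lp (fun _ : W => ℂ) 2) :
    ⟪(lp.single 2 v (1 : ℂ) : lp (fun _ : W => ℂ) 2), ξ⟫_ℂ = ξ v := by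
  rw [lp.inner_single_left]; simp

/-- weighted shifts on `ℓ²(W)` -/
theorem exists_wshift {W : Type} [DecidableEq W] (σ : W → W) (hσ : Function.Injective σ)
    (c : W → ℝ) (C : ℝ) (hc : ∀ v, |c v| ≤ C) :
    ∃ T : (lp (fun _ : W => ℂ) 2) →L[ℂ] (lp (fun _ : W => ℂ) 2),
      (∀ v, T (lp.single 2 v (1 : ℂ)) = ((c v : ℝ) : ℂ) • lp.single 2 (σ v) (1 : ℂ)) ∧
      (∀ v, (star T) (lp.single 2 (σ v) (1 : ℂ)) = ((c v : ℝ) : ℂ) • lp.single 2 v (1 : ℂ)) ∧
      (∀ v, v ∉ Set.range σ → (star T) (lp.single 2 v (1 : ℂ)) = 0) := by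
  classical
  rcases isEmpty_or_nonempty W with hW | ⟨⟨w0⟩⟩
  · exact ⟨0, fun v => hW.elim v, fun v => hW.elim v, fun v => hW.elim v⟩
  have hC : 0 ≤ C := (abs_nonneg _).trans (hc w0)
  let L : (lp (fun _ : W => ℂ) 2) →ₗ[ℂ] (lp (fun _ : W => ℂ) 2) :=
    { toFun := fun ξ => ⟨Function.extend σ (fun v => ((c v : ℝ) : ℂ) * ξ v) 0, ws_mem σ hσ c C hc ξ⟩
      map_add' := by
        intro x y
        apply Subtype.ext
        funext v
        change (Function.extend σ (fun v => ((c v : ℝ) : ℂ) * (x + y : lp (fun _ : W => ℂ) 2) v) 0 : W → ℂ) v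
          = (Function.extend σ (fun v => ((c v : ℝ) : ℂ) * x v) 0 : W → ℂ) v
            + (Function.extend σ (fun v => ((c v : ℝ) : ℂ) * y v) 0 : W → ℂ) v
        by_cases h : ∃ a, σ a = v
        · obtain ⟨a, rfl⟩ := h
          simp only [hσ.extend_apply]
          simp [mul_add]
        · rw [Function.extend_apply' _ _ _ h, Function.extend_apply' _ _ _ h, Function.extend_apply' _ _ _ h]
          simp
      map_smul' := by
        intro k x
        apply Subtype.ext
        funext v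
        change (Function.extend σ (fun v => ((c v : ℝ) : ℂ) * (k • x : lp (fun _ : W => ℂ) 2) v) 0 : W → ℂ) v
          = k * (Function.extend σ (fun v => ((c v : ℝ) : ℂ) * x v) 0 : W → ℂ) v
        by_cases h : ∃ a, σ a = v
        · obtain ⟨a, rfl⟩ := h
          simp only [hσ.extend_apply]
          simp only [lp.coeFn_smul, Pi.smul_apply, smul_eq_mul]
          ring
        · rw [Function.extend_apply' _ _ _ h, Function.extend_apply' _ _ _ h]
          simp }
  let T : (lp (fun _ : W => ℂ) 2) →L[ℂ] (lp (fun _ : W => ℂ) 2) :=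
    L.mkContinuous C (fun ξ => ws_norm σ hσ c C hC hc ξ)
  have hTa : ∀ ξ v, (T ξ) (σ v) = ((c v : ℝ) : ℂ) * ξ v := by
    intro ξ v
    change (Function.extend σ (fun v => ((c v : ℝ) : ℂ) * ξ v) 0 : W → ℂ) (σ v) = _
    rw [hσ.extend_apply]
  have hTb : ∀ ξ v, (¬ ∃ a, σ a = v) → (T ξ) v = 0 := by
    intro ξ v h
    change (Function.extend σ (fun v => ((c v : ℝ) : ℂ) * ξ v) 0 : W → ℂ) v = _
    rw [Function.extend_apply' _ _ _ h]; rfl
  have hT1 : ∀ v, T (lp.single 2 v (1 : ℂ)) = ((c v : ℝ) : ℂ) • lp.single 2 (σ v) (1 : ℂ) := by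
    intro v
    apply lp.ext
    funext w
    by_cases h : ∃ a, σ a = w
    · obtain ⟨a, rfl⟩ := h
      rw [hTa]
      simp only [lp.coeFn_smul, Pi.smul_apply, smul_eq_mul, lp.single_apply]
      by_cases hav : a = v
      · subst hav; simp
      · have : σ a ≠ σ v := fun h => hav (hσ h)
        simp [Pi.single_apply, hav, this]
    · rw [hTb _ _ h]
      have : w ≠ σ v := fun h' => h ⟨v, h'.symm⟩
      simp only [lp.coeFn_smul, Pi.smul_apply, smul_eq_mul, lp.single_apply]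
      simp [Pi.single_apply, this]
  have hadj : ∀ x w, ((star T) x) w = ((c w : ℝ) : ℂ) * x (σ w) := by
    intro x w
    rw [← ws_inner w, ContinuousLinearMap.star_eq_adjoint, ContinuousLinearMap.adjoint_inner_right, hT1,
      inner_smul_left, ws_inner]
    simp
  refine ⟨T, hT1, ?_, ?_⟩
  · intro v
    apply lp.ext
    funext w
    rw [hadj]
    simp only [lp.coeFn_smul, Pi.smul_apply, smul_eq_mul, lp.single_apply]
    by_cases hav : w = v
    · subst hav; simp
    · have : σ w ≠ σ v := fun h => hav (hσ h)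
      simp [Pi.single_apply, hav, this]
  · intro v hv
    apply lp.ext
    funext w
    rw [hadj]
    have : σ w ≠ v := fun h => hv ⟨w, h⟩
    simp [lp.single_apply, Pi.single_apply, this]

end Pool.Agent.OHP
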