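import Pool.Agent.Helper547.OH.Defs
import Pool.Agent.Helper547.OH.P_exists_wshift

/-! Definitions for the completely isometric embedding of OH into a von Neumann algebra predual. -/

set_option autoImplicit false

namespace Pool.Agent.OHP
open scoped InnerProductSpace ComplexConjugate ComplexOrder
open Finset


theorem lr_bound (m : ℕ) (u : ℕ → ℝ) (hum : ∀ j, m ≤ j → u j = 0) (j : ℕ) :
    √(u j) ≤ ∑ i ∈ range m, √(u i) := by
  rcases Nat.lt_or_ge j m with h | h
  · exact Finset.single_le_sum (f := fun i => √(u i)) (fun i _ => Real.sqrt_nonneg _)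
      (Finset.mem_range.mpr h)
  · rw [hum j h, Real.sqrt_zero]
    exact Finset.sum_nonneg (fun i _ => Real.sqrt_nonneg _)

theorem lr_shift (m : ℕ) (u w : ℕ → ℝ) (hum : ∀ j, m ≤ j → u j = 0)
    (σ : ℕ → (ℕ × List ((ℕ × Bool) × ℕ)) → (ℕ × List ((ℕ × Bool) × ℕ)))
    (hσ : ∀ k, Function.Injective (σ k)) (hdisj : ∀ k k' v v', σ k v = σ k' v' → k = k')
    (g : (ℕ × List ((ℕ × Bool) × ℕ)) → ℕ) :
    ∃ T : Fk →L[ℂ] Fk,
      (∀ v, T (lp.single 2 v (1 : ℂ)) = ∑ k ∈ range m,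
        ((√(u (g v)) * √(w k * u k) : ℝ) : ℂ) • lp.single 2 (σ k v) (1 : ℂ)) ∧
      (∀ k v, (star T) (lp.single 2 (σ k v) (1 : ℂ)) =
        ((√(u (g v)) * √(w k * u k) : ℝ) : ℂ) • lp.single 2 v (1 : ℂ)) ∧
      (∀ v, (∀ k, v ∉ Set.range (σ k)) → (star T) (lp.single 2 v (1 : ℂ)) = 0) := by
  have h := fun k => exists_wshift (σ k) (hσ k) (fun v => √(u (g v)) * √(w k * u k))
    ((∑ i ∈ range m, √(u i)) * √(w k * u k)) (by
      intro v
      rw [abs_of_nonneg (mul_nonneg (Real.sqrt_nonneg _) (Real.sqrt_nonneg _))]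
      exact mul_le_mul_of_nonneg_right (lr_bound m u hum _) (Real.sqrt_nonneg _))
  choose T hT1 hT2 hT3 using h
  refine ⟨∑ k ∈ range m, T k, ?_, ?_, ?_⟩
  · intro v
    rw [_root_.sum_apply]
    exact Finset.sum_congr rfl fun k _ => hT1 k v
  · intro k v
    rw [star_sum, _root_.sum_apply]
    by_cases hk : k ∈ range m
    · rw [Finset.sum_eq_single k]
      · exact hT2 k v
      · intro k' _ hk'
        refine hT3 k' _ ?_
        rintro ⟨v', hv'⟩
        exact hk' (hdisj _ _ _ _ hv')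
      · intro h
        exact absurd hk h
    · have hk0 : u k = 0 := hum k (by simpa using hk)
      rw [hk0, mul_zero, Real.sqrt_zero, mul_zero, Complex.ofReal_zero, zero_smul]
      refine Finset.sum_eq_zero fun k' hk' => hT3 k' _ ?_
      rintro ⟨v', hv'⟩
      have h1 := hdisj _ _ _ _ hv'
      rw [h1] at hk'
      exact hk hk'
  · intro v hv
    rw [star_sum, _root_.sum_apply]
    exact Finset.sum_eq_zero fun k _ => hT3 k v (hv k)

theorem lr_appinj {α : Type} {s s' : List α} {x x' : α} (h : s ++ [x] = s' ++ [x']) :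
    s = s' ∧ x = x' := by
  obtain ⟨h1, h2⟩ := List.append_inj' h rfl
  exact ⟨h1, by simpa using h2⟩

/-- left and right creation operators on the Fock space -/
theorem exists_LR (m : ℕ) (u w : ℕ → ℝ) (hu : ∀ j, 0 ≤ u j) (hw : ∀ j, 0 ≤ w j)
    (hum : ∀ j, m ≤ j → u j = 0) :
    ∃ (L R : ℕ × Bool → (Fk →L[ℂ] Fk)) (S : ℕ × Bool → ℕ → (Fk →L[ℂ] Fk)),
      (∀ a j t, L a (lp.single 2 (j, t) (1 : ℂ)) = ∑ k ∈ range m,
        ((√(u j) * √(w k * u k) : ℝ) : ℂ) • lp.single 2 (k, (a, j) :: t) (1 : ℂ)) ∧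
      (∀ a j, (star (L a)) (lp.single 2 (j, []) (1 : ℂ)) = 0) ∧
      (∀ a b k j t, (star (L a)) (lp.single 2 (k, (b, j) :: t) (1 : ℂ)) =
        if a = b then ((√(u j) * √(w k * u k) : ℝ) : ℂ) • lp.single 2 (j, t) (1 : ℂ) else 0) ∧
      (∀ a j t, R a (lp.single 2 (j, t) (1 : ℂ)) = ∑ k ∈ range m,
        ((√(u ((t.map Prod.snd).getLastD j)) * √(w k * u k) : ℝ) : ℂ) •
          lp.single 2 (j, t ++ [(a, k)]) (1 : ℂ)) ∧
      (∀ a j, (star (R a)) (lp.single 2 (j, []) (1 : ℂ)) = 0) ∧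
      (∀ a b k j t, (star (R a)) (lp.single 2 (j, t ++ [(b, k)]) (1 : ℂ)) =
        if a = b then ((√(u ((t.map Prod.snd).getLastD j)) * √(w k * u k) : ℝ) : ℂ) •
          lp.single 2 (j, t) (1 : ℂ) else 0) ∧
      (∀ a k j t, S a k (lp.single 2 (j, t) (1 : ℂ)) = lp.single 2 (j, t ++ [(a, k)]) (1 : ℂ)) := by
  have hL := fun a : ℕ × Bool => lr_shift m u w hum (fun k v => (k, (a, v.1) :: v.2))
    (by
      intro k v v' h
      simp only [Prod.mk.injEq, List.cons.injEq, true_and] at h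
      exact Prod.ext h.1 h.2)
    (by
      intro k k' v v' h
      exact (Prod.mk.injEq _ _ _ _ ▸ h).1)
    (fun v => v.1)
  have hR := fun a : ℕ × Bool => lr_shift m u w hum (fun k v => (v.1, v.2 ++ [(a, k)]))
    (by
      intro k v v' h
      have h' : (v.1, v.2 ++ [(a, k)]) = (v'.1, v'.2 ++ [(a, k)]) := h
      rw [Prod.mk.injEq] at h'
      exact Prod.ext h'.1 (lr_appinj h'.2).1)
    (by
      intro k k' v v' h
      have h' : (v.1, v.2 ++ [(a, k)]) = (v'.1, v'.2 ++ [(a, k')]) := h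
      rw [Prod.mk.injEq] at h'
      have h2 := (lr_appinj h'.2).2
      rw [Prod.mk.injEq] at h2
      exact h2.2)
    (fun v => (v.2.map Prod.snd).getLastD v.1)
  have hS := fun (a : ℕ × Bool) (k : ℕ) => exists_wshift
    (W := ℕ × List ((ℕ × Bool) × ℕ)) (fun v => (v.1, v.2 ++ [(a, k)]))
    (by
      intro v v' h
      have h' : (v.1, v.2 ++ [(a, k)]) = (v'.1, v'.2 ++ [(a, k)]) := h
      rw [Prod.mk.injEq] at h'
      exact Prod.ext h'.1 (lr_appinj h'.2).1)
    (fun _ => 1) 1 (by intro v; rw [abs_one])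
  choose L hL1 hL2 hL3 using hL
  choose R hR1 hR2 hR3 using hR
  choose S hS1 hS2 hS3 using hS
  refine ⟨L, R, S, ?_, ?_, ?_, ?_, ?_, ?_, ?_⟩
  · intro a j t
    exact hL1 a (j, t)
  · intro a j
    refine hL3 a (j, []) ?_
    rintro k ⟨v, hv⟩
    have h' : (k, (a, v.1) :: v.2) = (j, []) := hv
    rw [Prod.mk.injEq] at h'
    exact absurd h'.2 (List.cons_ne_nil _ _)
  · intro a b k j t
    by_cases hab : a = b
    · rw [if_pos hab, ← hab]
      exact hL2 a k (j, t)
    · rw [if_neg hab]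
      refine hL3 a (k, (b, j) :: t) ?_
      rintro k' ⟨v, hv⟩
      have h' : (k', (a, v.1) :: v.2) = (k, (b, j) :: t) := hv
      rw [Prod.mk.injEq, List.cons.injEq, Prod.mk.injEq] at h'
      exact hab h'.2.1.1
  · intro a j t
    exact hR1 a (j, t)
  · intro a j
    refine hR3 a (j, []) ?_
    rintro k ⟨v, hv⟩
    have h' : (v.1, v.2 ++ [(a, k)]) = (j, []) := hv
    rw [Prod.mk.injEq] at h'
    have h2 := congrArg List.length h'.2
    simp at h2
  · intro a b k j t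
    by_cases hab : a = b
    · rw [if_pos hab, ← hab]
      exact hR2 a k (j, t)
    · rw [if_neg hab]
      refine hR3 a (j, t ++ [(b, k)]) ?_
      rintro k' ⟨v, hv⟩
      have h' : (v.1, v.2 ++ [(a, k')]) = (j, t ++ [(b, k)]) := hv
      rw [Prod.mk.injEq] at h'
      have h2 := (lr_appinj h'.2).2
      rw [Prod.mk.injEq] at h2
      exact hab h2.1
  · intro a k j t
    have h1 := hS1 a k (j, t)
    rw [Complex.ofReal_one, one_smul] at h1
    exact h1

end Pool.Agent.OHP
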