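import Pool.Agent.Helper547.OH.Defs

/-! Definitions for the completely isometric embedding of OH into a von Neumann algebra predual. -/

set_option autoImplicit false

namespace Pool.Agent.OHP
open scoped InnerProductSpace ComplexConjugate ComplexOrder
open Finset


section H400

open scoped MatrixOrder in
theorem h400_gram {l : ℕ} {A : Mat l} (hA : A.PosSemidef) : ∃ B : Mat l, A = B.conjTranspose * B := by
  obtain ⟨y, hy⟩ := CStarAlgebra.nonneg_iff_eq_star_mul_self.mp hA.nonneg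
  exact ⟨y, hy⟩

noncomputable def h400_N {l : ℕ} (x : Fin l → ℂ) : ℝ := ∑ j, ‖x j‖ ^ 2

theorem h400_star {l : ℕ} (x : Fin l → ℂ) : star x ⬝ᵥ x = ((h400_N x : ℝ) : ℂ) := by
  unfold h400_N dotProduct
  rw [Complex.ofReal_sum]
  apply Finset.sum_congr rfl
  intro j _
  rw [Pi.star_apply, Complex.star_def, Complex.conj_mul', Complex.ofReal_pow]

theorem h400_gram_dot {l : ℕ} (B : Mat l) (x : Fin l → ℂ) :
    star x ⬝ᵥ ((B.conjTranspose * B).mulVec x) = ((h400_N (B.mulVec x) : ℝ) : ℂ) := by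
  rw [← h400_star, ← Matrix.mulVec_mulVec, Matrix.dotProduct_mulVec, Matrix.star_mulVec]

theorem h400_gram_tr {l : ℕ} (B : Mat l) :
    (B.conjTranspose * B).trace = ((∑ k, ∑ j, ‖B k j‖ ^ 2 : ℝ) : ℂ) := by
  rw [Finset.sum_comm, Matrix.trace, Complex.ofReal_sum]
  apply Finset.sum_congr rfl
  intro j _
  rw [Matrix.diag_apply, Matrix.mul_apply, Complex.ofReal_sum]
  apply Finset.sum_congr rfl
  intro k _
  rw [Matrix.conjTranspose_apply, Complex.star_def, Complex.conj_mul', Complex.ofReal_pow]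

theorem h400_cs {l : ℕ} (a x : Fin l → ℂ) :
    ‖∑ j, a j * x j‖ ^ 2 ≤ (∑ j, ‖a j‖ ^ 2) * ∑ j, ‖x j‖ ^ 2 := by
  have h1 : ‖∑ j, a j * x j‖ ≤ ∑ j, ‖a j‖ * ‖x j‖ := by
    refine (norm_sum_le _ _).trans (Finset.sum_le_sum (fun j _ => ?_))
    rw [norm_mul]
  have h2 := Finset.sum_mul_sq_le_sq_mul_sq Finset.univ (fun j => ‖a j‖) (fun j => ‖x j‖)
  exact (pow_le_pow_left₀ (norm_nonneg _) h1 2).trans h2

theorem h400_N_mulVec {l : ℕ} (B : Mat l) (x : Fin l → ℂ) :
    h400_N (B.mulVec x) ≤ (∑ k, ∑ j, ‖B k j‖ ^ 2) * h400_N x := by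
  unfold h400_N
  rw [Finset.sum_mul]
  apply Finset.sum_le_sum
  intro k _
  exact h400_cs (fun j => B k j) x

/-- Lemma T -/
theorem h400_T {l : ℕ} {A : Mat l} (hA : A.PosSemidef) :
    ((((A.trace).re : ℝ) : ℂ) • (1 : Mat l) - A).PosSemidef := by
  obtain ⟨B, rfl⟩ := h400_gram hA
  rw [h400_gram_tr, Complex.ofReal_re]
  apply Matrix.PosSemidef.of_dotProduct_mulVec_nonneg
  · apply Matrix.IsHermitian.sub
    · rw [Matrix.IsHermitian, Matrix.conjTranspose_smul, Matrix.conjTranspose_one, Complex.star_def,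
        Complex.conj_ofReal]
    · exact hA.isHermitian
  · intro x
    rw [Matrix.sub_mulVec, dotProduct_sub, h400_gram_dot, Matrix.smul_mulVec, Matrix.one_mulVec,
      dotProduct_smul, h400_star, smul_eq_mul, ← Complex.ofReal_mul, ← Complex.ofReal_sub,
      Complex.zero_le_real]
    linarith [h400_N_mulVec B x]

theorem h400_entry {l : ℕ} {A : Mat l} (hA : A.PosSemidef) (i j : Fin l) :
    ‖A i j‖ ≤ (A.trace).re := by
  obtain ⟨B, rfl⟩ := h400_gram hA
  rw [h400_gram_tr, Complex.ofReal_re, Matrix.mul_apply]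
  have h1 : ∀ i : Fin l, ∑ k, ‖B k i‖ ^ 2 ≤ ∑ k, ∑ j, ‖B k j‖ ^ 2 := by
    intro i
    apply Finset.sum_le_sum
    intro k _
    exact Finset.single_le_sum (f := fun j => ‖B k j‖ ^ 2) (fun j _ => by positivity)
      (Finset.mem_univ i)
  have h2 : ‖∑ k, B.conjTranspose i k * B k j‖ ≤ ∑ k, (‖B k i‖ ^ 2 + ‖B k j‖ ^ 2) / 2 := by
    refine (norm_sum_le _ _).trans (Finset.sum_le_sum (fun k _ => ?_))
    rw [norm_mul, Matrix.conjTranspose_apply, norm_star]
    nlinarith [sq_nonneg (‖B k i‖ - ‖B k j‖)]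
  rw [← Finset.sum_div, Finset.sum_add_distrib] at h2
  linarith [h1 i, h1 j]

/-- trace of a product -/
theorem h400_tr_mul {l : ℕ} {A B : Mat l} (hA : A.PosSemidef) (hB : B.PosSemidef) :
    0 ≤ ((A * B).trace).re := by
  obtain ⟨D, rfl⟩ := h400_gram hB
  have h1 : (A * (D.conjTranspose * D)).trace = (D * A * D.conjTranspose).trace := by
    rw [← Matrix.mul_assoc, Matrix.trace_mul_comm, ← Matrix.mul_assoc]
  rw [h1]
  have h2 := (hA.mul_mul_conjTranspose_same D).trace_nonneg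
  exact (Complex.nonneg_iff.mp h2).1

theorem h400_inv {l : ℕ} (q Q : Mat l) (hq : q.PosSemidef) (hQ : Q.IsHermitian) (h : q * Q = 1)
    (h1 : (1 - q).PosSemidef) : (Q - 1).PosSemidef := by
  have h' : Q * q = 1 := mul_eq_one_comm.mp h
  have h2 := (hq.mul_mul_conjTranspose_same (Q - 1)).add h1
  have h3 : (Q - 1) * q * (Q - 1).conjTranspose + (1 - q) = Q - 1 := by
    rw [Matrix.conjTranspose_sub, Matrix.conjTranspose_one, hQ.eq]
    rw [Matrix.sub_mul, h', Matrix.one_mul, Matrix.sub_mul, Matrix.one_mul, Matrix.mul_sub, h,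
      Matrix.mul_one]
    abel
  rwa [h3] at h2

theorem h400_le_one {l : ℕ} {q : Mat l} (hq : q.PosSemidef) (ht : (q ^ 2).trace = 1) :
    (1 - q).PosSemidef := by
  have hq2 : (q ^ 2).PosSemidef := hq.pow 2
  have h1 := h400_T hq2
  rw [ht, Complex.one_re, Complex.ofReal_one, one_smul] at h1
  have hherm : (1 - q).IsHermitian := Matrix.isHermitian_one.sub hq.isHermitian
  have h2 : ((1 - q) * (1 - q).conjTranspose).PosSemidef :=
    Matrix.posSemidef_self_mul_conjTranspose _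
  have h3 := (h2.add h1).smul (show (0:ℂ) ≤ ((1 / 2 : ℝ) : ℂ) from
    Complex.zero_le_real.mpr (by norm_num))
  have h4 : ((1 / 2 : ℝ) : ℂ) • ((1 - q) * (1 - q).conjTranspose + (1 - q ^ 2)) = 1 - q := by
    rw [hherm.eq]
    have h5 : (1 - q) * (1 - q) + (1 - q ^ 2) = (2:ℂ) • (1 - q) := by
      rw [pow_two, two_smul]
      noncomm_ring
    rw [h5, smul_smul]
    norm_num
  rwa [h4] at h3

theorem h400_T2 {l : ℕ} (hl : 0 < l) {S : Mat l} (hS : S.PosDef) :
    ∃ T : ℝ, 0 < T ∧ ((T : ℂ) • S - 1).PosSemidef := by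
  haveI : Nonempty (Fin l) := ⟨⟨0, hl⟩⟩
  have hSi := hS.inv
  have htr := hSi.trace_pos
  obtain ⟨T, hT⟩ : ∃ T : ℝ, T = (S⁻¹.trace).re := ⟨_, rfl⟩
  have hT0 : 0 < T := by
    rw [hT]
    exact (Complex.pos_iff.mp htr).1
  refine ⟨T, hT0, ?_⟩
  have h1 := h400_T hSi.posSemidef
  rw [← hT] at h1
  have hc : (0:ℂ) ≤ ((T⁻¹ : ℝ) : ℂ) := Complex.zero_le_real.mpr (by positivity)
  have hTT : ((T⁻¹ : ℝ) : ℂ) * (T : ℂ) = 1 := by
    rw [← Complex.ofReal_mul, inv_mul_cancel₀ hT0.ne', Complex.ofReal_one]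
  apply h400_inv (((T⁻¹ : ℝ) : ℂ) • S⁻¹) ((T : ℂ) • S)
  · exact hSi.posSemidef.smul hc
  · rw [Matrix.IsHermitian, Matrix.conjTranspose_smul, Complex.star_def, Complex.conj_ofReal,
      hS.isHermitian.eq]
  · rw [Matrix.smul_mul, Matrix.mul_smul, smul_smul, hTT, one_smul,
      Matrix.nonsing_inv_mul _ ((Matrix.isUnit_iff_isUnit_det _).mp hS.isUnit)]
  · have h2 := h1.smul hc
    rw [smul_sub, smul_smul, hTT, one_smul] at h2
    exact h2

theorem h400_et_psd {n l : ℕ} (c : Fin n → Mat l) {K : Mat l} (hK : K.PosSemidef) :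
    (et c K).PosSemidef := by
  unfold et
  apply Matrix.posSemidef_sum
  intro i _
  exact hK.mul_mul_conjTranspose_same (c i)

theorem h400_et_add {n l : ℕ} (c : Fin n → Mat l) (K L : Mat l) :
    et c (K + L) = et c K + et c L := by
  unfold et
  rw [← Finset.sum_add_distrib]
  apply Finset.sum_congr rfl
  intro i _
  rw [Matrix.mul_add, Matrix.add_mul]

theorem h400_et_one {n l : ℕ} (c : Fin n → Mat l) :
    et c 1 = ∑ i, c i * (c i).conjTranspose := by
  unfold et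
  apply Finset.sum_congr rfl
  intro i _
  rw [Matrix.mul_one]

theorem h400_main {n l : ℕ} (c : Fin n → Mat l) (T : ℝ) (hT0 : 0 < T)
    (hT : ((T : ℂ) • (∑ i, c i * (c i).conjTranspose) - 1).PosSemidef)
    {P q : Mat l} (hP : P.PosSemidef) (hq : q.PosDef) (hq2 : (q ^ 2).trace = 1) :
    (P.trace).re ≤ T * ((et c q⁻¹ * P).trace).re := by
  have hR : (q⁻¹ - 1).PosSemidef := h400_inv q q⁻¹ hq.posSemidef hq.inv.isHermitian
    (Matrix.mul_nonsing_inv _ ((Matrix.isUnit_iff_isUnit_det _).mp hq.isUnit))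
    (h400_le_one hq.posSemidef hq2)
  have h1 : et c q⁻¹ = (∑ i, c i * (c i).conjTranspose) + et c (q⁻¹ - 1) := by
    rw [← h400_et_one, ← h400_et_add]
    congr 1
    abel
  have h2 := h400_tr_mul (h400_et_psd c hR) hP
  have h3 := h400_tr_mul hT hP
  rw [Matrix.sub_mul, Matrix.trace_sub, Matrix.smul_mul, Matrix.trace_smul, smul_eq_mul,
    Matrix.one_mul, Complex.sub_re, Complex.re_ofReal_mul] at h3
  rw [h1, Matrix.add_mul, Matrix.trace_add, Complex.add_re]
  nlinarith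

theorem h400_swap {n l : ℕ} (c : Fin n → Mat l) (P Q : Mat l) :
    (et c Q * P).trace = (et (fun i => (c i).conjTranspose) P * Q).trace := by
  unfold et
  rw [Finset.sum_mul, Finset.sum_mul, Matrix.trace_sum, Matrix.trace_sum]
  apply Finset.sum_congr rfl
  intro i _
  rw [Matrix.conjTranspose_conjTranspose, Matrix.mul_assoc (c i * Q), Matrix.trace_mul_comm,
    ← Matrix.mul_assoc]

theorem h400_compact (l : ℕ) (R : ℝ) :
    IsCompact {A : Mat l | A.PosSemidef ∧ (A.trace).re ≤ R} := by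
  have hbox : IsCompact {A : Mat l | ∀ i j, A i j ∈ Metric.closedBall (0:ℂ) R} := by
    have h1 : IsCompact (Set.univ.pi (fun _ : Fin l => Set.univ.pi
        (fun _ : Fin l => Metric.closedBall (0:ℂ) R))) :=
      isCompact_univ_pi (fun _ => isCompact_univ_pi (fun _ => isCompact_closedBall _ _))
    have h2 : {A : Mat l | ∀ i j, A i j ∈ Metric.closedBall (0:ℂ) R} =
        Set.univ.pi (fun _ : Fin l => Set.univ.pi
        (fun _ : Fin l => Metric.closedBall (0:ℂ) R)) := by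
      ext A
      constructor
      · intro h i _ j _
        exact h i j
      · intro h i j
        exact h i trivial j trivial
    rw [h2]
    exact h1
  apply hbox.of_isClosed_subset
  · have h3 : {A : Mat l | A.PosSemidef ∧ (A.trace).re ≤ R} =
        ({A : Mat l | A.conjTranspose = A} ∩
          ⋂ x : Fin l → ℂ, {A : Mat l | 0 ≤ star x ⬝ᵥ (A.mulVec x)}) ∩
        {A : Mat l | (A.trace).re ≤ R} := by
      ext A
      simp only [Set.mem_inter_iff, Set.mem_setOf_eq, Set.mem_iInter]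
      rw [Matrix.posSemidef_iff_dotProduct_mulVec]
      rfl
    rw [h3]
    refine ((isClosed_eq continuous_id.matrix_conjTranspose continuous_id).inter
      (isClosed_iInter (fun x => ?_))).inter ?_
    · exact isClosed_le continuous_const
        (Continuous.dotProduct continuous_const (continuous_id.matrix_mulVec continuous_const))
    · exact isClosed_le (Complex.continuous_re.comp continuous_id.matrix_trace) continuous_const
  · rintro A ⟨h1, h2⟩ i j
    rw [Metric.mem_closedBall, dist_zero_right]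
    exact (h400_entry h1 i j).trans h2

end H400

/-- existence of a minimising pair -/
theorem exists_min {n l : ℕ} (hl : 0 < l) (c : Fin n → Mat l)
    (hc : (∑ i, c i * (c i).conjTranspose).PosDef) (hc' : (∑ i, (c i).conjTranspose * c i).PosDef) :
    ∃ p q : Mat l, p.PosDef ∧ q.PosDef ∧ (p ^ 2).trace = 1 ∧ (q ^ 2).trace = 1 ∧
      ∀ p' q' : Mat l, p'.PosDef → q'.PosDef → (p' ^ 2).trace = 1 → (q' ^ 2).trace = 1 →
        ((et c q⁻¹ * p⁻¹).trace).re ≤ ((et c q'⁻¹ * p'⁻¹).trace).re := by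
  obtain ⟨T₁, hT₁0, hT₁⟩ := h400_T2 hl hc
  obtain ⟨T₂, hT₂0, hT₂⟩ := h400_T2 hl hc'
  have hT₂' : ((T₂ : ℂ) • (∑ i, (fun i => (c i).conjTranspose) i *
      ((fun i => (c i).conjTranspose) i).conjTranspose) - 1).PosSemidef := by
    simpa only [Matrix.conjTranspose_conjTranspose] using hT₂
  have hb1 : ∀ p q : Mat l, p.PosDef → q.PosDef → (q ^ 2).trace = 1 →
      ((p⁻¹).trace).re ≤ T₁ * ((et c q⁻¹ * p⁻¹).trace).re := fun p q hp hq hq2 =>
    h400_main c T₁ hT₁0 hT₁ hp.inv.posSemidef hq hq2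
  have hb2 : ∀ p q : Mat l, p.PosDef → q.PosDef → (p ^ 2).trace = 1 →
      ((q⁻¹).trace).re ≤ T₂ * ((et c q⁻¹ * p⁻¹).trace).re := by
    intro p q hp hq hp2
    rw [h400_swap]
    exact h400_main _ T₂ hT₂0 hT₂' hq.inv.posSemidef hp hp2
  -- the initial point
  have hl0 : (0:ℝ) < l := by exact_mod_cast hl
  obtain ⟨a, ha⟩ : ∃ a : ℝ, a = (√(l:ℝ))⁻¹ := ⟨_, rfl⟩
  have ha0 : 0 < a := by
    rw [ha]
    positivity
  have haa : a ^ 2 * l = 1 := by
    rw [ha, inv_pow, Real.sq_sqrt hl0.le, inv_mul_cancel₀ hl0.ne']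
  obtain ⟨p₀, hp₀⟩ : ∃ p₀ : Mat l, p₀ = (a : ℂ) • 1 := ⟨_, rfl⟩
  have hp₀pd : p₀.PosDef := by
    rw [hp₀]
    exact Matrix.PosDef.one.smul (by exact_mod_cast ha0)
  have hp₀tr : (p₀ ^ 2).trace = 1 := by
    rw [hp₀, smul_pow, one_pow, Matrix.trace_smul, Matrix.trace_one, Fintype.card_fin, smul_eq_mul]
    exact_mod_cast haa
  obtain ⟨M, hM⟩ : ∃ M, M = ((et c p₀⁻¹ * p₀⁻¹).trace).re := ⟨_, rfl⟩
  have hM0 : 0 ≤ M := by
    rw [hM]
    exact h400_tr_mul (h400_et_psd c hp₀pd.inv.posSemidef) hp₀pd.inv.posSemidef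
  obtain ⟨R, hR⟩ : ∃ R : ℝ, R = l + T₁ * M + T₂ * M := ⟨_, rfl⟩
  obtain ⟨CR, hCR⟩ : ∃ CR : Set (Mat l), CR = {A : Mat l | A.PosSemidef ∧ (A.trace).re ≤ R} :=
    ⟨_, rfl⟩
  have hCRc : IsCompact CR := by
    rw [hCR]
    exact h400_compact l R
  obtain ⟨K, hK⟩ : ∃ K : Set ((Mat l × Mat l) × (Mat l × Mat l)), K = ((CR ×ˢ CR) ×ˢ (CR ×ˢ CR)) ∩
      {x | x.1.1 * x.1.2 = 1 ∧ x.2.1 * x.2.2 = 1 ∧ (x.1.1 ^ 2).trace = 1 ∧
        (x.2.1 ^ 2).trace = 1} := ⟨_, rfl⟩
  have hKc : IsCompact K := by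
    rw [hK]
    apply ((hCRc.prod hCRc).prod (hCRc.prod hCRc)).inter_right
    have c11 : Continuous (fun x : (Mat l × Mat l) × (Mat l × Mat l) => x.1.1) :=
      continuous_fst.comp continuous_fst
    have c12 : Continuous (fun x : (Mat l × Mat l) × (Mat l × Mat l) => x.1.2) :=
      continuous_snd.comp continuous_fst
    have c21 : Continuous (fun x : (Mat l × Mat l) × (Mat l × Mat l) => x.2.1) :=
      continuous_fst.comp continuous_snd
    have c22 : Continuous (fun x : (Mat l × Mat l) × (Mat l × Mat l) => x.2.2) :=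
      continuous_snd.comp continuous_snd
    exact (isClosed_eq (c11.mul c12) continuous_const).inter
      ((isClosed_eq (c21.mul c22) continuous_const).inter
      ((isClosed_eq (c11.pow 2).matrix_trace continuous_const).inter
      (isClosed_eq (c21.pow 2).matrix_trace continuous_const)))
  have hmem : ∀ p q : Mat l, p.PosDef → q.PosDef → (p ^ 2).trace = 1 → (q ^ 2).trace = 1 →
      ((et c q⁻¹ * p⁻¹).trace).re ≤ M → ((p, p⁻¹), (q, q⁻¹)) ∈ K := by
    intro p q hp hq hp2 hq2 hle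
    have hle1 : ∀ p : Mat l, p.PosDef → (p ^ 2).trace = 1 → (p.trace).re ≤ R := by
      intro p hp hp2
      have h1 := (h400_le_one hp.posSemidef hp2).trace_nonneg
      rw [Matrix.trace_sub, Matrix.trace_one, Fintype.card_fin] at h1
      have h2 := (Complex.nonneg_iff.mp h1).1
      rw [Complex.sub_re, Complex.natCast_re] at h2
      rw [hR]
      have h3 : 0 ≤ T₁ * M := by positivity
      have h4 : 0 ≤ T₂ * M := by positivity
      linarith
    have e1 := (hb1 p q hp hq hq2).trans (mul_le_mul_of_nonneg_left hle hT₁0.le)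
    have e2 := (hb2 p q hp hq hp2).trans (mul_le_mul_of_nonneg_left hle hT₂0.le)
    have h3 : 0 ≤ T₁ * M := by positivity
    have h4 : 0 ≤ T₂ * M := by positivity
    rw [hK, hCR]
    refine ⟨⟨⟨⟨hp.posSemidef, hle1 p hp hp2⟩, ⟨hp.inv.posSemidef, ?_⟩⟩,
      ⟨⟨hq.posSemidef, hle1 q hq hq2⟩, ⟨hq.inv.posSemidef, ?_⟩⟩⟩, ?_, ?_, hp2, hq2⟩
    · rw [hR]
      linarith
    · rw [hR]
      linarith
    · exact Matrix.mul_nonsing_inv _ ((Matrix.isUnit_iff_isUnit_det _).mp hp.isUnit)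
    · exact Matrix.mul_nonsing_inv _ ((Matrix.isUnit_iff_isUnit_det _).mp hq.isUnit)
  have hcont : Continuous (fun x : (Mat l × Mat l) × (Mat l × Mat l) =>
      ((et c x.2.2 * x.1.2).trace).re) := by
    have c12 : Continuous (fun x : (Mat l × Mat l) × (Mat l × Mat l) => x.1.2) :=
      continuous_snd.comp continuous_fst
    have c22 : Continuous (fun x : (Mat l × Mat l) × (Mat l × Mat l) => x.2.2) :=
      continuous_snd.comp continuous_snd
    have h1 : Continuous (fun x : (Mat l × Mat l) × (Mat l × Mat l) => et c x.2.2) := by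
      unfold et
      exact continuous_finsetSum _ (fun i _ => (continuous_const.mul c22).mul continuous_const)
    exact Complex.continuous_re.comp (h1.mul c12).matrix_trace
  have hM' := hM.ge
  obtain ⟨x, hxK, hxmin'⟩ := hKc.exists_isMinOn ⟨_, hmem p₀ p₀ hp₀pd hp₀pd hp₀tr hp₀tr hM'⟩
    hcont.continuousOn
  have hxmin := isMinOn_iff.mp hxmin'
  obtain ⟨⟨p, P⟩, ⟨q, Q⟩⟩ := x
  have hxK2 := hxK
  rw [hK, hCR] at hxK2
  obtain ⟨⟨⟨⟨h1, -⟩, ⟨h2, -⟩⟩, ⟨⟨h3, -⟩, ⟨h4, -⟩⟩⟩, h5, h6, h7, h8⟩ := hxK2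
  simp only at h1 h2 h3 h4 h5 h6 h7 h8
  have hpd : p.PosDef := by
    rw [h1.posDef_iff_isUnit]
    exact IsUnit.of_mul_eq_one _ h5
  have hqd : q.PosDef := by
    rw [h3.posDef_iff_isUnit]
    exact IsUnit.of_mul_eq_one _ h6
  have hPi : p⁻¹ = P := Matrix.inv_eq_right_inv h5
  have hQi : q⁻¹ = Q := Matrix.inv_eq_right_inv h6
  refine ⟨p, q, hpd, hqd, h7, h8, ?_⟩
  intro p' q' hp' hq' hp2' hq2'
  rw [hPi, hQi]
  by_cases hle : ((et c q'⁻¹ * p'⁻¹).trace).re ≤ M
  · exact hxmin ((p', p'⁻¹), (q', q'⁻¹)) (hmem p' q' hp' hq' hp2' hq2' hle)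
  · have h9 := hxmin ((p₀, p₀⁻¹), (p₀, p₀⁻¹)) (hmem p₀ p₀ hp₀pd hp₀pd hp₀tr hp₀tr hM')
    have h10 : ((et c Q * P).trace).re ≤ ((et c p₀⁻¹ * p₀⁻¹).trace).re := h9
    rw [← hM] at h10
    exact h10.trans (not_le.mp hle).le

end Pool.Agent.OHP
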