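import Pool.Agent.Helper547.OH.Defs

/-! Definitions for the completely isometric embedding of OH into a von Neumann algebra predual. -/

set_option autoImplicit false

namespace Pool.Agent.OHP
open scoped InnerProductSpace ComplexConjugate ComplexOrder
open Finset


section stat_sec

open Matrix

theorem stat_L_ct {l : ℕ} (A : Mat l) : (A.conjTranspose.trace).re = (A.trace).re := by
  rw [Matrix.trace_conjTranspose]; simp

/-- entrywise derivative at zero -/
def stat_D {l : ℕ} (f : ℝ → Mat l) (f' : Mat l) : Prop :=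
  ∀ i j, HasDerivAt (fun t => f t i j) (f' i j) 0

/-- a curve in the unit group with given tangent vector -/
theorem stat_curve {l : ℕ} (a : Mat l) : ∃ E : ℝ → Mat l,
    (∀ t, E t * E (-t) = 1) ∧ E 0 = 1 ∧ stat_D E a := by
  open scoped Matrix.Norms.Operator in
  refine ⟨fun t => NormedSpace.exp (t • a), fun t => ?_, by simp, fun i j => ?_⟩
  · have h1 : (-t) • a = -(t • a) := by simp
    show NormedSpace.exp (t • a) * NormedSpace.exp ((-t) • a) = 1
    rw [h1, Matrix.exp_neg]
    exact Matrix.mul_nonsing_inv _ ((Matrix.isUnit_iff_isUnit_det _).1 (Matrix.isUnit_exp _))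
  · have h := hasDerivAt_exp_smul_const (𝕂 := ℝ) a (0:ℝ)
    rw [zero_smul, NormedSpace.exp_zero, one_mul] at h
    let M : Mat l →ₗ[ℝ] ℂ :=
      { toFun := fun A => A i j
        map_add' := fun _ _ => rfl
        map_smul' := fun _ _ => rfl }
    have h3 := (M.toContinuousLinearMap).hasFDerivAt.comp_hasDerivAt (0:ℝ) h
    exact h3

theorem stat_D_mul {l : ℕ} {f g : ℝ → Mat l} {f' g' : Mat l} (hf : stat_D f f')
    (hg : stat_D g g') : stat_D (fun t => f t * g t) (f' * g 0 + f 0 * g') := by
  intro i j
  simp only [Matrix.mul_apply, Matrix.add_apply]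
  rw [← Finset.sum_add_distrib]
  exact HasDerivAt.fun_sum fun k _ => (hf i k).mul (hg k j)

theorem stat_D_const {l : ℕ} (A : Mat l) : stat_D (fun _ => A) 0 :=
  fun _ _ => hasDerivAt_const _ _

theorem stat_D_ct {l : ℕ} {f : ℝ → Mat l} {f' : Mat l} (hf : stat_D f f') :
    stat_D (fun t => (f t).conjTranspose) f'.conjTranspose := by
  intro i j
  simp only [Matrix.conjTranspose_apply]
  exact (hf j i).star

theorem stat_D_neg {l : ℕ} {f : ℝ → Mat l} {f' : Mat l} (hf : stat_D f f') :
    stat_D (fun t => f (-t)) (-f') := by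
  intro i j
  have h := hf i j
  have h2 : HasDerivAt (fun t : ℝ => -t) (-1) 0 := hasDerivAt_neg (0:ℝ)
  have h1 : HasDerivAt (fun t : ℝ => f t i j) (f' i j) ((fun t : ℝ => -t) 0) := by simpa using h
  have h3 := HasDerivAt.scomp (0:ℝ) h1 h2
  simpa [Function.comp_def] using h3

theorem stat_D_tr {l : ℕ} {f : ℝ → Mat l} {f' : Mat l} (hf : stat_D f f') :
    HasDerivAt (fun t => ((f t).trace).re) (f'.trace).re 0 := by
  have h : HasDerivAt (fun t => (f t).trace) f'.trace 0 := by
    simp only [Matrix.trace, Matrix.diag]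
    exact HasDerivAt.fun_sum fun k _ => hf k k
  exact (Complex.reCLM.hasFDerivAt).comp_hasDerivAt (0:ℝ) h

end stat_sec

/-- Euler equation for the minimisation of `tr (G p⁻¹)` on the sphere `tr p² = 1` -/
theorem stat {l : ℕ} (G p : Mat l) (hG : G.PosDef) (hp : p.PosDef) (ht : (p ^ 2).trace = 1)
    (hmin : ∀ p' : Mat l, p'.PosDef → (p' ^ 2).trace = 1 →
      ((G * p⁻¹).trace).re ≤ ((G * p'⁻¹).trace).re) :
    G = (((G * p⁻¹).trace).re : ℂ) • p ^ 3 := by
  have hpu : IsUnit p.det := (Matrix.isUnit_iff_isUnit_det _).1 hp.isUnit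
  have hp1 : p * p⁻¹ = 1 := Matrix.mul_nonsing_inv _ hpu
  have hp2 : p⁻¹ * p = 1 := Matrix.nonsing_inv_mul _ hpu
  have hph : p.conjTranspose = p := hp.isHermitian
  have hpih : p⁻¹.conjTranspose = p⁻¹ := by rw [Matrix.conjTranspose_nonsing_inv, hph]
  have hGh : G.conjTranspose = G := hG.isHermitian
  set ν : ℝ := ((G * p⁻¹).trace).re with hν
  -- first order condition
  have key : ∀ a : Mat l, ν * ((p * p * a).trace).re = ((p⁻¹ * G * a).trace).re := by
    intro a
    obtain ⟨E, hE, hE0, hD⟩ := stat_curve a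
    have hE' : ∀ t, E (-t) * E t = 1 := fun t => by
      have := hE (-t); rwa [neg_neg] at this
    set P : ℝ → Mat l := fun t => (E t).conjTranspose * p * E t with hP
    set Q : ℝ → Mat l := fun t => E (-t) * p⁻¹ * (E (-t)).conjTranspose with hQ
    have hP0 : P 0 = p := by simp [hP, hE0]
    have hQ0 : Q 0 = p⁻¹ := by simp [hQ, hE0]
    have hPpd : ∀ t, (P t).PosDef := by
      intro t
      apply Matrix.PosDef.conjTranspose_mul_mul_same hp
      intro v w hvw
      have := congrArg (fun z => (E (-t)).mulVec z) hvw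
      simpa [Matrix.mulVec_mulVec, hE'] using this
    have hPQ : ∀ t, P t * Q t = 1 := by
      intro t
      have e1 : P t * Q t = (E t).conjTranspose * (p * ((E t * E (-t)) * p⁻¹)) *
          (E (-t)).conjTranspose := by
        simp only [hP, hQ, Matrix.mul_assoc]
      rw [e1, hE, Matrix.one_mul, hp1, Matrix.mul_one, ← Matrix.conjTranspose_mul, hE',
        Matrix.conjTranspose_one]
    have hPinv : ∀ t, (P t)⁻¹ = Q t := fun t => Matrix.inv_eq_right_inv (hPQ t)
    have hDP : stat_D P (a.conjTranspose * p + p * a) := by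
      have := stat_D_mul (stat_D_mul (stat_D_ct hD) (stat_D_const p)) hD
      simpa [hE0] using this
    have hDQ : stat_D Q (-(a * p⁻¹) - p⁻¹ * a.conjTranspose) := by
      have hn := stat_D_neg hD
      have := stat_D_mul (stat_D_mul hn (stat_D_const p⁻¹)) (stat_D_ct hn)
      simpa [hE0, sub_eq_add_neg] using this
    set N : ℝ → ℝ := fun t => ((P t * P t).trace).re with hN
    set h : ℝ → ℝ := fun t => ((G * Q t).trace).re with hh
    have hN0 : N 0 = 1 := by
      simp only [hN, hP0]; rw [← pow_two, ht]; simp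
    have hDN : HasDerivAt N (4 * ((p * p * a).trace).re) 0 := by
      have h1 := stat_D_tr (stat_D_mul hDP hDP)
      have e : (((a.conjTranspose * p + p * a) * P 0 + P 0 * (a.conjTranspose * p + p * a)).trace).re
          = 4 * ((p * p * a).trace).re := by
        rw [hP0]
        have t1 : ((a.conjTranspose * p * p).trace).re = ((p * p * a).trace).re := by
          rw [← stat_L_ct (p * p * a)]
          simp only [Matrix.conjTranspose_mul, hph, Matrix.mul_assoc]
        have t2 : ((p * a * p).trace).re = ((p * p * a).trace).re := by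
          rw [Matrix.trace_mul_comm, Matrix.mul_assoc]
        have t3 : ((p * (a.conjTranspose * p)).trace).re = ((p * p * a).trace).re := by
          rw [Matrix.trace_mul_comm]; exact t1
        have t4 : ((p * (p * a)).trace).re = ((p * p * a).trace).re := by
          rw [Matrix.mul_assoc]
        rw [Matrix.add_mul, Matrix.mul_add]
        simp only [Matrix.trace_add, Complex.add_re]
        rw [t1, t2, t3, t4]; ring
      rwa [e] at h1
    have hDh : HasDerivAt h (-(2 * ((p⁻¹ * G * a).trace).re)) 0 := by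
      have h1 := stat_D_tr (stat_D_mul (stat_D_const G) hDQ)
      have e : (((0 : Mat l) * Q 0 + G * (-(a * p⁻¹) - p⁻¹ * a.conjTranspose)).trace).re
          = -(2 * ((p⁻¹ * G * a).trace).re) := by
        have t1 : ((G * (a * p⁻¹)).trace).re = ((p⁻¹ * G * a).trace).re := by
          rw [← Matrix.mul_assoc, Matrix.trace_mul_comm, Matrix.mul_assoc]
        have t2 : ((G * (p⁻¹ * a.conjTranspose)).trace).re = ((p⁻¹ * G * a).trace).re := by
          rw [← stat_L_ct (G * (p⁻¹ * a.conjTranspose))]
          simp only [Matrix.conjTranspose_mul, hpih, hGh, Matrix.conjTranspose_conjTranspose]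
          rw [Matrix.mul_assoc, Matrix.trace_mul_comm]
        rw [Matrix.zero_mul, zero_add, Matrix.mul_sub, Matrix.mul_neg]
        simp only [Matrix.trace_sub, Matrix.trace_neg, Complex.sub_re, Complex.neg_re]
        rw [t1, t2]; ring
      rwa [e] at h1
    have hDF : HasDerivAt (fun t => √(N t) * h t)
        ((4 * ((p * p * a).trace).re) / (2 * √(N 0)) * h 0 +
          √(N 0) * (-(2 * ((p⁻¹ * G * a).trace).re))) 0 :=
      (hDN.sqrt (by rw [hN0]; norm_num)).mul hDh
    have hloc : IsLocalMin (fun t => √(N t) * h t) 0 := by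
      have hev : ∀ᶠ t in nhds (0:ℝ), 0 < N t :=
        hDN.continuousAt.eventually (lt_mem_nhds (by rw [hN0]; norm_num))
      filter_upwards [hev] with t htN
      have hs : 0 < √(N t) := Real.sqrt_pos.2 htN
      have htr : (P t * P t).trace = (N t : ℂ) := by
        have hc : (P t * P t).conjTranspose = P t * P t := by
          rw [Matrix.conjTranspose_mul, (hPpd t).isHermitian]
        have h1 := congrArg Matrix.trace hc
        rw [Matrix.trace_conjTranspose] at h1
        exact (Complex.conj_eq_iff_re.1 h1).symm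
      have hpd' : (((√(N t))⁻¹ : ℝ) • P t).PosDef := (hPpd t).smul (inv_pos.2 hs)
      have htr' : ((((√(N t))⁻¹ : ℝ) • P t) ^ 2).trace = 1 := by
        rw [pow_two, Matrix.smul_mul, Matrix.mul_smul, smul_smul, Matrix.trace_smul, htr,
          ← mul_inv, Real.mul_self_sqrt htN.le, Complex.real_smul, ← Complex.ofReal_mul,
          inv_mul_cancel₀ htN.ne']; simp
      have hinv : (((√(N t))⁻¹ : ℝ) • P t)⁻¹ = (√(N t)) • Q t := by
        apply Matrix.inv_eq_right_inv
        rw [Matrix.smul_mul, Matrix.mul_smul, smul_smul, inv_mul_cancel₀ hs.ne', one_smul, hPQ]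
      have := hmin _ hpd' htr'
      rw [hinv, Matrix.mul_smul, Matrix.trace_smul, Complex.real_smul, Complex.re_ofReal_mul] at this
      show √(N 0) * h 0 ≤ √(N t) * h t
      rw [hN0, Real.sqrt_one, one_mul]
      have h00 : h 0 = ν := by simp only [hh, hQ0, hν]
      rw [h00]; exact this
    have hz := hloc.hasDerivAt_eq_zero hDF
    have h00 : h 0 = ν := by simp only [hh, hQ0, hν]
    rw [hN0, h00, Real.sqrt_one] at hz
    linarith
  have hM : (ν : ℂ) • (p * p) - p⁻¹ * G = 0 := by
    set M : Mat l := (ν : ℂ) • (p * p) - p⁻¹ * G with hMdef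
    have h1 : ((M * M.conjTranspose).trace).re = 0 := by
      have h2 := key M.conjTranspose
      have h3 : M * M.conjTranspose = (ν : ℂ) • (p * p * M.conjTranspose) -
          p⁻¹ * G * M.conjTranspose := by
        conv_lhs => rw [hMdef]
        rw [Matrix.sub_mul, Matrix.smul_mul]
      rw [h3, Matrix.trace_sub, Matrix.trace_smul, Complex.sub_re, smul_eq_mul,
        Complex.re_ofReal_mul, h2, sub_self]
    have h4 : (M * M.conjTranspose).trace = 0 := by
      have hpos := (Matrix.posSemidef_self_mul_conjTranspose M).trace_nonneg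
      rw [Complex.le_def] at hpos
      apply Complex.ext
      · exact h1
      · exact hpos.2.symm
    exact (Matrix.trace_mul_conjTranspose_self_eq_zero_iff).1 h4
  have h5 : p⁻¹ * G = (ν : ℂ) • (p * p) := (sub_eq_zero.1 hM).symm
  calc G = p * (p⁻¹ * G) := by rw [← Matrix.mul_assoc, hp1, Matrix.one_mul]
    _ = (ν : ℂ) • p ^ 3 := by
      rw [h5, Matrix.mul_smul, pow_succ, pow_two, Matrix.mul_assoc]

end Pool.Agent.OHP
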