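import Pool.Agent.Helper547.OH.Defs
import Pool.Agent.Helper547.OH.P_stat
import Pool.Agent.Helper547.OH.P_exists_min

/-! Definitions for the completely isometric embedding of OH into a von Neumann algebra predual. -/

set_option autoImplicit false

namespace Pool.Agent.OHP
open scoped InnerProductSpace ComplexConjugate ComplexOrder
open Finset


theorem exists_fixpt_et {n l : ℕ} (c : Fin n → Mat l)
    (hc : (∑ i, c i * (c i).conjTranspose).PosDef) (Q : Mat l) (hQ : Q.PosDef) :
    (et c Q).PosDef := by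
  have hps : (et c Q).PosSemidef :=
    Matrix.posSemidef_sum _ (fun i _ => hQ.posSemidef.mul_mul_conjTranspose_same (c i))
  refine Matrix.PosDef.of_dotProduct_mulVec_pos hps.isHermitian (fun x hx => ?_)
  have hexp : ∀ (K : Mat l), dotProduct (star x) (Matrix.mulVec (et c K) x) =
      ∑ i, dotProduct (star (Matrix.mulVec ((c i).conjTranspose) x))
        (Matrix.mulVec K (Matrix.mulVec ((c i).conjTranspose) x)) := by
    intro K
    unfold et
    rw [Matrix.sum_mulVec, dotProduct_sum]
    refine Finset.sum_congr rfl (fun i _ => ?_)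
    rw [Matrix.star_mulVec, Matrix.conjTranspose_conjTranspose, ← Matrix.dotProduct_mulVec,
      Matrix.mulVec_mulVec, Matrix.mulVec_mulVec]
  rw [hexp]
  have hex : ∃ i, Matrix.mulVec ((c i).conjTranspose) x ≠ 0 := by
    by_contra hcon
    push Not at hcon
    have h1 := hc.dotProduct_mulVec_pos hx
    have h2 : (∑ i, c i * (c i).conjTranspose) = et c 1 := by
      unfold et
      refine Finset.sum_congr rfl (fun i _ => ?_)
      rw [mul_one]
    rw [h2, hexp] at h1
    rw [Finset.sum_eq_zero] at h1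
    · exact lt_irrefl _ h1
    · intro i _
      rw [hcon i]
      simp
  obtain ⟨i, hi⟩ := hex
  refine Finset.sum_pos' (fun j _ => ?_) ⟨i, Finset.mem_univ _, hQ.dotProduct_mulVec_pos hi⟩
  exact hQ.posSemidef.dotProduct_mulVec_nonneg _

theorem exists_fixpt_tr {n l : ℕ} (c : Fin n → Mat l) (P Q : Mat l) :
    (et' c P * Q).trace = (et c Q * P).trace := by
  unfold et et'
  rw [Finset.sum_mul, Finset.sum_mul, Matrix.trace_sum, Matrix.trace_sum]
  refine Finset.sum_congr rfl (fun i _ => ?_)
  have h1 : (c i).conjTranspose * P * c i * Q = ((c i).conjTranspose * P) * (c i * Q) := by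
    simp only [Matrix.mul_assoc]
  rw [h1, Matrix.trace_mul_comm]
  simp only [Matrix.mul_assoc]

/-- solution of the Euler equations with minimality -/
theorem exists_fixpt {n l : ℕ} (hl : 0 < l) (c : Fin n → Mat l)
    (hc : (∑ i, c i * (c i).conjTranspose).PosDef) (hc' : (∑ i, (c i).conjTranspose * c i).PosDef) :
    ∃ (p q : Mat l) (lam : ℝ), FixPt c p q lam ∧
      ∀ p' q' : Mat l, p'.PosDef → q'.PosDef → (p' ^ 2).trace = 1 → (q' ^ 2).trace = 1 →
        lam ≤ ((et c q'⁻¹ * p'⁻¹).trace).re := by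
  have : Nonempty (Fin l) := ⟨⟨0, hl⟩⟩
  obtain ⟨p, q, hp, hq, tp, tq, hmin⟩ := exists_min hl c hc hc'
  have hG : (et c q⁻¹).PosDef := exists_fixpt_et c hc q⁻¹ hq.inv
  have het' : ∀ K, et' c K = et (fun i => (c i).conjTranspose) K := by
    intro K
    unfold et et'
    simp only [Matrix.conjTranspose_conjTranspose]
  have hG' : (et' c p⁻¹).PosDef := by
    rw [het']
    refine exists_fixpt_et _ ?_ p⁻¹ hp.inv
    simpa only [Matrix.conjTranspose_conjTranspose] using hc'
  have h1 := stat (et c q⁻¹) p hG hp tp (fun p' hp' tp' => hmin p' q hp' hq tp' tq)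
  have h2 := stat (et' c p⁻¹) q hG' hq tq (fun q' hq' tq' => by
    rw [exists_fixpt_tr, exists_fixpt_tr]
    exact hmin p q' hp hq' tp tq')
  rw [exists_fixpt_tr c p⁻¹ q⁻¹] at h2
  refine ⟨p, q, ((et c q⁻¹ * p⁻¹).trace).re, ⟨hp, hq, ?_, h1, h2, tp, tq⟩, hmin⟩
  set lam := ((et c q⁻¹ * p⁻¹).trace).re with hlam
  have hp3 : (p ^ 3).PosDef := by
    have h3 := hp.mul_mul_conjTranspose_same (B := p) (Matrix.vecMul_injective_iff_isUnit.2 hp.isUnit)
    rw [hp.isHermitian.eq] at h3
    have h4 : p ^ 3 = p * p * p := by rw [pow_succ, pow_two]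
    rw [h4]
    exact h3
  have ht1 := hG.trace_pos
  have ht2 := hp3.trace_pos
  rw [h1, Matrix.trace_smul, smul_eq_mul] at ht1
  have e1 := (Complex.lt_def.1 ht1).1
  have e2 := (Complex.lt_def.1 ht2).1
  rw [Complex.re_ofReal_mul, Complex.zero_re] at e1
  rw [Complex.zero_re] at e2
  exact (pos_iff_pos_of_mul_pos e1).2 e2
end Pool.Agent.OHP
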