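import Pool.Agent.Helper547.OH.Defs
import Pool.Agent.Helper547.OH.P_exists_LR

/-! Definitions for the completely isometric embedding of OH into a von Neumann algebra predual. -/

set_option autoImplicit false

namespace Pool.Agent.OHP
open scoped InnerProductSpace ComplexConjugate ComplexOrder
open Finset


theorem ext_single {G : Type*} [NormedAddCommGroup G] [NormedSpace ℂ G] (A B : Fk →L[ℂ] G)
    (h : ∀ j t, A (lp.single 2 (j, t) (1 : ℂ)) = B (lp.single 2 (j, t) (1 : ℂ))) : A = B := by
  ext ξ
  have hs := lp.hasSum_single (p := 2) (by norm_num) ξ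
  have hA := hs.mapL A
  have hB := hs.mapL B
  have key : ∀ p : ℕ × List ((ℕ × Bool) × ℕ),
      A (lp.single 2 p (ξ p)) = B (lp.single 2 p (ξ p)) := by
    intro p
    have h1 : (lp.single 2 p (ξ p) : Fk) = (ξ p) • lp.single 2 p (1 : ℂ) := by
      rw [← lp.single_smul]; simp
    rw [h1, map_smul, map_smul]
    obtain ⟨j, t⟩ := p
    rw [h]
  have : (fun p => A (lp.single 2 p (ξ p))) = fun p => B (lp.single 2 p (ξ p)) := funext key
  rw [this] at hA
  exact hA.unique hB

theorem inner_ss (p q : ℕ × List ((ℕ × Bool) × ℕ)) :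
    ⟪(lp.single 2 p (1 : ℂ) : Fk), (lp.single 2 q (1 : ℂ) : Fk)⟫_ℂ = if p = q then 1 else 0 := by
  rw [lp.inner_single_left]
  by_cases h : p = q
  · subst h; simp
  · rw [lp.single_apply_ne]
    · simp [h]
    · exact h

/-- the pairing of `zeta` with basis vectors -/
theorem zeta_inner (m : ℕ) (u w : ℕ → ℝ) (hum : ∀ j, m ≤ j → u j = 0) (j : ℕ)
    (t : List ((ℕ × Bool) × ℕ)) :
    ⟪zeta m u w (fun j => (lp.single 2 (j, []) (1 : ℂ) : Fk)),
      (lp.single 2 (j, t) (1 : ℂ) : Fk)⟫_ℂ = if t = [] then ((√(w j * u j) : ℝ) : ℂ) else 0 := by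
  unfold zeta
  rw [sum_inner]
  simp only [inner_smul_left, inner_ss, Prod.mk.injEq, Complex.conj_ofReal]
  by_cases ht : t = []
  · subst ht
    simp only [and_true, if_true, mul_ite, mul_one, mul_zero]
    rw [Finset.sum_ite_eq']
    by_cases hj : j ∈ range m
    · simp [hj]
    · rw [if_neg hj]
      rw [hum j (by simpa using hj)]
      simp
  · simp [ht, Ne.symm ht, eq_comm]

/-- the relation between the left operators and the right creation isometries -/
theorem LS_rel (m : ℕ) (u w : ℕ → ℝ) (hum : ∀ j, m ≤ j → u j = 0)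
    (L : ℕ × Bool → (Fk →L[ℂ] Fk)) (S : ℕ × Bool → ℕ → (Fk →L[ℂ] Fk))
    (hL : ∀ a j t, L a (lp.single 2 (j, t) (1 : ℂ)) = ∑ k ∈ range m,
        ((√(u j) * √(w k * u k) : ℝ) : ℂ) • lp.single 2 (k, (a, j) :: t) (1 : ℂ))
    (hL0 : ∀ a j, (star (L a)) (lp.single 2 (j, []) (1 : ℂ)) = 0)
    (hL1 : ∀ a b k j t, (star (L a)) (lp.single 2 (k, (b, j) :: t) (1 : ℂ)) =
        if a = b then ((√(u j) * √(w k * u k) : ℝ) : ℂ) • lp.single 2 (j, t) (1 : ℂ) else 0)
    (hS : ∀ a k j t, S a k (lp.single 2 (j, t) (1 : ℂ)) = lp.single 2 (j, t ++ [(a, k)]) (1 : ℂ))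
    (c d a : ℕ × Bool) (j : ℕ) (ξ : Fk) :
    (L c + star (L d)) (S a j ξ) = S a j ((L c + star (L d)) ξ) +
      (if d = a then ((√(u j) : ℝ) : ℂ) *
        ⟪zeta m u w (fun j => (lp.single 2 (j, []) (1 : ℂ) : Fk)), ξ⟫_ℂ else 0) •
        (lp.single 2 (j, []) (1 : ℂ) : Fk) := by
  have key : (L c + star (L d)) ∘L S a j =
      S a j ∘L (L c + star (L d)) +
      (if d = a then ((√(u j) : ℝ) : ℂ) else 0) •
        ((innerSL ℂ (zeta m u w (fun j => (lp.single 2 (j, []) (1 : ℂ) : Fk)))).smulRight
          (lp.single 2 (j, []) (1 : ℂ) : Fk)) := by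
    apply ext_single
    intro k t
    simp only [ContinuousLinearMap.comp_apply, ContinuousLinearMap.add_apply, hS, hL,
      ContinuousLinearMap.smul_apply, ContinuousLinearMap.smulRight_apply, innerSL_apply_apply,
      zeta_inner m u w hum, map_add, map_sum, map_smul, List.cons_append]
    rw [add_assoc]
    congr 1
    rcases t with _ | ⟨⟨e, l⟩, t⟩
    · rw [hL0, map_zero, zero_add, List.nil_append, hL1, if_pos rfl]
      by_cases hc : d = a
      · rw [if_pos hc, if_pos hc, smul_smul, Complex.ofReal_mul]
      · rw [if_neg hc, if_neg hc, zero_smul]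
    · rw [List.cons_append, hL1, hL1, if_neg (List.cons_ne_nil _ _), zero_smul, smul_zero, add_zero]
      by_cases hc : d = e
      · rw [if_pos hc, if_pos hc, map_smul, hS]
      · rw [if_neg hc, if_neg hc, map_zero]
  have h2 := congrArg (fun T : Fk →L[ℂ] Fk => T ξ) key
  simp only [ContinuousLinearMap.comp_apply, ContinuousLinearMap.add_apply,
      ContinuousLinearMap.smul_apply, ContinuousLinearMap.smulRight_apply, innerSL_apply_apply,
      map_add] at h2
  simp only [ContinuousLinearMap.add_apply, map_add]
  rw [h2]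
  congr 1
  by_cases hc : d = a
  · rw [if_pos hc, if_pos hc, smul_smul]
  · rw [if_neg hc, if_neg hc, zero_smul, zero_smul]

/-- the Fock space model exists -/
theorem exists_model (m : ℕ) (u w : ℕ → ℝ) (hu : ∀ j, 0 ≤ u j) (hw : ∀ j, 0 ≤ w j)
    (hum : ∀ j, m ≤ j → u j = 0) : Nonempty (Model (F := Fk) m u w) := by
  obtain ⟨L, R, S, hL, hL0, hL1, hR, hR0, hR1, hS⟩ := exists_LR m u w hu hw hum
  have hlast : ∀ (l j : ℕ) (a : ℕ × Bool) (t : List ((ℕ × Bool) × ℕ)),
      (((a, j) :: t).map Prod.snd).getLastD l = (t.map Prod.snd).getLastD j := by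
    intro l j a t
    rw [List.map_cons, List.getLastD_cons]
  -- C1
  have C1 : ∀ a b, L a * R b = R b * L a := by
    intro a b
    apply ext_single
    intro j t
    simp only [ContinuousLinearMap.mul_apply, hL, hR, map_sum, map_smul, hlast]
    simp only [Finset.smul_sum, smul_smul]
    rw [Finset.sum_comm]
    refine Finset.sum_congr rfl fun k _ => Finset.sum_congr rfl fun l _ => ?_
    rw [mul_comm]
    rfl
  have C2 : ∀ a b, star (L a) * star (R b) = star (R b) * star (L a) := by
    intro a b
    rw [← star_mul, ← star_mul, C1]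
  have P1 : ∀ a b j t, (star (L a) * R b - R b * star (L a)) (lp.single 2 (j, t) (1 : ℂ)) =
      if a = b ∧ t = [] then ∑ k ∈ range m,
        ((√(u j) * √(w k * u k) * (√(u k) * √(w j * u j)) : ℝ) : ℂ) •
          (lp.single 2 (k, []) (1 : ℂ) : Fk) else 0 := by
    intro a b j t
    simp only [ContinuousLinearMap.sub_apply, ContinuousLinearMap.mul_apply]
    rcases t with _ | ⟨⟨c, l⟩, t⟩
    · rw [hL0, map_zero, sub_zero, hR, map_sum]
      simp only [map_smul, List.nil_append, hL1, List.map_nil, List.getLastD_nil]
      by_cases hab : a = b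
      · simp only [hab, if_true, smul_smul, and_self]
        refine Finset.sum_congr rfl fun k _ => ?_
        congr 1
        push_cast
        ring
      · simp [hab]
    · rw [if_neg (by simp), sub_eq_zero, hR, hL1, map_sum]
      by_cases hac : a = c
      · simp only [map_smul, hac, if_true, hR, hlast, List.cons_append, hL1, Finset.smul_sum]
        refine Finset.sum_congr rfl fun k _ => ?_
        simp only [smul_smul]
        rw [mul_comm]
      · simp [hac, hL1]
  have P2 : ∀ a b j t, (star (R a) * L b - L b * star (R a)) (lp.single 2 (j, t) (1 : ℂ)) =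
      if a = b ∧ t = [] then ∑ k ∈ range m,
        ((√(u j) * √(w k * u k) * (√(u k) * √(w j * u j)) : ℝ) : ℂ) •
          (lp.single 2 (k, []) (1 : ℂ) : Fk) else 0 := by
    intro a b j t
    simp only [ContinuousLinearMap.sub_apply, ContinuousLinearMap.mul_apply]
    rcases List.eq_nil_or_concat t with rfl | ⟨t, ⟨c, l⟩, rfl⟩
    · rw [hR0, map_zero, sub_zero, hL, map_sum]
      have hR2 : ∀ k, (star (R a)) (lp.single 2 (k, [(b, j)]) (1 : ℂ)) =
        if a = b then ((√(u k) * √(w j * u j) : ℝ) : ℂ) •
          (lp.single 2 (k, []) (1 : ℂ) : Fk) else 0 := by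
        intro k
        have := hR1 a b j k []
        simpa using this
      simp only [map_smul, hR2]
      by_cases hab : a = b
      · simp only [hab, if_true, smul_smul, and_self]
        refine Finset.sum_congr rfl fun k _ => ?_
        congr 1
        push_cast
        ring
      · simp [hab]
    · rw [List.concat_eq_append]
      rw [if_neg (by simp), sub_eq_zero, hL, hR1, map_sum]
      have hR2 : ∀ k, (star (R a)) (lp.single 2 (k, (b, j) :: (t ++ [(c, l)])) (1 : ℂ)) =
        if a = c then ((√(u ((t.map Prod.snd).getLastD j)) * √(w l * u l) : ℝ) : ℂ) •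
          (lp.single 2 (k, (b, j) :: t) (1 : ℂ) : Fk) else 0 := by
        intro k
        have := hR1 a c l k ((b, j) :: t)
        rw [hlast] at this
        simpa only [List.cons_append] using this
      simp only [map_smul, hR2]
      by_cases hac : a = c
      · simp only [hac, if_true, map_smul, hL, Finset.smul_sum]
        refine Finset.sum_congr rfl fun k _ => ?_
        simp only [smul_smul]
        rw [mul_comm]
      · simp [hac]
  have C3 : ∀ a b, a ≠ b → star (L a) * R b = R b * star (L a) := by
    intro a b hab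
    rw [← sub_eq_zero]
    apply ext_single
    intro j t
    rw [P1, if_neg (by simp [hab])]
    simp
  have C4 : ∀ a b, a ≠ b → star (R a) * L b = L b * star (R a) := by
    intro a b hab
    rw [← sub_eq_zero]
    apply ext_single
    intro j t
    rw [P2, if_neg (by simp [hab])]
    simp
  have C5 : ∀ a b, star (L a) * R a - R a * star (L a) = star (R b) * L b - L b * star (R b) := by
    intro a b
    apply ext_single
    intro j t
    rw [P1, P2]
    simp
  have hsX : ∀ i, star (L (i, false) + star (L (i, true))) = star (L (i, false)) + L (i, true) := by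
    intro i
    rw [star_add, star_star]
  have hsY : ∀ i, star (R (i, false) + star (R (i, true))) = star (R (i, false)) + R (i, true) := by
    intro i
    rw [star_add, star_star]
  have hsq : ∀ k, √(w k * u k) = √(w k) * √(u k) := fun k => Real.sqrt_mul (hw k) _
  refine ⟨{ X := fun i => L (i, false) + star (L (i, true)),
            Y := fun i => R (i, false) + star (R (i, true)),
            e := fun j => lp.single 2 (j, []) (1 : ℂ),
            S := fun i b j => S (i, b) j,
            orth := ?_, eS := ?_, Xe := ?_, Xse := ?_, XS := ?_, XsS := ?_, XO := ?_, XsO := ?_,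
            comm1 := ?_, comm2 := ?_ }⟩
  · intro j j'
    rw [inner_ss]
    simp
  · intro j i b j' ξ
    have : (innerSL ℂ (lp.single 2 (j, []) (1 : ℂ) : Fk)) ∘L (S (i, b) j') = 0 := by
      apply ext_single
      intro k t
      simp only [ContinuousLinearMap.comp_apply, hS, innerSL_apply_apply,
        ContinuousLinearMap.zero_apply]
      rw [inner_ss]
      simp
    have h2 := congrArg (fun T : Fk →L[ℂ] ℂ => T ξ) this
    simpa using h2
  · intro i j
    simp only [ContinuousLinearMap.add_apply, hL, hL0, add_zero]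
    unfold zeta
    rw [map_sum, Finset.smul_sum]
    refine Finset.sum_congr rfl fun k _ => ?_
    rw [map_smul, hS, smul_smul]
    push_cast
    rfl
  · intro i j
    rw [hsX]
    simp only [ContinuousLinearMap.add_apply, hL, hL0, zero_add]
    unfold zeta
    rw [map_sum, Finset.smul_sum]
    refine Finset.sum_congr rfl fun k _ => ?_
    rw [map_smul, hS, smul_smul]
    push_cast
    rfl
  · intro i i' b j ξ
    rw [LS_rel m u w hum L S hL hL0 hL1 hS (i, false) (i, true) (i', b) j ξ]
    congr 2
    by_cases hc : i = i' ∧ b = true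
    · rw [if_pos hc, if_pos (by rw [hc.1, hc.2])]
    · rw [if_neg hc, if_neg]
      intro h
      simp only [Prod.mk.injEq] at h
      exact hc ⟨h.1, h.2.symm⟩
  · intro i i' b j ξ
    rw [hsX, add_comm (star (L (i, false)))]
    rw [LS_rel m u w hum L S hL hL0 hL1 hS (i, true) (i, false) (i', b) j ξ]
    congr 2
    by_cases hc : i = i' ∧ b = false
    · rw [if_pos hc, if_pos (by rw [hc.1, hc.2])]
    · rw [if_neg hc, if_neg]
      intro h
      simp only [Prod.mk.injEq] at h
      exact hc ⟨h.1, h.2.symm⟩
  · intro i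
    unfold omg
    simp only [ContinuousLinearMap.add_apply, map_sum, map_smul, hL, hL0, hR, hR0, smul_zero,
      Finset.sum_const_zero, add_zero, Finset.smul_sum, smul_smul, List.map_nil,
      List.getLastD_nil, List.nil_append]
    rw [Finset.sum_comm]
    refine Finset.sum_congr rfl fun k _ => Finset.sum_congr rfl fun l _ => ?_
    congr 1
    rw [hsq, hsq]
    push_cast
    ring
  · intro i
    rw [hsX, hsY]
    unfold omg
    simp only [ContinuousLinearMap.add_apply, map_sum, map_smul, hL, hL0, hR, hR0, smul_zero,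
      Finset.sum_const_zero, zero_add, Finset.smul_sum, smul_smul, List.map_nil,
      List.getLastD_nil, List.nil_append]
    rw [Finset.sum_comm]
    refine Finset.sum_congr rfl fun k _ => Finset.sum_congr rfl fun l _ => ?_
    congr 1
    rw [hsq, hsq]
    push_cast
    ring
  · intro i j
    simp only [add_mul, mul_add]
    rw [C1, C2, C3 (i, true) (j, false) (by simp), ← C4 (j, true) (i, false) (by simp)]
    abel
  · intro i j
    rw [hsX]
    simp only [add_mul, mul_add]
    rw [C1, C2]
    by_cases hij : i = j
    · subst hij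
      have h5 := C5 (i, false) (i, true)
      have h6 : star (L (i, false)) * R (i, false) = star (R (i, true)) * L (i, true) -
        L (i, true) * star (R (i, true)) + R (i, false) * star (L (i, false)) := by
        rw [← h5]; abel
      rw [h6]
      abel
    · rw [C3 (i, false) (j, false) (by simp [hij]), ← C4 (j, true) (i, true)
        (fun h => hij (Prod.mk.inj h).1.symm)]
      abel

end Pool.Agent.OHP
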