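import Pool.Agent.Helper547.OH.Defs

/-! Definitions for the completely isometric embedding of OH into a von Neumann algebra predual. -/

set_option autoImplicit false

namespace Pool.Agent.OHP
open scoped InnerProductSpace ComplexConjugate ComplexOrder
open Finset


section s_ultra

open Filter

/-- limit along an ultrafilter -/
noncomputable def s_lim (U : Ultrafilter ℕ) (f : ℕ → ℂ) : ℂ := limUnder (U : Filter ℕ) f

theorem s_lim_spec (U : Ultrafilter ℕ) (f : ℕ → ℂ) (hf : ∃ C : ℝ, ∀ n, ‖f n‖ ≤ C) :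
    Tendsto f U (nhds (s_lim U f)) := by
  apply tendsto_nhds_limUnder
  obtain ⟨C, hC⟩ := hf
  have hc := isCompact_closedBall (0 : ℂ) C
  obtain ⟨x, _, hx⟩ := hc.ultrafilter_le_nhds (U.map f) (by
    rw [Ultrafilter.coe_map, Filter.le_principal_iff, Filter.mem_map]
    apply Filter.univ_mem'
    intro n
    simpa using hC n)
  exact ⟨x, hx⟩

variable (F : Type) [NormedAddCommGroup F] [InnerProductSpace ℂ F]

/-- bounded sequences -/
def s_W : Submodule ℂ (ℕ → F) where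
  carrier := {ξ | ∃ C : ℝ, ∀ n, ‖ξ n‖ ≤ C}
  add_mem' := by
    rintro a b ⟨C, hC⟩ ⟨D, hD⟩
    exact ⟨C + D, fun n => (norm_add_le _ _).trans (add_le_add (hC n) (hD n))⟩
  zero_mem' := ⟨0, fun n => by simp⟩
  smul_mem' := by
    rintro c a ⟨C, hC⟩
    refine ⟨‖c‖ * C, fun n => ?_⟩
    rw [Pi.smul_apply, norm_smul]
    exact mul_le_mul_of_nonneg_left (hC n) (norm_nonneg _)

/-- bounded sequences with the semi inner product of the ultrafilter -/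
def s_V (_U : Ultrafilter ℕ) : Type := s_W F

variable (U : Ultrafilter ℕ)

instance : AddCommGroup (s_V F U) := inferInstanceAs (AddCommGroup (s_W F))
instance : Module ℂ (s_V F U) := inferInstanceAs (Module ℂ (s_W F))

variable {F} {U}

/-- the sequence -/
def s_seq (ξ : s_V F U) : ℕ → F := (show s_W F from ξ).1

theorem s_seq_bdd (ξ : s_V F U) : ∃ C : ℝ, ∀ n, ‖s_seq ξ n‖ ≤ C := (show s_W F from ξ).2

theorem s_seq_add (ξ η : s_V F U) (n : ℕ) : s_seq (ξ + η) n = s_seq ξ n + s_seq η n := rfl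

theorem s_seq_smul (c : ℂ) (ξ : s_V F U) (n : ℕ) : s_seq (c • ξ) n = c • s_seq ξ n := rfl

/-- a bounded sequence as an element -/
def s_mk (U : Ultrafilter ℕ) (ξ : ℕ → F) (h : ∃ C : ℝ, ∀ n, ‖ξ n‖ ≤ C) : s_V F U :=
  (⟨ξ, h⟩ : s_W F)

theorem s_seq_mk (ξ : ℕ → F) (h : ∃ C : ℝ, ∀ n, ‖ξ n‖ ≤ C) : s_seq (s_mk U ξ h) = ξ := rfl

theorem s_inner_bdd (ξ η : ℕ → F) (hξ : ∃ C : ℝ, ∀ n, ‖ξ n‖ ≤ C) (hη : ∃ C : ℝ, ∀ n, ‖η n‖ ≤ C) :
    ∃ C : ℝ, ∀ n, ‖⟪ξ n, η n⟫_ℂ‖ ≤ C := by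
  obtain ⟨C, hC⟩ := hξ
  obtain ⟨D, hD⟩ := hη
  refine ⟨C * D, fun n => (norm_inner_le_norm _ _).trans ?_⟩
  exact mul_le_mul (hC n) (hD n) (norm_nonneg _) ((norm_nonneg _).trans (hC n))

theorem s_tend (ξ η : s_V F U) : Tendsto (fun n => ⟪s_seq ξ n, s_seq η n⟫_ℂ) U
    (nhds (s_lim U (fun n => ⟪s_seq ξ n, s_seq η n⟫_ℂ))) :=
  s_lim_spec U _ (s_inner_bdd _ _ (s_seq_bdd ξ) (s_seq_bdd η))

variable (F U)

/-- the semi inner product -/
noncomputable abbrev s_core : PreInnerProductSpace.Core ℂ (s_V F U) where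
  inner ξ η := s_lim U (fun n => ⟪s_seq ξ n, s_seq η n⟫_ℂ)
  conj_inner_symm x y := by
    have h1 := (Complex.continuous_conj.tendsto _).comp (s_tend y x)
    have h2 := s_tend x y
    refine tendsto_nhds_unique h1 (h2.congr ?_)
    intro n
    exact (inner_conj_symm _ _).symm
  re_inner_nonneg x := by
    have h1 := (Complex.continuous_re.tendsto _).comp (s_tend x x)
    refine ge_of_tendsto h1 (Eventually.of_forall fun n => ?_)
    exact inner_self_nonneg (𝕜 := ℂ)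
  add_left x y z := by
    refine tendsto_nhds_unique (s_tend (x + y) z) (((s_tend x z).add (s_tend y z)).congr ?_)
    intro n
    rw [s_seq_add, inner_add_left]
  smul_left x y r := by
    refine tendsto_nhds_unique (s_tend (r • x) y)
      (((s_tend x y).const_mul ((starRingEnd ℂ) r)).congr ?_)
    intro n
    rw [s_seq_smul, inner_smul_left]

noncomputable instance s_semi : SeminormedAddCommGroup (s_V F U) :=
  InnerProductSpace.Core.toSeminormedAddCommGroup (c := s_core F U)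
noncomputable instance s_ips : InnerProductSpace ℂ (s_V F U) :=
  InnerProductSpace.ofCore (s_core F U)

variable {F U}

theorem s_inner_def (ξ η : s_V F U) :
    ⟪ξ, η⟫_ℂ = s_lim U (fun n => ⟪s_seq ξ n, s_seq η n⟫_ℂ) := rfl

theorem s_tend' (ξ η : s_V F U) :
    Tendsto (fun n => ⟪s_seq ξ n, s_seq η n⟫_ℂ) U (nhds ⟪ξ, η⟫_ℂ) := s_tend ξ η

theorem s_op_bdd (x : ℕ → (F →L[ℂ] F)) (hx : ∃ C : ℝ, ∀ n, ‖x n‖ ≤ C) (ξ : ℕ → F)
    (hξ : ∃ C : ℝ, ∀ n, ‖ξ n‖ ≤ C) : ∃ C : ℝ, ∀ n, ‖x n (ξ n)‖ ≤ C := by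
  obtain ⟨C, hC⟩ := hx
  obtain ⟨D, hD⟩ := hξ
  refine ⟨C * D, fun n => ((x n).le_opNorm _).trans ?_⟩
  exact mul_le_mul (hC n) (hD n) (norm_nonneg _) ((norm_nonneg _).trans (hC n))

/-- the action of a bounded sequence of operators -/
noncomputable def s_op (U : Ultrafilter ℕ) (x : ℕ → (F →L[ℂ] F)) (hx : ∃ C : ℝ, ∀ n, ‖x n‖ ≤ C) :
    s_V F U →L[ℂ] s_V F U :=
  LinearMap.mkContinuousOfExistsBound
    { toFun := fun ξ => s_mk U (fun n => x n (s_seq ξ n)) (s_op_bdd x hx _ (s_seq_bdd ξ))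
      map_add' := by
        intro ξ η
        apply Subtype.ext
        funext n
        exact map_add (x n) (s_seq ξ n) (s_seq η n)
      map_smul' := by
        intro c ξ
        apply Subtype.ext
        funext n
        exact map_smul (x n) c (s_seq ξ n) }
    (by
      obtain ⟨C, hC⟩ := hx
      have hC0 : 0 ≤ C := (norm_nonneg _).trans (hC 0)
      refine ⟨C, fun ξ => ?_⟩
      set ζ : s_V F U := s_mk U (fun n => x n (s_seq ξ n)) (s_op_bdd x ⟨C, hC⟩ _ (s_seq_bdd ξ))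
        with hζ
      change ‖ζ‖ ≤ C * ‖ξ‖
      have h1 := (Complex.continuous_re.tendsto _).comp (s_tend' ζ ζ)
      have h2 := ((Complex.continuous_re.tendsto _).comp (s_tend' ξ ξ)).const_mul (C ^ 2)
      have h3 : (⟪ζ, ζ⟫_ℂ).re ≤ C ^ 2 * (⟪ξ, ξ⟫_ℂ).re := by
        refine le_of_tendsto_of_tendsto h1 h2 (Eventually.of_forall fun n => ?_)
        have e1 : (⟪s_seq ζ n, s_seq ζ n⟫_ℂ).re = ‖s_seq ζ n‖ ^ 2 :=
          inner_self_eq_norm_sq (𝕜 := ℂ) _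
        have e2 : (⟪s_seq ξ n, s_seq ξ n⟫_ℂ).re = ‖s_seq ξ n‖ ^ 2 :=
          inner_self_eq_norm_sq (𝕜 := ℂ) _
        simp only [Function.comp_apply]
        rw [e1, e2, ← mul_pow]
        apply pow_le_pow_left₀ (norm_nonneg _)
        exact ((x n).le_opNorm _).trans (mul_le_mul_of_nonneg_right (hC n) (norm_nonneg _))
      have e1 : (⟪ζ, ζ⟫_ℂ).re = ‖ζ‖ ^ 2 := inner_self_eq_norm_sq (𝕜 := ℂ) _
      have e2 : (⟪ξ, ξ⟫_ℂ).re = ‖ξ‖ ^ 2 := inner_self_eq_norm_sq (𝕜 := ℂ) _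
      rw [e1, e2, ← mul_pow] at h3
      exact le_of_sq_le_sq h3 (mul_nonneg hC0 (norm_nonneg _)))

theorem s_op_seq (x : ℕ → (F →L[ℂ] F)) (hx : ∃ C : ℝ, ∀ n, ‖x n‖ ≤ C) (ξ : s_V F U) (n : ℕ) :
    s_seq (s_op U x hx ξ) n = x n (s_seq ξ n) := rfl

theorem s_ext (ξ η : s_V F U) (h : ∀ n, s_seq ξ n = s_seq η n) : ξ = η :=
  Subtype.ext (funext h)

end s_ultra

/-- ultrapower of a Hilbert space -/
theorem exists_ultrapower (F : Type) [NormedAddCommGroup F] [InnerProductSpace ℂ F]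
    [CompleteSpace F] (U : Ultrafilter ℕ) :
    ∃ (H : Type) (_ : NormedAddCommGroup H) (_ : InnerProductSpace ℂ H) (_ : CompleteSpace H)
      (v : (ℕ → F) → H) (π : (ℕ → (F →L[ℂ] F)) → (H →L[ℂ] H)),
      (∀ ξ η : ℕ → F, (∃ C : ℝ, ∀ n, ‖ξ n‖ ≤ C) → (∃ C : ℝ, ∀ n, ‖η n‖ ≤ C) →
        Filter.Tendsto (fun n => ⟪ξ n, η n⟫_ℂ) U (nhds ⟪v ξ, v η⟫_ℂ)) ∧
      (∀ ξ η : ℕ → F, (∃ C : ℝ, ∀ n, ‖ξ n‖ ≤ C) → (∃ C : ℝ, ∀ n, ‖η n‖ ≤ C) →
        v (fun n => ξ n + η n) = v ξ + v η) ∧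
      (∀ (c : ℂ) (ξ : ℕ → F), (∃ C : ℝ, ∀ n, ‖ξ n‖ ≤ C) → v (fun n => c • ξ n) = c • v ξ) ∧
      (∀ (x : ℕ → (F →L[ℂ] F)) (ξ : ℕ → F), (∃ C : ℝ, ∀ n, ‖x n‖ ≤ C) →
        (∃ C : ℝ, ∀ n, ‖ξ n‖ ≤ C) → π x (v ξ) = v (fun n => x n (ξ n))) ∧
      (∀ x : ℕ → (F →L[ℂ] F), (∃ C : ℝ, ∀ n, ‖x n‖ ≤ C) → star (π x) = π (fun n => star (x n))) ∧
      (∀ x y : ℕ → (F →L[ℂ] F), (∃ C : ℝ, ∀ n, ‖x n‖ ≤ C) → (∃ C : ℝ, ∀ n, ‖y n‖ ≤ C) →
        π (fun n => x n * y n) = π x * π y) ∧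
      (∀ x y : ℕ → (F →L[ℂ] F), (∃ C : ℝ, ∀ n, ‖x n‖ ≤ C) → (∃ C : ℝ, ∀ n, ‖y n‖ ≤ C) →
        π (fun n => x n + y n) = π x + π y) ∧
      (∀ (c : ℂ) (x : ℕ → (F →L[ℂ] F)), (∃ C : ℝ, ∀ n, ‖x n‖ ≤ C) →
        π (fun n => c • x n) = c • π x) ∧
      π (fun _ => 1) = 1 ∧
      (∀ h : H, ∀ ε > 0, ∃ ξ : ℕ → F, (∃ C : ℝ, ∀ n, ‖ξ n‖ ≤ C) ∧ ‖h - v ξ‖ < ε) := by
  classical
  let v : (ℕ → F) → UniformSpace.Completion (s_V F U) := fun ξ =>
    if h : ∃ C : ℝ, ∀ n, ‖ξ n‖ ≤ C then ((s_mk U ξ h : s_V F U) : UniformSpace.Completion (s_V F U))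
    else 0
  let π : (ℕ → (F →L[ℂ] F)) →
      (UniformSpace.Completion (s_V F U) →L[ℂ] UniformSpace.Completion (s_V F U)) := fun x =>
    if h : ∃ C : ℝ, ∀ n, ‖x n‖ ≤ C then (s_op U x h).completion else 0
  have hv : ∀ (ξ : ℕ → F) (h : ∃ C : ℝ, ∀ n, ‖ξ n‖ ≤ C),
      v ξ = ((s_mk U ξ h : s_V F U) : UniformSpace.Completion (s_V F U)) := fun ξ h => dif_pos h
  have hπ : ∀ (x : ℕ → (F →L[ℂ] F)) (h : ∃ C : ℝ, ∀ n, ‖x n‖ ≤ C),
      π x = (s_op U x h).completion := fun x h => dif_pos h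
  have hadd : ∀ ξ η : ℕ → F, (∃ C : ℝ, ∀ n, ‖ξ n‖ ≤ C) → (∃ C : ℝ, ∀ n, ‖η n‖ ≤ C) →
      ∃ C : ℝ, ∀ n, ‖ξ n + η n‖ ≤ C := by
    rintro ξ η ⟨C, hC⟩ ⟨D, hD⟩
    exact ⟨C + D, fun n => (norm_add_le _ _).trans (add_le_add (hC n) (hD n))⟩
  have hsmul : ∀ (c : ℂ) (ξ : ℕ → F), (∃ C : ℝ, ∀ n, ‖ξ n‖ ≤ C) →
      ∃ C : ℝ, ∀ n, ‖c • ξ n‖ ≤ C := by
    rintro c ξ ⟨C, hC⟩
    refine ⟨‖c‖ * C, fun n => ?_⟩
    rw [norm_smul]
    exact mul_le_mul_of_nonneg_left (hC n) (norm_nonneg _)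
  have hstar : ∀ x : ℕ → (F →L[ℂ] F), (∃ C : ℝ, ∀ n, ‖x n‖ ≤ C) →
      ∃ C : ℝ, ∀ n, ‖star (x n)‖ ≤ C := by
    rintro x ⟨C, hC⟩
    exact ⟨C, fun n => by rw [norm_star]; exact hC n⟩
  have hmul : ∀ x y : ℕ → (F →L[ℂ] F), (∃ C : ℝ, ∀ n, ‖x n‖ ≤ C) → (∃ C : ℝ, ∀ n, ‖y n‖ ≤ C) →
      ∃ C : ℝ, ∀ n, ‖x n * y n‖ ≤ C := by
    rintro x y ⟨C, hC⟩ ⟨D, hD⟩
    refine ⟨C * D, fun n => (norm_mul_le _ _).trans ?_⟩
    exact mul_le_mul (hC n) (hD n) (norm_nonneg _) ((norm_nonneg _).trans (hC n))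
  have hxadd : ∀ x y : ℕ → (F →L[ℂ] F), (∃ C : ℝ, ∀ n, ‖x n‖ ≤ C) → (∃ C : ℝ, ∀ n, ‖y n‖ ≤ C) →
      ∃ C : ℝ, ∀ n, ‖x n + y n‖ ≤ C := by
    rintro x y ⟨C, hC⟩ ⟨D, hD⟩
    exact ⟨C + D, fun n => (norm_add_le _ _).trans (add_le_add (hC n) (hD n))⟩
  have hxsmul : ∀ (c : ℂ) (x : ℕ → (F →L[ℂ] F)), (∃ C : ℝ, ∀ n, ‖x n‖ ≤ C) →
      ∃ C : ℝ, ∀ n, ‖c • x n‖ ≤ C := by
    rintro c x ⟨C, hC⟩
    refine ⟨‖c‖ * C, fun n => ?_⟩
    rw [norm_smul]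
    exact mul_le_mul_of_nonneg_left (hC n) (norm_nonneg _)
  have hone : ∃ C : ℝ, ∀ _n : ℕ, ‖(1 : F →L[ℂ] F)‖ ≤ C := ⟨_, fun _ => le_rfl⟩
  have hcoe : ∀ (x : ℕ → (F →L[ℂ] F)) (h : ∃ C : ℝ, ∀ n, ‖x n‖ ≤ C) (ξ : s_V F U),
      π x (ξ : UniformSpace.Completion (s_V F U)) =
        ((s_op U x h ξ : s_V F U) : UniformSpace.Completion (s_V F U)) := by
    intro x h ξ
    rw [hπ x h]
    simp
  refine ⟨UniformSpace.Completion (s_V F U), inferInstance, inferInstance, inferInstance, v, π,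
    ?_, ?_, ?_, ?_, ?_, ?_, ?_, ?_, ?_, ?_⟩
  · intro ξ η hξ hη
    rw [hv ξ hξ, hv η hη, UniformSpace.Completion.inner_coe]
    exact s_tend' (s_mk U ξ hξ) (s_mk U η hη)
  · intro ξ η hξ hη
    rw [hv ξ hξ, hv η hη, hv _ (hadd ξ η hξ hη), ← UniformSpace.Completion.coe_add]
    rfl
  · intro c ξ hξ
    rw [hv ξ hξ, hv _ (hsmul c ξ hξ), ← UniformSpace.Completion.coe_smul]
    rfl
  · intro x ξ hx hξ
    rw [hv ξ hξ, hcoe x hx, hv _ (s_op_bdd x hx ξ hξ)]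
    rfl
  · intro x hx
    symm
    rw [ContinuousLinearMap.star_eq_adjoint]
    refine (ContinuousLinearMap.eq_adjoint_iff _ _).mpr ?_
    intro a b
    induction a, b using UniformSpace.Completion.induction_on₂ with
    | hp => apply isClosed_eq <;> fun_prop
    | ih a b =>
      rw [hcoe _ (hstar x hx), hcoe _ hx, UniformSpace.Completion.inner_coe,
        UniformSpace.Completion.inner_coe]
      refine tendsto_nhds_unique (s_tend' _ b) ((s_tend' a _).congr ?_)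
      intro n
      rw [s_op_seq, s_op_seq, ContinuousLinearMap.star_eq_adjoint,
        ContinuousLinearMap.adjoint_inner_left]
  · intro x y hx hy
    ext a
    induction a using UniformSpace.Completion.induction_on with
    | hp => exact isClosed_eq (ContinuousLinearMap.continuous _) (ContinuousLinearMap.continuous _)
    | ih a =>
      rw [ContinuousLinearMap.mul_apply, hcoe _ (hmul x y hx hy), hcoe _ hy, hcoe _ hx]
      rfl
  · intro x y hx hy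
    ext a
    induction a using UniformSpace.Completion.induction_on with
    | hp => exact isClosed_eq (ContinuousLinearMap.continuous _) (ContinuousLinearMap.continuous _)
    | ih a =>
      rw [ContinuousLinearMap.add_apply, hcoe _ (hxadd x y hx hy), hcoe _ hy, hcoe _ hx,
        ← UniformSpace.Completion.coe_add]
      rfl
  · intro c x hx
    ext a
    induction a using UniformSpace.Completion.induction_on with
    | hp => exact isClosed_eq (ContinuousLinearMap.continuous _) (ContinuousLinearMap.continuous _)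
    | ih a =>
      rw [ContinuousLinearMap.smul_apply, hcoe _ (hxsmul c x hx), hcoe _ hx,
        ← UniformSpace.Completion.coe_smul]
      rfl
  · ext a
    induction a using UniformSpace.Completion.induction_on with
    | hp => exact isClosed_eq (ContinuousLinearMap.continuous _) (ContinuousLinearMap.continuous _)
    | ih a =>
      rw [hcoe _ hone]
      rfl
  · intro h ε hε
    obtain ⟨a, ha⟩ := (UniformSpace.Completion.denseRange_coe (α := s_V F U)).exists_dist_lt h hε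
    refine ⟨s_seq a, s_seq_bdd a, ?_⟩
    rw [hv _ (s_seq_bdd a), ← dist_eq_norm]
    exact ha

end Pool.Agent.OHP
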