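import Pool.Agent.Helper547.OH.Defs

/-! Definitions for the completely isometric embedding of OH into a von Neumann algebra predual. -/

set_option autoImplicit false

namespace Pool.Agent.OHP
open scoped InnerProductSpace ComplexConjugate ComplexOrder
open Finset


theorem exists_vN {H : Type} [NormedAddCommGroup H] [InnerProductSpace ℂ H] [CompleteSpace H]
    (A : StarSubalgebra ℂ (H →L[ℂ] H)) : ∃ M : VonNeumannAlgebra H, ∀ x : H →L[ℂ] H,
      x ∈ M.toStarSubalgebra ↔ x ∈ Set.centralizer (Set.centralizer (A : Set (H →L[ℂ] H))) := by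
  have hA : (A : Set (H →L[ℂ] H)) ∪ star (A : Set (H →L[ℂ] H)) = (A : Set (H →L[ℂ] H)) := by
    apply Set.union_eq_self_of_subset_right
    intro x hx
    have h1 : star x ∈ A := hx
    have h2 := star_mem h1
    rwa [star_star] at h2
  refine ⟨{ StarSubalgebra.centralizer ℂ
      (StarSubalgebra.centralizer ℂ (A : Set (H →L[ℂ] H)) : Set (H →L[ℂ] H)) with
      centralizer_centralizer' := ?_ }, ?_⟩
  · show Set.centralizer (Set.centralizer ((StarSubalgebra.centralizer ℂ
      (StarSubalgebra.centralizer ℂ (A : Set (H →L[ℂ] H)) : Set (H →L[ℂ] H)) :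
        Set (H →L[ℂ] H)))) = ((StarSubalgebra.centralizer ℂ
      (StarSubalgebra.centralizer ℂ (A : Set (H →L[ℂ] H)) : Set (H →L[ℂ] H)) :
        Set (H →L[ℂ] H)))
    rw [StarSubalgebra.coe_centralizer_centralizer, hA, Set.centralizer_centralizer_centralizer]
  · intro x
    show x ∈ ((StarSubalgebra.centralizer ℂ
      (StarSubalgebra.centralizer ℂ (A : Set (H →L[ℂ] H)) : Set (H →L[ℂ] H)) :
        Set (H →L[ℂ] H))) ↔ _
    rw [StarSubalgebra.coe_centralizer_centralizer, hA]

end Pool.Agent.OHP
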