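import Pool.Agent.Helper547.OH.Defs

/-! Definitions for the completely isometric embedding of OH into a von Neumann algebra predual. -/

set_option autoImplicit false

namespace Pool.Agent.OHP
open scoped InnerProductSpace ComplexConjugate ComplexOrder
open Finset


section j24678

variable {H : Type} [NormedAddCommGroup H] [InnerProductSpace ℂ H] [CompleteSpace H]

theorem j24678_pow (B B' : H →L[ℂ] H) (Om : H) (hc : B * B' = B' * B) (ho : B Om = B' Om)
    (n : ℕ) : (B ^ n) Om = (B' ^ n) Om := by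
  induction n with
  | zero => simp
  | succ n ih =>
    have h1 : Commute (B ^ n) B' := Commute.pow_left hc n
    calc (B ^ (n + 1)) Om = (B ^ n) (B Om) := by rw [pow_succ]; rfl
      _ = (B ^ n) (B' Om) := by rw [ho]
      _ = (B ^ n * B') Om := rfl
      _ = (B' * B ^ n) Om := by rw [h1.eq]
      _ = B' ((B ^ n) Om) := rfl
      _ = B' ((B' ^ n) Om) := by rw [ih]
      _ = (B' ^ (n + 1)) Om := by rw [pow_succ']; rfl

theorem j24678_poly (B B' : H →L[ℂ] H) (Om : H) (hc : B * B' = B' * B) (ho : B Om = B' Om)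
    (p : Polynomial ℝ) : (Polynomial.aeval B p) Om = (Polynomial.aeval B' p) Om := by
  rw [Polynomial.aeval_eq_sum_range, Polynomial.aeval_eq_sum_range, ContinuousLinearMap.sum_apply,
    ContinuousLinearMap.sum_apply]
  refine Finset.sum_congr rfl fun n _ => ?_
  show p.coeff n • (B ^ n) Om = p.coeff n • (B' ^ n) Om
  rw [j24678_pow B B' Om hc ho]

theorem j24678_near (B : H →L[ℂ] H) (hB : IsSelfAdjoint B) (g : ℝ → ℝ) (hg : Continuous g)
    (R : ℝ) (hR : ‖B‖ ≤ R) (p : Polynomial ℝ) (ε : ℝ) (hε : 0 ≤ ε)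
    (hp : ∀ x ∈ Set.Icc (-R) R, |p.eval x - g x| < ε) : ‖cfc g B - Polynomial.aeval B p‖ ≤ ε := by
  rw [← cfc_polynomial p B hB, ← cfc_sub g (fun x => p.eval x) B hg.continuousOn
    p.continuous.continuousOn]
  refine norm_cfc_le hε fun x hx => ?_
  have hx1 : ‖x‖ ≤ ‖B‖ * ‖(1 : H →L[ℂ] H)‖ := spectrum.norm_le_norm_mul_of_mem hx
  have hx2 : ‖(1 : H →L[ℂ] H)‖ ≤ 1 := ContinuousLinearMap.norm_id_le
  have hx3 : |x| ≤ R := by
    rw [← Real.norm_eq_abs]
    refine hx1.trans ?_
    calc ‖B‖ * ‖(1 : H →L[ℂ] H)‖ ≤ ‖B‖ * 1 := mul_le_mul_of_nonneg_left hx2 (norm_nonneg _)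
      _ ≤ R := by rw [mul_one]; exact hR
  have h1 := hp x (abs_le.1 hx3)
  rw [Real.norm_eq_abs, abs_sub_comm]
  exact h1.le

theorem j24678_cfc (B B' : H →L[ℂ] H) (hB : IsSelfAdjoint B) (hB' : IsSelfAdjoint B') (Om : H)
    (hc : B * B' = B' * B) (ho : B Om = B' Om) (g : ℝ → ℝ) (hg : Continuous g) :
    (cfc g B) Om = (cfc g B') Om := by
  rw [← sub_eq_zero, ← norm_le_zero_iff]
  refine le_of_forall_pos_le_add fun δ hδ => ?_
  set R := ‖B‖ + ‖B'‖ with hR
  have hd : 0 < δ / (2 * (‖Om‖ + 1)) := by positivity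
  obtain ⟨p, hp⟩ := exists_polynomial_near_of_continuousOn (-R) R g hg.continuousOn
    (δ / (2 * (‖Om‖ + 1))) hd
  have h1 := j24678_near B hB g hg R (by linarith [norm_nonneg B']) p _ hd.le hp
  have h2 := j24678_near B' hB' g hg R (by linarith [norm_nonneg B]) p _ hd.le hp
  have h3 : (cfc g B) Om - (cfc g B') Om = (cfc g B - Polynomial.aeval B p) Om -
      (cfc g B' - Polynomial.aeval B' p) Om := by
    rw [ContinuousLinearMap.sub_apply, ContinuousLinearMap.sub_apply,
      j24678_poly B B' Om hc ho p]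
    abel
  rw [h3, zero_add]
  refine (norm_sub_le _ _).trans ?_
  have h4 := (cfc g B - Polynomial.aeval B p).le_opNorm Om
  have h5 := (cfc g B' - Polynomial.aeval B' p).le_opNorm Om
  have h6 := mul_le_mul_of_nonneg_right h1 (norm_nonneg Om)
  have h7 := mul_le_mul_of_nonneg_right h2 (norm_nonneg Om)
  have h8 : δ / (2 * (‖Om‖ + 1)) * ‖Om‖ + δ / (2 * (‖Om‖ + 1)) * ‖Om‖ ≤ δ := by
    have h9 : δ / (2 * (‖Om‖ + 1)) * ‖Om‖ + δ / (2 * (‖Om‖ + 1)) * ‖Om‖ =
        δ * (‖Om‖ / (‖Om‖ + 1)) := by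
      field_simp
      ring
    rw [h9]
    have h10 : ‖Om‖ / (‖Om‖ + 1) ≤ 1 := by
      rw [div_le_one (by positivity)]
      linarith
    nlinarith
  linarith

theorem j24678_sa {A : H →L[ℂ] H} (hA : IsSelfAdjoint A) (u v : H) :
    ⟪A u, v⟫_ℂ = ⟪u, A v⟫_ℂ := by
  have h := ContinuousLinearMap.adjoint_inner_left A v u
  rwa [← ContinuousLinearMap.star_eq_adjoint, hA.star_eq] at h

theorem j24678_star (A : H →L[ℂ] H) (u v : H) :
    ⟪A u, v⟫_ℂ = ⟪u, (star A) v⟫_ℂ := by
  rw [ContinuousLinearMap.star_eq_adjoint, ContinuousLinearMap.adjoint_inner_right]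

theorem j24678_mono {A B : H →L[ℂ] H} (h : A ≤ B) (v : H) :
    (⟪v, A v⟫_ℂ).re ≤ (⟪v, B v⟫_ℂ).re := by
  rw [ContinuousLinearMap.le_def] at h
  have h1 := h.re_inner_nonneg_right v
  rw [ContinuousLinearMap.sub_apply, inner_sub_right] at h1
  have h2 : 0 ≤ (⟪v, B v⟫_ℂ - ⟪v, A v⟫_ℂ).re := h1
  rw [Complex.sub_re] at h2
  linarith

theorem j24678_bound (B : H →L[ℂ] H) (hB : 0 ≤ B) (f : ℝ → ℝ) (ε : ℝ)
    (hf : ContinuousOn f (spectrum ℝ B))
    (hle : ∀ t ∈ spectrum ℝ B, f t ≤ √t + ε) (v : H) :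
    (⟪v, (cfc f B) v⟫_ℂ).re ≤ (⟪v, (CFC.sqrt B) v⟫_ℂ).re + ε * ‖v‖ ^ 2 := by
  have hsa : IsSelfAdjoint B := IsSelfAdjoint.of_nonneg hB
  have h1 : cfc f B ≤ cfc (fun t => √t + ε) B :=
    cfc_mono hle hf (by fun_prop)
  have h2 : cfc (fun t => √t + ε) B = cfc Real.sqrt B + algebraMap ℝ (H →L[ℂ] H) ε := by
    rw [cfc_add B Real.sqrt (fun _ => ε) Real.continuous_sqrt.continuousOn continuousOn_const,
      cfc_const ε B hsa]
  have h3 : CFC.sqrt B = cfc Real.sqrt B := by
    rw [CFC.sqrt_eq_real_sqrt B hB, cfcₙ_eq_cfc (Real.continuous_sqrt.continuousOn)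
      Real.sqrt_zero]
  refine (j24678_mono h1 v).trans ?_
  rw [h2, h3, ContinuousLinearMap.add_apply, inner_add_right, Complex.add_re]
  have h4 : (algebraMap ℝ (H →L[ℂ] H) ε) v = ((ε : ℝ) : ℂ) • v := by
    rw [Algebra.algebraMap_eq_smul_one]
    show ε • v = _
    rw [Complex.coe_smul]
  rw [h4, inner_smul_right, inner_self_eq_norm_sq_to_K]
  have h5 : (((ε : ℝ) : ℂ) * ((‖v‖ : ℝ) : ℂ) ^ 2).re = ε * ‖v‖ ^ 2 := by
    rw [← Complex.ofReal_pow, ← Complex.ofReal_mul, Complex.ofReal_re]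
  exact le_of_eq (congrArg _ h5)

end j24678

/-- factorisation of the functional `x ↦ ⟨Ω, x T Ω⟩` on the commutant of `Y` -/
theorem factor_vec {H : Type} [NormedAddCommGroup H] [InnerProductSpace ℂ H] [CompleteSpace H]
    (T Y : H →L[ℂ] H) (Om : H) (c1 : T * Y = Y * T) (c2 : star T * Y = Y * star T)
    (o1 : T Om = Y Om) (o2 : (star T) Om = (star Y) Om) (ε : ℝ) (hε : 0 < ε) :
    ∃ α β : H,
      ‖α‖ ^ 2 ≤ (⟪Om, (CFC.sqrt (star T * T)) Om⟫_ℂ).re + ε * ‖Om‖ ^ 2 ∧
      ‖β‖ ^ 2 ≤ (⟪Om, (CFC.sqrt (star T * T)) Om⟫_ℂ).re + ε * ‖Om‖ ^ 2 ∧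
      ∀ x : H →L[ℂ] H, x * Y = Y * x → x * star Y = star Y * x →
        ⟪Om, x (T Om)⟫_ℂ = ⟪α, x β⟫_ℂ := by
  have c1' : star Y * star T = star T * star Y := by
    have := congrArg star c1
    simpa using this
  have c2' : star Y * T = T * star Y := by
    have := congrArg star c2
    simpa using this
  set B : H →L[ℂ] H := star T * T with hBdef
  set B' : H →L[ℂ] H := Y * star Y with hB'def
  have hB0 : 0 ≤ B := star_mul_self_nonneg T
  have hB : IsSelfAdjoint B := IsSelfAdjoint.star_mul_self T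
  have hB' : IsSelfAdjoint B' := IsSelfAdjoint.mul_star_self Y
  have hBO : B Om = B' Om := by
    calc B Om = (star T) (T Om) := rfl
      _ = (star T * Y) Om := by rw [o1]; rfl
      _ = Y ((star T) Om) := by rw [c2]; rfl
      _ = B' Om := by rw [o2]; rfl
  have hBB : B * B' = B' * B := by
    calc star T * T * (Y * star Y) = star T * (T * Y) * star Y := by noncomm_ring
      _ = star T * (Y * T) * star Y := by rw [c1]
      _ = (star T * Y) * (T * star Y) := by noncomm_ring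
      _ = (Y * star T) * (star Y * T) := by rw [c2, c2']
      _ = Y * (star T * star Y) * T := by noncomm_ring
      _ = Y * (star Y * star T) * T := by rw [c1']
      _ = Y * star Y * (star T * T) := by noncomm_ring
  have hTB' : Commute B' T := by
    show Y * star Y * T = T * (Y * star Y)
    calc Y * star Y * T = Y * (star Y * T) := by noncomm_ring
      _ = Y * (T * star Y) := by rw [c2']
      _ = (Y * T) * star Y := by noncomm_ring
      _ = (T * Y) * star Y := by rw [c1]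
      _ = T * (Y * star Y) := by noncomm_ring
  let s : ℝ → ℝ := fun t => √(|t| + ε ^ 2)
  let g : ℝ → ℝ := fun t => √(s t)
  let k : ℝ → ℝ := fun t => (g t)⁻¹
  have hspos : ∀ t, 0 < s t := fun t => Real.sqrt_pos.2 (by positivity)
  have hgpos : ∀ t, 0 < g t := fun t => Real.sqrt_pos.2 (hspos t)
  have hsc : Continuous s := by
    show Continuous fun t : ℝ => √(|t| + ε ^ 2)
    fun_prop
  have hgc : Continuous g := Real.continuous_sqrt.comp hsc
  have hkc : Continuous k := hgc.inv₀ fun t => (hgpos t).ne'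
  have hgg : ∀ t, g t * g t = s t := fun t => Real.mul_self_sqrt (hspos t).le
  have hnn : ∀ t ∈ spectrum ℝ B, 0 ≤ t := fun t ht => spectrum_nonneg_of_nonneg hB0 ht
  have hbO := j24678_cfc B B' hB hB' Om hBB hBO g hgc
  have hcO := j24678_cfc B B' hB hB' Om hBB hBO k hkc
  have hbc : cfc g B' * cfc k B' = 1 := by
    rw [← cfc_mul g k B' hgc.continuousOn hkc.continuousOn]
    have h1 : (fun x => g x * k x) = fun _ => (1 : ℝ) := by
      funext t
      exact mul_inv_cancel₀ (hgpos t).ne'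
    rw [h1, cfc_const_one ℝ B' hB']
  refine ⟨(cfc g B) Om, T ((cfc k B) Om), ?_, ?_, ?_⟩
  · have hsag : IsSelfAdjoint (cfc g B) := cfc_predicate g B
    have h1 : ‖(cfc g B) Om‖ ^ 2 = (⟪Om, (cfc s B) Om⟫_ℂ).re := by
      have h2 : ‖(cfc g B) Om‖ ^ 2 = (⟪(cfc g B) Om, (cfc g B) Om⟫_ℂ).re :=
        norm_sq_eq_re_inner (𝕜 := ℂ) _
      rw [h2, j24678_sa hsag]
      have h3 : cfc s B = cfc g B * cfc g B := by
        rw [← cfc_mul g g B hgc.continuousOn hgc.continuousOn]
        congr 1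
        funext t
        exact (hgg t).symm
      rw [h3]
      rfl
    rw [h1]
    refine j24678_bound B hB0 s ε hsc.continuousOn (fun t ht => ?_) Om
    have ht0 := hnn t ht
    show √(|t| + ε ^ 2) ≤ √t + ε
    rw [abs_of_nonneg ht0]
    refine Real.sqrt_le_iff.2 ⟨by positivity, ?_⟩
    have h4 := Real.sq_sqrt ht0
    nlinarith [Real.sqrt_nonneg t, mul_nonneg (Real.sqrt_nonneg t) hε.le]
  · have hsak : IsSelfAdjoint (cfc k B) := cfc_predicate k B
    have h1 : ‖T ((cfc k B) Om)‖ ^ 2 = (⟪Om, (cfc (fun t => k t * t * k t) B) Om⟫_ℂ).re := by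
      have h2 : ‖T ((cfc k B) Om)‖ ^ 2 = (⟪T ((cfc k B) Om), T ((cfc k B) Om)⟫_ℂ).re :=
        norm_sq_eq_re_inner (𝕜 := ℂ) _
      rw [h2, j24678_star, j24678_sa hsak]
      have h3 : cfc (fun t => k t * t * k t) B = cfc k B * B * cfc k B := by
        rw [cfc_mul (fun t => k t * t) k B (hkc.mul continuous_id).continuousOn hkc.continuousOn,
          cfc_mul k (fun t => t) B hkc.continuousOn continuous_id.continuousOn, cfc_id' ℝ B hB]
      rw [h3]
      rfl
    rw [h1]
    refine j24678_bound B hB0 _ ε ((hkc.mul continuous_id).mul hkc).continuousOn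
      (fun t ht => ?_) Om
    have ht0 := hnn t ht
    have h5 : k t * t * k t = t / s t := by
      rw [← hgg t]
      show (g t)⁻¹ * t * (g t)⁻¹ = t / (g t * g t)
      have := (hgpos t).ne'
      field_simp
    show k t * t * k t ≤ √t + ε
    rw [h5, div_le_iff₀ (hspos t)]
    have h6 : √t ≤ s t := by
      refine Real.sqrt_le_sqrt ?_
      rw [abs_of_nonneg ht0]
      nlinarith
    have h7 := Real.mul_self_sqrt ht0
    have h8 := Real.sqrt_nonneg t
    nlinarith [mul_le_mul_of_nonneg_left h6 h8, mul_pos hε (hspos t)]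
  · intro x hx1 hx2
    have hxB' : Commute B' x := by
      show Y * star Y * x = x * (Y * star Y)
      calc Y * star Y * x = Y * (star Y * x) := by noncomm_ring
        _ = Y * (x * star Y) := by rw [hx2]
        _ = (Y * x) * star Y := by noncomm_ring
        _ = (x * Y) * star Y := by rw [hx1]
        _ = x * (Y * star Y) := by noncomm_ring
    have h1 : Commute (cfc g B') x := hxB'.cfc_real g
    have h2 : Commute (cfc g B') T := hTB'.cfc_real g
    have hsag : IsSelfAdjoint (cfc g B') := cfc_predicate g B'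
    rw [hbO, hcO, j24678_sa hsag]
    congr 1
    have h3 : cfc g B' * (x * (T * cfc k B')) = x * T := by
      calc cfc g B' * (x * (T * cfc k B')) = (cfc g B' * x) * (T * cfc k B') := by noncomm_ring
        _ = (x * cfc g B') * (T * cfc k B') := by rw [h1.eq]
        _ = x * (cfc g B' * T) * cfc k B' := by noncomm_ring
        _ = x * (T * cfc g B') * cfc k B' := by rw [h2.eq]
        _ = x * T * (cfc g B' * cfc k B') := by noncomm_ring
        _ = x * T := by rw [hbc, mul_one]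
    have h4 := congrArg (fun A : H →L[ℂ] H => A Om) h3
    exact h4.symm

end Pool.Agent.OHP
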