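import Pool.Agent.Helper547.OH.Defs

/-! Definitions for the completely isometric embedding of OH into a von Neumann algebra predual. -/

set_option autoImplicit false

namespace Pool.Agent.OHP
open scoped InnerProductSpace ComplexConjugate ComplexOrder
open Finset

theorem grid_abs_tel (f g : ℕ → ℝ) (n : ℕ) (h : ∀ j, g j ≤ 2 * (f (j + 1) - f j)) :
    ∑ j ∈ Finset.range n, g j ≤ 2 * (f n - f 0) := by
  refine (Finset.sum_le_sum (fun j _ => h j)).trans ?_
  rw [← Finset.mul_sum, Finset.sum_range_sub]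

theorem grid_abs_exp (h : ℝ) (hh : 0 < h) (hh1 : h ≤ 1) : h / 2 ≤ 1 - Real.exp (-h) := by
  have h1 := Real.add_one_le_exp h
  have h2 : 0 < Real.exp h := Real.exp_pos h
  have h3 : Real.exp (-h) ≤ 1 / (1 + h) := by
    rw [Real.exp_neg, ← one_div]
    exact one_div_le_one_div_of_le (by linarith) (by linarith)
  have h4 : h / 2 ≤ 1 - 1 / (1 + h) := by
    have h5 : 1 - 1 / (1 + h) = h / (1 + h) := by
      field_simp
      ring
    rw [h5]
    exact div_le_div_of_nonneg_left hh.le (by linarith) (by linarith)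
  linarith

theorem grid_abs_low (L h : ℝ) (A : ℕ) (hL : 1 ≤ L) (hh : 0 < h) (hh1 : h ≤ 1) (n : ℕ) :
    ∑ j ∈ Finset.range n, (if Real.exp (((j : ℝ) - A) * h) < L then
      h * Real.exp (((j : ℝ) - A) * h) else 0) ≤ 2 * L := by
  have h1 := grid_abs_tel (fun j => min (Real.exp (((j : ℝ) - 1 - A) * h)) L)
    (fun j => if Real.exp (((j : ℝ) - A) * h) < L then h * Real.exp (((j : ℝ) - A) * h) else 0) n (by
      intro j
      have e1 : (((j + 1 : ℕ) : ℝ) - 1 - A) * h = ((j : ℝ) - A) * h := by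
        push_cast
        ring
      have e2 : Real.exp (((j : ℝ) - 1 - A) * h) = Real.exp (((j : ℝ) - A) * h) * Real.exp (-h) := by
        rw [← Real.exp_add]
        congr 1
        ring
      show (if _ then _ else _) ≤ 2 * (min (Real.exp ((((j + 1 : ℕ) : ℝ) - 1 - A) * h)) L -
        min (Real.exp (((j : ℝ) - 1 - A) * h)) L)
      rw [e1, e2]
      have h2 := grid_abs_exp h hh hh1
      have h3 : 0 < Real.exp (((j : ℝ) - A) * h) := Real.exp_pos _
      have h4 : 0 < Real.exp (-h) := Real.exp_pos _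
      have h5 : Real.exp (((j : ℝ) - A) * h) * Real.exp (-h) ≤ Real.exp (((j : ℝ) - A) * h) := by
        nlinarith
      split_ifs with hc
      · rw [min_eq_left hc.le, min_eq_left (h5.trans hc.le)]
        nlinarith
      · have h6 := min_le_min_right L h5
        linarith)
  refine h1.trans ?_
  have h2 : min (Real.exp (((n : ℕ) : ℝ) - 1 - A) * h) L ≤ L := min_le_right _ _
  have h3 : 0 ≤ min (Real.exp ((((0 : ℕ) : ℝ) - 1 - A) * h)) L :=
    le_min (Real.exp_pos _).le (by linarith)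
  have h4 : min (Real.exp ((((n : ℕ) : ℝ) - 1 - A) * h)) L ≤ L := min_le_right _ _
  show 2 * (min (Real.exp ((((n : ℕ) : ℝ) - 1 - A) * h)) L -
    min (Real.exp ((((0 : ℕ) : ℝ) - 1 - A) * h)) L) ≤ 2 * L
  linarith

theorem grid_abs_high (L X h : ℝ) (A : ℕ) (hL : 1 ≤ L) (hh : 0 < h) (hh1 : h ≤ 1) (n : ℕ) :
    ∑ j ∈ Finset.range n, (if Real.exp (X - ((j : ℝ) - A) * h) < L then
      h * Real.exp (X - ((j : ℝ) - A) * h) else 0) ≤ 2 * L := by
  have h1 := grid_abs_tel (fun j => -min (Real.exp (X - ((j : ℝ) - A) * h)) L)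
    (fun j => if Real.exp (X - ((j : ℝ) - A) * h) < L then
      h * Real.exp (X - ((j : ℝ) - A) * h) else 0) n (by
      intro j
      have e2 : Real.exp (X - (((j + 1 : ℕ) : ℝ) - A) * h) =
          Real.exp (X - ((j : ℝ) - A) * h) * Real.exp (-h) := by
        rw [← Real.exp_add]
        congr 1
        push_cast
        ring
      show (if _ then _ else _) ≤ 2 * (-min (Real.exp (X - (((j + 1 : ℕ) : ℝ) - A) * h)) L -
        -min (Real.exp (X - ((j : ℝ) - A) * h)) L)
      rw [e2]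
      have h2 := grid_abs_exp h hh hh1
      have h3 : 0 < Real.exp (X - ((j : ℝ) - A) * h) := Real.exp_pos _
      have h4 : 0 < Real.exp (-h) := Real.exp_pos _
      have h5 : Real.exp (X - ((j : ℝ) - A) * h) * Real.exp (-h) ≤
          Real.exp (X - ((j : ℝ) - A) * h) := by
        nlinarith
      split_ifs with hc
      · rw [min_eq_left hc.le, min_eq_left (h5.trans hc.le)]
        nlinarith
      · have h6 := min_le_min_right L h5
        linarith)
  refine h1.trans ?_
  have h3 : 0 ≤ min (Real.exp (X - (((n : ℕ) : ℝ) - A) * h)) L :=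
    le_min (Real.exp_pos _).le (by linarith)
  have h4 : min (Real.exp (X - (((0 : ℕ) : ℝ) - A) * h)) L ≤ L := min_le_right _ _
  show 2 * (-min (Real.exp (X - (((n : ℕ) : ℝ) - A) * h)) L -
    -min (Real.exp (X - (((0 : ℕ) : ℝ) - A) * h)) L) ≤ 2 * L
  linarith

theorem grid_abs_count (X h : ℝ) (A : ℕ) (hX : 0 ≤ X) (hh : 0 < h) (hA : X ≤ A * h) :
    X ≤ ∑ j ∈ Finset.range (2 * A + 1), (if 0 ≤ ((j : ℝ) - A) * h ∧ ((j : ℝ) - A) * h ≤ X then h
      else 0) ∧
    ∑ j ∈ Finset.range (2 * A + 1), (if 0 ≤ ((j : ℝ) - A) * h ∧ ((j : ℝ) - A) * h ≤ X then h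
      else 0) ≤ X + h := by
  have hXh : 0 ≤ X / h := by positivity
  have hn : (⌊X / h⌋₊ : ℝ) ≤ X / h := Nat.floor_le hXh
  have hn' : X / h < ⌊X / h⌋₊ + 1 := Nat.lt_floor_add_one _
  have hnA : ⌊X / h⌋₊ ≤ A := by
    have h1 : X / h ≤ A := by rwa [div_le_iff₀ hh]
    exact_mod_cast hn.trans h1
  have hset : (Finset.range (2 * A + 1)).filter (fun j : ℕ => 0 ≤ ((j : ℝ) - A) * h ∧
      ((j : ℝ) - A) * h ≤ X) = Finset.Icc A (A + ⌊X / h⌋₊) := by
    ext j
    rw [Finset.mem_filter, Finset.mem_range, Finset.mem_Icc]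
    constructor
    · rintro ⟨_, h1, h2⟩
      have h3 : (A : ℝ) ≤ j := by
        have := nonneg_of_mul_nonneg_left h1 hh
        linarith
      have h3' : A ≤ j := by exact_mod_cast h3
      refine ⟨h3', ?_⟩
      have h4 : ((j - A : ℕ) : ℝ) ≤ X / h := by
        rw [Nat.cast_sub h3', le_div_iff₀ hh]
        exact h2
      have h5 := Nat.le_floor h4
      omega
    · rintro ⟨h1, h2⟩
      have h1' : (A : ℝ) ≤ j := by exact_mod_cast h1
      have h2' : (j : ℝ) ≤ A + ⌊X / h⌋₊ := by exact_mod_cast h2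
      refine ⟨by omega, mul_nonneg (by linarith) hh.le, ?_⟩
      rw [← le_div_iff₀ hh]
      linarith
  rw [← Finset.sum_filter, hset, Finset.sum_const, Nat.card_Icc, nsmul_eq_mul]
  have hc : ((A + ⌊X / h⌋₊ + 1 - A : ℕ) : ℝ) = ⌊X / h⌋₊ + 1 := by
    rw [show A + ⌊X / h⌋₊ + 1 - A = ⌊X / h⌋₊ + 1 by omega]
    push_cast
    ring
  rw [hc]
  have h1 : X / h * h = X := div_mul_cancel₀ X hh.ne'
  constructor
  · have := mul_le_mul_of_nonneg_right hn'.le hh.le
    linarith
  · have := mul_le_mul_of_nonneg_right hn hh.le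
    linarith

theorem grid_abs (Q : ℝ → ℝ) (D B1 B2 L X ε h' : ℝ) (A : ℕ) (hX : 0 ≤ X) (hL : 1 ≤ L)
    (hh : 0 < h') (hh1 : h' ≤ 1) (hA : X ≤ A * h') (hB1 : 0 ≤ B1) (hB2 : 0 ≤ B2) (hε : 0 ≤ ε)
    (h0 : ∀ y > 0, 0 ≤ Q y) (h1 : ∀ y > 0, Q y ≤ B1)
    (h2 : ∀ y > 0, Q y ≤ B2 * Real.exp X / y ^ 2)
    (h3 : ∀ y, L ≤ y → y ≤ Real.exp X / L → |y * Q y - D| ≤ ε) :
    |∑ j ∈ range (2 * A + 1), (2 / Real.pi) * h' * Real.exp (((j : ℝ) - A) * h') *
      Q (Real.exp (((j : ℝ) - A) * h')) - (2 / Real.pi) * D * X| ≤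
      ε * X + 4 * L * (B1 + B2 + |D| + ε) := by
  obtain ⟨N, hN⟩ : ∃ N : ℕ, N = 2 * A + 1 := ⟨_, rfl⟩
  obtain ⟨t, ht⟩ : ∃ t : ℕ → ℝ, ∀ j, t j = ((j : ℝ) - A) * h' := ⟨_, fun _ => rfl⟩
  have hlow := grid_abs_low L h' A hL hh hh1 (2 * A + 1)
  have hhigh := grid_abs_high L X h' A hL hh hh1 (2 * A + 1)
  obtain ⟨hc1, hc2⟩ := grid_abs_count X h' A hX hh hA
  simp only [← ht] at hlow hhigh hc1 hc2 ⊢
  rw [← hN] at hlow hhigh hc1 hc2 ⊢
  have hD := abs_nonneg D
  have hpt : ∀ j, |h' * Real.exp (t j) * Q (Real.exp (t j)) -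
      D * (if 0 ≤ t j ∧ t j ≤ X then h' else 0)| ≤
      ε * (if 0 ≤ t j ∧ t j ≤ X then h' else 0) +
      ((B1 + |D|) * (if Real.exp (t j) < L then h' * Real.exp (t j) else 0) +
      (B2 + |D|) * (if Real.exp (X - t j) < L then h' * Real.exp (X - t j) else 0)) := by
    intro j
    obtain ⟨s, hs⟩ : ∃ s : ℝ, s = t j := ⟨_, rfl⟩
    rw [← hs]
    have hep : 0 < Real.exp s := Real.exp_pos s
    have hexp : 0 < Real.exp (X - s) := Real.exp_pos _
    have hQ0 := h0 (Real.exp s) hep
    have hQ1 := h1 (Real.exp s) hep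
    have hQ2 := h2 (Real.exp s) hep
    have hc0 : 0 ≤ (if 0 ≤ s ∧ s ≤ X then h' else 0) := by
      split_ifs
      · exact hh.le
      · exact le_rfl
    have hl0 : 0 ≤ (if Real.exp s < L then h' * Real.exp s else 0) := by
      split_ifs
      · positivity
      · exact le_rfl
    have hr0 : 0 ≤ (if Real.exp (X - s) < L then h' * Real.exp (X - s) else 0) := by
      split_ifs
      · positivity
      · exact le_rfl
    have ha0 : 0 ≤ h' * Real.exp s * Q (Real.exp s) := by positivity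
    have habs : |h' * Real.exp s * Q (Real.exp s) - D * (if 0 ≤ s ∧ s ≤ X then h' else 0)| ≤
        h' * Real.exp s * Q (Real.exp s) + |D| * (if 0 ≤ s ∧ s ≤ X then h' else 0) := by
      refine (abs_sub _ _).trans ?_
      rw [abs_of_nonneg ha0, abs_mul, abs_of_nonneg hc0]
    by_cases hlo : Real.exp s < L
    · rw [if_pos hlo] at hl0 ⊢
      have k1 : h' * Real.exp s * Q (Real.exp s) ≤ h' * Real.exp s * B1 :=
        mul_le_mul_of_nonneg_left hQ1 hl0
      have k2 : (if 0 ≤ s ∧ s ≤ X then h' else 0) ≤ h' * Real.exp s := by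
        split_ifs with hc
        · have := Real.one_le_exp hc.1
          nlinarith
        · exact hl0
      have k3 := mul_le_mul_of_nonneg_left k2 hD
      have k4 := mul_nonneg hε hc0
      have k5 : 0 ≤ (B2 + |D|) * (if Real.exp (X - s) < L then h' * Real.exp (X - s) else 0) :=
        mul_nonneg (by linarith) hr0
      linarith
    · by_cases hhi : Real.exp (X - s) < L
      · rw [if_pos hhi] at hr0 ⊢
        rw [if_neg hlo]
        have k1 : h' * Real.exp s * Q (Real.exp s) ≤ B2 * (h' * Real.exp (X - s)) := by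
          have m1 : h' * Real.exp s * Q (Real.exp s) ≤
              h' * Real.exp s * (B2 * Real.exp X / Real.exp s ^ 2) :=
            mul_le_mul_of_nonneg_left hQ2 (by positivity)
          refine m1.trans (le_of_eq ?_)
          rw [Real.exp_sub]
          field_simp
        have k2 : (if 0 ≤ s ∧ s ≤ X then h' else 0) ≤ h' * Real.exp (X - s) := by
          split_ifs with hc
          · have := Real.one_le_exp (show 0 ≤ X - s by linarith [hc.2])
            nlinarith
          · exact hr0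
        have k3 := mul_le_mul_of_nonneg_left k2 hD
        have k4 := mul_nonneg hε hc0
        linarith
      · rw [if_neg hlo, if_neg hhi]
        push Not at hlo hhi
        have m1 : 0 ≤ s := by
          have : Real.exp 0 ≤ Real.exp s := by
            rw [Real.exp_zero]
            linarith
          exact Real.exp_le_exp.1 this
        have m2 : s ≤ X := by
          have : Real.exp 0 ≤ Real.exp (X - s) := by
            rw [Real.exp_zero]
            linarith
          have := Real.exp_le_exp.1 this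
          linarith
        rw [if_pos ⟨m1, m2⟩]
        have m3 : Real.exp s ≤ Real.exp X / L := by
          rw [le_div_iff₀ (by linarith)]
          have : Real.exp X = Real.exp s * Real.exp (X - s) := by
            rw [← Real.exp_add]
            congr 1
            ring
          rw [this]
          exact mul_le_mul_of_nonneg_left hhi hep.le
        have m4 := h3 (Real.exp s) hlo m3
        have m5 : h' * Real.exp s * Q (Real.exp s) - D * h' =
            h' * (Real.exp s * Q (Real.exp s) - D) := by ring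
        rw [m5, abs_mul, abs_of_pos hh]
        have m6 := mul_le_mul_of_nonneg_left m4 hh.le
        linarith
  have hsum : |∑ j ∈ Finset.range N, h' * Real.exp (t j) * Q (Real.exp (t j)) -
      D * ∑ j ∈ Finset.range N, (if 0 ≤ t j ∧ t j ≤ X then h' else 0)| ≤
      ε * (X + h') + ((B1 + |D|) * (2 * L) + (B2 + |D|) * (2 * L)) := by
    rw [Finset.mul_sum, ← Finset.sum_sub_distrib]
    refine (Finset.abs_sum_le_sum_abs _ _).trans ((Finset.sum_le_sum (fun j _ => hpt j)).trans ?_)
    rw [Finset.sum_add_distrib, Finset.sum_add_distrib, ← Finset.mul_sum, ← Finset.mul_sum,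
      ← Finset.mul_sum]
    have k1 := mul_le_mul_of_nonneg_left hc2 hε
    have k2 := mul_le_mul_of_nonneg_left hlow (show 0 ≤ B1 + |D| by linarith)
    have k3 := mul_le_mul_of_nonneg_left hhigh (show 0 ≤ B2 + |D| by linarith)
    linarith
  obtain ⟨C, hC⟩ : ∃ C : ℝ, C = ∑ j ∈ Finset.range N, (if 0 ≤ t j ∧ t j ≤ X then h' else 0) :=
    ⟨_, rfl⟩
  obtain ⟨S, hS⟩ : ∃ S : ℝ, S = ∑ j ∈ Finset.range N, h' * Real.exp (t j) * Q (Real.exp (t j)) :=
    ⟨_, rfl⟩
  rw [← hC] at hc1 hc2 hsum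
  rw [← hS] at hsum
  have hDC : |D * C - D * X| ≤ |D| * 1 := by
    rw [← mul_sub, abs_mul]
    apply mul_le_mul_of_nonneg_left _ hD
    rw [abs_le]
    constructor <;> linarith
  have htot : |S - D * X| ≤ ε * (X + h') + ((B1 + |D|) * (2 * L) + (B2 + |D|) * (2 * L)) + |D| * 1 := by
    have : S - D * X = (S - D * C) + (D * C - D * X) := by ring
    rw [this]
    exact (abs_add_le _ _).trans (add_le_add hsum hDC)
  have hfin : ∑ j ∈ Finset.range N, (2 / Real.pi) * h' * Real.exp (t j) * Q (Real.exp (t j)) -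
      (2 / Real.pi) * D * X = (2 / Real.pi) * (S - D * X) := by
    rw [hS, mul_sub, Finset.mul_sum]
    congr 1
    · apply Finset.sum_congr rfl
      intro j _
      ring
    · ring
  have hpi : 2 / Real.pi ≤ 4 / 5 := by
    rw [div_le_div_iff₀ Real.pi_pos (by norm_num)]
    have := Real.pi_gt_three
    linarith
  have hpi0 : 0 < 2 / Real.pi := by positivity
  rw [hfin, abs_mul, abs_of_pos hpi0]
  have hb : |S - D * X| ≤ ε * X + L * (2 * B1 + 2 * B2 + 5 * |D| + ε) := by
    refine htot.trans ?_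
    have k1 : ε * h' ≤ ε * L := mul_le_mul_of_nonneg_left (by linarith) hε
    have k2 : |D| * 1 ≤ |D| * L := mul_le_mul_of_nonneg_left hL hD
    nlinarith
  have hb0 : 0 ≤ |S - D * X| := abs_nonneg _
  have hL0 : 0 ≤ L := by linarith
  have q1 : 0 ≤ L * B1 := mul_nonneg hL0 hB1
  have q2 : 0 ≤ L * B2 := mul_nonneg hL0 hB2
  have q3 : 0 ≤ L * |D| := mul_nonneg hL0 hD
  have q4 : 0 ≤ L * ε := mul_nonneg hL0 hε
  have q5 : 0 ≤ ε * X := mul_nonneg hε hX
  have q6 := mul_le_mul_of_nonneg_right hpi hb0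
  nlinarith

end Pool.Agent.OHP
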