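import Pool.Agent.Helper547.OH.Defs
import Pool.Agent.Helper547.OH.P_dyson_bounds
import Pool.Agent.Helper547.OH.P_asym_Q
import Pool.Agent.Helper547.OH.P_grid_abs

/-! Definitions for the completely isometric embedding of OH into a von Neumann algebra predual. -/

set_option autoImplicit false

namespace Pool.Agent.OHP
open scoped InnerProductSpace ComplexConjugate ComplexOrder
open Finset


theorem grid_sum_aux1 (h : ℝ) (hh : 0 < h) (h1 : h ≤ 1) (m : ℕ) :
    ∑ j ∈ range m, ww h j ≤ 3 := by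
  have key : h ≤ 3 * (1 - Real.exp (-(2 / 3) * h)) := by
    have e1 : 2 / 3 * h + 1 ≤ Real.exp (2 / 3 * h) := Real.add_one_le_exp _
    have e2 : Real.exp (-(2 / 3) * h) * Real.exp (2 / 3 * h) = 1 := by
      rw [← Real.exp_add]; simp
    have e3 : 0 < Real.exp (-(2 / 3) * h) := Real.exp_pos _
    nlinarith
  have ind : ∀ m : ℕ, ∑ j ∈ range m, ww h j ≤ 3 * (1 - Real.exp (-(2 / 3) * (m * h))) := by
    intro m
    induction m with
    | zero => simp
    | succ k ih =>
      rw [Finset.sum_range_succ]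
      have e4 : Real.exp (-(2 / 3) * (((k + 1 : ℕ) : ℝ) * h)) =
          Real.exp (-(2 / 3) * (k * h)) * Real.exp (-(2 / 3) * h) := by
        rw [← Real.exp_add]; congr 1; push_cast; ring
      rw [e4]
      unfold ww at *
      have e5 : 0 < Real.exp (-(2 / 3) * (k * h)) := Real.exp_pos _
      nlinarith
  have e6 : 0 < Real.exp (-(2 / 3) * (m * h)) := Real.exp_pos _
  linarith [ind m]

theorem grid_sum_aux2 (h : ℝ) (hh : 0 < h) (m : ℕ) :
    ∑ j ∈ range m, ww h j * uu h m j ≤ 3 * Real.exp (1 / 3 * (m * h)) := by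
  have key : h ≤ 3 * (Real.exp (1 / 3 * h) - 1) := by
    have e1 : 1 / 3 * h + 1 ≤ Real.exp (1 / 3 * h) := Real.add_one_le_exp _
    linarith
  have ind : ∀ m : ℕ, ∑ j ∈ range m, h * Real.exp (1 / 3 * (j * h)) ≤
      3 * (Real.exp (1 / 3 * (m * h)) - 1) := by
    intro m
    induction m with
    | zero => simp
    | succ k ih =>
      rw [Finset.sum_range_succ]
      have e4 : Real.exp (1 / 3 * (((k + 1 : ℕ) : ℝ) * h)) =
          Real.exp (1 / 3 * (k * h)) * Real.exp (1 / 3 * h) := by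
        rw [← Real.exp_add]; congr 1; push_cast; ring
      rw [e4]
      have e5 : 0 < Real.exp (1 / 3 * (k * h)) := Real.exp_pos _
      nlinarith
  have e7 : ∑ j ∈ range m, ww h j * uu h m j = ∑ j ∈ range m, h * Real.exp (1 / 3 * (j * h)) := by
    refine Finset.sum_congr rfl fun j hj => ?_
    unfold ww uu
    rw [if_pos (Finset.mem_range.1 hj), mul_assoc, ← Real.exp_add]
    congr 2
    ring
  rw [e7]
  linarith [ind m]

theorem grid_sum {n l : ℕ} (c : Fin n → Mat l) (p q : Mat l) (lam : ℝ) (hF : FixPt c p q lam)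
    (ε : ℝ) (hε : 0 < ε) :
    ∃ C h0 : ℝ, 0 < h0 ∧ ∀ h, 0 < h → h ≤ h0 → ∀ (m : ℕ) (h' : ℝ), 0 < h' → h' ≤ 1 →
      ∀ A : ℕ, (2 / 3) * (m * h) ≤ A * h' → ∀ K1 K2 : ℝ → Mat l,
      (∀ y > 0, Dyson m (uu h m) (ww h) y c (K1 y) (K2 y)) →
      |∑ j ∈ range (2 * A + 1), (2 / Real.pi) * h' * Real.exp (((j : ℝ) - A) * h') *
        ((et' c (K1 (Real.exp (((j : ℝ) - A) * h'))) *
          K2 (Real.exp (((j : ℝ) - A) * h'))).trace).re -
        4 / (3 * Real.pi) * C0 ^ ((3 / 2 : ℝ)) * √lam * (m * h)| ≤ ε * (m * h) + C := by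
  obtain ⟨L, h0, hL, hh0, hh01, H⟩ := asym_Q c p q lam hF ε hε
  set D : ℝ := C0 ^ ((3 / 2 : ℝ)) * √lam with hD
  set t : ℝ := ((∑ i, (c i).conjTranspose * c i).trace).re with ht
  refine ⟨4 * L * (3 * l + 9 * |t| + |D| + ε), h0, hh0, ?_⟩
  intro h hh hle m h' hh' hh'1 A hA K1 K2 hK
  have hmh : 0 ≤ (m : ℝ) * h := by positivity
  have hu : ∀ j, 0 ≤ uu h m j := by
    intro j
    unfold uu
    split_ifs
    · exact (Real.exp_pos _).le
    · exact le_rfl
  have hw : ∀ j, 0 ≤ ww h j := by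
    intro j
    unfold ww
    exact mul_nonneg hh.le (Real.exp_pos _).le
  have hS1 := grid_sum_aux1 h hh (hle.trans hh01) m
  have hS2 := grid_sum_aux2 h hh m
  have hS20 : 0 ≤ ∑ j ∈ range m, ww h j * uu h m j :=
    Finset.sum_nonneg fun j _ => mul_nonneg (hw j) (hu j)
  have hS3 : (∑ j ∈ range m, ww h j * uu h m j) ^ 2 ≤ 9 * Real.exp ((2 / 3) * (m * h)) := by
    have e1 : (3 * Real.exp (1 / 3 * (m * h))) ^ 2 = 9 * Real.exp ((2 / 3) * (m * h)) := by
      rw [mul_pow, ← Real.exp_nat_mul]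
      norm_num
      ring
    rw [← e1]
    exact pow_le_pow_left₀ hS20 hS2 2
  have main := grid_abs (fun y => ((et' c (K1 y) * K2 y).trace).re) D (3 * l) (9 * |t|) L
    ((2 / 3) * (m * h)) ε h' A (by positivity) hL hh' hh'1 hA (by positivity) (by positivity) hε.le
    (fun y hy => (dyson_bounds hu hw c y hy _ _ (hK y hy)).1)
    (fun y hy => ?_) (fun y hy => ?_) (fun y hy1 hy2 => ?_)
  · have e2 : 4 / (3 * Real.pi) * C0 ^ ((3 / 2 : ℝ)) * √lam * (m * h) =
        (2 / Real.pi) * D * ((2 / 3) * (m * h)) := by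
      rw [hD]
      have : Real.pi ≠ 0 := Real.pi_ne_zero
      field_simp
      norm_num
    rw [e2]
    refine main.trans ?_
    have e3 : ε * (2 / 3 * (m * h)) ≤ ε * (m * h) := by
      apply mul_le_mul_of_nonneg_left _ hε.le
      linarith
    linarith
  · refine (dyson_bounds hu hw c y hy _ _ (hK y hy)).2.1.trans ?_
    have e4 : (0 : ℝ) ≤ l := by positivity
    nlinarith
  · refine (dyson_bounds hu hw c y hy _ _ (hK y hy)).2.2.trans ?_
    rw [← ht]
    have e5 : t ≤ |t| := le_abs_self t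
    have e6 : 0 ≤ (∑ j ∈ range m, ww h j * uu h m j) ^ 2 / y ^ 2 := by positivity
    calc (∑ j ∈ range m, ww h j * uu h m j) ^ 2 / y ^ 2 * t
        ≤ (∑ j ∈ range m, ww h j * uu h m j) ^ 2 / y ^ 2 * |t| :=
          mul_le_mul_of_nonneg_left e5 e6
      _ ≤ (9 * Real.exp ((2 / 3) * (m * h))) / y ^ 2 * |t| := by gcongr
      _ = 9 * |t| * Real.exp ((2 / 3) * (m * h)) / y ^ 2 := by ring
  · exact H m h y hh hle hy1 hy2 _ _ (hK y (by linarith))

end Pool.Agent.OHP
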