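import Pool.Agent.Helper547.OH.Defs
import Pool.Agent.Helper547.OH.P_amp_mul
import Pool.Agent.Helper547.OH.P_star_amp
import Pool.Agent.Helper547.OH.P_amp_vec
import Pool.Agent.Helper547.OH.P_inner_vec
import Pool.Agent.Helper547.OH.P_resolv_props
import Pool.Agent.Helper547.OH.P_V_norm

/-! Definitions for the completely isometric embedding of OH into a von Neumann algebra predual. -/

set_option autoImplicit false

namespace Pool.Agent.OHP
open scoped InnerProductSpace ComplexConjugate ComplexOrder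
open Finset


theorem star_sum833 {H : Type} [NormedAddCommGroup H] [InnerProductSpace ℂ H] [CompleteSpace H]
    {ι : Type} (s : Finset ι) (f : ι → H →L[ℂ] H) :
    star (∑ i ∈ s, f i) = ∑ i ∈ s, star (f i) := star_sum s f

theorem norm_star833 {H : Type} [NormedAddCommGroup H] [InnerProductSpace ℂ H] [CompleteSpace H]
    (T : H →L[ℂ] H) : ‖star T‖ = ‖T‖ := norm_star T

section H833
variable {F : Type} [NormedAddCommGroup F] [InnerProductSpace ℂ F]

noncomputable def inc833 {l : ℕ} (q : Fin l) : F →L[ℂ] Hil (Fin l) F :=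
  ((PiLp.continuousLinearEquiv 2 ℂ (fun _ : Fin l => F)).symm : (Fin l → F) →L[ℂ] Hil (Fin l) F) ∘L
    (ContinuousLinearMap.pi fun p => ((Pi.single q 1 : Fin l → ℂ) p) • ContinuousLinearMap.id ℂ F)

theorem inc833_apply {l : ℕ} (q : Fin l) (ξ : F) : inc833 q ξ = vec (Pi.single q 1) ξ := by
  unfold inc833 vec
  rfl

noncomputable def prj833 {l : ℕ} (p : Fin l) : Hil (Fin l) F →L[ℂ] F :=
  (ContinuousLinearMap.proj p : (Fin l → F) →L[ℂ] F) ∘L
    ((PiLp.continuousLinearEquiv 2 ℂ (fun _ : Fin l => F)) : Hil (Fin l) F →L[ℂ] (Fin l → F))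

theorem prj833_apply {l : ℕ} (p : Fin l) (ζ : Hil (Fin l) F) : prj833 p ζ = ζ p := rfl

noncomputable def ent833 {l : ℕ} (W : Hil (Fin l) F →L[ℂ] Hil (Fin l) F) (p q : Fin l) :
    F →L[ℂ] F := prj833 p ∘L W ∘L inc833 q

theorem ent833_apply {l : ℕ} (W : Hil (Fin l) F →L[ℂ] Hil (Fin l) F) (p q : Fin l) (ξ : F) :
    ent833 W p q ξ = (W (vec (Pi.single q 1) ξ)) p := by
  show (W (inc833 q ξ)) p = _
  rw [inc833_apply]

theorem amp_one833 {l : ℕ} (R : F →L[ℂ] F) (ζ : Hil (Fin l) F) (p : Fin l) :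
    (amp (1 : Matrix (Fin l) (Fin l) ℂ) R ζ) p = R (ζ p) := by
  rw [amp_apply, Finset.sum_eq_single p]
  · rw [Matrix.one_apply_eq, one_smul]
  · intro q _ hq
    rw [Matrix.one_apply_ne (Ne.symm hq), zero_smul]
  · intro h; exact absurd (Finset.mem_univ p) h

theorem hil_sum833 {l : ℕ} {ι : Type} (s : Finset ι) (f : ι → Hil (Fin l) F) (p : Fin l) :
    (∑ i ∈ s, f i : Hil (Fin l) F) p = ∑ i ∈ s, f i p := by
  have h := map_sum (prj833 (F := F) p) f s
  exact h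

theorem ent833_comm {l : ℕ} (W : Hil (Fin l) F →L[ℂ] Hil (Fin l) F) (R : F →L[ℂ] F)
    (h : W * amp (1 : Matrix (Fin l) (Fin l) ℂ) R = amp (1 : Matrix (Fin l) (Fin l) ℂ) R * W)
    (p q : Fin l) : ent833 W p q * R = R * ent833 W p q := by
  ext ξ
  show ent833 W p q (R ξ) = R (ent833 W p q ξ)
  rw [ent833_apply, ent833_apply]
  have h1 : vec (Pi.single q 1 : Fin l → ℂ) (R ξ)
      = amp (1 : Matrix (Fin l) (Fin l) ℂ) R (vec (Pi.single q 1) ξ) := by
    rw [amp_vec, Matrix.one_mulVec]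
  have h2 : W (amp (1 : Matrix (Fin l) (Fin l) ℂ) R (vec (Pi.single q 1) ξ))
      = amp (1 : Matrix (Fin l) (Fin l) ℂ) R (W (vec (Pi.single q 1) ξ)) :=
    congrArg (fun L : Hil (Fin l) F →L[ℂ] Hil (Fin l) F => L (vec (Pi.single q 1) ξ)) h
  rw [h1, h2, amp_one833]

theorem vec_sum833 {l : ℕ} (ξ : Fin l → F) :
    ∑ q, vec (Pi.single q 1 : Fin l → ℂ) (ξ q) = (WithLp.toLp 2 ξ : Hil (Fin l) F) := by
  ext p
  rw [hil_sum833]
  rw [Finset.sum_eq_single p]
  · simp [vec]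
  · intro q _ hq
    simp [vec, Pi.single_apply, Ne.symm hq]
  · intro h; exact absurd (Finset.mem_univ p) h

theorem vec_expand833 {l : ℕ} (v : Fin l → ℂ) (ξ : F) :
    vec v ξ = ∑ q, v q • vec (Pi.single q 1 : Fin l → ℂ) ξ := by
  ext p
  rw [hil_sum833]
  rw [Finset.sum_eq_single p]
  · simp [vec]
  · intro q _ hq
    simp [vec, Pi.single_apply, Ne.symm hq]
  · intro h; exact absurd (Finset.mem_univ p) h

theorem inner_single833 {l : ℕ} (p : Fin l) (ω : F) (ζ : Hil (Fin l) F) :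
    ⟪vec (Pi.single p 1 : Fin l → ℂ) ω, ζ⟫_ℂ = ⟪ω, ζ p⟫_ℂ := by
  rw [PiLp.inner_apply, Finset.sum_eq_single p]
  · simp [vec]
  · intro q _ hq
    simp [vec, Pi.single_apply, hq]
  · intro h; exact absurd (Finset.mem_univ p) h

theorem ent833_bound {l : ℕ} (W : Hil (Fin l) F →L[ℂ] Hil (Fin l) F) (C : ℝ) (h : ‖W‖ ≤ C) :
    MatBound (ent833 W) C := by
  intro ξ η
  have h1 : ∑ p, ∑ q, ⟪η p, ent833 W p q (ξ q)⟫_ℂ
      = ⟪(WithLp.toLp 2 η : Hil (Fin l) F), W (WithLp.toLp 2 ξ)⟫_ℂ := by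
    rw [PiLp.inner_apply]
    apply Finset.sum_congr rfl
    intro p _
    rw [← inner_sum]
    congr 1
    rw [← vec_sum833, map_sum, hil_sum833]
    exact Finset.sum_congr rfl (fun q _ => ent833_apply W p q (ξ q))
  rw [h1]
  have h2 : ‖(WithLp.toLp 2 η : Hil (Fin l) F)‖ = √(∑ p, ‖η p‖ ^ 2) := by
    rw [PiLp.norm_eq_of_L2]
  have h3 : ‖(WithLp.toLp 2 ξ : Hil (Fin l) F)‖ = √(∑ p, ‖ξ p‖ ^ 2) := by
    rw [PiLp.norm_eq_of_L2]
  calc ‖⟪(WithLp.toLp 2 η : Hil (Fin l) F), W (WithLp.toLp 2 ξ)⟫_ℂ‖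
      ≤ ‖(WithLp.toLp 2 η : Hil (Fin l) F)‖ * ‖W (WithLp.toLp 2 ξ)‖ := norm_inner_le_norm _ _
    _ ≤ ‖(WithLp.toLp 2 η : Hil (Fin l) F)‖ * (C * ‖(WithLp.toLp 2 ξ : Hil (Fin l) F)‖) := by
        gcongr
        exact W.le_of_opNorm_le h _
    _ = C * (√(∑ p, ‖η p‖ ^ 2) * √(∑ q, ‖ξ q‖ ^ 2)) := by rw [h2, h3]; ring

variable [CompleteSpace F]

theorem tens_comm833 {m : ℕ} {u w : ℕ → ℝ} (M : Model (F := F) m u w) {n l : ℕ}
    (c : Fin n → Mat l) (R : F →L[ℂ] F) (h1 : ∀ i, M.X i * R = R * M.X i)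
    (h2 : ∀ i, star (M.X i) * R = R * star (M.X i)) :
    tens c M.X * amp (1 : Matrix (Fin l) (Fin l) ℂ) R
        = amp (1 : Matrix (Fin l) (Fin l) ℂ) R * tens c M.X ∧
    star (tens c M.X) * amp (1 : Matrix (Fin l) (Fin l) ℂ) R
        = amp (1 : Matrix (Fin l) (Fin l) ℂ) R * star (tens c M.X) := by
  constructor
  · unfold tens
    rw [Finset.sum_mul, Finset.mul_sum]
    apply Finset.sum_congr rfl
    intro i _
    rw [amp_mul, amp_mul, Matrix.mul_one, Matrix.one_mul, h1]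
  · unfold tens
    rw [star_sum833, Finset.sum_mul, Finset.mul_sum]
    apply Finset.sum_congr rfl
    intro i _
    rw [star_amp, amp_mul, amp_mul, Matrix.mul_one, Matrix.one_mul, h2]

theorem P2_comm833 {H : Type} [NormedAddCommGroup H] [InnerProductSpace ℂ H] [CompleteSpace H]
    {T : H →L[ℂ] H} {y : ℝ} {P1 P2 : H →L[ℂ] H} (hR : Resolv T y P1 P2) (Z : H →L[ℂ] H)
    (h1 : T * Z = Z * T) (h2 : star T * Z = Z * star T) : P2 * Z = Z * P2 := by
  have hB : (((y ^ 2 : ℝ) : ℂ) • (1 : H →L[ℂ] H) + star T * T) * Z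
      = Z * (((y ^ 2 : ℝ) : ℂ) • (1 : H →L[ℂ] H) + star T * T) := by
    rw [add_mul, mul_add, smul_mul_assoc, mul_smul_comm, one_mul, mul_one, mul_assoc, h1,
      ← mul_assoc, h2, mul_assoc]
  calc P2 * Z = P2 * Z * ((((y ^ 2 : ℝ) : ℂ) • (1 : H →L[ℂ] H) + star T * T) * P2) := by
        rw [hR.r2, mul_one]
    _ = P2 * (Z * (((y ^ 2 : ℝ) : ℂ) • (1 : H →L[ℂ] H) + star T * T)) * P2 := by
        simp only [mul_assoc]
    _ = P2 * ((((y ^ 2 : ℝ) : ℂ) • (1 : H →L[ℂ] H) + star T * T) * Z) * P2 := by rw [hB]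
    _ = (P2 * (((y ^ 2 : ℝ) : ℂ) • (1 : H →L[ℂ] H) + star T * T)) * Z * P2 := by
        simp only [mul_assoc]
    _ = Z * P2 := by rw [hR.l2, one_mul]

theorem P2_TT833 {H : Type} [NormedAddCommGroup H] [InnerProductSpace ℂ H] [CompleteSpace H]
    {T : H →L[ℂ] H} {y : ℝ} {P1 P2 : H →L[ℂ] H} (hR : Resolv T y P1 P2) :
    P2 * star T * T = star T * T * P2 := by
  have h1 := hR.l2
  have h2 := hR.r2
  rw [mul_add, mul_smul_comm, mul_one] at h1
  rw [add_mul, smul_mul_assoc, one_mul] at h2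
  have h3 : P2 * (star T * T) = star T * T * P2 := by
    have h4 : ((y ^ 2 : ℝ) : ℂ) • P2 + P2 * (star T * T)
        = ((y ^ 2 : ℝ) : ℂ) • P2 + star T * T * P2 := by rw [h1, h2]
    exact add_left_cancel h4
  rw [mul_assoc, h3]

end H833

theorem level_L {F : Type} [NormedAddCommGroup F] [InnerProductSpace ℂ F] [CompleteSpace F]
    {m : ℕ} {u w : ℕ → ℝ} (hu : ∀ j, 0 ≤ u j) (hw : ∀ j, 0 ≤ w j) (M : Model (F := F) m u w)
    {n l : ℕ} (c : Fin n → Mat l) (P1 P2 : ℝ → (Hil (Fin l) F →L[ℂ] Hil (Fin l) F))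
    (hR : ∀ y > 0, Resolv (tens c M.X) y (P1 y) (P2 y)) (h' : ℝ) (A : ℕ) (hh : 0 < h')
    (hh1 : h' ≤ 1 / 2) :
    ∃ x : Fin l → Fin l → (F →L[ℂ] F),
      (∀ p q i, x p q * M.Y i = M.Y i * x p q ∧ x p q * star (M.Y i) = star (M.Y i) * x p q) ∧
      MatBound x (1 + h') ∧
      ∑ p, ∑ q, ∑ i : Fin n, c i q p * ⟪omg m w M.e, x p q (M.X i (omg m w M.e))⟫_ℂ =
        ∑ j ∈ range (2 * A + 1), (((2 / Real.pi) * h' * Real.exp (((j : ℝ) - A) * h') : ℝ) : ℂ) *
        (∑ r : Fin l, ⟪vec (Pi.single r 1) (omg m w M.e), (star (tens c M.X) * tens c M.X *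
          P2 (Real.exp (((j : ℝ) - A) * h'))) (vec (Pi.single r 1) (omg m w M.e))⟫_ℂ) := by
  obtain ⟨T, hT⟩ : ∃ T : Hil (Fin l) F →L[ℂ] Hil (Fin l) F, T = tens c M.X := ⟨_, rfl⟩
  rw [← hT] at hR ⊢
  obtain ⟨cf, hcf⟩ : ∃ cf : ℕ → ℝ, cf = fun j : ℕ =>
    (2 / Real.pi) * h' * Real.exp (((j : ℝ) - A) * h') := ⟨_, rfl⟩
  obtain ⟨y, hy⟩ : ∃ y : ℕ → ℝ, y = fun j : ℕ => Real.exp (((j : ℝ) - A) * h') := ⟨_, rfl⟩
  have hypos : ∀ j, 0 < y j := by intro j; rw [hy]; exact Real.exp_pos _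
  obtain ⟨VV, hV⟩ : ∃ VV : Hil (Fin l) F →L[ℂ] Hil (Fin l) F,
    VV = ∑ j ∈ range (2 * A + 1), ((cf j : ℝ) : ℂ) • (T * P2 (y j)) := ⟨_, rfl⟩
  have hVn : ‖VV‖ ≤ 1 + h' := by
    rw [hV, hcf, hy]
    exact V_norm T h' hh (by linarith) A P1 P2 hR
  have hW : star VV = ∑ j ∈ range (2 * A + 1), ((cf j : ℝ) : ℂ) • (P2 (y j) * star T) := by
    rw [hV, star_sum833]
    apply Finset.sum_congr rfl
    intro j _
    rw [star_smul, star_mul, (resolv_props (hypos j) (hR _ (hypos j))).2.1]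
    congr 1
    exact Complex.conj_ofReal _
  have hWn : ‖star VV‖ ≤ 1 + h' := by rw [norm_star833]; exact hVn
  have hcomm : ∀ R : F →L[ℂ] F, (∀ i, M.X i * R = R * M.X i) →
      (∀ i, star (M.X i) * R = R * star (M.X i)) →
      star VV * amp (1 : Matrix (Fin l) (Fin l) ℂ) R
        = amp (1 : Matrix (Fin l) (Fin l) ℂ) R * star VV := by
    intro R h1 h2
    obtain ⟨k1, k2⟩ := tens_comm833 M c R h1 h2
    rw [← hT] at k1 k2
    rw [hW, Finset.sum_mul, Finset.mul_sum]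
    apply Finset.sum_congr rfl
    intro j _
    rw [smul_mul_assoc, mul_smul_comm, mul_assoc, k2, ← mul_assoc,
      P2_comm833 (hR _ (hypos j)) _ k1 k2, mul_assoc]
  refine ⟨ent833 (star VV), ?_, ent833_bound _ _ hWn, ?_⟩
  · intro p q i
    constructor
    · apply ent833_comm
      exact hcomm (M.Y i) (fun k => M.comm1 k i) (fun k => M.comm2 k i)
    · apply ent833_comm
      apply hcomm
      · intro k
        have h1 := congrArg star (M.comm2 k i)
        rw [star_mul, star_mul, star_star] at h1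
        exact h1.symm
      · intro k
        have h1 := congrArg star (M.comm1 k i)
        rw [star_mul, star_mul] at h1
        exact h1.symm
  · have hTvec : ∀ p : Fin l, T (vec (Pi.single p 1) (omg m w M.e))
        = ∑ i : Fin n, ∑ q, c i q p • vec (Pi.single q 1 : Fin l → ℂ) (M.X i (omg m w M.e)) := by
      intro p
      rw [hT]
      unfold tens
      rw [_root_.sum_apply]
      apply Finset.sum_congr rfl
      intro i _
      rw [amp_vec, vec_expand833]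
      apply Finset.sum_congr rfl
      intro q _
      rw [Matrix.mulVec_single_one]
      rfl
    have hLHS : ∀ p : Fin l, ∑ q, ∑ i : Fin n,
          c i q p * ⟪omg m w M.e, ent833 (star VV) p q (M.X i (omg m w M.e))⟫_ℂ
        = ⟪vec (Pi.single p 1) (omg m w M.e),
            star VV (T (vec (Pi.single p 1) (omg m w M.e)))⟫_ℂ := by
      intro p
      rw [inner_single833, hTvec, map_sum, hil_sum833, inner_sum, Finset.sum_comm]
      apply Finset.sum_congr rfl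
      intro i _
      rw [map_sum, hil_sum833, inner_sum]
      apply Finset.sum_congr rfl
      intro q _
      rw [map_smul, PiLp.smul_apply, inner_smul_right, ent833_apply]
    rw [Finset.sum_congr rfl (fun p _ => hLHS p)]
    have hWT : ∀ ζ : Hil (Fin l) F, star VV (T ζ)
        = ∑ j ∈ range (2 * A + 1), ((cf j : ℝ) : ℂ) • ((star T * T * P2 (y j)) ζ) := by
      intro ζ
      rw [hW, _root_.sum_apply]
      apply Finset.sum_congr rfl
      intro j _
      rw [← P2_TT833 (hR _ (hypos j))]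
      rfl
    have hR2 : ∀ p : Fin l, ⟪vec (Pi.single p 1) (omg m w M.e),
            star VV (T (vec (Pi.single p 1) (omg m w M.e)))⟫_ℂ
        = ∑ j ∈ range (2 * A + 1), ((cf j : ℝ) : ℂ) *
          ⟪vec (Pi.single p 1) (omg m w M.e),
            (star T * T * P2 (y j)) (vec (Pi.single p 1) (omg m w M.e))⟫_ℂ := by
      intro p
      rw [hWT, inner_sum]
      apply Finset.sum_congr rfl
      intro j _
      rw [inner_smul_right]
    rw [Finset.sum_congr rfl (fun p _ => hR2 p), Finset.sum_comm]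
    apply Finset.sum_congr rfl
    intro j _
    rw [← Finset.mul_sum, hcf, hy]

end Pool.Agent.OHP
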