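import Pool.Agent.Helper547.OH.Defs
import Pool.Agent.Helper547.OH.P_factor_vec
import Pool.Agent.Helper547.OH.P_abs_grid
import Pool.Agent.Helper547.OH.P_blk_props
import Pool.Agent.Helper547.OH.P_blk_comm

/-! Definitions for the completely isometric embedding of OH into a von Neumann algebra predual. -/

set_option autoImplicit false

namespace Pool.Agent.OHP
open scoped InnerProductSpace ComplexConjugate ComplexOrder
open Finset


theorem lu_resolv {F : Type} [NormedAddCommGroup F] [InnerProductSpace ℂ F] [CompleteSpace F]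
    {l : ℕ} (t : Hil (Fin l) F →L[ℂ] Hil (Fin l) F) (y : ℝ)
    (P1 P2 : Hil (Fin l) F →L[ℂ] Hil (Fin l) F) (h : Resolv t y P1 P2) :
    Resolv (blk t) y (blk P1) (blk P2) := by
  obtain ⟨bm, ba, bs, b1, bst, -⟩ := blk_props (F := F) (l := l)
  have e1 : ((y ^ 2 : ℝ) : ℂ) • (1 : Hil (Fin l × Fin l) F →L[ℂ] Hil (Fin l × Fin l) F) +
      blk t * star (blk t) = blk (((y ^ 2 : ℝ) : ℂ) • (1 : Hil (Fin l) F →L[ℂ] Hil (Fin l) F) +
        t * star t) := by
    rw [ba, bs, b1, bm, bst]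
  have e2 : ((y ^ 2 : ℝ) : ℂ) • (1 : Hil (Fin l × Fin l) F →L[ℂ] Hil (Fin l × Fin l) F) +
      star (blk t) * blk t = blk (((y ^ 2 : ℝ) : ℂ) • (1 : Hil (Fin l) F →L[ℂ] Hil (Fin l) F) +
        star t * t) := by
    rw [ba, bs, b1, bm, bst]
  exact ⟨by rw [e1, ← bm, h.l1, b1], by rw [e1, ← bm, h.r1, b1], by rw [e2, ← bm, h.l2, b1],
    by rw [e2, ← bm, h.r2, b1]⟩

theorem lu_inner {F : Type} [NormedAddCommGroup F] [InnerProductSpace ℂ F] {l : ℕ}
    (x : F →L[ℂ] F) (p q : Fin l) (α β : Hil (Fin l × Fin l) F) :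
    ⟪α, (amp (Matrix.kroneckerMap (· * ·) (1 : Mat l) (Matrix.single p q (1 : ℂ))) x) β⟫_ℂ =
      ∑ r, ⟪α (r, p), x (β (r, q))⟫_ℂ := by
  rw [PiLp.inner_apply, Fintype.sum_prod_type]
  apply Finset.sum_congr rfl
  intro r _
  have h1 : ∀ p' : Fin l,
      (amp (Matrix.kroneckerMap (· * ·) (1 : Mat l) (Matrix.single p q (1 : ℂ))) x β) (r, p') =
        if p' = p then x (β (r, q)) else 0 := by
    intro p'
    rw [amp_apply, Fintype.sum_prod_type]
    rw [Finset.sum_eq_single r, Finset.sum_eq_single q]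
    · simp only [Matrix.kroneckerMap_apply, Matrix.one_apply_eq, one_mul]
      by_cases hp : p' = p
      · subst hp
        rw [Matrix.single_apply_same, one_smul, if_pos rfl]
      · rw [Matrix.single_apply_of_ne, zero_smul, if_neg hp]
        rintro ⟨h, _⟩
        exact hp h.symm
    · intro q' _ hq'
      simp only [Matrix.kroneckerMap_apply]
      rw [Matrix.single_apply_of_ne, mul_zero, zero_smul]
      rintro ⟨_, h⟩
      exact hq' h.symm
    · intro h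
      exact absurd (Finset.mem_univ _) h
    · intro r' _ hr'
      apply Finset.sum_eq_zero
      intro q' _
      simp only [Matrix.kroneckerMap_apply]
      rw [Matrix.one_apply_ne (Ne.symm hr'), zero_mul, zero_smul]
    · intro h
      exact absurd (Finset.mem_univ _) h
  rw [Finset.sum_eq_single p]
  · rw [h1, if_pos rfl]
  · intro p' _ hp'
    rw [h1, if_neg hp', inner_zero_right]
  · intro h
    exact absurd (Finset.mem_univ _) h

theorem level_U {F : Type} [NormedAddCommGroup F] [InnerProductSpace ℂ F] [CompleteSpace F]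
    {m : ℕ} {u w : ℕ → ℝ} (hu : ∀ j, 0 ≤ u j) (hw : ∀ j, 0 ≤ w j) (M : Model (F := F) m u w)
    {n l : ℕ} (c : Fin n → Mat l) (P1 P2 : ℝ → (Hil (Fin l) F →L[ℂ] Hil (Fin l) F))
    (hR : ∀ y > 0, Resolv (tens c M.X) y (P1 y) (P2 y)) :
    ∃ D : ℝ, ∀ (h' : ℝ) (A : ℕ), 0 < h' → h' ≤ 1 / 2 →
      ∃ α β : Fin l → Fin l → F,
      (1 - h') * ∑ r, ∑ p, ‖α r p‖ ^ 2 ≤
        ∑ j ∈ range (2 * A + 1), (2 / Real.pi) * h' * Real.exp (((j : ℝ) - A) * h') *
        (∑ r : Fin l, ⟪vec (Pi.single r 1) (omg m w M.e), (star (tens c M.X) * tens c M.X *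
          P2 (Real.exp (((j : ℝ) - A) * h'))) (vec (Pi.single r 1) (omg m w M.e))⟫_ℂ).re +
          D * Real.exp (-(A * h')) ∧
      (1 - h') * ∑ r, ∑ p, ‖β r p‖ ^ 2 ≤
        ∑ j ∈ range (2 * A + 1), (2 / Real.pi) * h' * Real.exp (((j : ℝ) - A) * h') *
        (∑ r : Fin l, ⟪vec (Pi.single r 1) (omg m w M.e), (star (tens c M.X) * tens c M.X *
          P2 (Real.exp (((j : ℝ) - A) * h'))) (vec (Pi.single r 1) (omg m w M.e))⟫_ℂ).re +
          D * Real.exp (-(A * h')) ∧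
      ∀ x : F →L[ℂ] F, (∀ i, x * M.Y i = M.Y i * x ∧ x * star (M.Y i) = star (M.Y i) * x) →
        ∀ p q : Fin l, ∑ i : Fin n, c i q p * ⟪omg m w M.e, x (M.X i (omg m w M.e))⟫_ℂ =
          ∑ r, ⟪α r p, x (β r q)⟫_ℂ := by
  obtain ⟨bm, ba, bs, b1, bst, bin⟩ := blk_props (F := F) (l := l)
  set t := tens c M.X with ht
  set T := blk t with hT
  set Y := tens (fun i => Matrix.kroneckerMap (· * ·) (c i).transpose (1 : Mat l)) M.Y with hY
  set Om : Hil (Fin l × Fin l) F := WithLp.toLp 2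
      (fun rp : Fin l × Fin l => if rp.1 = rp.2 then omg m w M.e else 0) with hOm
  obtain ⟨c1, c2, o1, o2, hx⟩ := blk_comm M c T Y hT hY Om hOm
  refine ⟨(4 * (‖T‖ ^ 2 + 1) + 1) * ‖Om‖ ^ 2, ?_⟩
  intro h' A hh hh1
  obtain ⟨α, β, hα, hβ, hrep⟩ := factor_vec T Y Om c1 c2 o1 o2 (Real.exp (-(A * h')))
    (Real.exp_pos _)
  have hgrid := abs_grid T Om h' hh (by linarith) A (fun y => blk (P1 y)) (fun y => blk (P2 y))
    (fun y hy => lu_resolv t y _ _ (hR y hy))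
  have hterm : ∀ y : ℝ, (⟪Om, (star T * T * blk (P2 y)) Om⟫_ℂ).re =
      (∑ r : Fin l, ⟪vec (Pi.single r 1) (omg m w M.e), (star t * t * P2 y)
        (vec (Pi.single r 1) (omg m w M.e))⟫_ℂ).re := by
    intro y
    rw [hT, bst, ← bm, ← bm, hOm, bin]
  simp only [hterm] at hgrid
  have hbound : ∀ v : Hil (Fin l × Fin l) F,
      ‖v‖ ^ 2 ≤ (⟪Om, (CFC.sqrt (star T * T)) Om⟫_ℂ).re + Real.exp (-(A * h')) * ‖Om‖ ^ 2 →
      (1 - h') * ∑ r : Fin l, ∑ p : Fin l, ‖v (r, p)‖ ^ 2 ≤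
        ∑ j ∈ range (2 * A + 1), (2 / Real.pi) * h' * Real.exp (((j : ℝ) - A) * h') *
        (∑ r : Fin l, ⟪vec (Pi.single r 1) (omg m w M.e), (star t * t *
          P2 (Real.exp (((j : ℝ) - A) * h'))) (vec (Pi.single r 1) (omg m w M.e))⟫_ℂ).re +
          (4 * (‖T‖ ^ 2 + 1) + 1) * ‖Om‖ ^ 2 * Real.exp (-(A * h')) := by
    intro v hv
    have h1 : ‖v‖ ^ 2 = ∑ r : Fin l, ∑ p : Fin l, ‖v (r, p)‖ ^ 2 := by
      rw [PiLp.norm_sq_eq_of_L2, Fintype.sum_prod_type]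
    rw [← h1]
    have h2 : (1 - h') * ‖v‖ ^ 2 ≤ (1 - h') * ((⟪Om, (CFC.sqrt (star T * T)) Om⟫_ℂ).re +
        Real.exp (-(A * h')) * ‖Om‖ ^ 2) :=
      mul_le_mul_of_nonneg_left hv (by linarith)
    have h3 : (1 - h') * (Real.exp (-(A * h')) * ‖Om‖ ^ 2) ≤ Real.exp (-(A * h')) * ‖Om‖ ^ 2 := by
      apply mul_le_of_le_one_left
      · positivity
      · linarith
    calc (1 - h') * ‖v‖ ^ 2 ≤ (1 - h') * ((⟪Om, (CFC.sqrt (star T * T)) Om⟫_ℂ).re +
        Real.exp (-(A * h')) * ‖Om‖ ^ 2) := h2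
      _ = (1 - h') * (⟪Om, (CFC.sqrt (star T * T)) Om⟫_ℂ).re +
        (1 - h') * (Real.exp (-(A * h')) * ‖Om‖ ^ 2) := by ring
      _ ≤ _ := by
        refine (add_le_add hgrid h3).trans (le_of_eq ?_)
        ring
  refine ⟨fun r p => α (r, p), fun r q => β (r, q), hbound α hα, hbound β hβ, ?_⟩
  intro x hxc p q
  obtain ⟨x1, x2, x3⟩ := hx x hxc p q
  rw [← x3, hrep _ x1 x2, lu_inner]

end Pool.Agent.OHP
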