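import Pool.Agent.Helper547.OH.Defs
import Pool.Agent.Helper547.OH.P_amp_vec
import Pool.Agent.Helper547.OH.P_inner_vec
import Pool.Agent.Helper547.OH.P_comp_bilin
import Pool.Agent.Helper547.OH.P_resolv_props
import Pool.Agent.Helper547.OH.P_dys_comp1
import Pool.Agent.Helper547.OH.P_dys_comp2

/-! Definitions for the completely isometric embedding of OH into a von Neumann algebra predual. -/

set_option autoImplicit false

namespace Pool.Agent.OHP
open scoped InnerProductSpace ComplexConjugate ComplexOrder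
open Finset


theorem vec_sum_aux {F : Type} [NormedAddCommGroup F] [InnerProductSpace ℂ F] {ι : Type} [Fintype ι]
    (v : ι → ℂ) (s : Finset ℕ) (a : ℕ → ℂ) (e : ℕ → F) :
    vec v (∑ j ∈ s, a j • e j) = ∑ j ∈ s, a j • vec v (e j) := by
  ext p
  have : (∑ j ∈ s, a j • vec v (e j)) p = ∑ j ∈ s, (a j • vec v (e j)) p := by
    rw [WithLp.ofLp_sum, Finset.sum_apply]
  rw [this]
  simp only [vec, PiLp.smul_apply]
  rw [Finset.smul_sum]
  refine Finset.sum_congr rfl fun j _ => ?_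
  rw [smul_comm]

theorem comp_diag_aux {F : Type} [NormedAddCommGroup F] [InnerProductSpace ℂ F] {l : ℕ}
    (P : Hil (Fin l) F →L[ℂ] Hil (Fin l) F) (e : ℕ → F) (R : ℕ → Mat l)
    (hR : ∀ j, IsUnit (R j).det)
    (h : ∀ (v v' : Fin l → ℂ) (j j' : ℕ), ⟪vec v' (e j'), P (vec ((R j).mulVec v) (e j))⟫_ℂ =
      if j = j' then ∑ i, conj (v' i) * v i else 0) (m : ℕ) (a : ℕ → ℝ) :
    comp P (∑ j ∈ range m, ((a j : ℝ) : ℂ) • e j) =
      ∑ j ∈ range m, ((a j ^ 2 : ℝ) : ℂ) • (R j)⁻¹ := by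
  ext p q
  have key : ∀ j j' : ℕ, ⟪vec (Pi.single p 1) (e j'), P (vec (Pi.single q 1) (e j))⟫_ℂ =
      if j = j' then (R j)⁻¹ p q else 0 := by
    intro j j'
    have h1 := h ((R j)⁻¹.mulVec (Pi.single q 1)) (Pi.single p 1) j j'
    rw [Matrix.mulVec_mulVec, Matrix.mul_nonsing_inv _ (hR j), Matrix.one_mulVec] at h1
    rw [h1]
    congr 1
    rw [Finset.sum_eq_single p]
    · simp [Matrix.mulVec_single]
    · intro b _ hb
      simp [Pi.single_apply, hb]
    · simp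
  show ⟪vec (Pi.single p 1) (∑ j ∈ range m, ((a j : ℝ) : ℂ) • e j),
    P (vec (Pi.single q 1) (∑ j ∈ range m, ((a j : ℝ) : ℂ) • e j))⟫_ℂ = _
  rw [vec_sum_aux, vec_sum_aux, map_sum, sum_inner]
  rw [Matrix.sum_apply]
  refine Finset.sum_congr rfl fun j hj => ?_
  rw [inner_sum, Finset.sum_eq_single j]
  · rw [map_smul, inner_smul_left, inner_smul_right, key, if_pos rfl, Matrix.smul_apply,
      Complex.conj_ofReal, smul_eq_mul]
    push_cast
    ring
  · intro b _ hb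
    rw [map_smul, inner_smul_left, inner_smul_right, key, if_neg hb]
    simp
  · intro hj'
    exact absurd hj hj'

theorem comp_pos_aux {F : Type} [NormedAddCommGroup F] [InnerProductSpace ℂ F] [CompleteSpace F]
    {l : ℕ} (P : Hil (Fin l) F →L[ℂ] Hil (Fin l) F) (hP : P.IsPositive) (ξ : F) :
    (comp P ξ).PosSemidef := by
  refine Matrix.PosSemidef.of_dotProduct_mulVec_nonneg ?_ ?_
  · ext p q
    rw [Matrix.conjTranspose_apply]
    show star ⟪vec (Pi.single q 1) ξ, P (vec (Pi.single p 1) ξ)⟫_ℂ =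
      ⟪vec (Pi.single p 1) ξ, P (vec (Pi.single q 1) ξ)⟫_ℂ
    have h1 : star ⟪vec (Pi.single q 1) ξ, P (vec (Pi.single p 1) ξ)⟫_ℂ =
      ⟪P (vec (Pi.single p 1) ξ), vec (Pi.single q 1) ξ⟫_ℂ := inner_conj_symm _ _
    rw [h1]
    exact hP.isSymmetric _ _
  · intro v
    have h1 := comp_bilin P ξ v v
    have h2 : star v ⬝ᵥ (comp P ξ).mulVec v = ⟪vec v ξ, P (vec v ξ)⟫_ℂ := by
      rw [h1]
      rfl
    rw [h2]
    exact hP.inner_nonneg_right _

theorem et_pos_aux {n l : ℕ} (c : Fin n → Mat l) (K : Mat l) (hK : K.PosSemidef) :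
    (et c K).PosSemidef := by
  unfold et
  exact Matrix.posSemidef_sum _ fun i _ => hK.mul_mul_conjTranspose_same (c i)

theorem et'_pos_aux {n l : ℕ} (c : Fin n → Mat l) (K : Mat l) (hK : K.PosSemidef) :
    (et' c K).PosSemidef := by
  unfold et'
  exact Matrix.posSemidef_sum _ fun i _ => hK.conjTranspose_mul_mul_same (c i)

theorem unit_aux {l : ℕ} (y u : ℝ) (hy : 0 < y) (hu : 0 ≤ u) (B : Mat l) (hB : B.PosSemidef) :
    IsUnit ((y : ℂ) • (1 : Mat l) + (u : ℂ) • B).det := by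
  have h1 : ((y : ℂ) • (1 : Mat l)).PosDef :=
    Matrix.PosDef.smul Matrix.PosDef.one (by exact_mod_cast hy)
  have h2 : ((u : ℂ) • B).PosSemidef := hB.smul (by exact_mod_cast hu)
  have h3 := h1.add_posSemidef h2
  exact (Matrix.isUnit_iff_isUnit_det _).mp h3.isUnit

/-- the Dyson equations hold in the Fock model, with the formula for `Q` -/
theorem model_dyson {F : Type} [NormedAddCommGroup F] [InnerProductSpace ℂ F] [CompleteSpace F]
    {m : ℕ} {u w : ℕ → ℝ} (hu : ∀ j, 0 ≤ u j) (hw : ∀ j, 0 ≤ w j) (M : Model (F := F) m u w)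
    {n l : ℕ} (c : Fin n → Mat l) (y : ℝ) (hy : 0 < y)
    (P1 P2 : Hil (Fin l) F →L[ℂ] Hil (Fin l) F) (hR : Resolv (tens c M.X) y P1 P2) :
    Dyson m u w y c (comp ((y : ℂ) • P1) (zeta m u w M.e)) (comp ((y : ℂ) • P2) (zeta m u w M.e)) ∧
    ∑ r : Fin l, ⟪vec (Pi.single r 1) (omg m w M.e),
      (star (tens c M.X) * tens c M.X * P2) (vec (Pi.single r 1) (omg m w M.e))⟫_ℂ =
      (et' c (comp ((y : ℂ) • P1) (zeta m u w M.e)) *
        comp ((y : ℂ) • P2) (zeta m u w M.e)).trace := by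
  obtain ⟨-, -, -, -, hp1, hp2⟩ := resolv_props hy hR
  have hyc : (0 : ℂ) ≤ (y : ℂ) := by exact_mod_cast hy.le
  have hq1 : ((y : ℂ) • P1).IsPositive := hp1.smul_of_nonneg hyc
  have hq2 : ((y : ℂ) • P2).IsPositive := hp2.smul_of_nonneg hyc
  have hK1 := comp_pos_aux _ hq1 (zeta m u w M.e)
  have hK2 := comp_pos_aux _ hq2 (zeta m u w M.e)
  have hc1 := dys_comp1 hu M c y hy P1 P2 hR
  have hc2 := dys_comp2 hu M c y hy P1 P2 hR
  generalize hk1 : comp ((y : ℂ) • P1) (zeta m u w M.e) = K1 at *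
  generalize hk2 : comp ((y : ℂ) • P2) (zeta m u w M.e) = K2 at *
  have hE1 := et_pos_aux c K2 hK2
  have hE2 := et'_pos_aux c K1 hK1
  have hU1 : ∀ j, IsUnit ((y : ℂ) • (1 : Mat l) + (u j : ℂ) • et c K2).det := fun j =>
    unit_aux y (u j) hy (hu j) _ hE1
  have hU2 : ∀ j, IsUnit ((y : ℂ) • (1 : Mat l) + (u j : ℂ) • et' c K1).det := fun j =>
    unit_aux y (u j) hy (hu j) _ hE2
  have hsq : ∀ j, √(w j * u j) ^ 2 = w j * u j := fun j => Real.sq_sqrt (mul_nonneg (hw j) (hu j))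
  have hsw : ∀ j, √(w j) ^ 2 = w j := fun j => Real.sq_sqrt (hw j)
  have e1 : K1 = dys m u w y (et c K2) := by
    rw [← hk1]
    unfold zeta
    rw [comp_diag_aux _ M.e _ hU1 hc1 m (fun j => √(w j * u j))]
    unfold dys
    refine Finset.sum_congr rfl fun j _ => ?_
    rw [hsq]
  have e2 : K2 = dys m u w y (et' c K1) := by
    rw [← hk2]
    unfold zeta
    rw [comp_diag_aux _ M.e _ hU2 hc2 m (fun j => √(w j * u j))]
    unfold dys
    refine Finset.sum_congr rfl fun j _ => ?_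
    rw [hsq]
  refine ⟨⟨hK1, hK2, e1, e2⟩, ?_⟩
  -- the second part
  have hom : comp ((y : ℂ) • P2) (omg m w M.e) = ∑ j ∈ range m,
      ((w j : ℝ) : ℂ) • ((y : ℂ) • (1 : Mat l) + (u j : ℂ) • et' c K1)⁻¹ := by
    unfold omg
    rw [comp_diag_aux _ M.e _ hU2 hc2 m (fun j => √(w j))]
    refine Finset.sum_congr rfl fun j _ => ?_
    rw [hsw]
  have hT : star (tens c M.X) * tens c M.X * P2 = 1 - (y : ℂ) • ((y : ℂ) • P2) := by
    have h1 := hR.r2
    rw [add_mul, smul_mul_assoc, one_mul] at h1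
    rw [eq_sub_iff_add_eq, smul_smul, ← h1, add_comm]
    congr 2
    push_cast
    ring
  have hOm : ⟪omg m w M.e, omg m w M.e⟫_ℂ = ∑ j ∈ range m, ((w j : ℝ) : ℂ) := by
    unfold omg
    rw [sum_inner]
    refine Finset.sum_congr rfl fun j hj => ?_
    rw [inner_sum, Finset.sum_eq_single j]
    · rw [inner_smul_left, inner_smul_right, M.orth, if_pos rfl, Complex.conj_ofReal, mul_one,
        ← Complex.ofReal_mul, ← pow_two, hsw]
    · intro b _ hb
      rw [inner_smul_left, inner_smul_right, M.orth, if_neg (Ne.symm hb)]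
      simp
    · intro hj'
      exact absurd hj hj'
  have hterm : ∀ r : Fin l, ⟪vec (Pi.single r 1) (omg m w M.e),
      (star (tens c M.X) * tens c M.X * P2) (vec (Pi.single r 1) (omg m w M.e))⟫_ℂ =
      (∑ j ∈ range m, ((w j : ℝ) : ℂ)) - (y : ℂ) * comp ((y : ℂ) • P2) (omg m w M.e) r r := by
    intro r
    rw [hT]
    have h1 : ((1 - (y : ℂ) • ((y : ℂ) • P2) : Hil (Fin l) F →L[ℂ] Hil (Fin l) F))
        (vec (Pi.single r 1) (omg m w M.e)) = vec (Pi.single r 1) (omg m w M.e) -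
        (y : ℂ) • (((y : ℂ) • P2) (vec (Pi.single r 1) (omg m w M.e))) := by
      rfl
    rw [h1, inner_sub_right, inner_smul_right, inner_vec, hOm]
    congr 1
    rw [Finset.sum_eq_single r]
    · simp
    · intro b _ hb
      simp [Pi.single_apply, hb]
    · simp
  rw [Finset.sum_congr rfl fun r _ => hterm r, hom]
  rw [e2]
  unfold dys
  rw [Finset.mul_sum, Matrix.trace_sum]
  have hbig : ∀ j, (l : ℂ) - (y : ℂ) *
      (((y : ℂ) • (1 : Mat l) + (u j : ℂ) • et' c K1)⁻¹).trace =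
      (u j : ℂ) * (et' c K1 * ((y : ℂ) • (1 : Mat l) + (u j : ℂ) • et' c K1)⁻¹).trace := by
    intro j
    have h1 := Matrix.mul_nonsing_inv _ (hU2 j)
    rw [add_mul, smul_mul_assoc, smul_mul_assoc, one_mul] at h1
    have h2 := congrArg Matrix.trace h1
    rw [Matrix.trace_add, Matrix.trace_smul, Matrix.trace_smul, Matrix.trace_one,
      Fintype.card_fin, smul_eq_mul, smul_eq_mul] at h2
    rw [← h2]
    ring
  have hL : ∑ r : Fin l, ((∑ j ∈ range m, ((w j : ℝ) : ℂ)) - (y : ℂ) *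
      (∑ j ∈ range m, ((w j : ℝ) : ℂ) •
        ((y : ℂ) • (1 : Mat l) + (u j : ℂ) • et' c K1)⁻¹) r r) =
      ∑ j ∈ range m, ((w j : ℝ) : ℂ) * ((l : ℂ) - (y : ℂ) *
        (((y : ℂ) • (1 : Mat l) + (u j : ℂ) • et' c K1)⁻¹).trace) := by
    simp_rw [Matrix.sum_apply, Matrix.smul_apply, Finset.mul_sum, ← Finset.sum_sub_distrib]
    rw [Finset.sum_comm]
    refine Finset.sum_congr rfl fun j _ => ?_
    rw [Matrix.trace, Finset.sum_sub_distrib, Finset.sum_const, Finset.card_univ,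
      Fintype.card_fin, nsmul_eq_mul, mul_sub, Finset.mul_sum, Finset.mul_sum]
    congr 1
    · ring
    · refine Finset.sum_congr rfl fun r _ => ?_
      rw [Matrix.diag_apply, smul_eq_mul]
      ring
  rw [hL]
  refine Finset.sum_congr rfl fun j _ => ?_
  rw [hbig, mul_smul_comm, Matrix.trace_smul, smul_eq_mul]
  push_cast
  ring

end Pool.Agent.OHP
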