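import Pool.Agent.Helper547.OH.Defs

/-! Definitions for the completely isometric embedding of OH into a von Neumann algebra predual. -/

set_option autoImplicit false

namespace Pool.Agent.OHP
open scoped InnerProductSpace ComplexConjugate ComplexOrder
open Finset


theorem resolv_isUnit_aux {H : Type} [NormedAddCommGroup H] [InnerProductSpace ℂ H]
    [CompleteSpace H] (S : H →L[ℂ] H) (hS : 0 ≤ S) (y : ℝ) (hy : 0 < y) :
    IsUnit (((y ^ 2 : ℝ) : ℂ) • (1 : H →L[ℂ] H) + S) := by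
  have h : (-(y ^ 2) : ℝ) ∉ spectrum ℝ S := fun h => by
    have := spectrum_nonneg_of_nonneg hS h
    nlinarith
  rw [spectrum.notMem_iff] at h
  have e : algebraMap ℝ (H →L[ℂ] H) (-(y ^ 2)) - S =
      -(((y ^ 2 : ℝ) : ℂ) • (1 : H →L[ℂ] H) + S) := by
    rw [IsScalarTower.algebraMap_apply ℝ ℂ (H →L[ℂ] H), Algebra.algebraMap_eq_smul_one,
      Complex.coe_algebraMap, neg_add, ← neg_smul, ← Complex.ofReal_neg, sub_eq_add_neg]
  rw [e, IsUnit.neg_iff] at h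
  exact h

theorem resolv_exists {H : Type} [NormedAddCommGroup H] [InnerProductSpace ℂ H] [CompleteSpace H]
    (T : H →L[ℂ] H) (y : ℝ) (hy : 0 < y) : ∃ P1 P2 : H →L[ℂ] H, Resolv T y P1 P2 := by
  obtain ⟨a, ha⟩ := resolv_isUnit_aux (T * star T) (mul_star_self_nonneg T) y hy
  obtain ⟨b, hb⟩ := resolv_isUnit_aux (star T * T) (star_mul_self_nonneg T) y hy
  refine ⟨((a⁻¹ : (H →L[ℂ] H)ˣ) : H →L[ℂ] H), ((b⁻¹ : (H →L[ℂ] H)ˣ) : H →L[ℂ] H), ?_, ?_, ?_, ?_⟩
  · rw [← ha, Units.inv_mul]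
  · rw [← ha, Units.mul_inv]
  · rw [← hb, Units.inv_mul]
  · rw [← hb, Units.mul_inv]

end Pool.Agent.OHP
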