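import Pool.Agent.Helper547.OH.Defs
import Pool.Agent.Helper547.OH.P_resolv_exists
import Pool.Agent.Helper547.OH.P_model_dyson
import Pool.Agent.Helper547.OH.P_level_U
import Pool.Agent.Helper547.OH.P_level_L

/-! Definitions for the completely isometric embedding of OH into a von Neumann algebra predual. -/

set_option autoImplicit false

namespace Pool.Agent.OHP
open scoped InnerProductSpace ComplexConjugate ComplexOrder
open Finset


theorem lvl_herm {l : ℕ} (A B : Mat l) (hA : A.IsHermitian) (hB : B.IsHermitian) :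
    (((A * B).trace.re : ℝ) : ℂ) = (A * B).trace := by
  rw [← Complex.conj_eq_iff_re]
  show star (A * B).trace = _
  rw [← Matrix.trace_conjTranspose, Matrix.conjTranspose_mul, hA.eq, hB.eq, Matrix.trace_mul_comm]

theorem lvl_mul (a : ℝ) (z : ℂ) (h : ((z.re : ℝ) : ℂ) = z) :
    ((a : ℝ) : ℂ) * z = ((a * z.re : ℝ) : ℂ) := by
  rw [Complex.ofReal_mul, h]

theorem lvl_et {n l : ℕ} (c : Fin n → Mat l) (K : Mat l) (hK : K.IsHermitian) :
    (et' c K).IsHermitian := by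
  unfold Matrix.IsHermitian et'
  rw [Matrix.conjTranspose_sum]
  refine Finset.sum_congr rfl fun i _ => ?_
  rw [Matrix.conjTranspose_mul, Matrix.conjTranspose_mul, hK.eq, Matrix.conjTranspose_conjTranspose,
    Matrix.mul_assoc]

theorem level {F : Type} [NormedAddCommGroup F] [InnerProductSpace ℂ F] [CompleteSpace F]
    {m : ℕ} {u w : ℕ → ℝ} (hu : ∀ j, 0 ≤ u j) (hw : ∀ j, 0 ≤ w j) (M : Model (F := F) m u w)
    {n l : ℕ} (c : Fin n → Mat l) :
    ∃ (K1 K2 : ℝ → Mat l) (D : ℝ), (∀ y > 0, Dyson m u w y c (K1 y) (K2 y)) ∧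
      ∀ (h' G : ℝ) (A : ℕ), 0 < h' → h' ≤ 1 / 2 →
      G = ∑ j ∈ range (2 * A + 1), (2 / Real.pi) * h' * Real.exp (((j : ℝ) - A) * h') *
        ((et' c (K1 (Real.exp (((j : ℝ) - A) * h'))) *
          K2 (Real.exp (((j : ℝ) - A) * h'))).trace).re →
      (∃ α β : Fin l → Fin l → F,
        (1 - h') * ∑ r, ∑ p, ‖α r p‖ ^ 2 ≤ G + D * Real.exp (-(A * h')) ∧
        (1 - h') * ∑ r, ∑ p, ‖β r p‖ ^ 2 ≤ G + D * Real.exp (-(A * h')) ∧
        ∀ x : F →L[ℂ] F, (∀ i, x * M.Y i = M.Y i * x ∧ x * star (M.Y i) = star (M.Y i) * x) →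
          ∀ p q : Fin l, ∑ i : Fin n, c i q p * ⟪omg m w M.e, x (M.X i (omg m w M.e))⟫_ℂ =
            ∑ r, ⟪α r p, x (β r q)⟫_ℂ) ∧
      (∃ x : Fin l → Fin l → (F →L[ℂ] F),
        (∀ p q i, x p q * M.Y i = M.Y i * x p q ∧ x p q * star (M.Y i) = star (M.Y i) * x p q) ∧
        MatBound x (1 + h') ∧
        ∑ p, ∑ q, ∑ i : Fin n, c i q p * ⟪omg m w M.e, x p q (M.X i (omg m w M.e))⟫_ℂ =
          (G : ℂ)) := by
  have hex : ∀ y : ℝ, ∃ P : (Hil (Fin l) F →L[ℂ] Hil (Fin l) F) × (Hil (Fin l) F →L[ℂ] Hil (Fin l) F),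
      0 < y → Resolv (tens c M.X) y P.1 P.2 := by
    intro y
    by_cases hy : 0 < y
    · obtain ⟨P1, P2, h⟩ := resolv_exists (tens c M.X) y hy
      exact ⟨(P1, P2), fun _ => h⟩
    · exact ⟨(0, 0), fun h => absurd h hy⟩
  choose P hP using hex
  have hdy := fun (y : ℝ) (hy : 0 < y) =>
    model_dyson hu hw M c y hy (P y).1 (P y).2 (hP y hy)
  obtain ⟨D, hD⟩ := level_U hu hw M c (fun y => (P y).1) (fun y => (P y).2) (fun y hy => hP y hy)
  refine ⟨fun y => comp ((y : ℂ) • (P y).1) (zeta m u w M.e),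
    fun y => comp ((y : ℂ) • (P y).2) (zeta m u w M.e), D, fun y hy => (hdy y hy).1, ?_⟩
  intro h' G A hh hh1 hG
  have hre : ∀ j : ℕ,
      (∑ r : Fin l, ⟪vec (Pi.single r 1) (omg m w M.e), (star (tens c M.X) * tens c M.X *
          (P (Real.exp (((j : ℝ) - A) * h'))).2) (vec (Pi.single r 1) (omg m w M.e))⟫_ℂ) =
      (et' c (comp ((Real.exp (((j : ℝ) - A) * h') : ℂ) • (P (Real.exp (((j : ℝ) - A) * h'))).1)
        (zeta m u w M.e)) * comp ((Real.exp (((j : ℝ) - A) * h') : ℂ) •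
          (P (Real.exp (((j : ℝ) - A) * h'))).2) (zeta m u w M.e)).trace := by
    intro j
    exact (hdy _ (Real.exp_pos _)).2
  constructor
  · have h1 := hD h' A hh hh1
    simp only [hre] at h1
    rw [hG]
    exact h1
  · obtain ⟨x, hx1, hx2, hx3⟩ := level_L hu hw M c (fun y => (P y).1) (fun y => (P y).2)
      (fun y hy => hP y hy) h' A hh hh1
    refine ⟨x, hx1, hx2, ?_⟩
    rw [hx3, hG, Complex.ofReal_sum]
    refine Finset.sum_congr rfl fun j _ => ?_
    simp only [hre]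
    have hd := (hdy _ (Real.exp_pos (((j : ℝ) - A) * h'))).1
    have hr := lvl_herm _ _ (lvl_et c _ hd.h1.isHermitian) hd.h2.isHermitian
    exact lvl_mul _ _ hr

end Pool.Agent.OHP
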