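import Pool.Agent.Helper547.OH.Defs
import Pool.Agent.Helper547.OH.P_grid_sum
import Pool.Agent.Helper547.OH.P_level

/-! Definitions for the completely isometric embedding of OH into a von Neumann algebra predual. -/

set_option autoImplicit false

namespace Pool.Agent.OHP
open scoped InnerProductSpace ComplexConjugate ComplexOrder
open Finset


theorem lvN_K : 0 < 4 / (3 * Real.pi) * C0 ^ ((3 / 2 : ℝ)) := by
  have hpi := Real.pi_pos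
  have h1 : 0 < C0 := by unfold C0; positivity
  have h2 : 0 < C0 ^ ((3 / 2 : ℝ)) := Real.rpow_pos_of_pos h1 _
  positivity

theorem lvN_mh (N : ℕ) : ((mN N : ℕ) : ℝ) * hN N = ((N : ℝ) + 1) ^ 2 := by
  unfold mN hN
  have h1 : ((N : ℝ) + 1) ≠ 0 := by positivity
  push_cast
  field_simp

theorem lvN_uu (h : ℝ) (m : ℕ) (j : ℕ) : 0 ≤ uu h m j := by
  unfold uu
  split_ifs
  · exact (Real.exp_pos _).le
  · exact le_refl _

theorem lvN_ww (h : ℝ) (hh : 0 ≤ h) (j : ℕ) : 0 ≤ ww h j := by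
  unfold ww
  exact mul_nonneg hh (Real.exp_pos _).le

/-- choice of the level -/
theorem lvN_N0 (C h0 δ K : ℝ) (hC : 0 ≤ C) (hh0 : 0 < h0) (hδ : 0 < δ) (hK : 0 < K) :
    ∃ N0 : ℕ, ∀ N : ℕ, N0 ≤ N → 1 / ((N : ℝ) + 1) ≤ h0 ∧
      C * (K * ((N : ℝ) + 1) ^ 2)⁻¹ ≤ δ := by
  obtain ⟨N0, hN0⟩ := exists_nat_ge (1 / h0 + C / (δ * K))
  refine ⟨N0, fun N hN => ?_⟩
  have h1 : (N0 : ℝ) ≤ N := by exact_mod_cast hN
  have h2 : 0 ≤ C / (δ * K) := by positivity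
  have h3 : 0 < 1 / h0 := by positivity
  have h4 : 0 ≤ (N : ℝ) := Nat.cast_nonneg N
  constructor
  · rw [div_le_iff₀ (by positivity)]
    have h5 : 1 / h0 ≤ (N : ℝ) + 1 := by linarith
    rw [div_le_iff₀ hh0] at h5
    linarith
  · rw [← div_eq_mul_inv, div_le_iff₀ (by positivity)]
    have h5 : C / (δ * K) ≤ (N : ℝ) + 1 := by linarith
    rw [div_le_iff₀ (by positivity)] at h5
    have h6 : (N : ℝ) + 1 ≤ ((N : ℝ) + 1) ^ 2 := by nlinarith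
    calc C ≤ ((N : ℝ) + 1) * (δ * K) := h5
      _ ≤ ((N : ℝ) + 1) ^ 2 * (δ * K) := mul_le_mul_of_nonneg_right h6 (by positivity)
      _ = δ * (K * ((N : ℝ) + 1) ^ 2) := by ring

/-- choice of the cut-off -/
theorem lvN_A (T D k δ h' : ℝ) (hT : 0 ≤ T) (hk : 0 ≤ k) (hδ : 0 < δ) (hh : 0 < h') :
    ∃ A : ℕ, T ≤ A * h' ∧ k * (D * Real.exp (-((A : ℝ) * h'))) ≤ δ := by
  obtain ⟨A, hA⟩ := exists_nat_ge (T / h' + k * |D| / (δ * h') + 1)
  refine ⟨A, ?_, ?_⟩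
  · have h2 : 0 ≤ k * |D| / (δ * h') := by positivity
    have h5 : T / h' ≤ A := by linarith
    rw [div_le_iff₀ hh] at h5
    exact h5
  · have h2 : 0 ≤ T / h' := by positivity
    have h2' : 0 ≤ k * |D| / (δ * h') := by positivity
    have h5 : k * |D| / (δ * h') ≤ A := by linarith
    have hA1 : (1 : ℝ) ≤ A := by linarith
    rw [div_le_iff₀ (by positivity)] at h5
    have hAh : 0 < (A : ℝ) * h' := by positivity
    have h6 : Real.exp (-((A : ℝ) * h')) ≤ 1 / (A * h') := by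
      rw [Real.exp_neg, ← one_div]
      apply one_div_le_one_div_of_le hAh
      linarith [Real.add_one_le_exp ((A : ℝ) * h')]
    have h7 : k * (D * Real.exp (-((A : ℝ) * h'))) ≤ k * (|D| * (1 / (A * h'))) := by
      apply mul_le_mul_of_nonneg_left _ hk
      exact mul_le_mul (le_abs_self D) h6 (Real.exp_pos _).le (abs_nonneg _)
    refine h7.trans ?_
    have h8 : k * (|D| * (1 / (A * h'))) = k * |D| / (A * h') := by ring
    rw [h8, div_le_iff₀ hAh]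
    linarith

theorem lvN_inner {F : Type} [NormedAddCommGroup F] [InnerProductSpace ℂ F] (k : ℝ) (hk : 0 ≤ k)
    (a b : F) (x : F →L[ℂ] F) :
    ⟪((√k : ℝ) : ℂ) • a, x (((√k : ℝ) : ℂ) • b)⟫_ℂ = (k : ℂ) * ⟪a, x b⟫_ℂ := by
  rw [map_smul, inner_smul_left, inner_smul_right, Complex.conj_ofReal, ← mul_assoc,
    ← Complex.ofReal_mul, Real.mul_self_sqrt hk]

theorem lvN_norm {F : Type} [NormedAddCommGroup F] [InnerProductSpace ℂ F] (k : ℝ) (hk : 0 ≤ k)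
    (a : F) : ‖((√k : ℝ) : ℂ) • a‖ ^ 2 = k * ‖a‖ ^ 2 := by
  rw [norm_smul, Complex.norm_real, Real.norm_eq_abs, abs_of_nonneg (Real.sqrt_nonneg _), mul_pow,
    Real.sq_sqrt hk]

theorem lvN_up (k G E h' S δ ε Sg : ℝ) (hk : 0 ≤ k) (hh : h' ≤ 1 / 2)
    (h1 : (1 - h') * Sg ≤ G + E) (h2 : k * G ≤ S + 2 * δ) (h3 : k * E ≤ δ)
    (h4 : 3 * δ + h' * (S + ε) ≤ ε) : k * Sg ≤ S + ε := by
  have h5 : k * ((1 - h') * Sg) ≤ k * (G + E) := mul_le_mul_of_nonneg_left h1 hk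
  have h6 : (1 - h') * (k * Sg) ≤ (1 - h') * (S + ε) := by
    calc (1 - h') * (k * Sg) = k * ((1 - h') * Sg) := by ring
      _ ≤ k * (G + E) := h5
      _ = k * G + k * E := by ring
      _ ≤ S + 3 * δ := by linarith
      _ ≤ (1 - h') * (S + ε) := by linarith
  exact le_of_mul_le_mul_left h6 (by linarith)

theorem levelN {F : Type} [NormedAddCommGroup F] [InnerProductSpace ℂ F] [CompleteSpace F]
    {n l : ℕ} (c : Fin n → Mat l) (p q : Mat l) (lam : ℝ) (hF : FixPt c p q lam)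
    (ε : ℝ) (hε : 0 < ε) :
    ∃ N0 : ℕ, ∀ N ≥ N0, ∀ M : Model (F := F) (mN N) (uu (hN N) (mN N)) (ww (hN N)),
      (∃ α β : Fin l → Fin l → F,
        ∑ r, ∑ s, ‖α r s‖ ^ 2 ≤ √lam + ε ∧ ∑ r, ∑ s, ‖β r s‖ ^ 2 ≤ √lam + ε ∧
        ∀ x : F →L[ℂ] F, (∀ i, x * M.Y i = M.Y i * x ∧ x * star (M.Y i) = star (M.Y i) * x) →
          ∀ r s : Fin l, ∑ i : Fin n, c i s r * ((kap N : ℂ) * ⟪omg (mN N) (ww (hN N)) M.e,
            x (M.X i (omg (mN N) (ww (hN N)) M.e))⟫_ℂ) = ∑ t, ⟪α t r, x (β t s)⟫_ℂ) ∧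
      (∃ x : Fin l → Fin l → (F →L[ℂ] F),
        (∀ r s i, x r s * M.Y i = M.Y i * x r s ∧ x r s * star (M.Y i) = star (M.Y i) * x r s) ∧
        MatBound x 1 ∧
        √lam - ε ≤ (∑ r, ∑ s, ∑ i : Fin n, c i s r * ((kap N : ℂ) *
          ⟪omg (mN N) (ww (hN N)) M.e, x r s (M.X i (omg (mN N) (ww (hN N)) M.e))⟫_ℂ)).re) := by
  have hKpos := lvN_K
  obtain ⟨K, hK⟩ : ∃ K, K = 4 / (3 * Real.pi) * C0 ^ ((3 / 2 : ℝ)) := ⟨_, rfl⟩
  rw [← hK] at hKpos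
  have hS0 : 0 ≤ √lam := Real.sqrt_nonneg _
  obtain ⟨S, hS⟩ : ∃ S, S = √lam := ⟨_, rfl⟩
  rw [← hS] at hS0
  obtain ⟨δ, hδ⟩ : ∃ δ, δ = ε / 6 := ⟨_, rfl⟩
  have hδ0 : 0 < δ := by rw [hδ]; positivity
  obtain ⟨h', hh'⟩ : ∃ h', h' = min (1 / 2) (ε / (2 * (S + ε))) := ⟨_, rfl⟩
  have hh'0 : 0 < h' := by rw [hh']; exact lt_min (by norm_num) (by positivity)
  have hh'1 : h' ≤ 1 / 2 := by rw [hh']; exact min_le_left _ _
  have hh'2 : h' * (S + ε) ≤ ε / 2 := by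
    have h1 : h' ≤ ε / (2 * (S + ε)) := by rw [hh']; exact min_le_right _ _
    rw [le_div_iff₀ (by positivity)] at h1
    linarith
  have hcond : 3 * δ + h' * (S + ε) ≤ ε := by rw [hδ]; linarith
  obtain ⟨C, h0, hh0, hgrid⟩ := grid_sum c p q lam hF (δ * K) (by positivity)
  obtain ⟨N0, hN0⟩ := lvN_N0 (max C 0) h0 δ K (le_max_right _ _) hh0 hδ0 hKpos
  refine ⟨N0, ?_⟩
  intro N hN M
  obtain ⟨hNa, hNb⟩ := hN0 N hN
  have hhN0 : 0 < Pool.Agent.OHP.hN N := by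
    show 0 < 1 / ((N : ℝ) + 1)
    positivity
  have hkap : kap N = (K * ((N : ℝ) + 1) ^ 2)⁻¹ := by
    rw [hK]; rfl
  have hN1 : 0 < ((N : ℝ) + 1) ^ 2 := by positivity
  obtain ⟨k, hk⟩ : ∃ k, k = kap N := ⟨_, rfl⟩
  have hk0 : 0 < k := by rw [hk, hkap]; positivity
  have hkK : k * (K * ((N : ℝ) + 1) ^ 2) = 1 := by
    rw [hk, hkap]
    exact inv_mul_cancel₀ (by positivity)
  rw [← hkap, ← hk] at hNb
  obtain ⟨K1, K2, D, hDy, hlev⟩ := level (lvN_uu (Pool.Agent.OHP.hN N) (mN N))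
    (lvN_ww (Pool.Agent.OHP.hN N) hhN0.le) M c
  obtain ⟨A, hA1, hA2⟩ := lvN_A (2 / 3 * ((mN N : ℝ) * Pool.Agent.OHP.hN N)) D k δ h'
    (by positivity) hk0.le hδ0 hh'0
  obtain ⟨G, hG⟩ : ∃ G, G = ∑ j ∈ range (2 * A + 1), (2 / Real.pi) * h' *
      Real.exp (((j : ℝ) - A) * h') *
        ((et' c (K1 (Real.exp (((j : ℝ) - A) * h'))) *
          K2 (Real.exp (((j : ℝ) - A) * h'))).trace).re := ⟨_, rfl⟩
  have hg := hgrid (Pool.Agent.OHP.hN N) hhN0 hNa (mN N) h' hh'0 (by linarith) A hA1 K1 K2 hDy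
  rw [← hG, lvN_mh, ← hK, ← hS] at hg
  have hkG : |k * G - S| ≤ 2 * δ := by
    have e1 : k * G - S = k * (G - K * S * ((N : ℝ) + 1) ^ 2) := by
      have : k * (G - K * S * ((N : ℝ) + 1) ^ 2) = k * G - S * (k * (K * ((N : ℝ) + 1) ^ 2)) := by
        ring
      rw [this, hkK, mul_one]
    rw [e1, abs_mul, abs_of_pos hk0]
    calc k * |G - K * S * ((N : ℝ) + 1) ^ 2|
        ≤ k * (δ * K * ((N : ℝ) + 1) ^ 2 + C) := mul_le_mul_of_nonneg_left hg hk0.le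
      _ = δ * (k * (K * ((N : ℝ) + 1) ^ 2)) + C * k := by ring
      _ ≤ δ + max C 0 * k := by
          rw [hkK, mul_one]
          have := mul_le_mul_of_nonneg_right (le_max_left C 0) hk0.le
          linarith
      _ ≤ 2 * δ := by linarith
  obtain ⟨hkG1, hkG2⟩ := abs_le.1 hkG
  obtain ⟨⟨α0, β0, hα0, hβ0, hαβ⟩, x0, hx1, hx2, hx3⟩ := hlev h' G A hh'0 hh'1 hG
  rw [← hk, ← hS]
  refine ⟨⟨fun r s => ((√k : ℝ) : ℂ) • α0 r s, fun r s => ((√k : ℝ) : ℂ) • β0 r s, ?_, ?_, ?_⟩,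
    fun r s => (((1 + h')⁻¹ : ℝ) : ℂ) • x0 r s, ?_, ?_, ?_⟩
  · have e1 : ∑ r, ∑ s, ‖((√k : ℝ) : ℂ) • α0 r s‖ ^ 2 = k * ∑ r, ∑ s, ‖α0 r s‖ ^ 2 := by
      rw [Finset.mul_sum]
      apply Finset.sum_congr rfl
      intro r _
      rw [Finset.mul_sum]
      apply Finset.sum_congr rfl
      intro s _
      exact lvN_norm k hk0.le _
    rw [e1]
    exact lvN_up k G _ h' S δ ε _ hk0.le hh'1 hα0 (by linarith) hA2 hcond
  · have e1 : ∑ r, ∑ s, ‖((√k : ℝ) : ℂ) • β0 r s‖ ^ 2 = k * ∑ r, ∑ s, ‖β0 r s‖ ^ 2 := by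
      rw [Finset.mul_sum]
      apply Finset.sum_congr rfl
      intro r _
      rw [Finset.mul_sum]
      apply Finset.sum_congr rfl
      intro s _
      exact lvN_norm k hk0.le _
    rw [e1]
    exact lvN_up k G _ h' S δ ε _ hk0.le hh'1 hβ0 (by linarith) hA2 hcond
  · intro x hx r s
    have h1 := hαβ x hx r s
    have h2 : ∑ t, ⟪((√k : ℝ) : ℂ) • α0 t r, x (((√k : ℝ) : ℂ) • β0 t s)⟫_ℂ =
        (k : ℂ) * ∑ t, ⟪α0 t r, x (β0 t s)⟫_ℂ := by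
      rw [Finset.mul_sum]
      apply Finset.sum_congr rfl
      intro t _
      exact lvN_inner k hk0.le _ _ x
    rw [h2, ← h1, Finset.mul_sum]
    apply Finset.sum_congr rfl
    intro i _
    ring
  · intro r s i
    obtain ⟨h1, h2⟩ := hx1 r s i
    constructor
    · show (((1 + h')⁻¹ : ℝ) : ℂ) • x0 r s * M.Y i = M.Y i * (((1 + h')⁻¹ : ℝ) : ℂ) • x0 r s
      rw [smul_mul_assoc, mul_smul_comm, h1]
    · show (((1 + h')⁻¹ : ℝ) : ℂ) • x0 r s * star (M.Y i) =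
        star (M.Y i) * (((1 + h')⁻¹ : ℝ) : ℂ) • x0 r s
      rw [smul_mul_assoc, mul_smul_comm, h2]
  · intro ξ η
    have h1 := hx2 ξ η
    have e1 : ∑ p, ∑ q, ⟪η p, ((((1 + h')⁻¹ : ℝ) : ℂ) • x0 p q) (ξ q)⟫_ℂ =
        (((1 + h')⁻¹ : ℝ) : ℂ) * ∑ p, ∑ q, ⟪η p, x0 p q (ξ q)⟫_ℂ := by
      rw [Finset.mul_sum]
      apply Finset.sum_congr rfl
      intro p _
      rw [Finset.mul_sum]
      apply Finset.sum_congr rfl
      intro q _
      rw [ContinuousLinearMap.smul_apply, inner_smul_right]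
    rw [e1, norm_mul, Complex.norm_real, Real.norm_eq_abs, abs_of_pos (by positivity)]
    calc (1 + h')⁻¹ * ‖∑ p, ∑ q, ⟪η p, x0 p q (ξ q)⟫_ℂ‖
        ≤ (1 + h')⁻¹ * ((1 + h') * (√(∑ p, ‖η p‖ ^ 2) * √(∑ q, ‖ξ q‖ ^ 2))) :=
          mul_le_mul_of_nonneg_left h1 (by positivity)
      _ = 1 * (√(∑ p, ‖η p‖ ^ 2) * √(∑ q, ‖ξ q‖ ^ 2)) := by
          rw [← mul_assoc, inv_mul_cancel₀ (by positivity)]
  · have e1 : ∑ r, ∑ s, ∑ i : Fin n, c i s r * ((k : ℂ) *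
          ⟪omg (mN N) (ww (Pool.Agent.OHP.hN N)) M.e, ((((1 + h')⁻¹ : ℝ) : ℂ) • x0 r s)
            (M.X i (omg (mN N) (ww (Pool.Agent.OHP.hN N)) M.e))⟫_ℂ) =
        ((k : ℂ) * (((1 + h')⁻¹ : ℝ) : ℂ)) * ∑ r, ∑ s, ∑ i : Fin n, c i s r *
          ⟪omg (mN N) (ww (Pool.Agent.OHP.hN N)) M.e, x0 r s
            (M.X i (omg (mN N) (ww (Pool.Agent.OHP.hN N)) M.e))⟫_ℂ := by
      rw [Finset.mul_sum]
      apply Finset.sum_congr rfl
      intro r _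
      rw [Finset.mul_sum]
      apply Finset.sum_congr rfl
      intro s _
      rw [Finset.mul_sum]
      apply Finset.sum_congr rfl
      intro i _
      rw [ContinuousLinearMap.smul_apply, inner_smul_right]
      ring
    show S - ε ≤ (∑ r, ∑ s, ∑ i : Fin n, c i s r * ((k : ℂ) *
          ⟪omg (mN N) (ww (Pool.Agent.OHP.hN N)) M.e, ((((1 + h')⁻¹ : ℝ) : ℂ) • x0 r s)
            (M.X i (omg (mN N) (ww (Pool.Agent.OHP.hN N)) M.e))⟫_ℂ)).re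
    rw [e1, hx3]
    have e2 : (k : ℂ) * (((1 + h')⁻¹ : ℝ) : ℂ) * (G : ℂ) = ((k * (1 + h')⁻¹ * G : ℝ) : ℂ) := by
      push_cast
      ring
    rw [e2, Complex.ofReal_re]
    have e3 : k * (1 + h')⁻¹ * G = (k * G) / (1 + h') := by
      rw [div_eq_mul_inv]; ring
    rw [e3, le_div_iff₀ (by positivity)]
    have h5 : (S - ε) * (1 + h') ≤ S - ε + h' * (S + ε) := by
      have : 0 ≤ h' * ε := by positivity
      linarith
    linarith

end Pool.Agent.OHP
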