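import Pool.Agent.Helper547.OH.Defs
import Pool.Agent.Helper547.OH.P_exists_model
import Pool.Agent.Helper547.OH.P_levelN

/-! Definitions for the completely isometric embedding of OH into a von Neumann algebra predual. -/

set_option autoImplicit false

namespace Pool.Agent.OHP
open scoped InnerProductSpace ComplexConjugate ComplexOrder
open Finset


theorem levels_fix (i : ℕ) : FixPt (fun j : Fin (i + 1) => if (j : ℕ) = i then (1 : Mat 1) else 0)
    1 1 1 := by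
  have h : ∑ j : Fin (i + 1), (if (j : ℕ) = i then (1 : Mat 1) else 0) = 1 := by
    rw [Finset.sum_eq_single (Fin.last i)]
    · simp
    · intro j _ hj
      rw [if_neg]
      intro h
      exact hj (Fin.ext (by simpa using h))
    · simp
  refine ⟨Matrix.PosDef.one, Matrix.PosDef.one, one_pos, ?_, ?_, ?_, ?_⟩
  · unfold et
    rw [inv_one]
    have : ∀ j : Fin (i + 1), (if (j : ℕ) = i then (1 : Mat 1) else 0) * 1 *
        (if (j : ℕ) = i then (1 : Mat 1) else 0).conjTranspose =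
        (if (j : ℕ) = i then (1 : Mat 1) else 0) := by
      intro j
      split_ifs <;> simp
    simp only [this, h]
    simp
  · unfold et'
    rw [inv_one]
    have : ∀ j : Fin (i + 1), (if (j : ℕ) = i then (1 : Mat 1) else 0).conjTranspose * 1 *
        (if (j : ℕ) = i then (1 : Mat 1) else 0) =
        (if (j : ℕ) = i then (1 : Mat 1) else 0) := by
      intro j
      split_ifs <;> simp
    simp only [this, h]
    simp
  · simp
  · simp

theorem levels_two {a : Fk} (h : ‖a‖ ^ 2 ≤ √1 + 1) : ‖a‖ ≤ 2 := by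
  rw [Real.sqrt_one] at h
  nlinarith [norm_nonneg a]

theorem levels_key (i : ℕ) (M : ∀ N : ℕ, Model (F := Fk) (mN N) (uu (hN N) (mN N)) (ww (hN N))) :
    ∃ N0 : ℕ, ∀ N ≥ N0, ∃ a b : Fk, ‖a‖ ≤ 2 ∧ ‖b‖ ≤ 2 ∧ ∀ x : Fk →L[ℂ] Fk,
      (∀ i, x * (M N).Y i = (M N).Y i * x ∧ x * star ((M N).Y i) = star ((M N).Y i) * x) →
      (kap N : ℂ) * ⟪omg (mN N) (ww (hN N)) (M N).e,
        x ((M N).X i (omg (mN N) (ww (hN N)) (M N).e))⟫_ℂ = ⟪a, x b⟫_ℂ := by
  obtain ⟨N0, hN0⟩ := levelN (F := Fk) _ _ _ _ (levels_fix i) 1 one_pos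
  refine ⟨N0, fun N hN => ?_⟩
  obtain ⟨⟨α, β, hα, hβ, hx⟩, -⟩ := hN0 N hN (M N)
  simp only [Fin.sum_univ_one, Finset.univ_unique, Finset.sum_singleton] at hα hβ
  refine ⟨α 0 0, β 0 0, levels_two (by simpa using hα), levels_two (by simpa using hβ),
    fun x hcomm => ?_⟩
  have h := hx x hcomm 0 0
  simp only [Finset.univ_unique, Finset.sum_singleton] at h
  rw [Finset.sum_eq_single (Fin.last i)] at h
  · simpa using h
  · intro j _ hj
    rw [if_neg]
    · simp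
    · intro h'
      exact hj (Fin.ext (by simpa using h'))
  · intro h'; exact absurd (Finset.mem_univ _) h'

theorem levels : ∃ (Y : ℕ → ℕ → (Fk →L[ℂ] Fk)) (xi et : ℕ → ℕ → Fk),
    (∀ N i, ‖xi N i‖ ≤ 2 ∧ ‖et N i‖ ≤ 2) ∧
    ∀ (n l : ℕ) (c : Fin n → Mat l) (p q : Mat l) (lam : ℝ), FixPt c p q lam → ∀ ε > 0,
      (∀ᶠ N in Filter.atTop, ∃ α β : Fin l → Fin l → Fk,
        ∑ r, ∑ s, ‖α r s‖ ^ 2 ≤ √lam + ε ∧ ∑ r, ∑ s, ‖β r s‖ ^ 2 ≤ √lam + ε ∧
        ∀ x : Fk →L[ℂ] Fk, (∀ i, x * Y N i = Y N i * x ∧ x * star (Y N i) = star (Y N i) * x) →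
          ∀ r s : Fin l, ∑ i : Fin n, c i s r * ⟪et N i, x (xi N i)⟫_ℂ =
            ∑ t, ⟪α t r, x (β t s)⟫_ℂ) ∧
      (∀ᶠ N in Filter.atTop, ∃ x : Fin l → Fin l → (Fk →L[ℂ] Fk),
        (∀ r s i, x r s * Y N i = Y N i * x r s ∧ x r s * star (Y N i) = star (Y N i) * x r s) ∧
        MatBound x 1 ∧ √lam - ε ≤ (Phi (xi N) (et N) c x).re) := by
  classical
  have hM : ∀ N : ℕ, Nonempty (Model (F := Fk) (mN N) (uu (hN N) (mN N)) (ww (hN N))) := by
    intro N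
    refine exists_model _ _ _ ?_ ?_ ?_
    · intro j
      unfold uu
      split_ifs
      · exact (Real.exp_pos _).le
      · exact le_rfl
    · intro j
      unfold ww hN
      positivity
    · intro j hj
      unfold uu
      rw [if_neg (not_lt.2 hj)]
  obtain ⟨M⟩ : Nonempty (∀ N : ℕ, Model (F := Fk) (mN N) (uu (hN N) (mN N)) (ww (hN N))) :=
    ⟨fun N => Classical.choice (hM N)⟩
  choose N0 hN0 using fun i => levels_key i M
  have hall : ∀ N i : ℕ, ∃ a b : Fk, ‖a‖ ≤ 2 ∧ ‖b‖ ≤ 2 ∧ (N0 i ≤ N → ∀ x : Fk →L[ℂ] Fk,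
      (∀ i, x * (M N).Y i = (M N).Y i * x ∧ x * star ((M N).Y i) = star ((M N).Y i) * x) →
      (kap N : ℂ) * ⟪omg (mN N) (ww (hN N)) (M N).e,
        x ((M N).X i (omg (mN N) (ww (hN N)) (M N).e))⟫_ℂ = ⟪a, x b⟫_ℂ) := by
    intro N i
    by_cases h : N0 i ≤ N
    · obtain ⟨a, b, ha, hb, hab⟩ := hN0 i N h
      exact ⟨a, b, ha, hb, fun _ => hab⟩
    · exact ⟨0, 0, by simp, by simp, fun h' => absurd h' h⟩
  choose et xi het hxi hkey using hall
  refine ⟨fun N => (M N).Y, xi, et, fun N i => ⟨hxi N i, het N i⟩, ?_⟩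
  intro n l c p q lam hF ε hε
  obtain ⟨N1, hN1⟩ := levelN (F := Fk) c p q lam hF ε hε
  have hev : ∀ᶠ N in Filter.atTop, N1 ≤ N ∧ ∀ i : Fin n, N0 i ≤ N :=
    (Filter.eventually_ge_atTop N1).and
      (Filter.eventually_all.2 fun i : Fin n => Filter.eventually_ge_atTop (N0 i))
  constructor
  · filter_upwards [hev] with N hN
    obtain ⟨⟨α, β, h1, h2, h3⟩, -⟩ := hN1 N hN.1 (M N)
    refine ⟨α, β, h1, h2, fun x hx r s => ?_⟩
    rw [← h3 x hx r s]
    refine Finset.sum_congr rfl fun i _ => ?_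
    rw [hkey N i (hN.2 i) x hx]
  · filter_upwards [hev] with N hN
    obtain ⟨-, ⟨x, h1, h2, h3⟩⟩ := hN1 N hN.1 (M N)
    refine ⟨x, h1, h2, ?_⟩
    convert h3 using 2
    unfold Phi
    refine Finset.sum_congr rfl fun r _ => Finset.sum_congr rfl fun s _ =>
      Finset.sum_congr rfl fun i _ => ?_
    rw [hkey N i (hN.2 i) (x r s) (h1 r s)]

end Pool.Agent.OHP
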