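import Pool.Agent.Helper547.OH.Defs
import Pool.Agent.Helper547.OH.P_exists_ultrapower
import Pool.Agent.Helper547.OH.P_commutant_ext
import Pool.Agent.Helper547.OH.P_levels

/-! Definitions for the completely isometric embedding of OH into a von Neumann algebra predual. -/

set_option autoImplicit false

namespace Pool.Agent.OHP
open scoped InnerProductSpace ComplexConjugate ComplexOrder
open Finset


/-- the properties of the ultrapower -/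
structure limit_thm_UP {F H : Type} [NormedAddCommGroup F] [InnerProductSpace ℂ F]
    [CompleteSpace F] [NormedAddCommGroup H] [InnerProductSpace ℂ H] [CompleteSpace H]
    (U : Ultrafilter ℕ) (v : (ℕ → F) → H) (π : (ℕ → (F →L[ℂ] F)) → (H →L[ℂ] H)) : Prop where
  inn : ∀ ξ η : ℕ → F, (∃ C : ℝ, ∀ n, ‖ξ n‖ ≤ C) → (∃ C : ℝ, ∀ n, ‖η n‖ ≤ C) →
        Filter.Tendsto (fun n => ⟪ξ n, η n⟫_ℂ) U (nhds ⟪v ξ, v η⟫_ℂ)
  act : ∀ (x : ℕ → (F →L[ℂ] F)) (ξ : ℕ → F), (∃ C : ℝ, ∀ n, ‖x n‖ ≤ C) →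
        (∃ C : ℝ, ∀ n, ‖ξ n‖ ≤ C) → π x (v ξ) = v (fun n => x n (ξ n))
  sta : ∀ x : ℕ → (F →L[ℂ] F), (∃ C : ℝ, ∀ n, ‖x n‖ ≤ C) → star (π x) = π (fun n => star (x n))
  mul : ∀ x y : ℕ → (F →L[ℂ] F), (∃ C : ℝ, ∀ n, ‖x n‖ ≤ C) → (∃ C : ℝ, ∀ n, ‖y n‖ ≤ C) →
        π (fun n => x n * y n) = π x * π y
  add : ∀ x y : ℕ → (F →L[ℂ] F), (∃ C : ℝ, ∀ n, ‖x n‖ ≤ C) → (∃ C : ℝ, ∀ n, ‖y n‖ ≤ C) →
        π (fun n => x n + y n) = π x + π y
  smul : ∀ (c : ℂ) (x : ℕ → (F →L[ℂ] F)), (∃ C : ℝ, ∀ n, ‖x n‖ ≤ C) →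
        π (fun n => c • x n) = c • π x
  one : π (fun _ => 1) = 1
  dens : ∀ h : H, ∀ ε > 0, ∃ ξ : ℕ → F, (∃ C : ℝ, ∀ n, ‖ξ n‖ ≤ C) ∧ ‖h - v ξ‖ < ε

section limit_thm_sec
variable {F H : Type} [NormedAddCommGroup F] [InnerProductSpace ℂ F]
    [CompleteSpace F] [NormedAddCommGroup H] [InnerProductSpace ℂ H] [CompleteSpace H]
    {U : Ultrafilter ℕ} {v : (ℕ → F) → H} {π : (ℕ → (F →L[ℂ] F)) → (H →L[ℂ] H)}

theorem limit_thm_bd_act {x : ℕ → (F →L[ℂ] F)} {ξ : ℕ → F} (hx : ∃ C : ℝ, ∀ n, ‖x n‖ ≤ C)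
    (hξ : ∃ C : ℝ, ∀ n, ‖ξ n‖ ≤ C) : ∃ C : ℝ, ∀ n, ‖x n (ξ n)‖ ≤ C := by
  obtain ⟨C, hC⟩ := hx
  obtain ⟨D, hD⟩ := hξ
  refine ⟨C * D, fun n => ?_⟩
  exact ((x n).le_opNorm (ξ n)).trans
    (mul_le_mul (hC n) (hD n) (norm_nonneg _) ((norm_nonneg _).trans (hC n)))

theorem limit_thm_norm (h : limit_thm_UP U v π) (ξ : ℕ → F) (hξ : ∃ C : ℝ, ∀ n, ‖ξ n‖ ≤ C) :
    Filter.Tendsto (fun n => ‖ξ n‖ ^ 2) U (nhds (‖v ξ‖ ^ 2)) := by
  have h1 := h.inn ξ ξ hξ hξ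
  have h2 := (Complex.continuous_re.tendsto _).comp h1
  have h3 : (Complex.re ∘ fun n => ⟪ξ n, ξ n⟫_ℂ) = fun n => ‖ξ n‖ ^ 2 := by
    funext n
    show (⟪ξ n, ξ n⟫_ℂ).re = _
    rw [inner_self_eq_norm_sq_to_K]
    norm_cast
  have h4 : (⟪v ξ, v ξ⟫_ℂ).re = ‖v ξ‖ ^ 2 := by
    rw [inner_self_eq_norm_sq_to_K]
    norm_cast
  rw [h3, h4] at h2
  exact h2

theorem limit_thm_inact (h : limit_thm_UP U v π) (x : ℕ → (F →L[ℂ] F)) (ξ η : ℕ → F)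
    (hx : ∃ C : ℝ, ∀ n, ‖x n‖ ≤ C) (hξ : ∃ C : ℝ, ∀ n, ‖ξ n‖ ≤ C) (hη : ∃ C : ℝ, ∀ n, ‖η n‖ ≤ C) :
    Filter.Tendsto (fun n => ⟪η n, x n (ξ n)⟫_ℂ) U (nhds ⟪v η, π x (v ξ)⟫_ℂ) := by
  rw [h.act x ξ hx hξ]
  exact h.inn η (fun n => x n (ξ n)) hη (limit_thm_bd_act hx hξ)

/-- commutation -/
def limit_thm_Cm (Y : ℕ → (F →L[ℂ] F)) (x : F →L[ℂ] F) : Prop :=
  ∀ i, x * Y i = Y i * x ∧ x * star (Y i) = star (Y i) * x

/-- the algebra -/
noncomputable def limit_thm_A (h : limit_thm_UP U v π) (Y : ℕ → ℕ → (F →L[ℂ] F)) :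
    StarSubalgebra ℂ (H →L[ℂ] H) where
  carrier := {T | ∃ x : ℕ → (F →L[ℂ] F), (∃ C : ℝ, ∀ n, ‖x n‖ ≤ C) ∧
    (∀ N, limit_thm_Cm (Y N) (x N)) ∧ T = π x}
  mul_mem' := by
    rintro _ _ ⟨x, ⟨C, hC⟩, hxY, rfl⟩ ⟨y, ⟨D, hD⟩, hyY, rfl⟩
    refine ⟨fun n => x n * y n, ⟨C * D, fun n => ?_⟩, ?_, (h.mul x y ⟨C, hC⟩ ⟨D, hD⟩).symm⟩
    · exact (norm_mul_le _ _).trans
        (mul_le_mul (hC n) (hD n) (norm_nonneg _) ((norm_nonneg _).trans (hC n)))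
    · intro N i
      obtain ⟨a1, a2⟩ := hxY N i
      obtain ⟨b1, b2⟩ := hyY N i
      constructor
      · rw [mul_assoc, b1, ← mul_assoc, a1, mul_assoc]
      · rw [mul_assoc, b2, ← mul_assoc, a2, mul_assoc]
  add_mem' := by
    rintro _ _ ⟨x, ⟨C, hC⟩, hxY, rfl⟩ ⟨y, ⟨D, hD⟩, hyY, rfl⟩
    refine ⟨fun n => x n + y n, ⟨C + D, fun n => ?_⟩, ?_, (h.add x y ⟨C, hC⟩ ⟨D, hD⟩).symm⟩
    · exact (norm_add_le _ _).trans (add_le_add (hC n) (hD n))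
    · intro N i
      obtain ⟨a1, a2⟩ := hxY N i
      obtain ⟨b1, b2⟩ := hyY N i
      constructor
      · rw [add_mul, mul_add, a1, b1]
      · rw [add_mul, mul_add, a2, b2]
  algebraMap_mem' := by
    intro r
    have hb : ∃ C : ℝ, ∀ n : ℕ, ‖(fun _ => 1 : ℕ → (F →L[ℂ] F)) n‖ ≤ C := ⟨‖(1 : F →L[ℂ] F)‖, fun _ => le_rfl⟩
    refine ⟨fun _ => r • (1 : F →L[ℂ] F), ⟨‖r • (1 : F →L[ℂ] F)‖, fun _ => le_rfl⟩, ?_, ?_⟩
    · intro N i
      constructor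
      · rw [smul_mul_assoc, mul_smul_comm, one_mul, mul_one]
      · rw [smul_mul_assoc, mul_smul_comm, one_mul, mul_one]
    · rw [Algebra.algebraMap_eq_smul_one]
      have := h.smul r (fun _ => 1) hb
      rw [h.one] at this
      exact this.symm
  star_mem' := by
    rintro _ ⟨x, ⟨C, hC⟩, hxY, rfl⟩
    refine ⟨fun n => star (x n), ⟨C, fun n => ?_⟩, ?_, h.sta x ⟨C, hC⟩⟩
    · rw [norm_star]; exact hC n
    · intro N i
      obtain ⟨a1, a2⟩ := hxY N i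
      constructor
      · have := congrArg star a2
        rw [star_mul, star_mul, star_star] at this
        exact this.symm
      · have := congrArg star a1
        rw [star_mul, star_mul] at this
        exact this.symm

theorem limit_thm_mem (h : limit_thm_UP U v π) (Y : ℕ → ℕ → (F →L[ℂ] F)) (T : H →L[ℂ] H) :
    T ∈ limit_thm_A h Y ↔ ∃ x : ℕ → (F →L[ℂ] F), (∃ C : ℝ, ∀ n, ‖x n‖ ≤ C) ∧
    (∀ N, limit_thm_Cm (Y N) (x N)) ∧ T = π x := Iff.rfl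

theorem limit_thm_entry {l : ℕ} {X : Fin l → Fin l → (F →L[ℂ] F)} (h : MatBound X 1)
    (r s : Fin l) : ‖X r s‖ ≤ 1 := by
  apply ContinuousLinearMap.opNorm_le_bound _ zero_le_one
  intro ξ
  have h1 := h (Pi.single s ξ) (Pi.single r (X r s ξ))
  have h2 : ∑ p, ∑ q, ⟪(Pi.single r (X r s ξ) : Fin l → F) p,
      X p q ((Pi.single s ξ : Fin l → F) q)⟫_ℂ = ⟪X r s ξ, X r s ξ⟫_ℂ := by
    rw [Finset.sum_eq_single r]
    · rw [Finset.sum_eq_single s]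
      · rw [Pi.single_eq_same, Pi.single_eq_same]
      · intro q _ hq
        rw [Pi.single_eq_of_ne hq, map_zero, inner_zero_right]
      · intro hs; exact absurd (Finset.mem_univ s) hs
    · intro p _ hp
      apply Finset.sum_eq_zero
      intro q _
      rw [Pi.single_eq_of_ne hp, inner_zero_left]
    · intro hr; exact absurd (Finset.mem_univ r) hr
  have h3 : ∑ p, ‖(Pi.single r (X r s ξ) : Fin l → F) p‖ ^ 2 = ‖X r s ξ‖ ^ 2 := by
    rw [Finset.sum_eq_single r]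
    · rw [Pi.single_eq_same]
    · intro p _ hp
      rw [Pi.single_eq_of_ne hp, norm_zero]
      norm_num
    · intro hr; exact absurd (Finset.mem_univ r) hr
  have h4 : ∑ p, ‖(Pi.single s ξ : Fin l → F) p‖ ^ 2 = ‖ξ‖ ^ 2 := by
    rw [Finset.sum_eq_single s]
    · rw [Pi.single_eq_same]
    · intro p _ hp
      rw [Pi.single_eq_of_ne hp, norm_zero]
      norm_num
    · intro hr; exact absurd (Finset.mem_univ s) hr
  rw [h2, h3, h4, Real.sqrt_sq (norm_nonneg _), Real.sqrt_sq (norm_nonneg _),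
    inner_self_eq_norm_sq_to_K, one_mul] at h1
  have h5 : ‖((‖X r s ξ‖ : ℂ)) ^ 2‖ = ‖X r s ξ‖ ^ 2 := by
    rw [norm_pow, Complex.norm_real, norm_norm]
  rw [one_mul]
  have h6 : ‖X r s ξ‖ ^ 2 ≤ ‖X r s ξ‖ * ‖ξ‖ := by
    rw [← h5]; exact h1
  by_contra hcon
  push Not at hcon
  have h7 : 0 < ‖X r s ξ‖ := lt_of_le_of_lt (norm_nonneg _) hcon
  nlinarith

theorem limit_thm_matbound (h : limit_thm_UP U v π) {l : ℕ}
    (X : ℕ → Fin l → Fin l → (F →L[ℂ] F)) (hX : ∀ N, MatBound (X N) 1) :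
    MatBound (fun r s => π (fun N => X N r s)) 1 := by
  have hXb : ∀ r s, ∃ C : ℝ, ∀ N, ‖X N r s‖ ≤ C := fun r s =>
    ⟨1, fun N => limit_thm_entry (hX N) r s⟩
  set x : Fin l → Fin l → (H →L[ℂ] H) := fun r s => π (fun N => X N r s) with hx
  set V : Set H := {h | ∃ ξ : ℕ → F, (∃ C : ℝ, ∀ n, ‖ξ n‖ ≤ C) ∧ h = v ξ} with hV
  have hVd : Dense V := by
    intro a
    rw [Metric.mem_closure_iff]
    intro ε hε
    obtain ⟨ξ, hξ, hd⟩ := h.dens a ε hε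
    exact ⟨v ξ, ⟨ξ, hξ, rfl⟩, by rw [dist_eq_norm]; exact hd⟩
  have hD : Dense ((Set.pi Set.univ (fun _ : Fin l => V)) ×ˢ
      (Set.pi Set.univ (fun _ : Fin l => V))) :=
    (dense_pi _ fun _ _ => hVd).prod (dense_pi _ fun _ _ => hVd)
  have hcl : IsClosed {p : (Fin l → H) × (Fin l → H) |
      ‖∑ a, ∑ b, ⟪p.2 a, x a b (p.1 b)⟫_ℂ‖ ≤
        1 * (√(∑ a, ‖p.2 a‖ ^ 2) * √(∑ b, ‖p.1 b‖ ^ 2))} := by
    apply isClosed_le
    · refine continuous_norm.comp ?_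
      refine continuous_finsetSum _ fun a _ => continuous_finsetSum _ fun b _ => ?_
      refine Continuous.inner ?_ ?_
      · exact (continuous_apply a).comp continuous_snd
      · exact (x a b).continuous.comp ((continuous_apply b).comp continuous_fst)
    · refine continuous_const.mul (Continuous.mul ?_ ?_)
      · refine Real.continuous_sqrt.comp (continuous_finsetSum _ fun a _ => ?_)
        exact (continuous_norm.comp ((continuous_apply a).comp continuous_snd)).pow 2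
      · refine Real.continuous_sqrt.comp (continuous_finsetSum _ fun a _ => ?_)
        exact (continuous_norm.comp ((continuous_apply a).comp continuous_fst)).pow 2
  have hsub : ((Set.pi Set.univ (fun _ : Fin l => V)) ×ˢ
      (Set.pi Set.univ (fun _ : Fin l => V))) ⊆ {p : (Fin l → H) × (Fin l → H) |
      ‖∑ a, ∑ b, ⟪p.2 a, x a b (p.1 b)⟫_ℂ‖ ≤
        1 * (√(∑ a, ‖p.2 a‖ ^ 2) * √(∑ b, ‖p.1 b‖ ^ 2))} := by
    rintro ⟨p1, p2⟩ ⟨h1, h2⟩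
    have h1' : ∀ b, ∃ ξ : ℕ → F, (∃ C : ℝ, ∀ n, ‖ξ n‖ ≤ C) ∧ p1 b = v ξ :=
      fun b => h1 b (Set.mem_univ b)
    have h2' : ∀ b, ∃ ξ : ℕ → F, (∃ C : ℝ, ∀ n, ‖ξ n‖ ≤ C) ∧ p2 b = v ξ :=
      fun b => h2 b (Set.mem_univ b)
    choose ξ hξ hξv using h1'
    choose η hη hηv using h2'
    show ‖∑ a, ∑ b, ⟪p2 a, x a b (p1 b)⟫_ℂ‖ ≤
        1 * (√(∑ a, ‖p2 a‖ ^ 2) * √(∑ b, ‖p1 b‖ ^ 2))
    have ht1 : Filter.Tendsto (fun N => ‖∑ a, ∑ b, ⟪η a N, X N a b (ξ b N)⟫_ℂ‖) U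
        (nhds ‖∑ a, ∑ b, ⟪p2 a, x a b (p1 b)⟫_ℂ‖) := by
      apply Filter.Tendsto.norm
      apply tendsto_finsetSum
      intro a _
      apply tendsto_finsetSum
      intro b _
      rw [hξv, hηv]
      exact limit_thm_inact h (fun N => X N a b) (ξ b) (η a) (hXb a b) (hξ b) (hη a)
    have ht2 : Filter.Tendsto (fun N => 1 * (√(∑ a, ‖η a N‖ ^ 2) * √(∑ b, ‖ξ b N‖ ^ 2))) U
        (nhds (1 * (√(∑ a, ‖p2 a‖ ^ 2) * √(∑ b, ‖p1 b‖ ^ 2)))) := by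
      apply Filter.Tendsto.const_mul
      apply Filter.Tendsto.mul
      · apply (Real.continuous_sqrt.tendsto _).comp
        apply tendsto_finsetSum
        intro a _
        rw [hηv]
        exact limit_thm_norm h (η a) (hη a)
      · apply (Real.continuous_sqrt.tendsto _).comp
        apply tendsto_finsetSum
        intro a _
        rw [hξv]
        exact limit_thm_norm h (ξ a) (hξ a)
    exact le_of_tendsto_of_tendsto' ht1 ht2 fun N => hX N (fun b => ξ b N) (fun a => η a N)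
  intro ξ η
  have hall : (ξ, η) ∈ {p : (Fin l → H) × (Fin l → H) |
      ‖∑ a, ∑ b, ⟪p.2 a, x a b (p.1 b)⟫_ℂ‖ ≤
        1 * (√(∑ a, ‖p.2 a‖ ^ 2) * √(∑ b, ‖p.1 b‖ ^ 2))} :=
    closure_minimal hsub hcl (hD (ξ, η))
  exact hall

end limit_thm_sec

theorem limit_thm_low {H : Type} [NormedAddCommGroup H] [InnerProductSpace ℂ H]
    [CompleteSpace H] {U : Ultrafilter ℕ} {v : (ℕ → Fk) → H}
    {π : (ℕ → (Fk →L[ℂ] Fk)) → (H →L[ℂ] H)} (h : limit_thm_UP U v π)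
    (hU : (U : Filter ℕ) ≤ Filter.atTop)
    (Y : ℕ → ℕ → (Fk →L[ℂ] Fk)) (xi et : ℕ → ℕ → Fk)
    (hb : ∀ N i, ‖xi N i‖ ≤ 2 ∧ ‖et N i‖ ≤ 2) {n l : ℕ} (c : Fin n → Mat l) (L : ℝ)
    (hex : ∀ᶠ N in Filter.atTop, ∃ x : Fin l → Fin l → (Fk →L[ℂ] Fk),
        (∀ r s i, x r s * Y N i = Y N i * x r s ∧ x r s * star (Y N i) = star (Y N i) * x r s) ∧
        MatBound x 1 ∧ L ≤ (Phi (xi N) (et N) c x).re) :
    ∃ x : Fin l → Fin l → (H →L[ℂ] H), (∀ r s, x r s ∈ limit_thm_A h Y) ∧ MatBound x 1 ∧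
      L ≤ (Phi (fun i => v (fun N => xi N i)) (fun i => v (fun N => et N i)) c x).re := by
  classical
  have hX : ∀ N, ∃ x : Fin l → Fin l → (Fk →L[ℂ] Fk),
      (∀ r s, limit_thm_Cm (Y N) (x r s)) ∧ MatBound x 1 ∧
      ((∃ x : Fin l → Fin l → (Fk →L[ℂ] Fk),
        (∀ r s i, x r s * Y N i = Y N i * x r s ∧ x r s * star (Y N i) = star (Y N i) * x r s) ∧
        MatBound x 1 ∧ L ≤ (Phi (xi N) (et N) c x).re) → L ≤ (Phi (xi N) (et N) c x).re) := by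
    intro N
    by_cases hN : ∃ x : Fin l → Fin l → (Fk →L[ℂ] Fk),
        (∀ r s i, x r s * Y N i = Y N i * x r s ∧ x r s * star (Y N i) = star (Y N i) * x r s) ∧
        MatBound x 1 ∧ L ≤ (Phi (xi N) (et N) c x).re
    · obtain ⟨x, h1, h2, h3⟩ := hN
      exact ⟨x, h1, h2, fun _ => h3⟩
    · refine ⟨fun _ _ => 0, ?_, ?_, fun h' => absurd h' hN⟩
      · intro r s i
        simp
      · intro ξ η
        simp only [ContinuousLinearMap.zero_apply, inner_zero_right, Finset.sum_const_zero,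
          norm_zero]
        positivity
  choose X hXc hXm hXL using hX
  have hXb : ∀ r s, ∃ C : ℝ, ∀ N, ‖X N r s‖ ≤ C := fun r s =>
    ⟨1, fun N => limit_thm_entry (hXm N) r s⟩
  refine ⟨fun r s => π (fun N => X N r s), ?_, limit_thm_matbound h X hXm, ?_⟩
  · intro r s
    rw [limit_thm_mem]
    exact ⟨fun N => X N r s, hXb r s, fun N => hXc N r s, rfl⟩
  · have ht : Filter.Tendsto (fun N => (Phi (xi N) (et N) c (X N)).re) U
        (nhds (Phi (fun i => v (fun N => xi N i)) (fun i => v (fun N => et N i)) c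
          (fun r s => π (fun N => X N r s))).re) := by
      apply (Complex.continuous_re.tendsto _).comp
      unfold Phi
      apply tendsto_finsetSum
      intro r _
      apply tendsto_finsetSum
      intro s _
      apply tendsto_finsetSum
      intro i _
      apply Filter.Tendsto.const_mul
      exact limit_thm_inact h (fun N => X N r s) (fun N => xi N i) (fun N => et N i) (hXb r s)
        ⟨2, fun N => (hb N i).1⟩ ⟨2, fun N => (hb N i).2⟩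
    apply ge_of_tendsto ht
    exact hU (hex.mono fun N hN => hXL N hN)

theorem limit_thm_up {H : Type} [NormedAddCommGroup H] [InnerProductSpace ℂ H]
    [CompleteSpace H] {U : Ultrafilter ℕ} {v : (ℕ → Fk) → H}
    {π : (ℕ → (Fk →L[ℂ] Fk)) → (H →L[ℂ] H)} (h : limit_thm_UP U v π)
    (hU : (U : Filter ℕ) ≤ Filter.atTop)
    (Y : ℕ → ℕ → (Fk →L[ℂ] Fk)) (xi et : ℕ → ℕ → Fk)
    (hb : ∀ N i, ‖xi N i‖ ≤ 2 ∧ ‖et N i‖ ≤ 2) {n l : ℕ} (c : Fin n → Mat l) (L : ℝ) (hL : 0 ≤ L)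
    (hex : ∀ᶠ N in Filter.atTop, ∃ α β : Fin l → Fin l → Fk,
        ∑ r, ∑ s, ‖α r s‖ ^ 2 ≤ L ∧ ∑ r, ∑ s, ‖β r s‖ ^ 2 ≤ L ∧
        ∀ x : Fk →L[ℂ] Fk, (∀ i, x * Y N i = Y N i * x ∧ x * star (Y N i) = star (Y N i) * x) →
          ∀ r s : Fin l, ∑ i : Fin n, c i s r * ⟪et N i, x (xi N i)⟫_ℂ =
            ∑ t, ⟪α t r, x (β t s)⟫_ℂ)
    (x : Fin l → Fin l → (H →L[ℂ] H))
    (hx : ∀ r s, x r s ∈ Set.centralizer (Set.centralizer
      (limit_thm_A h Y : Set (H →L[ℂ] H)))) (hM : MatBound x 1) :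
    ‖Phi (fun i => v (fun N => xi N i)) (fun i => v (fun N => et N i)) c x‖ ≤ L := by
  classical
  have hX : ∀ N, ∃ α β : Fin l → Fin l → Fk,
        ∑ r, ∑ s, ‖α r s‖ ^ 2 ≤ L ∧ ∑ r, ∑ s, ‖β r s‖ ^ 2 ≤ L ∧
        ((∃ α β : Fin l → Fin l → Fk,
        ∑ r, ∑ s, ‖α r s‖ ^ 2 ≤ L ∧ ∑ r, ∑ s, ‖β r s‖ ^ 2 ≤ L ∧
        ∀ x : Fk →L[ℂ] Fk, (∀ i, x * Y N i = Y N i * x ∧ x * star (Y N i) = star (Y N i) * x) →
          ∀ r s : Fin l, ∑ i : Fin n, c i s r * ⟪et N i, x (xi N i)⟫_ℂ =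
            ∑ t, ⟪α t r, x (β t s)⟫_ℂ) →
        ∀ x : Fk →L[ℂ] Fk, (∀ i, x * Y N i = Y N i * x ∧ x * star (Y N i) = star (Y N i) * x) →
          ∀ r s : Fin l, ∑ i : Fin n, c i s r * ⟪et N i, x (xi N i)⟫_ℂ =
            ∑ t, ⟪α t r, x (β t s)⟫_ℂ) := by
    intro N
    by_cases hN : ∃ α β : Fin l → Fin l → Fk,
        ∑ r, ∑ s, ‖α r s‖ ^ 2 ≤ L ∧ ∑ r, ∑ s, ‖β r s‖ ^ 2 ≤ L ∧
        ∀ x : Fk →L[ℂ] Fk, (∀ i, x * Y N i = Y N i * x ∧ x * star (Y N i) = star (Y N i) * x) →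
          ∀ r s : Fin l, ∑ i : Fin n, c i s r * ⟪et N i, x (xi N i)⟫_ℂ =
            ∑ t, ⟪α t r, x (β t s)⟫_ℂ
    · obtain ⟨α, β, h1, h2, h3⟩ := hN
      exact ⟨α, β, h1, h2, fun _ => h3⟩
    · refine ⟨fun _ _ => 0, fun _ _ => 0, ?_, ?_, fun h' => absurd h' hN⟩
      · simpa using hL
      · simpa using hL
  choose α β hα hβ hαβ using hX
  have hbd : ∀ (γ : ℕ → Fin l → Fin l → Fk), (∀ N, ∑ r, ∑ s, ‖γ N r s‖ ^ 2 ≤ L) →
      ∀ r s, ∃ C : ℝ, ∀ N, ‖γ N r s‖ ≤ C := by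
    intro γ hγ r s
    refine ⟨√L, fun N => ?_⟩
    apply Real.le_sqrt_of_sq_le
    refine le_trans ?_ (hγ N)
    calc ‖γ N r s‖ ^ 2 ≤ ∑ s, ‖γ N r s‖ ^ 2 :=
          Finset.single_le_sum (f := fun s => ‖γ N r s‖ ^ 2) (fun _ _ => by positivity)
            (Finset.mem_univ s)
      _ ≤ ∑ r, ∑ s, ‖γ N r s‖ ^ 2 :=
          Finset.single_le_sum (f := fun r => ∑ s, ‖γ N r s‖ ^ 2) (fun _ _ => by positivity)
            (Finset.mem_univ r)
  have hαb := hbd α hα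
  have hβb := hbd β hβ
  have hlim : ∀ (γ : ℕ → Fin l → Fin l → Fk), (∀ N, ∑ r, ∑ s, ‖γ N r s‖ ^ 2 ≤ L) →
      ∑ r, ∑ s, ‖v (fun N => γ N r s)‖ ^ 2 ≤ L := by
    intro γ hγ
    have ht : Filter.Tendsto (fun N => ∑ r, ∑ s, ‖γ N r s‖ ^ 2) U
        (nhds (∑ r, ∑ s, ‖v (fun N => γ N r s)‖ ^ 2)) := by
      apply tendsto_finsetSum
      intro r _
      apply tendsto_finsetSum
      intro s _
      exact limit_thm_norm h (fun N => γ N r s) (hbd γ hγ r s)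
    exact le_of_tendsto' ht hγ
  set a : Fin l → Fin l → H := fun r s => v (fun N => α N r s) with ha
  set b : Fin l → Fin l → H := fun r s => v (fun N => β N r s) with hb'
  have haL : ∑ r, ∑ s, ‖a r s‖ ^ 2 ≤ L := hlim α hα
  have hbL : ∑ r, ∑ s, ‖b r s‖ ^ 2 ≤ L := hlim β hβ
  have hA : ∀ T ∈ limit_thm_A h Y, ∀ r s : Fin l,
      ∑ i : Fin n, c i s r * ⟪v (fun N => et N i), T (v (fun N => xi N i))⟫_ℂ =
        ∑ t, ⟪a t r, T (b t s)⟫_ℂ := by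
    intro T hT r s
    rw [limit_thm_mem] at hT
    obtain ⟨y, hyb, hyc, rfl⟩ := hT
    have ht1 : Filter.Tendsto (fun N => ∑ i : Fin n, c i s r * ⟪et N i, y N (xi N i)⟫_ℂ) U
        (nhds (∑ i : Fin n, c i s r * ⟪v (fun N => et N i), π y (v (fun N => xi N i))⟫_ℂ)) := by
      apply tendsto_finsetSum
      intro i _
      apply Filter.Tendsto.const_mul
      exact limit_thm_inact h y (fun N => xi N i) (fun N => et N i) hyb
        ⟨2, fun N => (hb N i).1⟩ ⟨2, fun N => (hb N i).2⟩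
    have ht2 : Filter.Tendsto (fun N => ∑ t, ⟪α N t r, y N (β N t s)⟫_ℂ) U
        (nhds (∑ t, ⟪a t r, π y (b t s)⟫_ℂ)) := by
      apply tendsto_finsetSum
      intro t _
      exact limit_thm_inact h y (fun N => β N t s) (fun N => α N t r) hyb (hβb t s) (hαb t r)
    refine tendsto_nhds_unique ht1 (ht2.congr' ?_)
    have : ∀ᶠ N in Filter.atTop, ∑ t, ⟪α N t r, y N (β N t s)⟫_ℂ =
        ∑ i : Fin n, c i s r * ⟪et N i, y N (xi N i)⟫_ℂ :=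
      hex.mono fun N hN => (hαβ N hN (y N) (hyc N) r s).symm
    exact hU this
  have hB : ∀ r s : Fin l,
      ∑ i : Fin n, c i s r * ⟪v (fun N => et N i), x r s (v (fun N => xi N i))⟫_ℂ =
        ∑ t, ⟪a t r, x r s (b t s)⟫_ℂ := by
    intro r s
    have h1 := commutant_ext (limit_thm_A h Y) (ι := Fin n ⊕ Fin l)
      (Sum.elim (fun i => v (fun N => xi N i)) (fun t => b t s))
      (Sum.elim (fun i => (starRingEnd ℂ (c i s r)) • v (fun N => et N i)) (fun t => - a t r))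
      (by
        intro T hT
        have h2 := hA T hT r s
        rw [Fintype.sum_sum_type]
        simp only [Sum.elim_inl, Sum.elim_inr, inner_smul_left, inner_neg_left,
          Complex.conj_conj, Finset.sum_neg_distrib]
        rw [h2]; ring) (x r s) (hx r s)
    rw [Fintype.sum_sum_type] at h1
    simp only [Sum.elim_inl, Sum.elim_inr, inner_smul_left, inner_neg_left,
          Complex.conj_conj, Finset.sum_neg_distrib] at h1
    linear_combination h1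
  have hPhi : Phi (fun i => v (fun N => xi N i)) (fun i => v (fun N => et N i)) c x =
      ∑ t, ∑ r, ∑ s, ⟪a t r, x r s (b t s)⟫_ℂ := by
    unfold Phi
    calc _ = ∑ r, ∑ s, ∑ t, ⟪a t r, x r s (b t s)⟫_ℂ :=
          Finset.sum_congr rfl fun r _ => Finset.sum_congr rfl fun s _ => hB r s
      _ = ∑ r, ∑ t, ∑ s, ⟪a t r, x r s (b t s)⟫_ℂ :=
          Finset.sum_congr rfl fun r _ => Finset.sum_comm
      _ = _ := Finset.sum_comm
  rw [hPhi]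
  calc ‖∑ t, ∑ r, ∑ s, ⟪a t r, x r s (b t s)⟫_ℂ‖
      ≤ ∑ t, ‖∑ r, ∑ s, ⟪a t r, x r s (b t s)⟫_ℂ‖ := norm_sum_le _ _
    _ ≤ ∑ t, ((∑ r, ‖a t r‖ ^ 2) + (∑ s, ‖b t s‖ ^ 2)) / 2 := by
        apply Finset.sum_le_sum
        intro t _
        have h1 := hM (fun s => b t s) (fun r => a t r)
        have h2 := Real.sq_sqrt (show 0 ≤ ∑ r, ‖a t r‖ ^ 2 by positivity)
        have h3 := Real.sq_sqrt (show 0 ≤ ∑ r, ‖b t r‖ ^ 2 by positivity)
        have h4 := sq_nonneg (√(∑ r, ‖a t r‖ ^ 2) - √(∑ r, ‖b t r‖ ^ 2))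
        nlinarith
    _ = ((∑ t, ∑ r, ‖a t r‖ ^ 2) + (∑ t, ∑ s, ‖b t s‖ ^ 2)) / 2 := by
        rw [← Finset.sum_div, Finset.sum_add_distrib]
    _ ≤ L := by linarith

theorem limit_thm : ∃ (H : Type) (_ : NormedAddCommGroup H) (_ : InnerProductSpace ℂ H)
    (_ : CompleteSpace H) (A : StarSubalgebra ℂ (H →L[ℂ] H)) (xi et : ℕ → H),
    LimObj A xi et := by
  obtain ⟨Y, xi, et, hb, hlev⟩ := levels
  obtain ⟨H, i1, i2, i3, v, π, h1, _, _, h4, h5, h6, h7, h8, h9, h10⟩ :=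
    exists_ultrapower Fk (Filter.hyperfilter ℕ)
  have h : limit_thm_UP (Filter.hyperfilter ℕ) v π := ⟨h1, h4, h5, h6, h7, h8, h9, h10⟩
  have hU : ((Filter.hyperfilter ℕ : Ultrafilter ℕ) : Filter ℕ) ≤ Filter.atTop := by
    rw [← Nat.cofinite_eq_atTop]
    exact Filter.hyperfilter_le_cofinite
  refine ⟨H, i1, i2, i3, limit_thm_A h Y, fun i => v (fun N => xi N i),
    fun i => v (fun N => et N i), ?_, ?_⟩
  · intro n l c p q lam hfp x hx hM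
    apply le_of_forall_pos_le_add
    intro ε hε
    exact limit_thm_up h hU Y xi et hb c (√lam + ε) (by positivity)
      (hlev n l c p q lam hfp ε hε).1 x hx hM
  · intro n l c p q lam hfp ε hε
    exact limit_thm_low h hU Y xi et hb c (√lam - ε) (hlev n l c p q lam hfp ε hε).2

end Pool.Agent.OHP
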