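import Pool.Agent.Helper547.OH.Defs

/-! Definitions for the completely isometric embedding of OH into a von Neumann algebra predual. -/

set_option autoImplicit false

namespace Pool.Agent.OHP
open scoped InnerProductSpace ComplexConjugate ComplexOrder
open Finset


/-- the square of the Hilbert-Schmidt norm -/
noncomputable def hs23829 {k : ℕ} (M : Mat k) : ℝ := ∑ i, ∑ j, ‖M i j‖ ^ 2

theorem trc23829 {k : ℕ} (A B : Mat k) : (A * B).trace = (B * A).trace :=
  Matrix.trace_mul_comm A B

theorem hs23829_nonneg {k : ℕ} (M : Mat k) : 0 ≤ hs23829 M :=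
  Finset.sum_nonneg (fun _ _ => Finset.sum_nonneg (fun _ _ => by positivity))

theorem hs23829_trace {k : ℕ} (M : Mat k) :
    ((hs23829 M : ℝ) : ℂ) = (M * M.conjTranspose).trace := by
  unfold hs23829 Matrix.trace
  push_cast
  apply Finset.sum_congr rfl
  intro i _
  rw [Matrix.diag_apply, Matrix.mul_apply]
  apply Finset.sum_congr rfl
  intro j _
  rw [Matrix.conjTranspose_apply, Complex.star_def, Complex.mul_conj, Complex.normSq_eq_norm_sq]
  push_cast
  rfl

theorem hs23829_conj {k : ℕ} (M : Mat k) : hs23829 M.conjTranspose = hs23829 M := by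
  unfold hs23829
  rw [Finset.sum_comm]
  apply Finset.sum_congr rfl
  intro i _
  apply Finset.sum_congr rfl
  intro j _
  rw [Matrix.conjTranspose_apply, norm_star]

theorem cs23829 {n k : ℕ} (A B : Fin n → Mat k) :
    ‖∑ i, (A i * B i).trace‖ ≤ √(∑ i, hs23829 (A i)) * √(∑ i, hs23829 (B i)) := by
  have h1 : ∀ F : Fin n → Fin k → Fin k → ℝ,
      ∑ i, ∑ p, ∑ q, F i p q = ∑ t : Fin n × Fin k × Fin k, F t.1 t.2.1 t.2.2 := by
    intro F
    rw [Fintype.sum_prod_type]
    apply Finset.sum_congr rfl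
    intro i _
    rw [Fintype.sum_prod_type]
  have h2 : ∑ i, hs23829 (A i) = ∑ t : Fin n × Fin k × Fin k, ‖A t.1 t.2.1 t.2.2‖ ^ 2 :=
    h1 (fun i p q => ‖A i p q‖ ^ 2)
  have h3 : ∑ i, hs23829 (B i) = ∑ t : Fin n × Fin k × Fin k, ‖B t.1 t.2.2 t.2.1‖ ^ 2 := by
    rw [← h1 (fun i p q => ‖B i q p‖ ^ 2)]
    apply Finset.sum_congr rfl
    intro i _
    unfold hs23829
    rw [Finset.sum_comm]
  rw [h2, h3]
  refine le_trans ?_ (Real.sum_mul_le_sqrt_mul_sqrt Finset.univ
    (fun t : Fin n × Fin k × Fin k => ‖A t.1 t.2.1 t.2.2‖)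
    (fun t : Fin n × Fin k × Fin k => ‖B t.1 t.2.2 t.2.1‖))
  rw [← h1 (fun i p q => ‖A i p q‖ * ‖B i q p‖)]
  refine le_trans (norm_sum_le _ _) (Finset.sum_le_sum (fun i _ => ?_))
  unfold Matrix.trace
  refine le_trans (norm_sum_le _ _) (Finset.sum_le_sum (fun p _ => ?_))
  rw [Matrix.diag_apply, Matrix.mul_apply]
  refine le_trans (norm_sum_le _ _) (Finset.sum_le_sum (fun q _ => ?_))
  rw [norm_mul]

/-- real diagonal matrix -/
noncomputable def dg23829 {k : ℕ} (σ : Fin k → ℝ) : Mat k :=
  Matrix.diagonal (fun i => ((σ i : ℝ) : ℂ))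

theorem dg23829_mul {k : ℕ} (σ τ : Fin k → ℝ) :
    dg23829 σ * dg23829 τ = dg23829 (fun i => σ i * τ i) := by
  unfold dg23829
  rw [Matrix.diagonal_mul_diagonal]
  congr 1
  funext i
  push_cast
  rfl

theorem dg23829_conj {k : ℕ} (σ : Fin k → ℝ) :
    (dg23829 σ).conjTranspose = dg23829 σ := by
  unfold dg23829
  rw [Matrix.diagonal_conjTranspose]
  congr 1
  funext i
  simp

theorem dg23829_one {k : ℕ} (σ : Fin k → ℝ) (h : ∀ i, σ i = 1) : dg23829 σ = 1 := by
  unfold dg23829
  rw [← Matrix.diagonal_one]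
  congr 1
  funext i
  rw [h i]
  simp

theorem svd23829 {k : ℕ} (x : Mat k) (hx : x.det ≠ 0) :
    ∃ (W V : Mat k) (σ : Fin k → ℝ), (∀ i, 0 < σ i) ∧ W.conjTranspose * W = 1 ∧
      W * W.conjTranspose = 1 ∧ V.conjTranspose * V = 1 ∧ V * V.conjTranspose = 1 ∧
      x = W * dg23829 σ * V.conjTranspose := by
  have hxu : IsUnit x := (Matrix.isUnit_iff_isUnit_det x).2 (isUnit_iff_ne_zero.2 hx)
  have hA : (x.conjTranspose * x).PosDef :=
    Matrix.PosDef.conjTranspose_mul_self x (Matrix.mulVec_injective_of_isUnit hxu)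
  obtain ⟨lam, hlam⟩ : ∃ lam : Fin k → ℝ, lam = hA.1.eigenvalues := ⟨_, rfl⟩
  obtain ⟨U, hU⟩ : ∃ U : Mat k, U = (hA.1.eigenvectorUnitary : Mat k) := ⟨_, rfl⟩
  have hlpos : ∀ i, 0 < lam i := by
    intro i
    rw [hlam]
    exact hA.eigenvalues_pos i
  have hU1 : U.conjTranspose * U = 1 := by
    rw [hU]
    exact Unitary.coe_star_mul_self hA.1.eigenvectorUnitary
  have hU2 : U * U.conjTranspose = 1 := by
    rw [hU]
    exact Unitary.coe_mul_star_self hA.1.eigenvectorUnitary
  have hspec : x.conjTranspose * x = U * dg23829 lam * U.conjTranspose := by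
    have h := hA.1.spectral_theorem
    rw [Unitary.conjStarAlgAut_apply] at h
    rw [hU, hlam]
    exact h
  obtain ⟨S, hS⟩ : ∃ S : Mat k, S = dg23829 (fun i => (√(lam i))) := ⟨_, rfl⟩
  obtain ⟨S', hS'⟩ : ∃ S' : Mat k, S' = dg23829 (fun i => (√(lam i))⁻¹) := ⟨_, rfl⟩
  have hsq : ∀ i, 0 < √(lam i) := fun i => Real.sqrt_pos.2 (hlpos i)
  have hSS : S' * S = 1 := by
    rw [hS, hS', dg23829_mul]
    exact dg23829_one _ (fun i => inv_mul_cancel₀ (hsq i).ne')
  have hlam2 : S' * dg23829 lam * S' = 1 := by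
    rw [hS', dg23829_mul, dg23829_mul]
    apply dg23829_one
    intro i
    have h1 : √(lam i) * √(lam i) = lam i := Real.mul_self_sqrt (hlpos i).le
    have h2 := (hsq i).ne'
    calc (√(lam i))⁻¹ * lam i * (√(lam i))⁻¹
        = (√(lam i))⁻¹ * (√(lam i) * √(lam i)) * (√(lam i))⁻¹ := by rw [h1]
      _ = 1 := by field_simp
  have hS'c : S'.conjTranspose = S' := by rw [hS']; exact dg23829_conj _
  have hW1 : (x * U * S').conjTranspose * (x * U * S') = 1 := by
    rw [Matrix.conjTranspose_mul, Matrix.conjTranspose_mul, hS'c]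
    calc S' * (U.conjTranspose * x.conjTranspose) * (x * U * S')
        = S' * (U.conjTranspose * (x.conjTranspose * x) * U) * S' := by
          simp only [Matrix.mul_assoc]
      _ = S' * ((U.conjTranspose * U) * dg23829 lam * (U.conjTranspose * U)) * S' := by
          rw [hspec]; simp only [Matrix.mul_assoc]
      _ = 1 := by rw [hU1, Matrix.one_mul, Matrix.mul_one, hlam2]
  refine ⟨x * U * S', U, fun i => √(lam i), hsq, hW1, mul_eq_one_comm.1 hW1, hU1, hU2, ?_⟩
  rw [← hS]
  calc x = x * (U * U.conjTranspose) := by rw [hU2, Matrix.mul_one]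
    _ = x * U * (S' * S) * U.conjTranspose := by
        rw [hSS, Matrix.mul_one, Matrix.mul_assoc]
    _ = x * U * S' * S * U.conjTranspose := by simp only [Matrix.mul_assoc]

theorem pd23829 {k : ℕ} (V : Mat k) (hV : V * V.conjTranspose = 1) (σ : Fin k → ℝ)
    (hσ : ∀ i, 0 < σ i) : (V * dg23829 σ * V.conjTranspose).PosDef := by
  apply Matrix.PosDef.mul_mul_conjTranspose_same
  · apply Matrix.PosDef.diagonal
    intro i
    exact_mod_cast hσ i
  · intro v w hvw
    have h1 : Matrix.vecMul v V = Matrix.vecMul w V := hvw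
    have h2 : Matrix.vecMul (Matrix.vecMul v V) V.conjTranspose =
        Matrix.vecMul (Matrix.vecMul w V) V.conjTranspose := by rw [h1]
    rw [Matrix.vecMul_vecMul, Matrix.vecMul_vecMul, hV, Matrix.vecMul_one, Matrix.vecMul_one] at h2
    exact h2

theorem hsdg23829 {k : ℕ} (V U D : Mat k) (hV : V.conjTranspose * V = 1)
    (hU : U.conjTranspose * U = 1) (hD : D.conjTranspose = D) :
    hs23829 (V * D * U.conjTranspose) = hs23829 D := by
  have h : ((hs23829 (V * D * U.conjTranspose) : ℝ) : ℂ) = ((hs23829 D : ℝ) : ℂ) := by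
    rw [hs23829_trace, hs23829_trace, Matrix.conjTranspose_mul, Matrix.conjTranspose_mul,
      Matrix.conjTranspose_conjTranspose, hD]
    calc (V * D * U.conjTranspose * (U * (D * V.conjTranspose))).trace
        = (V * (D * (U.conjTranspose * U) * D * V.conjTranspose)).trace := by
          refine congrArg Matrix.trace ?_
          simp only [Matrix.mul_assoc]
      _ = (D * (U.conjTranspose * U) * D * V.conjTranspose * V).trace :=
          trc23829 V (D * (U.conjTranspose * U) * D * V.conjTranspose)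
      _ = (D * (U.conjTranspose * U) * D * (V.conjTranspose * V)).trace := by
          refine congrArg Matrix.trace ?_
          simp only [Matrix.mul_assoc]
      _ = (D * D).trace := by rw [hU, hV, Matrix.mul_one, Matrix.mul_one]
  exact_mod_cast h

theorem tr23829 {k : ℕ} (V W E E' d : Mat k) (hE : E.conjTranspose = E)
    (hE' : E'.conjTranspose = E') :
    ((hs23829 (E * V.conjTranspose * d * W * E') : ℝ) : ℂ) =
      ((V * (E * E) * V.conjTranspose) * d * (W * (E' * E') * W.conjTranspose) *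
        d.conjTranspose).trace := by
  rw [hs23829_trace]
  simp only [Matrix.conjTranspose_mul, Matrix.conjTranspose_conjTranspose, hE, hE']
  calc (E * V.conjTranspose * d * W * E' *
        (E' * (W.conjTranspose * (d.conjTranspose * (V * E))))).trace
      = ((E * V.conjTranspose * d * W * E' *
        (E' * (W.conjTranspose * d.conjTranspose))) * (V * E)).trace := by
        refine congrArg Matrix.trace ?_
        simp only [Matrix.mul_assoc]
    _ = ((V * E) * (E * V.conjTranspose * d * W * E' *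
        (E' * (W.conjTranspose * d.conjTranspose)))).trace :=
        trc23829 (E * V.conjTranspose * d * W * E' *
        (E' * (W.conjTranspose * d.conjTranspose))) (V * E)
    _ = ((V * (E * E) * V.conjTranspose) * d * (W * (E' * E') * W.conjTranspose) *
      d.conjTranspose).trace := by
        refine congrArg Matrix.trace ?_
        simp only [Matrix.mul_assoc]

theorem inv23829 {n k : ℕ} (d : Fin n → Mat k) (D : ℝ) (hD : 0 ≤ D)
    (h : ∀ r s : Mat k, r.PosDef → s.PosDef →
      ((∑ i, r * d i * s * (d i).conjTranspose).trace).re ≤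
        D * (√(hs23829 r) * √(hs23829 s))) (x y : Mat k) (hx : x.det ≠ 0) (hy : y.det ≠ 0) :
    ‖(∑ i, x * d i * y * (d i).conjTranspose).trace‖ ≤
      D * (√(hs23829 x) * √(hs23829 y)) := by
  obtain ⟨W, V, σ, hσ, hW1, hW2, hV1, hV2, hxe⟩ := svd23829 x hx
  obtain ⟨W', V', σ', hσ', hW1', hW2', hV1', hV2', hye⟩ := svd23829 y hy
  obtain ⟨E, hE⟩ : ∃ E : Mat k, E = dg23829 (fun i => √(σ i)) := ⟨_, rfl⟩
  obtain ⟨E', hE'⟩ : ∃ E' : Mat k, E' = dg23829 (fun i => √(σ' i)) := ⟨_, rfl⟩
  have hEE : E * E = dg23829 σ := by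
    rw [hE, dg23829_mul]
    congr 1
    funext i
    exact Real.mul_self_sqrt (hσ i).le
  have hEE' : E' * E' = dg23829 σ' := by
    rw [hE', dg23829_mul]
    congr 1
    funext i
    exact Real.mul_self_sqrt (hσ' i).le
  have hEc : E.conjTranspose = E := by rw [hE]; exact dg23829_conj _
  have hEc' : E'.conjTranspose = E' := by rw [hE']; exact dg23829_conj _
  have hsx : hs23829 x = hs23829 (dg23829 σ) := by
    conv_lhs => rw [hxe]
    exact hsdg23829 W V _ hW1 hV1 (dg23829_conj _)
  have hsy : hs23829 y = hs23829 (dg23829 σ') := by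
    conv_lhs => rw [hye]
    exact hsdg23829 W' V' _ hW1' hV1' (dg23829_conj _)
  -- the two bounds
  have hbd : ∀ V W : Mat k, V.conjTranspose * V = 1 → V * V.conjTranspose = 1 →
      W.conjTranspose * W = 1 → W * W.conjTranspose = 1 →
      ∑ i, hs23829 (E * V.conjTranspose * d i * W * E') ≤
        D * (√(hs23829 x) * √(hs23829 y)) := by
    intro V W hV1 hV2 hW1 hW2
    have h1 := h _ _ (pd23829 V hV2 σ hσ) (pd23829 W hW2 σ' hσ')
    rw [hsdg23829 V V _ hV1 hV1 (dg23829_conj _), hsdg23829 W W _ hW1 hW1 (dg23829_conj _),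
      ← hsx, ← hsy] at h1
    refine le_trans (le_of_eq ?_) h1
    rw [Matrix.trace_sum, Complex.re_sum]
    apply Finset.sum_congr rfl
    intro i _
    rw [← hEE, ← hEE', ← tr23829 V W E E' (d i) hEc hEc', Complex.ofReal_re]
  have hA := hbd V W' hV1 hV2 hW1' hW2'
  have hB : ∑ i, hs23829 (E' * V'.conjTranspose * (d i).conjTranspose * W * E) ≤
      D * (√(hs23829 x) * √(hs23829 y)) := by
    refine le_trans (le_of_eq ?_) (hbd W V' hW1 hW2 hV1' hV2')
    apply Finset.sum_congr rfl
    intro i _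
    rw [← hs23829_conj]
    refine congrArg hs23829 ?_
    simp only [Matrix.conjTranspose_mul, Matrix.conjTranspose_conjTranspose, hEc, hEc',
      Matrix.mul_assoc]
  have hT0 : 0 ≤ D * (√(hs23829 x) * √(hs23829 y)) := by positivity
  have heq : (∑ i, x * d i * y * (d i).conjTranspose).trace =
      ∑ i, ((E * V.conjTranspose * d i * W' * E') *
        (E' * V'.conjTranspose * (d i).conjTranspose * W * E)).trace := by
    rw [Matrix.trace_sum]
    apply Finset.sum_congr rfl
    intro i _
    rw [hxe, hye, ← hEE, ← hEE']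
    calc (W * (E * E) * V.conjTranspose * d i * (W' * (E' * E') * V'.conjTranspose) *
          (d i).conjTranspose).trace
        = ((W * E) * ((E * V.conjTranspose * d i * W' * E') *
          (E' * V'.conjTranspose * (d i).conjTranspose))).trace := by
          refine congrArg Matrix.trace ?_
          simp only [Matrix.mul_assoc]
      _ = (((E * V.conjTranspose * d i * W' * E') *
          (E' * V'.conjTranspose * (d i).conjTranspose)) * (W * E)).trace :=
          trc23829 (W * E) ((E * V.conjTranspose * d i * W' * E') *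
          (E' * V'.conjTranspose * (d i).conjTranspose))
      _ = ((E * V.conjTranspose * d i * W' * E') *
        (E' * V'.conjTranspose * (d i).conjTranspose * W * E)).trace := by
          refine congrArg Matrix.trace ?_
          simp only [Matrix.mul_assoc]
  rw [heq]
  refine le_trans (cs23829 _ _) ?_
  calc √(∑ i, hs23829 (E * V.conjTranspose * d i * W' * E')) *
        √(∑ i, hs23829 (E' * V'.conjTranspose * (d i).conjTranspose * W * E))
      ≤ √(D * (√(hs23829 x) * √(hs23829 y))) * √(D * (√(hs23829 x) * √(hs23829 y))) :=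
        mul_le_mul (Real.sqrt_le_sqrt hA) (Real.sqrt_le_sqrt hB) (Real.sqrt_nonneg _)
          (Real.sqrt_nonneg _)
    _ = D * (√(hs23829 x) * √(hs23829 y)) := Real.mul_self_sqrt hT0

theorem det23829 {k : ℕ} (x : Mat k) :
    ∀ᶠ t : ℂ in nhdsWithin 0 {0}ᶜ, (x + t • (1 : Mat k)).det ≠ 0 := by
  have hfin : Set.Finite {t : ℂ | Polynomial.IsRoot (-x).charpoly t} :=
    Polynomial.finite_setOfPred_isRoot (Matrix.charpoly_monic _).ne_zero
  have h1 : ∀ᶠ t : ℂ in Filter.cofinite, ¬ Polynomial.IsRoot (-x).charpoly t := by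
    rw [Filter.eventually_cofinite]
    exact hfin.subset (fun t ht => not_not.1 ht)
  filter_upwards [h1.filter_mono (nhdsNE_le_cofinite 0)] with t ht hdet
  apply ht
  rw [Polynomial.IsRoot, Matrix.eval_charpoly, sub_neg_eq_add, add_comm]
  rw [← hdet]
  congr 2
  ext i j
  simp [Matrix.scalar_apply, Matrix.smul_apply, Matrix.diagonal_apply, Matrix.one_apply]

/-- Haagerup's Cauchy-Schwarz argument: positive test matrices suffice -/
theorem pos_pair {n k : ℕ} (a : Fin n → Mat k) (D : ℝ) (hD : 0 ≤ D)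
    (h : ∀ r s : Mat k, r.PosDef → s.PosDef →
      ((∑ i, r * (a i).transpose * s * (a i).map (starRingEnd ℂ)).trace).re ≤
        D * (√(∑ i, ∑ j, ‖r i j‖ ^ 2) * √(∑ i, ∑ j, ‖s i j‖ ^ 2))) (x y : Mat k) :
    ‖(∑ i, x * (a i).transpose * y * (a i).map (starRingEnd ℂ)).trace‖ ≤
      D * (√(∑ i, ∑ j, ‖x i j‖ ^ 2) * √(∑ i, ∑ j, ‖y i j‖ ^ 2)) := by
  have hinv := inv23829 (fun i => (a i).transpose) D hD h
  have hc1 : ∀ z : Mat k, Continuous (fun t : ℂ => z + t • (1 : Mat k)) := fun z =>
    continuous_const.add (continuous_id.smul continuous_const)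
  have hcf : Continuous (fun t : ℂ => ‖(∑ i, (x + t • (1 : Mat k)) * (a i).transpose *
      (y + t • (1 : Mat k)) * (a i).map (starRingEnd ℂ)).trace‖) := by
    apply Continuous.norm
    apply Continuous.matrix_trace
    apply continuous_finsetSum
    intro i _
    exact (((hc1 x).mul continuous_const).mul (hc1 y)).mul continuous_const
  have hch : ∀ z : Mat k, Continuous (fun t : ℂ => √(hs23829 (z + t • (1 : Mat k)))) := by
    intro z
    apply Continuous.sqrt
    unfold hs23829
    apply continuous_finsetSum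
    intro i _
    apply continuous_finsetSum
    intro j _
    exact (((hc1 z).matrix_elem i j).norm).pow 2
  have hcg : Continuous (fun t : ℂ => D * (√(hs23829 (x + t • (1 : Mat k))) *
      √(hs23829 (y + t • (1 : Mat k))))) :=
    continuous_const.mul ((hch x).mul (hch y))
  have hlf := (hcf.tendsto 0).mono_left (nhdsWithin_le_nhds (s := {(0 : ℂ)}ᶜ))
  have hlg := (hcg.tendsto 0).mono_left (nhdsWithin_le_nhds (s := {(0 : ℂ)}ᶜ))
  have hle : ∀ᶠ t : ℂ in nhdsWithin 0 {0}ᶜ,
      ‖(∑ i, (x + t • (1 : Mat k)) * (a i).transpose *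
      (y + t • (1 : Mat k)) * (a i).map (starRingEnd ℂ)).trace‖ ≤
      D * (√(hs23829 (x + t • (1 : Mat k))) * √(hs23829 (y + t • (1 : Mat k)))) := by
    filter_upwards [det23829 x, det23829 y] with t h1 h2
    exact hinv _ _ h1 h2
  have hfin := le_of_tendsto_of_tendsto hlf hlg hle
  simp only [zero_smul, add_zero] at hfin
  exact hfin

end Pool.Agent.OHP
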