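import Pool.Agent.Helper547.OH.Defs
import Pool.Agent.Helper547.OH.P_exists_fixpt
import Pool.Agent.Helper547.OH.P_pos_pair
import Pool.Agent.Helper547.OH.P_cext_nd
import Pool.Agent.Helper547.OH.P_cext_Phi
import Pool.Agent.Helper547.OH.P_dual_low
import Pool.Agent.Helper547.OH.P_KB_min

/-! Definitions for the completely isometric embedding of OH into a von Neumann algebra predual. -/

set_option autoImplicit false

namespace Pool.Agent.OHP
open scoped InnerProductSpace ComplexConjugate ComplexOrder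
open Finset


theorem hs_nonneg' {l k : ℕ} (a : Matrix (Fin l) (Fin k) ℂ) : 0 ≤ hs a := Real.sqrt_nonneg _

theorem hs_smul_real {l k : ℕ} (t : ℝ) (ht : 0 ≤ t) (a : Matrix (Fin l) (Fin k) ℂ) :
    hs ((t : ℂ) • a) = t * hs a := by
  unfold hs
  have : (∑ i, ∑ j, ‖((t : ℂ) • a) i j‖ ^ 2) = t ^ 2 * ∑ i, ∑ j, ‖a i j‖ ^ 2 := by
    rw [Finset.mul_sum]
    refine Finset.sum_congr rfl fun i _ => ?_
    rw [Finset.mul_sum]
    refine Finset.sum_congr rfl fun j _ => ?_
    simp [mul_pow, Matrix.smul_apply]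
  rw [this, Real.sqrt_mul (by positivity), Real.sqrt_sq ht]

theorem hs_sq_of_herm {k : ℕ} (p : Mat k) (hp : p.IsHermitian) :
    ((hs p ^ 2 : ℝ) : ℂ) = (p ^ 2).trace := by
  unfold hs
  rw [Real.sq_sqrt (by positivity)]
  rw [pow_two, Matrix.trace]
  simp only [Matrix.diag_apply, Matrix.mul_apply]
  push_cast
  refine Finset.sum_congr rfl fun i _ => Finset.sum_congr rfl fun j _ => ?_
  have h1 : p j i = (starRingEnd ℂ) (p i j) := by
    have := congrFun (congrFun hp j) i
    rw [Matrix.conjTranspose_apply] at this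
    rw [← this]; rfl
  rw [h1, Complex.mul_conj, Complex.normSq_eq_norm_sq]
  push_cast
  rfl

theorem hs_eq_one_of {k : ℕ} (p : Mat k) (hp : p.PosDef) (h : (p ^ 2).trace = 1) : hs p = 1 := by
  have h1 := hs_sq_of_herm p hp.isHermitian
  rw [h] at h1
  have h2 : hs p ^ 2 = 1 := by exact_mod_cast h1
  have h3 := hs_nonneg' p
  nlinarith

theorem hs_pos_of {k : ℕ} (hk : 0 < k) (p : Mat k) (hp : p.PosDef) : 0 < hs p := by
  unfold hs
  apply Real.sqrt_pos.mpr
  have h0 : p ⟨0, hk⟩ ⟨0, hk⟩ ≠ 0 := by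
    have := hp.diag_pos (i := ⟨0, hk⟩)
    exact ne_of_gt this
  refine Finset.sum_pos' (fun i _ => Finset.sum_nonneg fun j _ => by positivity) ⟨⟨0, hk⟩, Finset.mem_univ _, ?_⟩
  refine Finset.sum_pos' (fun j _ => by positivity) ⟨⟨0, hk⟩, Finset.mem_univ _, ?_⟩
  positivity

theorem lower_fin {H : Type} [NormedAddCommGroup H] [InnerProductSpace ℂ H] [CompleteSpace H]
    (A : StarSubalgebra ℂ (H →L[ℂ] H)) (xi et : ℕ → H) (hL : LimObj A xi et)
    {n k : ℕ} (a : Fin n → Mat k) (C : ℝ) (hC : 0 ≤ C)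
    (h : ∀ (x : Fin k → Fin k → (H →L[ℂ] H)), (∀ r s, x r s ∈ A) → MatBound x 1 →
      ∀ V W : Matrix (Fin k) (Fin k) ℂ, hs V ≤ 1 → hs W ≤ 1 →
      ‖Phi xi et (fun i => V * (a i).transpose * W.conjTranspose) x‖ ≤ C) :
    KB a (C ^ 2) := by
  rcases Nat.eq_zero_or_pos k with hk | hk
  · subst hk
    intro x y
    have h1 : (∑ i, x * (a i).transpose * y * (a i).map (starRingEnd ℂ)).trace = 0 := by
      simp [Matrix.trace]
    rw [h1, norm_zero]
    have := hs_nonneg' x
    have := hs_nonneg' y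
    positivity
  obtain ⟨N, hN0, hNK, hNmin⟩ := KB_min a
  -- normalised case
  have key1 : ∀ r s : Mat k, r.PosDef → s.PosDef → hs r = 1 → hs s = 1 →
      ((∑ i, r * (a i).transpose * s * (a i).map (starRingEnd ℂ)).trace).re ≤ C * √N := by
    intro r s hr hs' hr1 hs1
    have key : ∀ e : ℝ, 0 < e →
        ((∑ i, r * (a i).transpose * s * (a i).map (starRingEnd ℂ)).trace).re ≤
          (C + e * (1 + k ^ 2)) * √N := by
      intro e he
      set c : Fin n → Mat k := fun i => r * (a i).transpose * s with hc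
      obtain ⟨hnd1, hnd2, -⟩ := cext_nd hk c e he
      obtain ⟨p, q, lam, hF, -⟩ := exists_fixpt hk (cext c e) hnd1 hnd2
      obtain ⟨x, hxA, hxb, hxl⟩ := hL.low _ _ (cext c e) p q lam hF e he
      have hxc : ∀ r s, x r s ∈ Set.centralizer (Set.centralizer (A : Set (H →L[ℂ] H))) := by
        intro r s
        exact Set.subset_centralizer_centralizer (hxA r s)
      have h1 := cext_Phi A xi et hL c e he x hxc hxb
      have h2 := h x hxA hxb r s (le_of_eq hr1) (le_of_eq hs1)
      have h2' : (fun i => r * (a i).transpose * s.conjTranspose) = c := by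
        rw [hc]
        funext i
        rw [hs'.isHermitian.eq]
      rw [h2'] at h2
      have h3 : √lam ≤ C + e * (1 + k ^ 2) := by
        have h4 : (Phi xi et (cext c e) x).re ≤ ‖Phi xi et (cext c e) x‖ := Complex.re_le_norm _
        have h5 : ‖Phi xi et (cext c e) x‖ ≤ ‖Phi xi et (cext c e) x - Phi xi et c x‖ + ‖Phi xi et c x‖ := by
          have := norm_add_le (Phi xi et (cext c e) x - Phi xi et c x) (Phi xi et c x)
          rwa [sub_add_cancel] at this
        linarith
      have h6 := dual_low (cext c e) (Fin.append (fun i => (a i).transpose) (fun _ => 0)) p q lam hF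
      have h7 : (∑ i, cext c e i * (Fin.append (fun i => (a i).transpose) (fun _ : Fin (k * k) => (0 : Mat k)) i).conjTranspose)
          = ∑ i, r * (a i).transpose * s * (a i).map (starRingEnd ℂ) := by
        rw [Fin.sum_univ_add]
        simp only [cext, Fin.append_left, Fin.append_right, Matrix.conjTranspose_zero, mul_zero,
          Finset.sum_const_zero, add_zero]
        refine Finset.sum_congr rfl fun i _ => ?_
        rfl
      have h8 : (∑ i, p * (Fin.append (fun i => (a i).transpose) (fun _ : Fin (k * k) => (0 : Mat k)) i) * q *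
          (Fin.append (fun i => (a i).transpose) (fun _ : Fin (k * k) => (0 : Mat k)) i).conjTranspose)
          = ∑ i, p * (a i).transpose * q * (a i).map (starRingEnd ℂ) := by
        rw [Fin.sum_univ_add]
        simp only [Fin.append_left, Fin.append_right, Matrix.conjTranspose_zero, mul_zero,
          Finset.sum_const_zero, add_zero]
        refine Finset.sum_congr rfl fun i _ => ?_
        rfl
      rw [h7, h8] at h6
      have hp1 := hs_eq_one_of p hF.hp hF.tp
      have hq1 := hs_eq_one_of q hF.hq hF.tq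
      have h9 := hNK p q
      rw [hp1, hq1, mul_one, mul_one] at h9
      have h10 : (∑ i, p * (a i).transpose * q * (a i).map (starRingEnd ℂ)).trace.re ≤ N :=
        (Complex.re_le_norm _).trans h9
      have h11 : √((∑ i, p * (a i).transpose * q * (a i).map (starRingEnd ℂ)).trace.re) ≤ √N :=
        Real.sqrt_le_sqrt h10
      calc _ ≤ ‖(∑ i, r * (a i).transpose * s * (a i).map (starRingEnd ℂ)).trace‖ := Complex.re_le_norm _
        _ ≤ √lam * √((∑ i, p * (a i).transpose * q * (a i).map (starRingEnd ℂ)).trace.re) := h6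
        _ ≤ (C + e * (1 + k ^ 2)) * √N := by
            apply mul_le_mul h3 h11 (Real.sqrt_nonneg _)
            positivity
    have hlim : Filter.Tendsto (fun e : ℝ => (C + e * (1 + k ^ 2)) * √N) (nhdsWithin 0 (Set.Ioi 0))
        (nhds ((C + 0 * (1 + k ^ 2)) * √N)) := by
      apply Filter.Tendsto.mono_left _ nhdsWithin_le_nhds
      apply Continuous.tendsto
      fun_prop
    have := ge_of_tendsto hlim (by
      filter_upwards [self_mem_nhdsWithin] with e he
      exact key e he)
    simpa using this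
  have key2 : ∀ r s : Mat k, r.PosDef → s.PosDef →
      ((∑ i, r * (a i).transpose * s * (a i).map (starRingEnd ℂ)).trace).re ≤
        (C * √N) * (√(∑ i, ∑ j, ‖r i j‖ ^ 2) * √(∑ i, ∑ j, ‖s i j‖ ^ 2)) := by
    intro r s hr hs'
    change _ ≤ (C * √N) * (hs r * hs s)
    have hr0 := hs_pos_of hk r hr
    have hs0 := hs_pos_of hk s hs'
    have hri : (0 : ℝ) < (hs r)⁻¹ := inv_pos.mpr hr0
    have hsi : (0 : ℝ) < (hs s)⁻¹ := inv_pos.mpr hs0
    have hr' : ((((hs r)⁻¹ : ℝ) : ℂ) • r).PosDef := by
      apply Matrix.PosDef.smul hr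
      exact_mod_cast hri
    have hs'' : ((((hs s)⁻¹ : ℝ) : ℂ) • s).PosDef := by
      apply Matrix.PosDef.smul hs'
      exact_mod_cast hsi
    have h1 := key1 _ _ hr' hs'' (by rw [hs_smul_real _ hri.le, inv_mul_cancel₀ hr0.ne'])
      (by rw [hs_smul_real _ hsi.le, inv_mul_cancel₀ hs0.ne'])
    have h2 : (∑ i, ((((hs r)⁻¹ : ℝ) : ℂ) • r) * (a i).transpose * ((((hs s)⁻¹ : ℝ) : ℂ) • s) * (a i).map (starRingEnd ℂ))
        = (((hs r)⁻¹ * (hs s)⁻¹ : ℝ) : ℂ) • ∑ i, r * (a i).transpose * s * (a i).map (starRingEnd ℂ) := by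
      rw [Finset.smul_sum]
      refine Finset.sum_congr rfl fun i _ => ?_
      simp only [Matrix.smul_mul, Matrix.mul_smul, smul_smul]
      congr 1
      push_cast
      ring
    rw [h2, Matrix.trace_smul, smul_eq_mul, Complex.re_ofReal_mul] at h1
    have h3 : (0 : ℝ) < hs r * hs s := mul_pos hr0 hs0
    have h4 : ((∑ i, r * (a i).transpose * s * (a i).map (starRingEnd ℂ)).trace).re =
        (hs r * hs s) * ((hs r)⁻¹ * (hs s)⁻¹ * ((∑ i, r * (a i).transpose * s * (a i).map (starRingEnd ℂ)).trace).re) := by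
      field_simp
    rw [h4, mul_comm (C * √N)]
    exact mul_le_mul_of_nonneg_left h1 h3.le
  have key3 : KB a (C * √N) := fun x y => pos_pair a (C * √N) (by positivity) key2 x y
  have h4 : N ≤ C * √N := hNmin _ (by positivity) key3
  have h5 : √N ≤ C := by
    by_contra hcon
    push Not at hcon
    have h6 : 0 < √N := lt_of_le_of_lt hC hcon
    have h7 : N = √N * √N := (Real.mul_self_sqrt hN0).symm
    nlinarith
  have h6 : N ≤ C ^ 2 := by
    have h7 : N = √N * √N := (Real.mul_self_sqrt hN0).symm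
    have h8 := Real.sqrt_nonneg N
    nlinarith
  intro x y
  refine (hNK x y).trans ?_
  have := hs_nonneg' x
  have := hs_nonneg' y
  gcongr

end Pool.Agent.OHP
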