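import Pool.Agent.Helper547.OH.Defs
import Pool.Agent.Helper547.OH.P_l2_iff
import Pool.Agent.Helper547.OH.P_dual_small

/-! Definitions for the completely isometric embedding of OH into a von Neumann algebra predual. -/

set_option autoImplicit false

namespace Pool.Agent.OHP
open scoped InnerProductSpace ComplexConjugate ComplexOrder
open Finset


open scoped Matrix.Norms.L2Operator in
theorem main_ext_one (T : Matrix (Fin 1 × Fin 1) (Fin 1 × Fin 1) ℂ) :
    ‖T‖ = ‖T (0, 0) (0, 0)‖ := by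
  apply le_antisymm
  · rw [l2_iff T _ (norm_nonneg _)]
    intro V W hV hW
    have e : ∀ V : Matrix (Fin 1) (Fin 1) ℂ, hs V = ‖V 0 0‖ := by
      intro V
      simp [hs, Real.sqrt_sq (norm_nonneg _)]
    rw [e] at hV hW
    simp only [Fin.sum_univ_one, Fin.isValue, norm_mul, RCLike.norm_conj]
    have h1 : ‖W 0 0‖ * ‖T (0, 0) (0, 0)‖ ≤ 1 * ‖T (0, 0) (0, 0)‖ :=
      mul_le_mul_of_nonneg_right hW (norm_nonneg _)
    calc ‖W 0 0‖ * ‖T (0, 0) (0, 0)‖ * ‖V 0 0‖
        ≤ (1 * ‖T (0, 0) (0, 0)‖) * 1 :=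
          mul_le_mul h1 hV (norm_nonneg _) (by positivity)
      _ = ‖T (0, 0) (0, 0)‖ := by ring
  · have h := (l2_iff T ‖T‖ (norm_nonneg _)).1 le_rfl 1 1 (by simp [hs]) (by simp [hs])
    simpa using h

theorem main_ext_oh1 (v : lp (fun _ : ℕ => ℂ) 2) :
    ohNorm (k := 1) (fun _ _ => v) = ‖v‖ := by
  unfold ohNorm
  rw [main_ext_one, Matrix.of_apply, inner_self_eq_norm_sq_to_K]
  simp

theorem main_ext_dual1 {H : Type} [NormedAddCommGroup H] [InnerProductSpace ℂ H] [CompleteSpace H]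
    (M : VonNeumannAlgebra H) (f : M.toStarSubalgebra →L[ℂ] ℂ) (C : ℝ) (hC : 0 ≤ C)
    (h : DualLe M (k := 1) (fun _ _ => f) C) : ‖f‖ ≤ C := by
  have key : ∀ y : M.toStarSubalgebra, ‖y‖ ≤ 1 → ‖f y‖ ≤ C := by
    intro y hy
    have := h 1 (fun _ _ => y) (by
      intro ξ η
      simp only [Fin.sum_univ_one, Fin.isValue, one_mul, Real.sqrt_sq (norm_nonneg _)]
      calc ‖⟪η 0, (y : H →L[ℂ] H) (ξ 0)⟫_ℂ‖ ≤ ‖η 0‖ * ‖(y : H →L[ℂ] H) (ξ 0)‖ :=
            norm_inner_le_norm _ _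
        _ ≤ ‖η 0‖ * (‖(y : H →L[ℂ] H)‖ * ‖ξ 0‖) :=
            mul_le_mul_of_nonneg_left ((y : H →L[ℂ] H).le_opNorm _) (norm_nonneg _)
        _ ≤ ‖η 0‖ * (1 * ‖ξ 0‖) := by
            refine mul_le_mul_of_nonneg_left (mul_le_mul_of_nonneg_right ?_ (norm_nonneg _))
              (norm_nonneg _)
            exact hy
        _ = ‖η 0‖ * ‖ξ 0‖ := by ring)
    rw [main_ext_one] at this
    simpa using this
  refine ContinuousLinearMap.opNorm_le_bound f hC ?_
  intro y
  rcases eq_or_ne y 0 with rfl | hy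
  · simp
  · have hy' : 0 < ‖y‖ := norm_pos_iff.2 hy
    have h1 := key (((‖y‖⁻¹ : ℝ) : ℂ) • y) (by
      rw [norm_smul, Complex.norm_real, norm_inv, norm_norm, inv_mul_cancel₀ hy'.ne'])
    rw [map_smul, norm_smul, Complex.norm_real, norm_inv, norm_norm] at h1
    rw [inv_mul_le_iff₀ hy'] at h1
    linarith

theorem main_ext_fin {H : Type} [NormedAddCommGroup H] [InnerProductSpace ℂ H] [CompleteSpace H]
    (M : VonNeumannAlgebra H) (φ : ℕ → (M.toStarSubalgebra →L[ℂ] ℂ))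
    (h : ∀ (n k : ℕ) (a : Fin n → Mat k) (C : ℝ), 0 ≤ C →
      (DualLe M (fun α β => ∑ i : Fin n, a i α β • φ i) C ↔
        ohNorm (fun α β => ∑ i : Fin n, a i α β • lp.single 2 (i : ℕ) (1 : ℂ)) ≤ C))
    (s : Finset ℕ) (b : ℕ → ℂ) :
    ‖∑ i ∈ s, b i • φ i‖ ≤ ‖∑ i ∈ s, (b i • lp.single 2 i (1 : ℂ) : lp (fun _ : ℕ => ℂ) 2)‖ := by
  classical
  obtain ⟨n, hn⟩ : ∃ n, s ⊆ Finset.range n := by
    refine ⟨s.sup id + 1, fun i hi => Finset.mem_range.2 (Nat.lt_succ_of_le ?_)⟩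
    exact Finset.le_sup (f := id) hi
  have e1 : ∑ i : Fin n, (if (i : ℕ) ∈ s then b i else 0) • φ i = ∑ i ∈ s, b i • φ i := by
    rw [Fin.sum_univ_eq_sum_range (fun i => (if i ∈ s then b i else 0) • φ i) n]
    rw [← Finset.sum_subset hn]
    · refine Finset.sum_congr rfl fun i hi => ?_
      rw [if_pos hi]
    · intro i _ hi
      rw [if_neg hi]
      exact zero_smul ℂ (φ i)
  have e2 : ∑ i : Fin n, (if (i : ℕ) ∈ s then b i else 0) •
      (lp.single 2 (i : ℕ) (1 : ℂ) : lp (fun _ : ℕ => ℂ) 2)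
      = ∑ i ∈ s, (b i • lp.single 2 i (1 : ℂ) : lp (fun _ : ℕ => ℂ) 2) := by
    rw [Fin.sum_univ_eq_sum_range (fun i => (if i ∈ s then b i else 0) •
      (lp.single 2 i (1 : ℂ) : lp (fun _ : ℕ => ℂ) 2)) n]
    rw [← Finset.sum_subset hn]
    · refine Finset.sum_congr rfl fun i hi => ?_
      rw [if_pos hi]
    · intro i _ hi
      rw [if_neg hi, zero_smul]
  have h1 := (h n 1 (fun i _ _ => if (i : ℕ) ∈ s then b i else 0)
    ‖∑ i ∈ s, (b i • lp.single 2 i (1 : ℂ) : lp (fun _ : ℕ => ℂ) 2)‖ (norm_nonneg _)).2 (by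
      simp only [e2]
      rw [main_ext_oh1])
  simp only [e1] at h1
  exact main_ext_dual1 M _ _ (norm_nonneg _) h1

theorem main_ext_single (v : lp (fun _ : ℕ => ℂ) 2) (i : ℕ) :
    (v i • lp.single 2 i (1 : ℂ) : lp (fun _ : ℕ => ℂ) 2) = lp.single 2 i (v i) := by
  rw [← lp.single_smul]
  simp

theorem main_ext_hasSum (v : lp (fun _ : ℕ => ℂ) 2) :
    HasSum (fun i => (v i • lp.single 2 i (1 : ℂ) : lp (fun _ : ℕ => ℂ) 2)) v := by
  have := lp.hasSum_single (p := 2) (by norm_num) v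
  simpa only [main_ext_single] using this

theorem main_ext_summable {H : Type} [NormedAddCommGroup H] [InnerProductSpace ℂ H]
    [CompleteSpace H]
    (M : VonNeumannAlgebra H) (φ : ℕ → (M.toStarSubalgebra →L[ℂ] ℂ))
    (h : ∀ (n k : ℕ) (a : Fin n → Mat k) (C : ℝ), 0 ≤ C →
      (DualLe M (fun α β => ∑ i : Fin n, a i α β • φ i) C ↔
        ohNorm (fun α β => ∑ i : Fin n, a i α β • lp.single 2 (i : ℕ) (1 : ℂ)) ≤ C))
    (v : lp (fun _ : ℕ => ℂ) 2) : Summable (fun i => v i • φ i) := by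
  rw [summable_iff_vanishing_norm]
  intro ε hε
  obtain ⟨s, hs⟩ := (summable_iff_vanishing_norm.1 (main_ext_hasSum v).summable) ε hε
  exact ⟨s, fun t ht => (main_ext_fin M φ h t v).trans_lt (hs t ht)⟩

theorem main_ext_lim1 (w : lp (fun _ : ℕ => ℂ) 2) :
    Filter.Tendsto (fun (n : ℕ) =>
      (∑ i : Fin n, w i • lp.single 2 (i : ℕ) (1 : ℂ) : lp (fun _ : ℕ => ℂ) 2))
      Filter.atTop (nhds w) := by
  have := (main_ext_hasSum w).tendsto_sum_nat
  simpa only [Finset.sum_range] using this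

theorem main_ext_lim {k : ℕ} (v : Fin k → Fin k → lp (fun _ : ℕ => ℂ) 2) :
    Filter.Tendsto (fun (n : ℕ) (α β : Fin k) =>
      (∑ i : Fin n, (v α β) i • lp.single 2 (i : ℕ) (1 : ℂ) : lp (fun _ : ℕ => ℂ) 2))
      Filter.atTop (nhds v) := by
  rw [tendsto_pi_nhds]
  intro α
  rw [tendsto_pi_nhds]
  intro β
  exact main_ext_lim1 (v α β)

open scoped Matrix.Norms.L2Operator in
theorem main_ext_dlim {H : Type} [NormedAddCommGroup H] [InnerProductSpace ℂ H]
    [CompleteSpace H] (M : VonNeumannAlgebra H) {k : ℕ}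
    (f : Fin k → Fin k → (M.toStarSubalgebra →L[ℂ] ℂ)) (c : ℕ → ℝ) (C : ℝ)
    (hc : Filter.Tendsto c Filter.atTop (nhds C)) (h : ∀ n, DualLe M f (c n)) :
    DualLe M f C := fun l x hx => ge_of_tendsto' hc (fun n => h n l x hx)

open scoped Matrix.Norms.L2Operator in
theorem main_ext_cont {k : ℕ} :
    Continuous (fun v : Fin k → Fin k → lp (fun _ : ℕ => ℂ) 2 => ohNorm v) := by
  unfold ohNorm
  refine Real.continuous_sqrt.comp (Continuous.norm ?_)
  refine continuous_matrix ?_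
  intro ab cd
  simp only [Matrix.of_apply]
  fun_prop

theorem main_ext {H : Type} [NormedAddCommGroup H] [InnerProductSpace ℂ H] [CompleteSpace H]
    (M : VonNeumannAlgebra H) (φ : ℕ → (M.toStarSubalgebra →L[ℂ] ℂ))
    (hφ : ∀ i, φ i ∈ predual M)
    (h : ∀ (n k : ℕ) (a : Fin n → Mat k) (C : ℝ), 0 ≤ C →
      (DualLe M (fun α β => ∑ i : Fin n, a i α β • φ i) C ↔
        ohNorm (fun α β => ∑ i : Fin n, a i α β • lp.single 2 (i : ℕ) (1 : ℂ)) ≤ C)) :
    ∃ J : (lp (fun _ : ℕ => ℂ) 2) →L[ℂ] (M.toStarSubalgebra →L[ℂ] ℂ),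
      (∀ i, J (lp.single 2 i (1 : ℂ)) = φ i) ∧ (∀ v, J v ∈ predual M) ∧
      ∀ (k : ℕ) (v : Fin k → Fin k → lp (fun _ : ℕ => ℂ) 2) (C : ℝ), 0 ≤ C →
        (DualLe M (fun α β => J (v α β)) C ↔ ohNorm v ≤ C) := by
  classical
  have hsum := main_ext_summable M φ h
  let J0 : (lp (fun _ : ℕ => ℂ) 2) →ₗ[ℂ] (M.toStarSubalgebra →L[ℂ] ℂ) :=
    { toFun := fun v => ∑' i, v i • φ i
      map_add' := by
        intro v w
        rw [← (hsum v).tsum_add (hsum w)]
        refine tsum_congr fun i => ?_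
        exact add_smul (v i) (w i) (φ i)
      map_smul' := by
        intro c v
        rw [RingHom.id_apply, ← (hsum v).tsum_const_smul c]
        refine tsum_congr fun i => ?_
        exact mul_smul c (v i) (φ i) }
  have hJ0 : ∀ v, ‖J0 v‖ ≤ 1 * ‖v‖ := by
    intro v
    rw [one_mul]
    exact le_of_tendsto_of_tendsto' (hsum v).hasSum.norm (main_ext_hasSum v).norm
      (fun s => main_ext_fin M φ h s v)
  let J := J0.mkContinuous 1 hJ0
  have hJapp : ∀ v, J v = ∑' i, v i • φ i := fun v => rfl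
  have hJs : ∀ i, J (lp.single 2 i (1 : ℂ)) = φ i := by
    intro i
    rw [hJapp, tsum_eq_single i]
    · simp
    · intro j hj
      rw [lp.single_apply_ne _ _ _ hj]
      exact zero_smul ℂ (φ j)
  refine ⟨J, hJs, ?_, ?_⟩
  · intro v
    have hcl : IsClosed (predual M : Set (M.toStarSubalgebra →L[ℂ] ℂ)) :=
      Submodule.isClosed_topologicalClosure _
    refine hcl.mem_of_tendsto (hsum v).hasSum (Filter.Eventually.of_forall fun s => ?_)
    exact Submodule.sum_mem _ fun i _ => Submodule.smul_mem _ _ (hφ i)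
  · intro k v C hC
    set vn : ℕ → Fin k → Fin k → lp (fun _ : ℕ => ℂ) 2 := fun n α β =>
      ∑ i : Fin n, (v α β) i • lp.single 2 (i : ℕ) (1 : ℂ) with hvn
    have hlim : Filter.Tendsto vn Filter.atTop (nhds v) := main_ext_lim v
    have hoh : Filter.Tendsto (fun n => ohNorm (vn n)) Filter.atTop (nhds (ohNorm v)) :=
      (main_ext_cont.tendsto v).comp hlim
    have hJvn : ∀ n, (fun α β => J (vn n α β)) = fun α β => ∑ i : Fin n, (v α β) i • φ i := by
      intro n
      funext α β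
      refine (map_sum J _ _).trans (Finset.sum_congr rfl fun i _ => ?_)
      exact (J.map_smul _ _).trans (congrArg (fun z => (v α β) i • z) (hJs i))
    have hh : ∀ n C, 0 ≤ C → (DualLe M (fun α β => J (vn n α β)) C ↔ ohNorm (vn n) ≤ C) := by
      intro n C hC
      rw [hJvn]
      exact h n k (fun i α β => (v α β) i) C hC
    have hd1 : Filter.Tendsto (fun n => ∑ α, ∑ β, ‖J (v α β) - J (vn n α β)‖) Filter.atTop
        (nhds 0) := by
      have : (0 : ℝ) = ∑ α : Fin k, ∑ β : Fin k, ‖J (v α β) - J (v α β)‖ := by simp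
      rw [this]
      refine tendsto_finsetSum _ fun α _ => tendsto_finsetSum _ fun β _ => ?_
      refine (tendsto_const_nhds.sub ?_).norm
      refine (J.continuous.tendsto _).comp ?_
      exact (tendsto_pi_nhds.1 ((tendsto_pi_nhds.1 hlim) α)) β
    constructor
    · intro hD
      have h1 : ∀ n, ohNorm (vn n) ≤ C + ∑ α, ∑ β, ‖J (v α β) - J (vn n α β)‖ := by
        intro n
        rw [← hh n _ (add_nonneg hC (Finset.sum_nonneg fun α _ => Finset.sum_nonneg fun β _ =>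
          norm_nonneg _))]
        exact dual_small M _ _ C hD
      have h2 := le_of_tendsto_of_tendsto' hoh (tendsto_const_nhds.add hd1) h1
      simpa using h2
    · intro hO
      have h1 : ∀ n, DualLe M (fun α β => J (v α β))
          (max C (ohNorm (vn n)) + ∑ α, ∑ β, ‖J (v α β) - J (vn n α β)‖) := by
        intro n
        have h3 : DualLe M (fun α β => J (vn n α β)) (max C (ohNorm (vn n))) :=
          (hh n _ (le_max_of_le_left hC)).2 (le_max_right _ _)
        have h4 := dual_small M _ (fun α β => J (v α β)) _ h3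
        have h5 : ∑ α, ∑ β, ‖J (vn n α β) - J (v α β)‖ =
            ∑ α, ∑ β, ‖J (v α β) - J (vn n α β)‖ :=
          Finset.sum_congr rfl fun α _ => Finset.sum_congr rfl fun β _ => norm_sub_rev _ _
        rw [h5] at h4
        exact h4
      refine main_ext_dlim M _ _ C ?_ h1
      have h2 := ((tendsto_const_nhds (x := C)).max hoh).add hd1
      rw [add_zero, max_eq_left hO] at h2
      exact h2

end Pool.Agent.OHP
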