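import Pool.Agent.Helper547.OH.Defs
import Pool.Agent.Helper547.OH.P_exists_fixpt
import Pool.Agent.Helper547.OH.P_cext_nd
import Pool.Agent.Helper547.OH.P_cext_Phi
import Pool.Agent.Helper547.OH.P_F_up

/-! Definitions for the completely isometric embedding of OH into a von Neumann algebra predual. -/

set_option autoImplicit false

namespace Pool.Agent.OHP
open scoped InnerProductSpace ComplexConjugate ComplexOrder
open Finset


theorem upper_fin {H : Type} [NormedAddCommGroup H] [InnerProductSpace ℂ H] [CompleteSpace H]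
    (A : StarSubalgebra ℂ (H →L[ℂ] H)) (xi et : ℕ → H) (hL : LimObj A xi et)
    {n k l : ℕ} (a : Fin n → Mat k) (C : ℝ) (hC : 0 ≤ C) (hK : KB a (C ^ 2))
    (V W : Matrix (Fin l) (Fin k) ℂ) (hV : hs V ≤ 1) (hW : hs W ≤ 1)
    (x : Fin l → Fin l → (H →L[ℂ] H))
    (hx : ∀ r s, x r s ∈ Set.centralizer (Set.centralizer (A : Set (H →L[ℂ] H))))
    (hb : MatBound x 1) :
    ‖Phi xi et (fun i => V * (a i).transpose * W.conjTranspose) x‖ ≤ C := by
  rcases Nat.eq_zero_or_pos l with hl0 | hl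
  · subst hl0
    have h0 : Phi xi et (fun i => V * (a i).transpose * W.conjTranspose) x = 0 := by
      unfold Phi
      rw [Finset.univ_eq_empty, Finset.sum_empty]
    rw [h0, norm_zero]
    exact hC
  set c : Fin n → Mat l := fun i => V * (a i).transpose * W.conjTranspose with hc
  have key : ∀ δ : ℝ, 0 < δ → ‖Phi xi et c x‖ ≤ √(C ^ 2 * (1 + l * δ)) := by
    intro δ hδ
    obtain ⟨p', q', hp', hq', tp', tq', hle⟩ :=
      F_up hl a (C ^ 2) (sq_nonneg C) hK V W hV hW δ hδ
    have h1 : ∀ e : ℝ, 0 < e → ‖Phi xi et c x‖ ≤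
        √(C ^ 2 * (1 + l * δ) + e ^ 2 * ((q'⁻¹).trace * (p'⁻¹).trace).re) + e * (l : ℝ) ^ 2 := by
      intro e he
      obtain ⟨nd1, nd2, hex⟩ := cext_nd hl c e he
      obtain ⟨p, q, lam, hfix, hmin⟩ := exists_fixpt hl (cext c e) nd1 nd2
      have h2 := hL.up (n + l * l) l (cext c e) p q lam hfix x hx hb
      have h3 := cext_Phi A xi et hL c e he x hx hb
      have h4 := hmin p' q' hp' hq' tp' tq'
      rw [hex, Matrix.add_mul, Matrix.trace_add, Complex.add_re] at h4
      have h5 : ((((e ^ 2 : ℝ) : ℂ) • ((q'⁻¹).trace • (1 : Mat l)) * p'⁻¹).trace).re =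
          e ^ 2 * ((q'⁻¹).trace * (p'⁻¹).trace).re := by
        rw [Matrix.smul_mul, Matrix.smul_mul, Matrix.one_mul, Matrix.trace_smul,
          Matrix.trace_smul, smul_eq_mul, smul_eq_mul, Complex.re_ofReal_mul]
      rw [h5] at h4
      have h6 : √lam ≤ √(C ^ 2 * (1 + l * δ) + e ^ 2 * ((q'⁻¹).trace * (p'⁻¹).trace).re) := by
        apply Real.sqrt_le_sqrt
        linarith
      have h7 : ‖Phi xi et c x‖ ≤ ‖Phi xi et (cext c e) x‖ +
          ‖Phi xi et (cext c e) x - Phi xi et c x‖ := by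
        have h8 : Phi xi et c x = Phi xi et (cext c e) x -
            (Phi xi et (cext c e) x - Phi xi et c x) := by ring
        calc ‖Phi xi et c x‖ = ‖Phi xi et (cext c e) x -
            (Phi xi et (cext c e) x - Phi xi et c x)‖ := by rw [← h8]
          _ ≤ _ := norm_sub_le _ _
      linarith
    have ht : Filter.Tendsto (fun e : ℝ =>
        √(C ^ 2 * (1 + l * δ) + e ^ 2 * ((q'⁻¹).trace * (p'⁻¹).trace).re) + e * (l : ℝ) ^ 2)
        (nhdsWithin 0 (Set.Ioi 0)) (nhds (√(C ^ 2 * (1 + l * δ)))) := by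
      have hcc : Continuous (fun e : ℝ =>
        √(C ^ 2 * (1 + l * δ) + e ^ 2 * ((q'⁻¹).trace * (p'⁻¹).trace).re) +
          e * (l : ℝ) ^ 2) := by fun_prop
      have h9 := (hcc.tendsto 0).mono_left (nhdsWithin_le_nhds (s := Set.Ioi 0))
      have h10 : √(C ^ 2 * (1 + l * δ) + (0 : ℝ) ^ 2 * ((q'⁻¹).trace * (p'⁻¹).trace).re) +
          0 * (l : ℝ) ^ 2 = √(C ^ 2 * (1 + l * δ)) := by
        rw [zero_pow two_ne_zero, zero_mul, zero_mul, add_zero, add_zero]
      rw [← h10]
      exact h9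
    exact ge_of_tendsto ht (eventually_nhdsWithin_of_forall fun e he => h1 e he)
  have ht : Filter.Tendsto (fun δ : ℝ => √(C ^ 2 * (1 + l * δ)))
      (nhdsWithin 0 (Set.Ioi 0)) (nhds C) := by
    have hcc : Continuous (fun δ : ℝ => √(C ^ 2 * (1 + l * δ))) := by fun_prop
    have h9 := (hcc.tendsto 0).mono_left (nhdsWithin_le_nhds (s := Set.Ioi 0))
    have h10 : √(C ^ 2 * (1 + l * (0 : ℝ))) = C := by
      rw [mul_zero, add_zero, mul_one, Real.sqrt_sq hC]
    rw [h10] at h9
    exact h9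
  exact ge_of_tendsto ht (eventually_nhdsWithin_of_forall fun e he => key e he)

end Pool.Agent.OHP
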