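import Pool.Agent.Helper547.OH.Defs
import Pool.Agent.Helper547.OH.P_upper_fin
import Pool.Agent.Helper547.OH.P_lower_fin
import Pool.Agent.Helper547.OH.P_l2_iff

/-! Definitions for the completely isometric embedding of OH into a von Neumann algebra predual. -/

set_option autoImplicit false

namespace Pool.Agent.OHP
open scoped InnerProductSpace ComplexConjugate ComplexOrder
open Finset


open scoped Matrix.Norms.L2Operator in
theorem main_fin_id {H : Type} [NormedAddCommGroup H] [InnerProductSpace ℂ H] [CompleteSpace H]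
    (xi et : ℕ → H) (M : VonNeumannAlgebra H) {n k l : ℕ} (a : Fin n → Mat k)
    (x : Fin l → Fin l → M.toStarSubalgebra) (V W : Matrix (Fin l) (Fin k) ℂ) :
    (∑ p, ∑ α, ∑ q, ∑ β, conj (W p α) *
      ((Matrix.of fun pa qb : Fin l × Fin k =>
        (∑ i : Fin n, a i pa.2 qb.2 • vecFun M (et i) (xi i)) (x pa.1 qb.1)) (p, α) (q, β)) *
          V q β) =
    Phi xi et (fun i => V * (a i).transpose * W.conjTranspose)
      (fun p q => (x p q : H →L[ℂ] H)) := by
  unfold Phi
  refine Finset.sum_congr rfl fun p _ => ?_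
  rw [Finset.sum_comm]
  refine Finset.sum_congr rfl fun q _ => ?_
  have h1 : ∀ α β, conj (W p α) *
      ((Matrix.of fun pa qb : Fin l × Fin k =>
        (∑ i : Fin n, a i pa.2 qb.2 • vecFun M (et i) (xi i)) (x pa.1 qb.1)) (p, α) (q, β)) *
          V q β = ∑ i : Fin n, V q β * a i α β * conj (W p α) *
            ⟪et i, (x p q : H →L[ℂ] H) (xi i)⟫_ℂ := by
    intro α β
    rw [Matrix.of_apply]
    dsimp only
    have h2 : (∑ i : Fin n, a i α β • vecFun M (et i) (xi i)) (x p q) =
        ∑ i : Fin n, a i α β * ⟪et i, (x p q : H →L[ℂ] H) (xi i)⟫_ℂ := by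
      rw [ContinuousLinearMap.sum_apply]
      refine Finset.sum_congr rfl fun i _ => ?_
      rfl
    rw [h2, Finset.mul_sum, Finset.sum_mul]
    refine Finset.sum_congr rfl fun i _ => ?_
    ring
  simp only [h1]
  have h3 : ∀ i : Fin n, (V * (a i).transpose * W.conjTranspose) q p =
      ∑ α, ∑ β, V q β * a i α β * conj (W p α) := by
    intro i
    rw [Matrix.mul_apply]
    refine Finset.sum_congr rfl fun α _ => ?_
    rw [Matrix.mul_apply, Finset.sum_mul]
    refine Finset.sum_congr rfl fun β _ => ?_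
    rfl
  have h4 : ∀ α, (∑ β, ∑ i : Fin n, V q β * a i α β * conj (W p α) *
      ⟪et i, (x p q : H →L[ℂ] H) (xi i)⟫_ℂ) = ∑ i : Fin n, ∑ β, V q β * a i α β * conj (W p α) *
      ⟪et i, (x p q : H →L[ℂ] H) (xi i)⟫_ℂ := fun α => Finset.sum_comm
  simp only [h4]
  rw [Finset.sum_comm]
  refine Finset.sum_congr rfl fun i _ => ?_
  rw [h3, Finset.sum_mul]
  refine Finset.sum_congr rfl fun α _ => ?_
  rw [Finset.sum_mul]

theorem main_fin {H : Type} [NormedAddCommGroup H] [InnerProductSpace ℂ H] [CompleteSpace H]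
    (A : StarSubalgebra ℂ (H →L[ℂ] H)) (xi et : ℕ → H) (hL : LimObj A xi et)
    (M : VonNeumannAlgebra H) (hM : ∀ x : H →L[ℂ] H, x ∈ M.toStarSubalgebra ↔
      x ∈ Set.centralizer (Set.centralizer (A : Set (H →L[ℂ] H))))
    (n k : ℕ) (a : Fin n → Mat k) (C : ℝ) (hC : 0 ≤ C) :
    DualLe M (fun α β => ∑ i : Fin n, a i α β • vecFun M (et i) (xi i)) C ↔ KB a (C ^ 2) := by
  constructor
  · intro h
    apply lower_fin A xi et hL a C hC
    intro x hx hb V W hV hW
    have hmem : ∀ r s, x r s ∈ M.toStarSubalgebra := fun r s =>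
      (hM _).2 (Set.subset_centralizer_centralizer (hx r s))
    have h1 := h k (fun r s => ⟨x r s, hmem r s⟩) hb
    rw [l2_iff _ C hC] at h1
    have h2 := h1 V W hV hW
    have h3 := main_fin_id xi et M a (fun r s => ⟨x r s, hmem r s⟩) V W
    rw [h3] at h2
    exact h2
  · intro h l x hb
    rw [l2_iff _ C hC]
    intro V W hV hW
    have h3 := main_fin_id xi et M a x V W
    rw [h3]
    exact upper_fin A xi et hL a C hC h V W hV hW _ (fun r s => (hM _).1 (x r s).2) hb

end Pool.Agent.OHP
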