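import Pool.Agent.Helper547.OH.Defs
import Pool.Agent.Helper547.OH.P_l2_iff

/-! Definitions for the completely isometric embedding of OH into a von Neumann algebra predual. -/

set_option autoImplicit false

namespace Pool.Agent.OHP
open scoped InnerProductSpace ComplexConjugate ComplexOrder
open Finset


theorem oh_fin_swap {n k : ℕ} (f : Fin n → Fin k → Fin k → Fin k → Fin k → ℂ) :
    ∑ p, ∑ a, ∑ q, ∑ b, ∑ i, f i p a q b = ∑ i, ∑ p, ∑ a, ∑ q, ∑ b, f i p a q b := by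
  calc ∑ p, ∑ a, ∑ q, ∑ b, ∑ i, f i p a q b = ∑ p, ∑ a, ∑ q, ∑ i, ∑ b, f i p a q b :=
        Finset.sum_congr rfl fun p _ => Finset.sum_congr rfl fun a _ =>
          Finset.sum_congr rfl fun q _ => Finset.sum_comm
    _ = ∑ p, ∑ a, ∑ i, ∑ q, ∑ b, f i p a q b :=
        Finset.sum_congr rfl fun p _ => Finset.sum_congr rfl fun a _ => Finset.sum_comm
    _ = ∑ p, ∑ i, ∑ a, ∑ q, ∑ b, f i p a q b :=
        Finset.sum_congr rfl fun p _ => Finset.sum_comm
    _ = _ := Finset.sum_comm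

theorem oh_fin_tr1 {k : ℕ} (A x y : Mat k) :
    (x * A.transpose * y * A.map (starRingEnd ℂ)).trace =
      ∑ p, ∑ a, ∑ q, ∑ b, y p a * (A p q * conj (A a b)) * x b q := by
  have h1 : (x * A.transpose * y * A.map (starRingEnd ℂ)).trace =
      ∑ b, ∑ a, ∑ p, ∑ q, y p a * (A p q * conj (A a b)) * x b q := by
    simp only [Matrix.trace, Matrix.diag, Matrix.mul_apply, Matrix.transpose_apply,
      Matrix.map_apply, Finset.sum_mul]
    refine Finset.sum_congr rfl fun b _ => Finset.sum_congr rfl fun a _ =>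
      Finset.sum_congr rfl fun p _ => Finset.sum_congr rfl fun q _ => ?_
    ring
  rw [h1]
  calc ∑ b, ∑ a, ∑ p, ∑ q, y p a * (A p q * conj (A a b)) * x b q
      = ∑ b, ∑ p, ∑ a, ∑ q, y p a * (A p q * conj (A a b)) * x b q :=
        Finset.sum_congr rfl fun b _ => Finset.sum_comm
    _ = ∑ p, ∑ b, ∑ a, ∑ q, y p a * (A p q * conj (A a b)) * x b q := Finset.sum_comm
    _ = ∑ p, ∑ a, ∑ b, ∑ q, y p a * (A p q * conj (A a b)) * x b q :=
        Finset.sum_congr rfl fun p _ => Finset.sum_comm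
    _ = _ := Finset.sum_congr rfl fun p _ => Finset.sum_congr rfl fun a _ => Finset.sum_comm

theorem oh_fin_tr {n k : ℕ} (a : Fin n → Mat k) (x y : Mat k) :
    (∑ i, x * (a i).transpose * y * (a i).map (starRingEnd ℂ)).trace =
      ∑ p, ∑ c, ∑ q, ∑ b, y p c * (∑ i, Matrix.kroneckerMap (fun s t : ℂ => s * t) (a i)
        ((a i).map (starRingEnd ℂ))) (p, c) (q, b) * x b q := by
  rw [Matrix.trace_sum, Finset.sum_congr rfl fun i _ => oh_fin_tr1 (a i) x y,
    ← oh_fin_swap (fun i p c q b => y p c * (a i p q * conj (a i c b)) * x b q)]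
  refine Finset.sum_congr rfl fun p _ => Finset.sum_congr rfl fun c _ =>
    Finset.sum_congr rfl fun q _ => Finset.sum_congr rfl fun b _ => ?_
  rw [Matrix.sum_apply, Finset.mul_sum, Finset.sum_mul]
  rfl

theorem oh_fin_hs_tr {l k : ℕ} (x : Matrix (Fin l) (Fin k) ℂ) : hs x.transpose = hs x := by
  unfold hs
  rw [Finset.sum_comm]
  rfl

theorem oh_fin_hs_conj {l k : ℕ} (x : Matrix (Fin l) (Fin k) ℂ) :
    hs (x.map (starRingEnd ℂ)) = hs x := by
  unfold hs
  simp only [Matrix.map_apply, RCLike.norm_conj]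

theorem oh_fin_hs_smul {l k : ℕ} (r : ℝ) (hr : 0 ≤ r) (x : Matrix (Fin l) (Fin k) ℂ) :
    hs ((r : ℂ) • x) = r * hs x := by
  unfold hs
  have h1 : ∑ i, ∑ j, ‖((r : ℂ) • x) i j‖ ^ 2 = r ^ 2 * ∑ i, ∑ j, ‖x i j‖ ^ 2 := by
    simp only [Matrix.smul_apply, smul_eq_mul, norm_mul, mul_pow, Finset.mul_sum,
      Complex.norm_real, Real.norm_eq_abs, sq_abs]
  rw [h1, Real.sqrt_mul (sq_nonneg r), Real.sqrt_sq hr]

theorem oh_fin_hs_nn {l k : ℕ} (x : Matrix (Fin l) (Fin k) ℂ) : 0 ≤ hs x := Real.sqrt_nonneg _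

theorem oh_fin_hs_zero {l k : ℕ} (x : Matrix (Fin l) (Fin k) ℂ) (h : hs x = 0) : x = 0 := by
  unfold hs at h
  rw [Real.sqrt_eq_zero (by positivity)] at h
  have h1 := (Finset.sum_eq_zero_iff_of_nonneg (fun i _ => by positivity)).mp h
  ext i j
  have h2 := (Finset.sum_eq_zero_iff_of_nonneg (fun j _ => by positivity)).mp (h1 i (Finset.mem_univ i))
    j (Finset.mem_univ j)
  simpa using h2

open scoped Matrix.Norms.L2Operator in
theorem oh_fin_KB {n k : ℕ} (a : Fin n → Mat k) (D : ℝ) (hD : 0 ≤ D) :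
    KB a D ↔ ‖∑ i, Matrix.kroneckerMap (fun s t : ℂ => s * t) (a i)
        ((a i).map (starRingEnd ℂ))‖ ≤ D := by
  rw [l2_iff _ D hD]
  constructor
  · intro h V W hV hW
    have h1 := h V.transpose (W.map (starRingEnd ℂ))
    rw [oh_fin_tr, oh_fin_hs_tr, oh_fin_hs_conj] at h1
    simp only [Matrix.map_apply, Matrix.transpose_apply] at h1
    refine h1.trans ?_
    have h2 : hs V * hs W ≤ 1 := mul_le_one₀ hV (oh_fin_hs_nn W) hW
    calc D * (hs V * hs W) ≤ D * 1 := mul_le_mul_of_nonneg_left h2 hD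
      _ = D := mul_one D
  · intro h x y
    by_cases hx : hs x = 0
    · rw [oh_fin_hs_zero x hx]
      simp only [Matrix.zero_mul, Finset.sum_const_zero, Matrix.trace_zero, norm_zero]
      exact mul_nonneg hD (mul_nonneg (oh_fin_hs_nn _) (oh_fin_hs_nn _))
    by_cases hy : hs y = 0
    · rw [oh_fin_hs_zero y hy]
      simp only [Matrix.zero_mul, Matrix.mul_zero, Finset.sum_const_zero, Matrix.trace_zero, norm_zero]
      exact mul_nonneg hD (mul_nonneg (oh_fin_hs_nn _) (oh_fin_hs_nn _))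
    have hx0 : 0 < hs x := lt_of_le_of_ne (oh_fin_hs_nn x) (Ne.symm hx)
    have hy0 : 0 < hs y := lt_of_le_of_ne (oh_fin_hs_nn y) (Ne.symm hy)
    have h1 := h (((hs x)⁻¹ : ℝ) • x.transpose : Mat k) ((((hs y)⁻¹ : ℝ) : ℂ) • y.map (starRingEnd ℂ))
      (by
        have : (((hs x)⁻¹ : ℝ) • x.transpose : Mat k) = (((hs x)⁻¹ : ℝ) : ℂ) • x.transpose := by
          ext i j
          simp
        rw [this, oh_fin_hs_smul _ (inv_nonneg.mpr hx0.le), oh_fin_hs_tr, inv_mul_cancel₀ hx])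
      (by rw [oh_fin_hs_smul _ (inv_nonneg.mpr hy0.le), oh_fin_hs_conj, inv_mul_cancel₀ hy])
    have h2 : ∑ p, ∑ c, ∑ q, ∑ b, conj (((((hs y)⁻¹ : ℝ) : ℂ) • y.map (starRingEnd ℂ)) p c) *
        (∑ i, Matrix.kroneckerMap (fun s t : ℂ => s * t) (a i)
          ((a i).map (starRingEnd ℂ))) (p, c) (q, b) *
        (((hs x)⁻¹ : ℝ) • x.transpose : Mat k) q b =
        ((((hs x)⁻¹ * (hs y)⁻¹ : ℝ)) : ℂ) *
          (∑ i, x * (a i).transpose * y * (a i).map (starRingEnd ℂ)).trace := by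
      rw [oh_fin_tr]
      simp only [Finset.mul_sum]
      refine Finset.sum_congr rfl fun p _ => Finset.sum_congr rfl fun c _ =>
        Finset.sum_congr rfl fun q _ => Finset.sum_congr rfl fun b _ => ?_
      simp only [Matrix.smul_apply, Matrix.map_apply, Matrix.transpose_apply, smul_eq_mul, map_mul,
        Complex.conj_ofReal, Complex.conj_conj, Complex.real_smul, Complex.ofReal_mul]
      ring
    rw [h2, norm_mul, Complex.norm_real, Real.norm_eq_abs, abs_of_pos (by positivity)] at h1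
    have h3 : (hs x)⁻¹ * (hs y)⁻¹ = (hs x * hs y)⁻¹ := by rw [mul_inv]
    rw [h3, inv_mul_le_iff₀ (by positivity)] at h1
    calc _ ≤ _ := h1
      _ = _ := by ring

theorem oh_fin_gram {n k : ℕ} (a : Fin n → Mat k) (p c q b : Fin k) :
    ⟪(∑ i : Fin n, a i c b • lp.single 2 (i : ℕ) (1 : ℂ) : lp (fun _ : ℕ => ℂ) 2),
      (∑ i : Fin n, a i p q • lp.single 2 (i : ℕ) (1 : ℂ) : lp (fun _ : ℕ => ℂ) 2)⟫_ℂ =
    ∑ i, a i p q * conj (a i c b) := by
  rw [sum_inner]
  refine Finset.sum_congr rfl fun i _ => ?_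
  rw [inner_sum, Finset.sum_eq_single i]
  · rw [inner_smul_left, inner_smul_right, lp.inner_single_left, lp.single_apply_self]
    simp
    ring
  · intro j _ hj
    rw [inner_smul_left, inner_smul_right, lp.inner_single_left,
      lp.single_apply_ne _ _ _ (fun h => hj (Fin.ext h).symm)]
    simp
  · intro h
    exact absurd (Finset.mem_univ i) h

open scoped Matrix.Norms.L2Operator in
theorem oh_fin (n k : ℕ) (a : Fin n → Mat k) (C : ℝ) (hC : 0 ≤ C) :
    (KB a (C ^ 2) ↔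
      ohNorm (fun α β => ∑ i : Fin n, a i α β • lp.single 2 (i : ℕ) (1 : ℂ)) ≤ C) ∧
    ohNorm (fun α β => ∑ i : Fin n, a i α β • lp.single 2 (i : ℕ) (1 : ℂ)) =
      √‖∑ i, Matrix.kroneckerMap (fun s t : ℂ => s * t) (a i)
        ((a i).map (starRingEnd ℂ))‖ := by
  have h2 : ohNorm (fun α β => ∑ i : Fin n, a i α β • lp.single 2 (i : ℕ) (1 : ℂ)) =
      √‖∑ i, Matrix.kroneckerMap (fun s t : ℂ => s * t) (a i)
        ((a i).map (starRingEnd ℂ))‖ := by
    unfold ohNorm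
    congr 2
    ext ⟨p, c⟩ ⟨q, b⟩
    rw [Matrix.of_apply, Matrix.sum_apply]
    exact oh_fin_gram a p c q b
  refine ⟨?_, h2⟩
  rw [h2, oh_fin_KB a (C ^ 2) (sq_nonneg C), Real.sqrt_le_left hC]

end Pool.Agent.OHP
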