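import Pool.Agent.Helper547.OH.Defs
import Pool.Agent.Helper547.OH.P_limit_thm
import Pool.Agent.Helper547.OH.P_exists_vN
import Pool.Agent.Helper547.OH.P_main_fin
import Pool.Agent.Helper547.OH.P_oh_fin
import Pool.Agent.Helper547.OH.P_main_ext

/-! Definitions for the completely isometric embedding of OH into a von Neumann algebra predual. -/

set_option autoImplicit false

namespace Pool.Agent.OHP
open scoped InnerProductSpace ComplexConjugate ComplexOrder
open Finset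


open scoped Matrix.Norms.L2Operator in
theorem main_all : ∃ (H : Type) (_ : NormedAddCommGroup H) (_ : InnerProductSpace ℂ H)
    (_ : CompleteSpace H) (M : VonNeumannAlgebra H)
    (J : (lp (fun _ : ℕ => ℂ) 2) →L[ℂ] (M.toStarSubalgebra →L[ℂ] ℂ)),
    (∀ v, J v ∈ predual M) ∧
    (∀ (k : ℕ) (v : Fin k → Fin k → lp (fun _ : ℕ => ℂ) 2) (C : ℝ), 0 ≤ C →
      (DualLe M (fun α β => J (v α β)) C ↔ ohNorm v ≤ C)) ∧
    ∀ (n k : ℕ) (a : Fin n → Mat k) (C : ℝ), 0 ≤ C →
      (DualLe M (fun α β => ∑ i : Fin n, a i α β • J (lp.single 2 (i : ℕ) (1 : ℂ))) C ↔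
        √‖∑ i, Matrix.kroneckerMap (fun s t : ℂ => s * t) (a i)
          ((a i).map (starRingEnd ℂ))‖ ≤ C) := by
  
  obtain ⟨H, i1, i2, i3, A, xi, et, hL⟩ := limit_thm
  obtain ⟨M, hM⟩ := exists_vN A
  have hpre : ∀ i, vecFun M (et i) (xi i) ∈ predual M := by
    intro i
    apply Submodule.le_topologicalClosure
    exact Submodule.subset_span ⟨(et i, xi i), rfl⟩
  have hfin : ∀ (n k : ℕ) (a : Fin n → Mat k) (C : ℝ), 0 ≤ C →
      (DualLe M (fun α β => ∑ i : Fin n, a i α β • vecFun M (et i) (xi i)) C ↔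
        ohNorm (fun α β => ∑ i : Fin n, a i α β • lp.single 2 (i : ℕ) (1 : ℂ)) ≤ C) := by
    intro n k a C hC
    exact (main_fin A xi et hL M hM n k a C hC).trans (oh_fin n k a C hC).1
  obtain ⟨J, hJ1, hJ2, hJ3⟩ := main_ext M (fun i => vecFun M (et i) (xi i)) hpre hfin
  refine ⟨H, i1, i2, i3, M, J, hJ2, hJ3, ?_⟩
  intro n k a C hC
  simp only [hJ1]
  rw [hfin n k a C hC, (oh_fin n k a C hC).2]

end Pool.Agent.OHP
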