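import Mathlib

/-! Definitions used in the statement: the predual of a von Neumann algebra, the operator space
structure of the dual `M_k(M^*) = CB(M, M_k)`, and the matrix norms of the operator Hilbert space `OH`. -/

set_option autoImplicit false

namespace Pool.Agent.OHS

open scoped InnerProductSpace

open scoped Matrix.Norms.L2Operator in
/-- the operator norm of a scalar matrix on the Euclidean space -/
noncomputable def matNorm {ι : Type} [Fintype ι] [DecidableEq ι] (A : Matrix ι ι ℂ) : ℝ := ‖A‖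

section
variable {H : Type} [NormedAddCommGroup H] [InnerProductSpace ℂ H]

/-- the matrix `X` of bounded operators has norm at most `C` as an operator on `H^l` -/
def OpMatLe {l : ℕ} (X : Fin l → Fin l → (H →L[ℂ] H)) (C : ℝ) : Prop :=
  ∀ ξ η : Fin l → H, ‖∑ p, ∑ q, ⟪η p, X p q (ξ q)⟫_ℂ‖ ≤
    C * (√(∑ p, ‖η p‖ ^ 2) * √(∑ q, ‖ξ q‖ ^ 2))

variable [CompleteSpace H]

/-- `f` belongs to the predual `M_*`: it is a norm limit (limit uniform on the unit ball of `M`) of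
finite sums of vector functionals `x ↦ ⟪η, x ξ⟫`. In particular `f` is linear and bounded. -/
def InPredual (M : VonNeumannAlgebra H) (f : M → ℂ) : Prop :=
  ∀ ε : ℝ, 0 < ε → ∃ (n : ℕ) (η ξ : Fin n → H), ∀ x : M,
    ‖f x - ∑ i, ⟪η i, (x : H →L[ℂ] H) (ξ i)⟫_ℂ‖ ≤ ε * ‖(x : H →L[ℂ] H)‖

/-- `‖f‖ ≤ C` in `M_k(M^*) = CB(M, M_k)`: for all `l` and all `x` in the unit ball of `M_l(M)`
(norm of operators on `H^l`) the scalar matrix `[f_ab(x_pq)]` has operator norm at most `C` -/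
def DualNormLe (M : VonNeumannAlgebra H) {k : ℕ} (f : Fin k → Fin k → M → ℂ) (C : ℝ) : Prop :=
  ∀ (l : ℕ) (x : Fin l → Fin l → M), OpMatLe (fun p q => (x p q : H →L[ℂ] H)) 1 →
    matNorm (Matrix.of fun pa qb : Fin l × Fin k => f pa.2 qb.2 (x pa.1 qb.1)) ≤ C

end

/-- `‖∑_i x_i ⊗ conj x_i‖^{1/2}` for `x_i = [v_ab(i)] ∈ M_k`, the norm of `v` in `M_k(OH)`: the
matrix `∑_i x_i ⊗ conj x_i` has the entry `∑_i v_ac(i) conj(v_bd(i))` at `((a,b),(c,d))` -/
noncomputable def ohNorm {k : ℕ} (v : Fin k → Fin k → lp (fun _ : ℕ => ℂ) 2) : ℝ :=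
  √(matNorm (Matrix.of fun ab cd : Fin k × Fin k =>
    ∑' i : ℕ, v ab.1 cd.1 i * (starRingEnd ℂ) (v ab.2 cd.2 i)))

/-- `J : OH → M_*` is a complete isometry: linear, with values in the predual, and for all `k` the
norm of `[J(v_ab)]` in `M_k(M^*)` equals the norm of `v` in `M_k(OH)` -/
def IsCompletelyIsometric {H : Type} [NormedAddCommGroup H] [InnerProductSpace ℂ H]
    [CompleteSpace H] (M : VonNeumannAlgebra H) (J : lp (fun _ : ℕ => ℂ) 2 → M → ℂ) : Prop :=
  IsLinearMap ℂ J ∧ (∀ v, InPredual M (J v)) ∧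
    ∀ (k : ℕ) (v : Fin k → Fin k → lp (fun _ : ℕ => ℂ) 2) (C : ℝ), 0 ≤ C →
      (DualNormLe M (fun a b => J (v a b)) C ↔ ohNorm v ≤ C)

end Pool.Agent.OHS
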